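import Pool.Agent.Lib.MP_7d3fda_nt.R3.XPar
import Pool.Agent.Lib.MP_7d3fda_nt.R3.ADefs

open Finset Module
open scoped NumberTheorySymbols

noncomputable section

namespace Pool.Agent.Lib.MP_7d3fda_nt.R4

open Pool.Agent.Lib.MP_788af2_nt Pool.Agent.Lib.MP_7d3fda_nt.R3

/-! Working definitions of the algebraic part (none of them occurs in the final statement). -/

/-- the combination of the two coordinates attached to a direction -/
def lam (t : B2) : X × X →ₗ[ZMod 2] X :=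
  t.2 • LinearMap.fst (ZMod 2) X X + t.1 • LinearMap.snd (ZMod 2) X X

/-- classes of direction `t` modulo `Γ` -/
def Pt (t : B2) (Γ : Submodule (ZMod 2) X) : Submodule (ZMod 2) (X × X) := Γ.comap (lam t)

/-- the local condition with a free residue bit -/
def LocB (a b c : X) (L : ZMod 2) (r : ℕ) : Submodule (ZMod 2) (X × X) :=
  (Submodule.span (ZMod 2) {XParAux.t0 (qL r (-1)) L (lr r a) (lr r c),
    XParAux.t1 (qL r (-1)) L (lr r a) (lr r b)}).comap (two (lr r))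

/-- the global group with free residue bits -/
def RelB (a b c : X) (T : Finset ℕ) (L : ℕ → ZMod 2) : Submodule (ZMod 2) (X × X) :=
  (Sup T).prod (Sup T) ⊓ ⨅ r ∈ T, LocB a b c (L r) r

/-- the normalised group -/
def Sel (a b c : X) (T : Finset ℕ) (L : ℕ → ZMod 2) (Λ : Submodule (ZMod 2) (B4 × B4)) (r₀ : ℕ) :
    Submodule (ZMod 2) (X × X) :=
  RelB a b c T L ⊓ Λ.comap (two st) ⊓ LinearMap.ker (two (Finsupp.lapply r₀))

/-- the class of the twisting parameter -/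
def dd (ν : X) (k : Fin 6 → X) : X := ep + ν + ∑ j, k j

/-- the four known classes -/
def tt4 (a b c ν : X) (k : Fin 6 → X) : Fin 4 → X × X :=
  ![T0 a c (dd ν k), T1 a b (dd ν k), (∑ j, k j + k 0 + k 3, ∑ j, k j + k 2 + k 4),
    (∑ j, k j + k 1 + k 4, ∑ j, k j + k 0 + k 5)]

/-- the span of the local classes at infinity and two -/
def Lam (t : Fin 4 → X × X) : Submodule (ZMod 2) (B4 × B4) :=
  Submodule.span (ZMod 2) (Set.range fun i => two st (t i))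

/-- the span of the constants -/
def G0 (a b c : X) (O : Submodule (ZMod 2) X) : Submodule (ZMod 2) X := Gam0 a b c ⊔ O

/-- the span of the constants and the linear values -/
def G1 (a b c : X) (O : Submodule (ZMod 2) X) (k : Fin 6 → X) : Submodule (ZMod 2) X :=
  G0 a b c O ⊔ Submodule.span (ZMod 2) (Set.range k)

/-- the span of the constants and all the values -/
def G2 (a b c : X) (O : Submodule (ZMod 2) X) (ν : X) (k : Fin 6 → X) : Submodule (ZMod 2) X :=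
  G1 a b c O k ⊔ Submodule.span (ZMod 2) {ν}

/-- what the known primes of a move do -/
def StepA (S S' : Submodule (ZMod 2) (X × X)) (Γ Γ' : Submodule (ZMod 2) X)
    (ζ : X × X →ₗ[ZMod 2] B2) (br : Prop) : Prop :=
  ∃ (π : X × X →ₗ[ZMod 2] X × X) (cf : X × X →ₗ[ZMod 2] B2),
    (∀ y ∈ S', ∀ z ∈ S, wg (cf y) (ζ z) = 0) ∧
    (∀ y ∈ S', cf y = 0 → π y ∈ S ∧ ζ (π y) = 0 ∧ (π y = 0 → y = 0) ∧
      ∀ t, y ∈ Pt t Γ' → π y ∈ Pt t Γ) ∧
    (br → ∀ y ∈ S', cf y ≠ 0 → y ∉ Pt (cf y) Γ')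

/-- the group and its three direction subgroups are not larger -/
def Below (S S' : Submodule (ZMod 2) (X × X)) (Γ Γ' : Submodule (ZMod 2) X) : Prop :=
  finrank (ZMod 2) S ≤ finrank (ZMod 2) S' ∧ ∀ t : B2, t ≠ 0 →
    finrank (ZMod 2) (S ⊓ Pt t Γ : Submodule (ZMod 2) (X × X)) ≤
      finrank (ZMod 2) (S' ⊓ Pt t Γ' : Submodule (ZMod 2) (X × X))

/-- what one move does -/
def Step5 (S S' : Submodule (ZMod 2) (X × X)) (Γ Γ' : Submodule (ZMod 2) X)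
    (ζ : X × X →ₗ[ZMod 2] B2) (br : Prop) : Prop :=
  ∃ (S₁ : Submodule (ZMod 2) (X × X)) (Γ₁ : Submodule (ZMod 2) X),
    FiniteDimensional (ZMod 2) S₁ ∧ StepA S S₁ Γ Γ₁ ζ br ∧ Below S' S₁ Γ' Γ₁

/-- the values of a character on the constants and the values -/
structure Ch where
  /-- on minus one -/
  e : ZMod 2
  /-- on the first constant -/
  al : ZMod 2
  /-- on the second constant -/
  be : ZMod 2
  /-- on the third constant -/
  ga : ZMod 2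
  /-- on the norm -/
  nu : ZMod 2
  /-- on the linear values -/
  kp : Fin 6 → ZMod 2

/-- the values of a functional -/
def chOf (a b c ν : X) (k : Fin 6 → X) (χ : X →ₗ[ZMod 2] ZMod 2) : Ch :=
  ⟨χ ep, χ a, χ b, χ c, χ ν, fun j => χ (k j)⟩

/-- values of a character on the four known classes -/
def Bv4 (h : Ch) : Fin 4 → B2 :=
  ![(h.al + h.ga, h.nu + ∑ j, h.kp j + h.al), (h.e + h.nu + ∑ j, h.kp j + h.al, h.e + h.al + h.be),
    (∑ j, h.kp j + h.kp 0 + h.kp 3, ∑ j, h.kp j + h.kp 2 + h.kp 4),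
    (∑ j, h.kp j + h.kp 1 + h.kp 4, ∑ j, h.kp j + h.kp 0 + h.kp 5)]

/-- the local conditions at the six new primes -/
def Eqs5 (h : Ch) (S : Fin 6 → Fin 6 → ZMod 2) (x : B2) (v : Fin 6 → B2) : Prop :=
  ∀ j, x.1 + ∑ i, S i j * (v i).1 =
      (v j).2 * (h.al + h.ga) + (v j).1 * (h.al + (h.e + ∑ i, h.kp i + ∑ i, S i j)) ∧
    x.2 + ∑ i, S i j * (v i).2 =
      (v j).2 * (h.al + (∑ i, h.kp i + ∑ i, S i j)) + (v j).1 * (h.e + h.al + h.be)

/-- the class of the form `i` on the line where the form `j` vanishes -/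
def dl5 {V : Type} [AddCommGroup V] (e a b c o : V) : Fin 6 → Fin 6 → V :=
  ![![0, e, 0, b + o, a + o, e + c + o], ![0, 0, e, e + c + o, b + o, a + o],
    ![e, 0, 0, a + o, e + c + o, b + o], ![e + b, c, e + a, 0, e, 0], ![e + a, e + b, c, 0, 0, e],
    ![c, e + a, e + b, e, 0, 0]]

/-- the normalised symbols -/
def S0 (h : Ch) (i j : Fin 6) : ZMod 2 :=
  if i = j then 0 else dl5 h.e h.al h.be h.ga 0 i j + h.kp i + h.kp j

/-- the relations between the symbols -/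
structure SymRel5 (h : Ch) (S : Fin 6 → Fin 6 → ZMod 2) : Prop where
  diag : ∀ j, S j j = 0
  symm : ∀ i j, i ≠ j → S i j + S j i = h.e
  r : ∃ σ : Fin 6 → ZMod 2, ∀ i j, i ≠ j → S i j = dl5 h.e h.al h.be h.ga 0 i j + h.kp i + σ j

/-- the indicator of the last three forms -/
def bb : Fin 6 → ZMod 2 := ![0, 0, 0, 1, 1, 1]

/-- the residue at a prime of the norm -/
def el (h : Ch) (w : B4) (v : Fin 6 → B2) : B2 := cmb w (Bv4 h) + ∑ j, h.kp j • v j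

/-- what is needed of the classes of a move -/
structure Design5 (h₀ : Ch) (h : Fin 4 → Ch) : Prop where
  e0 : ∀ e : B2, (∀ i, wg e (Bv4 h₀ i) = 0) → e = 0
  sur : ∀ b : Fin 4 → B2, ∃ w v, v 0 = 0 ∧ ∑ j, v j = 0 ∧
    Eqs5 h₀ (S0 h₀) (b 3 + cmb w (Bv4 h₀)) v ∧ ∀ i : Fin 3, el (h i.castSucc) w v = b i.castSucc
  inj : ∀ w v, v 0 = 0 → ∑ j, v j = 0 → Eqs5 h₀ (S0 h₀) (cmb w (Bv4 h₀)) v →
    (∀ i : Fin 3, el (h i.castSucc) w v = 0) → w = 0 ∧ v = 0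

/-- the last residue in terms of the others -/
def Lin5 (h₀ : Ch) (h : Fin 4 → Ch) (N : (Fin 4 → B2) →ₗ[ZMod 2] B2) : Prop :=
  ∀ w v x, v 0 = 0 → ∑ j, v j = 0 → Eqs5 h₀ (S0 h₀) x v →
    el (h 3) w v = N ![el (h 0) w v, el (h 1) w v, el (h 2) w v, x + cmb w (Bv4 h₀)]

/-- no direction is preserved -/
def Brk5 (N : (Fin 4 → B2) →ₗ[ZMod 2] B2) : Prop :=
  ∀ t : B2, t ≠ 0 → ∀ v : Fin 3 → B2,
    (∀ b : Fin 4 → B2, b 3 = 0 → wg t (N b) = ∑ i, wg (v i) (b i.castSucc)) → ∃ i, wg t (v i) = 1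

/-- the map that the last prime kills -/
def zeta (χ : X →ₗ[ZMod 2] ZMod 2) (ψ : Fin 4 → X →ₗ[ZMod 2] ZMod 2)
    (N : (Fin 4 → B2) →ₗ[ZMod 2] B2) : X × X →ₗ[ZMod 2] B2 :=
  two (ψ 3) + N ∘ₗ LinearMap.pi ![two (ψ 0), two (ψ 1), two (ψ 2), two χ]

/-- the six linear primes of a move -/
structure MvL (a b c : X) (O : Submodule (ZMod 2) X) (ν : X) (k : Fin 6 → X) (T : Finset ℕ)
    (p : Fin 6 → ℕ) (χ : X →ₗ[ZMod 2] ZMod 2) : Prop where
  odd : OddP T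
  ha : a ∈ Sup T
  hb : b ∈ Sup T
  hc : c ∈ Sup T
  ho : O ≤ Sup T
  hn : ν ∈ Sup T
  hk : ∀ j, k j ∈ Sup T
  pr : ∀ j, (p j).Prime ∧ p j ≠ 2 ∧ p j ∉ T
  inj : Function.Injective p
  chi : ∀ j, ∀ z ∈ Sup T, lin (qL (p j)) z = χ z

/-- the four known primes of the norm -/
structure MvQ (k : Fin 6 → X) (T : Finset ℕ) (p : Fin 6 → ℕ) (g : Fin 4 → ℕ)
    (ψ : Fin 4 → X →ₗ[ZMod 2] ZMod 2) : Prop where
  pr : ∀ i, (g i).Prime ∧ g i ≠ 2 ∧ g i ∉ T ∧ ∀ j, p j ≠ g i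
  inj : Function.Injective g
  psi : ∀ i, ∀ z ∈ Sup T, lin (qL (g i)) z = ψ i z
  geo : ∀ i, ∃ σ, ∀ j, qL (g i) (p j) = ψ i (k j) + σ

/-- the new classes -/
def nk5 (k : Fin 6 → X) (p : Fin 6 → ℕ) (j : Fin 6) : X := k j + Finsupp.single (p j) 1

/-- the residue bits: old primes, new linear primes, and free bits `β` elsewhere -/
def L2 (ν : X) (k : Fin 6 → X) (p : Fin 6 → ℕ) (β : ℕ → ZMod 2) (r : ℕ) : ZMod 2 :=
  if r ∈ Sg (dd ν k) then lin (qL r) (dd ν k) else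
    if r ∈ univ.image p then lin (qL r) (dd 0 (nk5 k p)) else β r

/-- the group after the linear primes and the primes of `J` have been added -/
def S2 (a b c ν : X) (k : Fin 6 → X) (p : Fin 6 → ℕ) (J : Finset ℕ) (β : ℕ → ZMod 2) :
    Submodule (ZMod 2) (X × X) :=
  Sel a b c (Sg (dd ν k) ∪ univ.image p ∪ J) (L2 ν k p β) (Lam (tt4 a b c ν k)) (p 0)

/-- the symbols between the new linear primes -/
def Sy (p : Fin 6 → ℕ) (i j : Fin 6) : ZMod 2 := qL (p j) (p i)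

/-- the symbols of the new linear primes at the primes of `J` -/
def sy5 (p : Fin 6 → ℕ) (J : Finset ℕ) (j : Fin 6) (l : ℕ) : ZMod 2 :=
  if l ∈ J then qL l (p j) else 0

/-- removal of the new linear primes -/
def rm5 (p : Fin 6 → ℕ) : X →ₗ[ZMod 2] X :=
  LinearMap.id + ∑ j, (Finsupp.lapply (p j)).smulRight (Finsupp.single (p j) 1)

/-- valuations at a prime -/
def vl (r : ℕ) : X × X →ₗ[ZMod 2] B2 := two (Finsupp.lapply r)

/-- a class supported on the new linear primes with given valuations -/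
def up5 (p : Fin 6 → ℕ) (v : Fin 6 → B2) : X × X :=
  (∑ j, (v j).1 • Finsupp.single (p j) 1, ∑ j, (v j).2 • Finsupp.single (p j) 1)

/-- all the primes of a move except the last one -/
structure Cf (a b c : X) (O : Submodule (ZMod 2) X) (ν : X) (k : Fin 6 → X) (T : Finset ℕ)
    (χ : X →ₗ[ZMod 2] ZMod 2) (ψ : Fin 4 → X →ₗ[ZMod 2] ZMod 2) (p : Fin 6 → ℕ) (g : Fin 4 → ℕ)
    (J : Finset ℕ) : Prop where
  mvl : MvL a b c O ν k T p χ
  mvq : MvQ k T p g ψ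
  sym : SymRel5 (chOf a b c ν k χ) (Sy p)
  odd : OddP J
  dT : Disjoint J T
  dp : ∀ j, p j ∉ J
  gJ : ∀ i, g i ∈ J

/-- the class of the new part of the norm -/
def mu5 (J : Finset ℕ) (q : ℕ) : X := ∑ l ∈ J, Finsupp.single l 1 + Finsupp.single q 1

/-- the last prime of a move -/
structure Lst (ν : X) (k : Fin 6 → X) (T : Finset ℕ) (p : Fin 6 → ℕ) (J : Finset ℕ) (q : ℕ)
    (β : ℕ → ZMod 2) : Prop where
  pr : q.Prime ∧ q ≠ 2 ∧ q ∉ T ∧ q ∉ J ∧ ∀ j, p j ≠ q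
  old : ∀ r ∈ T, lin (qL r) (mu5 J q) = 0
  st0 : st (mu5 J q) = 0
  new : ∀ j, lin (qL (p j)) (ν + mu5 J q) = 0
  bit : ∀ l ∈ J, lin (qL l) (dd (ν + mu5 J q) (nk5 k p)) = β l

/-- the family of curves, normalised -/
structure Fam4 (A B C : ℤ) : Prop where
  hs : A + B = C
  cop : IsCoprime A B
  B0 : B ≠ 0
  C0 : 0 < C
  c2 : 2 ∣ C
  a4 : 4 ∣ C → A % 4 = 1
  nA : ¬IsSquare (-A)
  nAC : ¬IsSquare (A * C)
  nAB : ¬IsSquare (-(A * B))
  nBC : ¬IsSquare (B * C)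

/-- the six linear forms -/
def fm4 (A B C U V : ℤ) : Fin 6 → ℤ :=
  ![U, V, -(U + V), -(C * U + B * V), B * U - A * V, A * U + C * V]

/-- the next form -/
def nx : Fin 6 → Fin 6 := ![1, 2, 0, 4, 5, 3]

/-- the norm form -/
def nm (U V : ℤ) : ℤ := U ^ 2 + U * V + V ^ 2

/-- a trace -/
def mm (A B : ℤ) : ℤ := if IsSquare (nm A B) then 2 * Int.sqrt (nm A B) + A - B else 1

/-- the further constants -/
def Oc (A B : ℤ) : Submodule (ZMod 2) X :=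
  Submodule.span (ZMod 2) {cl 3, cl (nm A B), cl (mm A B)}

/-- the bad number -/
def H5 (A B C : ℤ) : ℤ := 3 * (A * B * C) * nm A B * mm A B

/-- the classes of the six values -/
def kk4 (A B C U V : ℤ) (j : Fin 6) : X := cl (fm4 A B C U V j)

/-- the group of a position -/
def SS (A B C U V : ℤ) : Submodule (ZMod 2) (X × X) :=
  Str (cl A) (cl B) (cl C) (dd (cl (nm U V)) (kk4 A B C U V))

/-- the known classes of a position -/
def GG (A B C U V : ℤ) : Submodule (ZMod 2) X :=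
  G2 (cl A) (cl B) (cl C) (Oc A B) (cl (nm U V)) (kk4 A B C U V)

/-- the invariant of a position -/
structure Inv5 (A B C U V : ℤ) : Prop where
  ne : ∀ j, fm4 A B C U V j ≠ 0
  sig : ∀ r : ℕ, r.Prime → r ≠ 2 → (r : ℤ) ∣ A * B * C → dd (cl (nm U V)) (kk4 A B C U V) r = 1
  star : Star (st (cl A)) (st (cl B)) (st (cl C))
    fun i => two st (tt4 (cl A) (cl B) (cl C) (cl (nm U V)) (kk4 A B C U V) i)
  wit : ∃ (w : Fin 6 → ℕ) (w' : ℕ), (∀ j, (w j).Prime ∧ ¬(w j : ℤ) ∣ H5 A B C ∧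
    cl (nm U V) (w j) = 0 ∧ kk4 A B C U V j w' = 0 ∧
      ∀ i, kk4 A B C U V i (w j) = if i = j then 1 else 0) ∧
    w'.Prime ∧ ¬(w' : ℤ) ∣ H5 A B C ∧ cl (nm U V) w' = 1
  inj : ∀ y ∈ SS A B C U V, y.1 ∈ GG A B C U V → y.2 ∈ GG A B C U V → y = 0

/-- a prime that divides exactly one value, to the first power -/
structure Wit (A B C U V : ℤ) (j : Fin 6) (r : ℕ) : Prop where
  pr : r.Prime
  nH : ¬(r : ℤ) ∣ H5 A B C
  dv : (r : ℤ) ∣ fm4 A B C U V j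
  ns : ¬(r : ℤ) ^ 2 ∣ fm4 A B C U V j
  nd : ∀ i, i ≠ j → ¬(r : ℤ) ∣ fm4 A B C U V i

/-- a prime that divides the norm to the first power and no value -/
structure WitN (A B C U V : ℤ) (r : ℕ) : Prop where
  pr : r.Prime
  nH : ¬(r : ℤ) ∣ H5 A B C
  dv : (r : ℤ) ∣ nm U V
  ns : ¬(r : ℤ) ^ 2 ∣ nm U V
  nd : ∀ i, ¬(r : ℤ) ∣ fm4 A B C U V i

/-- the constants -/
def GC (A B C : ℤ) : Submodule (ZMod 2) X := G0 (cl A) (cl B) (cl C) (Oc A B)

/-- the new part of the twisting parameter -/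
def gg (c : Fin 6 → ℤ) (G a s : ℤ) : ℤ := (a ^ 2 + 3 * (G * s) ^ 2) * ∏ j, (a + c j * s)

/-- first coordinate of a product with `x - y √(-3)` -/
def mU (x y U V : ℤ) : ℤ := x * U + y * (U + 2 * V)

/-- second coordinate of a product with `x - y √(-3)` -/
def mV (x y U V : ℤ) : ℤ := x * V - y * (2 * U + V)

/-- the good choice between a prime element and its conjugate -/
def PP (A B C U V x y : ℤ) : Prop :=
  qL (x ^ 2 + 3 * y ^ 2).toNat (fm4 A B C (mU x y U V) (mV x y U V) 0) =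
    qL (x ^ 2 + 3 * y ^ 2).toNat (fm4 A B C (mU x y U V) (mV x y U V) 5)

/-- the parameters of a move -/
structure Par (A B C U V : ℤ) (M : ℕ) (c : Fin 6 → ℤ) (G : ℤ) : Prop where
  M0 : 0 < M
  dH : H5 A B C ∣ M
  dN : nm U V ∣ M
  df : ∀ j, fm4 A B C U V j ∣ M
  G0 : G ≠ 0
  dG : 8 * (M : ℤ) ∣ G
  dc : ∀ j, 8 * (M : ℤ) ∣ c j
  hc : ∀ j, fm4 A B C U V j * c j = G * (fm4 A B C U V j + 2 * fm4 A B C U V (nx j))
  inj : Function.Injective c

/-- the residue class `u` realises the functional `χ` -/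
def Cls (M u : ℕ) (χ : X →ₗ[ZMod 2] ZMod 2) : Prop :=
  u.Coprime (8 * M) ∧ ∀ q : ℕ, q.Prime → q ≡ u [MOD 8 * M] →
    ∀ z ∈ Sup (M.primeFactors.erase 2), lin (qL q) z = χ z

/-- the type of the rule that prescribes the last symbols -/
abbrev Rule : Type := (Fin 4 → ℕ) → ℕ → ℤ → (Fin 6 → ℕ → ℤ) → ℕ → ZMod 2

/-- the six values are primes, the norm is `n q` and `n` has four known primes -/
structure Conf (c : Fin 6 → ℤ) (G : ℤ) (W₀ u : ℕ) (v : Fin 4 → ℕ) (P : Fin 4 → ℤ → ℤ → Prop)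
    (a s : ℤ) (p : Fin 6 → ℕ) (g : Fin 4 → ℕ) (n q : ℕ) : Prop where
  s0 : s ≠ 0
  pr : ∀ j, (p j).Prime ∧ p j ≡ u [MOD W₀] ∧ (p j : ℤ) = a + c j * s
  gp : ∀ i, (g i).Prime ∧ g i ≡ v i [MOD W₀] ∧ g i ∣ n ∧
    ∃ x y : ℤ, (g i : ℤ) = x ^ 2 + 3 * y ^ 2 ∧ P i x y ∧ (g i : ℤ) ∣ G * s * x - a * y
  gi : Function.Injective g
  sq : Squarefree n
  qp : q.Prime
  qn : ¬q ∣ n
  nq : (n : ℤ) * q = a ^ 2 + 3 * (G * s) ^ 2

/-- the symbols of the new primes at the primes of `n` -/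
def sym (p : Fin 6 → ℕ) (n : ℕ) (j : Fin 6) (l : ℕ) : ℤ :=
  if l ∈ n.primeFactors then J((p j : ℤ) | l) else 0

/-- a good pair -/
def Good5 (c : Fin 6 → ℤ) (G : ℤ) (W₀ u : ℕ) (v : Fin 4 → ℕ) (P : Fin 4 → ℤ → ℤ → Prop)
    (ξ : Rule) (a s : ℤ) : Prop :=
  ∃ p g n q, Conf c G W₀ u v P a s p g n q ∧
    ∀ l ∈ n.primeFactors, J((q : ℤ) | l) = sgn (ξ g n J((p 1 : ℤ) | p 0) (sym p n) l)

/-- admissible parameters -/
structure Adm5 (c : Fin 6 → ℤ) (G : ℤ) (W₀ u : ℕ) (v : Fin 4 → ℕ) (P : Fin 4 → ℤ → ℤ → Prop) :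
    Prop where
  hc : Function.Injective c
  hG : G ≠ 0
  hW : 0 < W₀
  h3 : 3 ∣ W₀
  hu : u.Coprime W₀
  hv : ∀ i, (v i).Coprime W₀ ∧ v i % 3 = 1
  hP : ∀ i (g : ℕ) (x y : ℤ), g.Prime → g ≡ v i [MOD W₀] → (g : ℤ) = x ^ 2 + 3 * y ^ 2 →
    P i x y ∨ P i x (-y)

/-- the analytic input -/
def Many5 : Prop :=
  ∀ c G W₀ u v P, Adm5 c G W₀ u v P → ∀ ξ : Rule,
    ∃ (K : ℕ) (κ : ℝ), 0 < κ ∧ ∃ T₀ : ℝ, ∀ T : ℝ, T₀ ≤ T → ∃ Z : Finset (ℤ × ℤ),
      (∀ z ∈ Z, Good5 c G W₀ u v P ξ z.1 z.2 ∧ |(z.1 : ℝ)| ≤ T ∧ |(z.2 : ℝ)| ≤ T) ∧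
      κ * T ^ 2 / Real.log T ^ K ≤ Z.card

end Pool.Agent.Lib.MP_7d3fda_nt.R4
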