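import Pool.Agent.Lib.MP_7d3fda_nt.R4.YApi

open Finset Module
open scoped NumberTheorySymbols

noncomputable section

namespace Pool.Agent.Lib.MP_7d3fda_nt.R4

open Pool.Agent.Lib.MP_788af2_nt Pool.Agent.Lib.MP_7d3fda_nt.R2 Pool.Agent.Lib.MP_7d3fda_nt.R3

theorem g2_mem (a b c ν : X) (O : Submodule (ZMod 2) X) (k : Fin 6 → X) :
    ep ∈ G1 a b c O k ∧ a ∈ G1 a b c O k ∧ b ∈ G1 a b c O k ∧ c ∈ G1 a b c O k ∧
      (∀ j, k j ∈ G1 a b c O k) ∧ O ≤ G1 a b c O k ∧ G1 a b c O k ≤ G2 a b c O ν k ∧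
        ν ∈ G2 a b c O ν k := by
  have h : Gam0 a b c ≤ G1 a b c O k := le_sup_left.trans le_sup_left
  refine ⟨h (Submodule.subset_span (by simp)), h (Submodule.subset_span (by simp)),
    h (Submodule.subset_span (by simp)), h (Submodule.subset_span (by simp)),
    fun j => Submodule.mem_sup_right (Submodule.subset_span ⟨j, rfl⟩),
    le_sup_right.trans le_sup_left, le_sup_left,
    Submodule.mem_sup_right (Submodule.mem_span_singleton_self _)⟩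

theorem g1_ind {a b c : X} {O : Submodule (ZMod 2) X} {k : Fin 6 → X} {S : Submodule (ZMod 2) X}
    (h0 : ep ∈ S) (ha : a ∈ S) (hb : b ∈ S) (hc : c ∈ S) (ho : O ≤ S) (hk : ∀ j, k j ∈ S) :
    G1 a b c O k ≤ S := by
  refine sup_le (sup_le (Submodule.span_le.2 ?_) ho) (Submodule.span_le.2 ?_)
  · rintro x (rfl | rfl | rfl | rfl)
    exacts [h0, ha, hb, hc]
  · rintro x ⟨j, rfl⟩
    exact hk j

theorem tt4_mem {a b c ν : X} {O : Submodule (ZMod 2) X} {k : Fin 6 → X} (i : Fin 4) :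
    (tt4 a b c ν k i).1 ∈ G2 a b c O ν k ∧ (tt4 a b c ν k i).2 ∈ G2 a b c O ν k := by
  obtain ⟨h0, ha, hb, hc, hk, -, hle, hn⟩ := g2_mem a b c ν O k
  have hs : ∑ j, k j ∈ G2 a b c O ν k := Submodule.sum_mem _ fun j _ => hle (hk j)
  have hd : dd ν k ∈ G2 a b c O ν k := add_mem (add_mem (hle h0) hn) hs
  fin_cases i
  · exact ⟨add_mem (hle ha) (hle hc), add_mem (add_mem (hle h0) hd) (hle ha)⟩
  · exact ⟨add_mem hd (hle ha), add_mem (add_mem (hle h0) (hle ha)) (hle hb)⟩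
  · exact ⟨add_mem (add_mem hs (hle (hk 0))) (hle (hk 3)),
      add_mem (add_mem hs (hle (hk 2))) (hle (hk 4))⟩
  · exact ⟨add_mem (add_mem hs (hle (hk 1))) (hle (hk 4)),
      add_mem (add_mem hs (hle (hk 0))) (hle (hk 5))⟩

theorem cmb_Pt {a b c ν : X} {O : Submodule (ZMod 2) X} {k : Fin 6 → X} (w : B4) (t : B2) :
    cmb w (tt4 a b c ν k) ∈ Pt t (G2 a b c O ν k) :=
  XParAux.cmb_mem (fun i => mem_Pt.2
    (add_mem (Submodule.smul_mem _ _ (tt4_mem i).1) (Submodule.smul_mem _ _ (tt4_mem i).2))) w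

/-- the points of order two and the two points are removed -/
theorem last_map {a b c ν : X} {O : Submodule (ZMod 2) X} {k : Fin 6 → X}
    (ht : ∀ i, tt4 a b c ν k i ∈ Rel a b c (dd ν k))
    (hi : ∀ w, cmb w (fun i => two st (tt4 a b c ν k i)) = 0 → w = 0) {q r₀ : ℕ}
    (hq : q ∈ Sg (dd ν k)) (hq0 : ∀ γ ∈ G1 a b c O k, γ q = 0)
    (hr : ∀ j, k j r₀ = if j = 0 then 1 else 0) :
    ∃ ψ : X × X →ₗ[ZMod 2] X × X, ∀ y ∈ Str a b c (dd ν k),
      ψ y ∈ Sel a b c ((Sg (dd ν k)).erase q) (fun p => lin (qL p) (dd ν k))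
        (Lam (tt4 a b c ν k)) r₀ ∧ (ψ y = 0 → y = 0) ∧
        ∀ t, y ∈ Pt t (G2 a b c O ν k) → ψ y ∈ Pt t (G1 a b c O k) := by
  obtain ⟨h0, ha, hb, hc, hk, -, hle, hn⟩ := g2_mem a b c ν O k
  have dq : dd ν k q = 1 := (mem_Sg.1 hq).2.2
  have sq : (∑ j, k j) q = 0 := hq0 _ (Submodule.sum_mem _ fun j _ => hk j)
  have nq : ν q = 1 := by
    have := dq
    rwa [dd, Finsupp.add_apply, Finsupp.add_apply, hq0 _ h0, sq, zero_add, add_zero] at this
  have sr : (∑ j, k j) r₀ = 1 := by simp [Finsupp.finsetSum_apply, hr]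
  have q0 : vl q (tt4 a b c ν k 0) = (0, 1) := by
    simp [vl, tt4, T0, hq0 _ h0, hq0 _ ha, hq0 _ hc, dq]
  have q1 : vl q (tt4 a b c ν k 1) = (1, 0) := by
    simp [vl, tt4, T1, hq0 _ h0, hq0 _ ha, hq0 _ hb, dq]
  have q2 : vl q (tt4 a b c ν k 2) = 0 := by
    simp only [vl, tt4, Matrix.cons_val, LinearMap.prodMap_apply, Finsupp.lapply_apply,
      Finsupp.add_apply, sq, hq0 _ (hk _), add_zero, Prod.mk_zero_zero]
  have q3 : vl q (tt4 a b c ν k 3) = 0 := by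
    simp only [vl, tt4, Matrix.cons_val, LinearMap.prodMap_apply, Finsupp.lapply_apply,
      Finsupp.add_apply, sq, hq0 _ (hk _), add_zero, Prod.mk_zero_zero]
  have r2 : vl r₀ (tt4 a b c ν k 2) = (0, 1) := by
    simp only [vl, tt4, Matrix.cons_val, LinearMap.prodMap_apply, Finsupp.lapply_apply,
      Finsupp.add_apply, sr, hr]
    decide
  have r3 : vl r₀ (tt4 a b c ν k 3) = (1, 0) := by
    simp only [vl, tt4, Matrix.cons_val, LinearMap.prodMap_apply, Finsupp.lapply_apply,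
      Finsupp.add_apply, sr, hr]
    decide
  let f : ℕ → X × X → X × X → X × X →ₗ[ZMod 2] X × X := fun r u v => LinearMap.id +
    (LinearMap.snd _ _ _ ∘ₗ vl r).smulRight u + (LinearMap.fst _ _ _ ∘ₗ vl r).smulRight v
  have hf : ∀ r u v y, f r u v y = y + (vl r y).2 • u + (vl r y).1 • v := fun _ _ _ _ => rfl
  refine ⟨f r₀ (tt4 a b c ν k 2) (tt4 a b c ν k 3) ∘ₗ f q (tt4 a b c ν k 0) (tt4 a b c ν k 1),
    fun y hy => ?_⟩
  obtain ⟨y₁, e₁⟩ : ∃ y₁, y₁ = f q (tt4 a b c ν k 0) (tt4 a b c ν k 1) y := ⟨_, rfl⟩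
  obtain ⟨z, e⟩ : ∃ z, z = f r₀ (tt4 a b c ν k 2) (tt4 a b c ν k 3) y₁ := ⟨_, rfl⟩
  rw [LinearMap.comp_apply, ← e₁, ← e]
  have ew : z = y + cmb ((vl q y).2, (vl q y).1, (vl r₀ y₁).2, (vl r₀ y₁).1) (tt4 a b c ν k) := by
    rw [e, hf]
    nth_rewrite 1 [e₁]
    rw [hf, cmb]
    abel
  have zq : vl q z = 0 := by
    rw [ew, cmb]
    simp only [map_add, map_smul, q0, q1, q2, q3]
    generalize vl q y = u
    generalize (vl r₀ y₁).1 = s
    generalize (vl r₀ y₁).2 = t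
    revert u s t
    decide
  have zr : vl r₀ z = 0 := by
    rw [e, hf]
    simp only [map_add, map_smul, r2, r3]
    generalize vl r₀ y₁ = u
    revert u
    decide
  generalize ((vl q y).2, (vl q y).1, (vl r₀ y₁).2, (vl r₀ y₁).1) = w at ew
  obtain ⟨hy1, hy0⟩ := mem_Str.1 hy
  have hz : z ∈ Rel a b c (dd ν k) := ew ▸ add_mem hy1 (XParAux.cmb_mem ht w)
  have sz : two st z = cmb w fun i => two st (tt4 a b c ν k i) := by
    rw [ew, map_add, hy0, zero_add, XParAux.map_cmb]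
  obtain ⟨z1, z2, z3⟩ := mem_Rel.1 hz
  have er : ∀ x ∈ Sup (Sg (dd ν k)), x q = 0 → x ∈ Sup ((Sg (dd ν k)).erase q) := fun x hx h =>
    mem_Sup.2 fun i i0 i2 hi => by
      by_cases hiq : i = q
      · rwa [hiq]
      · exact mem_Sup.1 hx i i0 i2 fun h' => hi (mem_erase.2 ⟨hiq, h'⟩)
  refine ⟨mem_Sel.2 ⟨mem_RelB.2 ⟨er _ z1 (congrArg Prod.fst zq), er _ z2 (congrArg Prod.snd zq),
    fun r hr' => ?_⟩, mem_Lam.2 ⟨w, sz⟩, congrArg Prod.fst zr, congrArg Prod.snd zr⟩,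
    fun h => ?_, fun t h => ?_⟩
  · rw [← loc_eq_locB (mem_of_mem_erase hr')]
    exact z3 r (mem_of_mem_erase hr')
  · have w0 : w = 0 := hi w (by rw [← sz, h, map_zero])
    rw [h, w0] at ew
    simpa [cmb] using ew.symm
  · have h2 : z ∈ Pt t (G2 a b c O ν k) := ew ▸ add_mem h (cmb_Pt w t)
    obtain ⟨γ, hγ, m, hm, e3⟩ := Submodule.mem_sup.1 (mem_Pt.1 h2)
    obtain ⟨s, rfl⟩ := Submodule.mem_span_singleton.1 hm
    have e4 := congrArg (fun x : X => x q) e3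
    have z1q : z.1 q = 0 := congrArg Prod.fst zq
    have z2q : z.2 q = 0 := congrArg Prod.snd zq
    simp only [Finsupp.add_apply, Finsupp.smul_apply, hq0 _ hγ, nq, z1q, z2q, smul_eq_mul, mul_one,
      mul_zero, zero_add] at e4
    rw [mem_Pt, ← e3, e4, zero_smul, add_zero]
    exact hγ

end Pool.Agent.Lib.MP_7d3fda_nt.R4
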