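import Pool.Agent.Lib.MP_7d3fda_nt.R4.YMv0
import Pool.Agent.Lib.MP_7d3fda_nt.R4.YLast

open Finset Module
open scoped NumberTheorySymbols

noncomputable section

namespace Pool.Agent.Lib.MP_7d3fda_nt.R4

open Pool.Agent.Lib.MP_788af2_nt Pool.Agent.Lib.MP_7d3fda_nt.R2 Pool.Agent.Lib.MP_7d3fda_nt.R3

open XMoveAux (add_self' Sup_mono single_mem two0)

/-- exchange of the new linear primes -/
def tr5 (p p' : Fin 6 → ℕ) : X →ₗ[ZMod 2] X :=
  rm5 p + ∑ j, (Finsupp.lapply (p j)).smulRight (Finsupp.single (p' j) 1)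

theorem tr5_apply (p p' : Fin 6 → ℕ) (x : X) :
    tr5 p p' x = rm5 p x + ∑ j, x (p j) • Finsupp.single (p' j) (1 : ZMod 2) := by
  simp only [tr5, LinearMap.add_apply, LinearMap.sum_apply, LinearMap.smulRight_apply,
    Finsupp.lapply_apply]

theorem map_tr5 {W : Type} [AddCommGroup W] [Module (ZMod 2) W] (f : X →ₗ[ZMod 2] W)
    {p p' : Fin 6 → ℕ} (hf : ∀ j, f (Finsupp.single (p j) 1) = f (Finsupp.single (p' j) 1))
    (x : X) : f (tr5 p p' x) = f x := by
  simp only [tr5_apply, rm5_apply, map_add, map_sum, map_smul, hf]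
  rw [add_assoc, add_self', add_zero]

theorem map_tr5' {W : Type} [AddCommGroup W] [Module (ZMod 2) W] (f : X →ₗ[ZMod 2] W)
    {p p' : Fin 6 → ℕ} (hf : ∀ j, f (Finsupp.single (p j) 1) = f (Finsupp.single (p' j) 1))
    (y : X × X) : two f (two (tr5 p p') y) = two f y :=
  Prod.ext (map_tr5 f hf _) (map_tr5 f hf _)

/-- the group only depends on the symbols -/
theorem move_trans {a b c ν : X} {O : Submodule (ZMod 2) X} {k : Fin 6 → X} {T : Finset ℕ}
    {p p' : Fin 6 → ℕ} {χ : X →ₗ[ZMod 2] ZMod 2} (h : MvL a b c O ν k T p χ)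
    (h' : MvL a b c O ν k T p' χ) {J : Finset ℕ} (hJ : OddP J) (hJT : Disjoint J T)
    (hJp : ∀ j, p j ∉ J) (hJp' : ∀ j, p' j ∉ J) (hS : Sy p = Sy p')
    (hs : ∀ j, ∀ l ∈ J, qL l (p j) = qL l (p' j)) (β : ℕ → ZMod 2) :
    Below (S2 a b c ν k p J β) (S2 a b c ν k p' J β) (G1 a b c O (nk5 k p))
      (G1 a b c O (nk5 k p')) := by
  have sub : ∀ x ∈ Sup (Sg (dd ν k) ∪ univ.image p ∪ J), rm5 p x ∈ Sup (Sg (dd ν k) ∪ J) :=
    fun x hx => h.rm_mem (by rwa [union_right_comm] at hx)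
  have nw : ∀ j, p' j ∉ Sg (dd ν k) ∪ J := fun j e =>
    (mem_union.1 e).elim (fun e => (h'.pr j).2.2 (h.sg_sub e)) (hJp' j)
  have val : ∀ x ∈ Sup (Sg (dd ν k) ∪ univ.image p ∪ J), ∀ j, tr5 p p' x (p' j) = x (p j) :=
    fun x hx j => by
      rw [tr5_apply, Finsupp.add_apply, h'.comb_new,
        mem_Sup.1 (sub x hx) _ (h'.pr j).1.ne_zero (h'.pr j).2.1 (nw j), zero_add]
  have mem : ∀ x ∈ Sup (Sg (dd ν k) ∪ univ.image p ∪ J),
      tr5 p p' x ∈ Sup (Sg (dd ν k) ∪ univ.image p' ∪ J) := fun x hx => by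
    rw [tr5_apply]
    refine add_mem (Sup_mono ?_ (sub x hx)) (comb_mem _ _ fun j =>
      mem_union_left _ (mem_union_right _ (mem_image_of_mem _ (mem_univ j))))
    exact union_subset_union_left subset_union_left
  have res : ∀ j, ∀ z ∈ Sup (Sg (dd ν k) ∪ J), lin (qL (p' j)) z = lin (qL (p j)) z := by
    intro j z hz
    refine XHilAux.sup_ind (P := fun z => lin (qL (p' j)) z = lin (qL (p j)) z) (fun i hi => ?_)
      (by simp) (fun x y hx hy => by rw [map_add, map_add, hx, hy])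
      (fun c x hx => by rw [map_smul, map_smul, hx]) hz
    have old : ∀ z ∈ Sup T, lin (qL (p' j)) z = lin (qL (p j)) z := fun z hz => by
      rw [h.chi j z hz, h'.chi j z hz]
    rcases hi with rfl | rfl | hi
    · exact old _ (ep_mem_Sup T)
    · exact old _ (single_mem (Or.inl rfl))
    rcases mem_union.1 hi with hi | hi
    · exact old _ (single_mem (Or.inr (h.sg_sub hi)))
    obtain ⟨i1, i2⟩ := hJ i hi
    have a1 := qL_rec i1 (h.pr j).1 i2 (h.pr j).2.1 fun e => hJp j (e ▸ hi)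
    have a2 := qL_rec i1 (h'.pr j).1 i2 (h'.pr j).2.1 fun e => hJp' j (e ▸ hi)
    rw [h.q4_new, hs j i hi] at a1
    rw [h'.q4_new] at a2
    rw [lin_single _ i1.ne_zero, lin_single _ i1.ne_zero]
    linear_combination a2 - a1
  have new : ∀ x ∈ Sup (Sg (dd ν k) ∪ univ.image p ∪ J), ∀ j,
      lr (p' j) (tr5 p p' x) = lr (p j) x := fun x hx j => by
    refine Prod.ext (val x hx j) ?_
    show lin (qL (p' j)) _ = lin (qL (p j)) x
    have e : ∀ i, qL (p' j) (p' i) = qL (p j) (p i) := fun i => (congrFun (congrFun hS i) j).symm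
    rw [tr5_apply, map_add, res j _ (sub x hx)]
    simp only [rm5_apply, map_add, map_sum, map_smul, lin_single _ (h.pr _).1.ne_zero,
      lin_single _ (h'.pr _).1.ne_zero, e]
    rw [add_assoc, add_self', add_zero]
  have old : ∀ z ∈ Sup T, tr5 p p' z = z := fun z hz => by
    simp [tr5_apply, h.rm_old hz, h.old_zero hz]
  have gam : ∀ γ ∈ G1 a b c O (nk5 k p), tr5 p p' γ ∈ G1 a b c O (nk5 k p') := fun γ hγ => by
    obtain ⟨h0, ha, hb, hc, hk, ho, -⟩ := g2_mem a b c ν O (nk5 k p')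
    refine g1_ind (S := (G1 a b c O (nk5 k p')).comap (tr5 p p')) ?_ ?_ ?_ ?_ (fun x hx => ?_)
      (fun j => ?_) hγ
    · rwa [Submodule.mem_comap, old _ (ep_mem_Sup T)]
    · rwa [Submodule.mem_comap, old _ h.ha]
    · rwa [Submodule.mem_comap, old _ h.hb]
    · rwa [Submodule.mem_comap, old _ h.hc]
    · rw [Submodule.mem_comap, old _ (h.ho hx)]
      exact ho hx
    · rw [Submodule.mem_comap, tr5_apply, h.rm_nk]
      simp only [h.nk_new, ite_smul, one_smul, zero_smul, sum_ite_eq, mem_univ, if_true]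
      exact hk j
  refine below_of_map (two (tr5 p p')) fun y hy => ?_
  obtain ⟨⟨h1, h2, h3⟩, h4, h5, h6⟩ := mem_S2.1 hy
  refine ⟨mem_S2.2 ⟨⟨mem _ h1, mem _ h2, fun r hr => ?_⟩, ?_, (val _ h1 0).trans h5,
    (val _ h2 0).trans h6⟩, fun e => ?_, fun t ht => ?_⟩
  · rcases mem_union.1 hr with hr | hr
    · rcases mem_union.1 hr with hr | hr
      · have f : ∀ j, lr r (Finsupp.single (p j) 1) = lr r (Finsupp.single (p' j) 1) := fun j => by
          rw [h.lr_single (h.sg_sub hr), h'.lr_single (h.sg_sub hr)]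
        rw [locB_congr (map_tr5' _ f y), L2_old _ _ hr,
          ← L2_old p β hr]
        exact h3 r (mem_union_left _ (mem_union_left _ hr))
      · obtain ⟨j, -, rfl⟩ := mem_image.1 hr
        have := h3 _ (mem_union_left _ (mem_union_right _ (mem_image_of_mem _ (mem_univ j))))
        have e : two (lr (p' j)) (two (tr5 p p') y) = two (lr (p j)) y :=
          Prod.ext (new _ h1 j) (new _ h2 j)
        rw [mem_LocB, h.L2_new, h.qL_neg, h.lr_old j h.ha, h.lr_old j h.hb, h.lr_old j h.hc] at this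
        rwa [mem_LocB, e, h'.L2_new, h'.qL_neg, h'.lr_old j h.ha, h'.lr_old j h.hb,
          h'.lr_old j h.hc, ← hS]
    · have f : ∀ j, lr r (Finsupp.single (p j) 1) = lr r (Finsupp.single (p' j) 1) := fun j => by
        rw [XHilAux.lr_single, XHilAux.lr_single, if_neg fun (e : p j = r) => hJp j (e ▸ hr),
          if_neg fun (e : p' j = r) => hJp' j (e ▸ hr), XHilAux.gen_ne (h.pr j).1.ne_zero,
          XHilAux.gen_ne (h'.pr j).1.ne_zero, hs j r hr]
      rw [locB_congr (map_tr5' _ f y),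
        h'.L2_free β (disjoint_left.1 hJT hr) fun j e => hJp' j (e ▸ hr),
        ← h.L2_free β (disjoint_left.1 hJT hr) fun j e => hJp j (e ▸ hr)]
      exact h3 r (mem_union_right _ hr)
  · have f : ∀ j, st (Finsupp.single (p j) 1) = st (Finsupp.single (p' j) 1) := fun j => by
      rw [h.st_single, h'.st_single]
    rwa [map_tr5' _ f y]
  · have z : ∀ x ∈ Sup (Sg (dd ν k) ∪ univ.image p ∪ J), tr5 p p' x = 0 → x = 0 := fun x hx e => by
      have v : ∀ j, x (p j) = 0 := fun j => by rw [← val x hx j, e]; rfl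
      simpa [tr5_apply, rm5_apply, v] using e
    exact Prod.ext (z _ h1 (congrArg Prod.fst e)) (z _ h2 (congrArg Prod.snd e))
  · have := gam _ (mem_Pt.1 ht)
    rw [map_add, map_smul, map_smul] at this
    exact mem_Pt.2 this

/-- the last prime -/
theorem last_step {a b c ν : X} {O : Submodule (ZMod 2) X} {k : Fin 6 → X} {T : Finset ℕ}
    {p : Fin 6 → ℕ} {χ : X →ₗ[ZMod 2] ZMod 2} (h : MvL a b c O ν k T p χ) {J : Finset ℕ}
    (hJ : OddP J) (hJT : Disjoint J T) (hJp : ∀ j, p j ∉ J) {q : ℕ} {β : ℕ → ZMod 2}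
    (hL : Lst ν k T p J q β)
    (hi : ∀ w, cmb w (fun i => two st (tt4 a b c ν k i)) = 0 → w = 0)
    (ht' : ∀ i, tt4 a b c (ν + mu5 J q) (nk5 k p) i ∈ Rel a b c (dd (ν + mu5 J q) (nk5 k p))) :
    ∃ φ : X × X →ₗ[ZMod 2] X × X, ∀ y ∈ Str a b c (dd (ν + mu5 J q) (nk5 k p)),
      φ y ∈ S2 a b c ν k p J β ∧ (φ y = 0 → y = 0) ∧
        ∀ t, y ∈ Pt t (G2 a b c O (ν + mu5 J q) (nk5 k p)) →
          φ y ∈ Pt t (G1 a b c O (nk5 k p)) := by
  obtain ⟨qp, q2, qT, qJ, qq⟩ := hL.pr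
  have mu : ∀ r, mu5 J q r = (if r ∈ J then 1 else 0) + if q = r then 1 else 0 := fun r => by
    simp only [mu5, Finsupp.add_apply, Finsupp.finsetSum_apply, Finsupp.single_apply, sum_ite_eq']
  have de : dd (ν + mu5 J q) (nk5 k p) =
      dd ν k + mu5 J q + ∑ j, (1 : ZMod 2) • Finsupp.single (p j) 1 := by
    simp only [dd, nk5, sum_add_distrib, one_smul]
    abel
  have dT : ∀ r, r ≠ 0 → r ≠ 2 → r ∉ T → dd ν k r = 0 := mem_Sup.1 h.dd_mem
  have hq : q ∈ Sg (dd (ν + mu5 J q) (nk5 k p)) := by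
    refine mem_Sg.2 ⟨qp.ne_zero, q2, ?_⟩
    rw [de, Finsupp.add_apply, Finsupp.add_apply, dT q qp.ne_zero q2 qT, mu, if_neg qJ, if_pos rfl,
      comb_other _ qq]
    rfl
  have sg : (Sg (dd (ν + mu5 J q) (nk5 k p))).erase q = Sg (dd ν k) ∪ univ.image p ∪ J := by
    ext r
    rw [mem_erase, mem_Sg, mem_union, mem_union, mem_Sg, de, Finsupp.add_apply, Finsupp.add_apply,
      mu]
    by_cases h1 : r ∈ J
    · have n1 : q ≠ r := fun e => qJ (e ▸ h1)
      rw [if_pos h1, if_neg n1, dT r (hJ r h1).1.ne_zero (hJ r h1).2 (disjoint_left.1 hJT h1),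
        comb_other _ fun j (e : p j = r) => hJp j (e ▸ h1)]
      exact ⟨fun _ => Or.inr h1, fun _ => ⟨n1.symm, (hJ r h1).1.ne_zero, (hJ r h1).2, rfl⟩⟩
    by_cases h2 : r ∈ univ.image p
    · obtain ⟨j, -, rfl⟩ := mem_image.1 h2
      rw [if_neg h1, if_neg (qq j).symm, h.old_zero h.dd_mem, h.comb_new]
      exact ⟨fun _ => Or.inl (Or.inr h2), fun _ => ⟨qq j, (h.pr j).1.ne_zero, (h.pr j).2.1, rfl⟩⟩
    rw [if_neg h1, comb_other _ fun j e => h2 (mem_image.2 ⟨j, mem_univ _, e⟩), add_zero, zero_add]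
    by_cases h3 : q = r
    · subst h3
      refine ⟨fun e => absurd rfl e.1, fun e => ?_⟩
      rcases e with (e | e) | e
      · exact absurd (e.2.2.symm.trans (dT q e.1 e.2.1 qT)) (by decide)
      · exact absurd e h2
      · exact absurd e h1
    · rw [if_neg h3, add_zero]
      exact ⟨fun e => Or.inl (Or.inl e.2), fun e => ⟨Ne.symm h3,
        (e.resolve_right h1).resolve_right h2⟩⟩
  have tt : (fun i => two st (tt4 a b c (ν + mu5 J q) (nk5 k p) i)) =
      fun i => two st (tt4 a b c ν k i) := funext (h.st_tt hL.st0)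
  obtain ⟨φ, hφ⟩ := last_map (O := O) ht' (tt ▸ hi) hq (r₀ := p 0)
    (fun γ hγ => mem_Sup.1 (h.g1_le hγ) q qp.ne_zero q2 fun e => (mem_union.1 e).elim qT fun e => by
      obtain ⟨j, -, e⟩ := mem_image.1 e
      exact qq j e) fun j => h.nk_new j 0
  refine ⟨φ, fun y hy => ⟨?_, (hφ y hy).2⟩⟩
  have := (hφ y hy).1
  rw [sg, Lam, tt, sel_congr (L' := L2 ν k p β) fun r hr => ?_] at this
  · exact this
  rcases mem_union.1 hr with hr | hr
  · rcases mem_union.1 hr with hr | hr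
    · rw [L2_old _ _ hr, de, map_add, map_add, hL.old r (h.sg_sub hr), add_zero,
        map_comb (lin (qL r)) (fun j => congrArg Prod.snd (h.lr_single (h.sg_sub hr) j))
          (six_sum _), add_zero]
    · rw [L2, if_neg, if_pos hr]
      · obtain ⟨j, -, rfl⟩ := mem_image.1 hr
        rw [dd, dd, map_add, map_add, hL.new j, map_add, map_add, map_zero]
      · obtain ⟨j, -, rfl⟩ := mem_image.1 hr
        exact fun e => (h.pr j).2.2 (h.sg_sub e)
  · rw [h.L2_free β (disjoint_left.1 hJT hr) fun j e => hJp j (e ▸ hr), hL.bit r hr]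

end Pool.Agent.Lib.MP_7d3fda_nt.R4
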