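import Pool.Agent.Lib.MP_7d3fda_nt.R4.YMove
import Pool.Agent.Lib.MP_7d3fda_nt.R4.YTrans

open Finset Module
open scoped NumberTheorySymbols

noncomputable section

namespace Pool.Agent.Lib.MP_7d3fda_nt.R4

open Pool.Agent.Lib.MP_788af2_nt Pool.Agent.Lib.MP_7d3fda_nt.R2 Pool.Agent.Lib.MP_7d3fda_nt.R3

/-- the algebraic content of a move -/
theorem alg_all {a b c ν : X} {O : Submodule (ZMod 2) X} {k : Fin 6 → X} (T : Finset ℕ)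
    {χ : X →ₗ[ZMod 2] ZMod 2} {ψ : Fin 4 → X →ₗ[ZMod 2] ZMod 2}
    (hok : Ok3 a b c (dd ν k)) (ht : ∀ i, tt4 a b c ν k i ∈ Rel a b c (dd ν k))
    (hi : ∀ w, cmb w (fun i => two st (tt4 a b c ν k i)) = 0 → w = 0)
    (hinj : ∀ y ∈ Str a b c (dd ν k), y.1 ∈ G2 a b c O ν k → y.2 ∈ G2 a b c O ν k → y = 0)
    (hD : Design5 (chOf a b c ν k χ) fun i => chOf a b c ν k (ψ i))
    {N : (Fin 4 → B2) →ₗ[ZMod 2] B2}
    (hN : Lin5 (chOf a b c ν k χ) (fun i => chOf a b c ν k (ψ i)) N) :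
    ∃ ξ : (Fin 4 → ℕ) → Finset ℕ → ZMod 2 → (Fin 6 → ℕ → ZMod 2) → ℕ → ZMod 2,
      ∀ p g J q, Cf a b c O ν k T χ ψ p g J → Lst ν k T p J q (ξ g J (Sy p 1 0) (sy5 p J)) →
      (∀ i, tt4 a b c (ν + mu5 J q) (nk5 k p) i ∈ Rel a b c (dd (ν + mu5 J q) (nk5 k p))) →
      Step5 (Str a b c (dd ν k)) (Str a b c (dd (ν + mu5 J q) (nk5 k p))) (G2 a b c O ν k)
        (G2 a b c O (ν + mu5 J q) (nk5 k p)) (zeta χ ψ N) (Brk5 N) ∧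
      Below (Str a b c (dd (ν + mu5 J q) (nk5 k p))) (Str a b c (dd ν k))
        (G2 a b c O (ν + mu5 J q) (nk5 k p)) (G2 a b c O ν k) ∧
      ∀ y ∈ Str a b c (dd (ν + mu5 J q) (nk5 k p)), y.1 ∈ G2 a b c O (ν + mu5 J q) (nk5 k p) →
        y.2 ∈ G2 a b c O (ν + mu5 J q) (nk5 k p) → y = 0 := by
  have key : ∀ (g : Fin 4 → ℕ) (J : Finset ℕ) (ε : ZMod 2) (sy : Fin 6 → ℕ → ZMod 2),
      ∃ β : ℕ → ZMod 2, ∀ p, Cf a b c O ν k T χ ψ p g J → Sy p 1 0 = ε → sy5 p J = sy →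
        ∃ (S₁ : Submodule (ZMod 2) (X × X)) (Γ₁ : Submodule (ZMod 2) X),
          FiniteDimensional (ZMod 2) S₁ ∧
          StepA (Str a b c (dd ν k)) S₁ (G2 a b c O ν k) Γ₁ (zeta χ ψ N) (Brk5 N) ∧
          Below S₁ (Str a b c (dd ν k)) Γ₁ (G2 a b c O ν k) ∧
          Below (S2 a b c ν k p J β) S₁ (G1 a b c O (nk5 k p)) Γ₁ := by
    intro g J ε sy
    by_cases hex : ∃ p', Cf a b c O ν k T χ ψ p' g J ∧ Sy p' 1 0 = ε ∧ sy5 p' J = sy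
    swap
    · exact ⟨0, fun p h1 h2 h3 => absurd ⟨p, h1, h2, h3⟩ hex⟩
    obtain ⟨p', c', e1, e2⟩ := hex
    obtain ⟨o1, o2, o3⟩ := pool_set c'.mvq fun i : Fin 4 => i
    obtain ⟨β₁, b1⟩ := c'.mvl.switch hok ht o1 o2 o3
      (J₀ := univ.image fun i : Fin 3 => g i.castSucc) (fun l hl => by
        obtain ⟨i, -, rfl⟩ := mem_image.1 hl
        exact mem_image_of_mem _ (mem_univ _)) 0
    obtain ⟨β, b2⟩ := c'.mvl.switch hok ht c'.odd c'.dT c'.dp (J₀ := univ.image g) (fun l hl => by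
        obtain ⟨i, -, rfl⟩ := mem_image.1 hl
        exact c'.gJ i) β₁
    refine ⟨β, fun p hc f1 f2 => ⟨_, _, inferInstance,
      moveA c'.mvl c'.mvq c'.sym hok ht hi hD hN β₁,
      b1.trans (move0 c'.mvl c'.mvq c'.sym hok ht hi hD hN 0), Below.trans ?_ b2⟩⟩
    refine move_trans hc.mvl c'.mvl hc.odd hc.dT hc.dp c'.dp
      (sym_ext hc.sym c'.sym (f1.trans e1.symm)) (fun j l hl => ?_) β
    have := congrFun (congrFun (f2.trans e2.symm) j) l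
    rwa [sy5, sy5, if_pos hl, if_pos hl] at this
  choose ξ hξ using key
  refine ⟨ξ, fun p g J q hc hL ht' => ?_⟩
  obtain ⟨S₁, Γ₁, f, a1, a2, a3⟩ := hξ g J _ _ p hc rfl rfl
  obtain ⟨φ, hφ⟩ := last_step hc.mvl hc.odd hc.dT hc.dp hL hi ht'
  have a4 := (below_of_map φ hφ).trans a3
  refine ⟨⟨S₁, Γ₁, f, a1, a4⟩, a4.trans a2, fun y hy h1 h2 => ?_⟩
  obtain ⟨b1, b2, b3⟩ := hφ y hy
  exact b2 (move_inj hc.mvl hc.mvq hc.sym hok ht hi hD hN hinj hc.odd hc.dT hc.dp hc.gJ _ _ b1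
    (mem_Pt_fst.1 (b3 _ (mem_Pt_fst.2 h1))) (mem_Pt_snd.1 (b3 _ (mem_Pt_snd.2 h2))))

end Pool.Agent.Lib.MP_7d3fda_nt.R4
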