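import Pool.Agent.Lib.MP_7d3fda_nt.R4.YDefs

open Finset Module

noncomputable section

namespace Pool.Agent.Lib.MP_7d3fda_nt.R4

open Pool.Agent.Lib.MP_788af2_nt Pool.Agent.Lib.MP_7d3fda_nt.R2 Pool.Agent.Lib.MP_7d3fda_nt.R3

theorem lam_apply (t : B2) (y : X × X) : lam t y = t.2 • y.1 + t.1 • y.2 := rfl

theorem mem_Pt {t : B2} {Γ : Submodule (ZMod 2) X} {y : X × X} :
    y ∈ Pt t Γ ↔ t.2 • y.1 + t.1 • y.2 ∈ Γ := Iff.rfl

theorem mem_LocB {a b c : X} {L : ZMod 2} {r : ℕ} {z : X × X} : z ∈ LocB a b c L r ↔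
    ∃ s t : ZMod 2, two (lr r) z = s • XParAux.t0 (qL r (-1)) L (lr r a) (lr r c) +
      t • XParAux.t1 (qL r (-1)) L (lr r a) (lr r b) := by
  rw [LocB, Submodule.mem_comap, Submodule.mem_span_pair]
  exact ⟨fun ⟨s, t, e⟩ => ⟨s, t, e.symm⟩, fun ⟨s, t, e⟩ => ⟨s, t, e.symm⟩⟩

theorem mem_RelB {a b c : X} {T : Finset ℕ} {L : ℕ → ZMod 2} {z : X × X} :
    z ∈ RelB a b c T L ↔ z.1 ∈ Sup T ∧ z.2 ∈ Sup T ∧ ∀ r ∈ T, z ∈ LocB a b c (L r) r := by
  simp only [RelB, Submodule.mem_inf, Submodule.mem_prod, Submodule.mem_iInf, and_assoc]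

theorem mem_Sel {a b c : X} {T : Finset ℕ} {L : ℕ → ZMod 2} {Λ : Submodule (ZMod 2) (B4 × B4)}
    {r₀ : ℕ} {z : X × X} : z ∈ Sel a b c T L Λ r₀ ↔
      z ∈ RelB a b c T L ∧ two st z ∈ Λ ∧ z.1 r₀ = 0 ∧ z.2 r₀ = 0 := by
  simp only [Sel, Submodule.mem_inf, Submodule.mem_comap, LinearMap.mem_ker, and_assoc]
  exact and_congr_right fun _ => and_congr_right fun _ => Prod.mk_eq_zero

theorem loc_eq_locB {a b c δ : X} {r : ℕ} (hr : r ∈ Sg δ) :
    Loc a b c δ r = LocB a b c (lin (qL r) δ) r := by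
  ext z
  rw [XParAux.mem_Loc' hr, mem_LocB]

theorem sel_congr {a b c : X} {T : Finset ℕ} {L L' : ℕ → ZMod 2} (h : ∀ r ∈ T, L r = L' r)
    (Λ : Submodule (ZMod 2) (B4 × B4)) (r₀ : ℕ) : Sel a b c T L Λ r₀ = Sel a b c T L' Λ r₀ := by
  ext z
  simp only [mem_Sel, mem_RelB]
  refine and_congr_left fun _ => and_congr_right fun _ => and_congr_right fun _ => ?_
  exact forall₂_congr fun r hr => by rw [h r hr]

instance (a b c : X) (T : Finset ℕ) (L : ℕ → ZMod 2) (Λ : Submodule (ZMod 2) (B4 × B4)) (r₀ : ℕ) :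
    FiniteDimensional (ZMod 2) (Sel a b c T L Λ r₀) := by
  have : FiniteDimensional (ZMod 2) ((Sup T).prod (Sup T)) :=
    Module.Finite.of_fg (Submodule.FG.prod (Module.Finite.iff_fg.1 inferInstance)
      (Module.Finite.iff_fg.1 inferInstance))
  exact Submodule.finiteDimensional_of_le (S₂ := (Sup T).prod (Sup T))
    (inf_le_left.trans (inf_le_left.trans inf_le_left))

instance (a b c ν : X) (k : Fin 6 → X) (p : Fin 6 → ℕ) (J : Finset ℕ) (β : ℕ → ZMod 2) :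
    FiniteDimensional (ZMod 2) (S2 a b c ν k p J β) := by
  unfold S2
  infer_instance

/-- the local conditions are isotropic -/
theorem locB_iso {a b c : X} {L : ZMod 2} {r : ℕ}
    (h : Stein (qL r (-1)) (lr r a) (lr r b) (lr r c)) {z z' : X × X}
    (hz : z ∈ LocB a b c L r) (hz' : z' ∈ LocB a b c L r) :
    hL (qL r (-1)) (lr r z.1) (lr r z'.2) + hL (qL r (-1)) (lr r z.2) (lr r z'.1) = 0 := by
  obtain ⟨s, t, e⟩ := mem_LocB.1 hz
  obtain ⟨s', t', e'⟩ := mem_LocB.1 hz'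
  have := XParAux.b_iso _ L _ _ _ h s t s' t'
  rw [← e, ← e'] at this
  exact this

/-- the product formula for pairs -/
theorem prod2 {T : Finset ℕ} (hT : OddP T) {y z : X × X} (h1 : y.1 ∈ Sup T) (h2 : y.2 ∈ Sup T)
    (k1 : z.1 ∈ Sup T) (k2 : z.2 ∈ Sup T) :
    ∑ r ∈ T, (hL (qL r (-1)) (lr r y.1) (lr r z.2) + hL (qL r (-1)) (lr r y.2) (lr r z.1)) =
      XParAux.prH (two st y) (two st z) := by
  have p1 := prodf hT h1 k2
  have p2 := prodf hT h2 k1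
  rw [sum_add_distrib, XParAux.prH_apply, XParAux.bit_eq _ _ p1, XParAux.bit_eq _ _ p2]
  rfl

theorem mem_Lam {t : Fin 4 → X × X} {u : B4 × B4} :
    u ∈ Lam t ↔ ∃ w, u = cmb w fun i => two st (t i) := by
  constructor
  · intro hu
    obtain ⟨c, rfl⟩ := (Submodule.mem_span_range_iff_exists_fun _).1 hu
    exact ⟨(c 0, c 1, c 2, c 3), by rw [Fin.sum_univ_four]; rfl⟩
  · rintro ⟨w, rfl⟩
    exact XParAux.cmb_mem (P := Lam t) (fun i => Submodule.subset_span (Set.mem_range_self i)) w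

/-- the span of the local classes of global classes is isotropic -/
theorem lam_iso {a b c δ : X} (h : Ok3 a b c δ) {t : Fin 4 → X × X} (ht : ∀ i, t i ∈ Rel a b c δ) :
    ∀ u ∈ Lam t, ∀ v ∈ Lam t, XParAux.prH u v = 0 := by
  intro u hu v hv
  obtain ⟨w, rfl⟩ := mem_Lam.1 hu
  obtain ⟨w', rfl⟩ := mem_Lam.1 hv
  obtain ⟨a1, a2, a3⟩ := mem_Rel.1 (XParAux.cmb_mem ht w)
  obtain ⟨b1, b2, b3⟩ := mem_Rel.1 (XParAux.cmb_mem ht w')
  rw [← XParAux.map_cmb, ← XParAux.map_cmb, ← prod2 h.odd a1 a2 b1 b2]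
  exact sum_eq_zero fun r hr => loc_iso h hr (a3 r hr) (b3 r hr)

theorem Below.trans {S₁ S₂ S₃ : Submodule (ZMod 2) (X × X)} {Γ₁ Γ₂ Γ₃ : Submodule (ZMod 2) X}
    (h : Below S₁ S₂ Γ₁ Γ₂) (h' : Below S₂ S₃ Γ₂ Γ₃) : Below S₁ S₃ Γ₁ Γ₃ :=
  ⟨h.1.trans h'.1, fun t ht => (h.2 t ht).trans (h'.2 t ht)⟩

theorem fin_le_of_map {S S' : Submodule (ZMod 2) (X × X)} [FiniteDimensional (ZMod 2) S']
    (ψ : X × X →ₗ[ZMod 2] X × X) (h : ∀ y ∈ S, ψ y ∈ S' ∧ (ψ y = 0 → y = 0)) :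
    finrank (ZMod 2) S ≤ finrank (ZMod 2) S' := by
  refine LinearMap.finrank_le_finrank_of_injective
    (f := ψ.restrict (p := S) (q := S') fun y hy => (h y hy).1) ?_
  rw [injective_iff_map_eq_zero]
  intro y hy
  exact Subtype.ext ((h y y.2).2 (congrArg Subtype.val hy))

theorem mem_Pt_fst {Γ : Submodule (ZMod 2) X} {y : X × X} : y ∈ Pt (0, 1) Γ ↔ y.1 ∈ Γ := by
  rw [mem_Pt, one_smul, zero_smul, add_zero]

theorem mem_Pt_snd {Γ : Submodule (ZMod 2) X} {y : X × X} : y ∈ Pt (1, 0) Γ ↔ y.2 ∈ Γ := by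
  rw [mem_Pt, one_smul, zero_smul, zero_add]

/-- no condition on the constants at a prime where they are unramified -/
theorem stein_unr {a b c : X} {r : ℕ} (e : ZMod 2) (ha : a r = 0) (hb : b r = 0) (hc : c r = 0) :
    Stein e (lr r a) (lr r b) (lr r c) :=
  ⟨fun h => absurd (ha.symm.trans h) (by decide), fun h => absurd (hb.symm.trans h) (by decide),
    fun h => absurd (hc.symm.trans h) (by decide)⟩

/-- a left inverse of the combination map -/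
theorem exists_coord {t : Fin 4 → B4 × B4} (hi : ∀ w, cmb w t = 0 → w = 0) :
    ∃ gl : B4 × B4 →ₗ[ZMod 2] B4, ∀ w, gl (cmb w t) = w := by
  obtain ⟨g, hg⟩ := (XParAux.cmbL t).exists_leftInverse_of_injective
    (LinearMap.ker_eq_bot'.2 fun w hw => hi w hw)
  exact ⟨g, fun w => LinearMap.congr_fun hg w⟩

theorem below_of_map {S S' : Submodule (ZMod 2) (X × X)} {Γ Γ' : Submodule (ZMod 2) X}
    [FiniteDimensional (ZMod 2) S'] (ψ : X × X →ₗ[ZMod 2] X × X)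
    (h : ∀ y ∈ S, ψ y ∈ S' ∧ (ψ y = 0 → y = 0) ∧ ∀ t, y ∈ Pt t Γ → ψ y ∈ Pt t Γ') :
    Below S S' Γ Γ' := by
  refine ⟨fin_le_of_map ψ fun y hy => ⟨(h y hy).1, (h y hy).2.1⟩, fun t _ => ?_⟩
  have : FiniteDimensional (ZMod 2) (S' ⊓ Pt t Γ' : Submodule (ZMod 2) (X × X)) :=
    Submodule.finiteDimensional_of_le inf_le_left
  exact fin_le_of_map ψ fun y hy => ⟨⟨(h y hy.1).1, (h y hy.1).2.2 t hy.2⟩, (h y hy.1).2.1⟩

end Pool.Agent.Lib.MP_7d3fda_nt.R4
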