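import Pool.Agent.Lib.MP_7d3fda_nt.R4.YDefs

open Finset Module
open scoped NumberTheorySymbols

noncomputable section

namespace Pool.Agent.Lib.MP_7d3fda_nt.R4

open Pool.Agent.Lib.MP_788af2_nt Pool.Agent.Lib.MP_7d3fda_nt.R2 Pool.Agent.Lib.MP_7d3fda_nt.R3

namespace YCertAux

theorem two0 : (2 : ZMod 2) = 0 := rfl

theorem dl_symm : ∀ (e a b c : ZMod 2) (i j : Fin 6), i ≠ j →
    dl5 e a b c 0 i j + dl5 e a b c 0 j i = e := by
  decide +kernel

theorem shape {h : Ch} {S : Fin 6 → Fin 6 → ZMod 2} (hS : SymRel5 h S) :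
    ∃ τ, ∀ i j, S i j = S0 h i j + if i = j then 0 else τ := by
  obtain ⟨σ, hσ⟩ := hS.r
  refine ⟨σ 0 + h.kp 0, fun i j => ?_⟩
  by_cases e : i = j
  · rw [e, hS.diag, S0, if_pos rfl, if_pos rfl, add_zero]
  have k : σ j + h.kp j = σ 0 + h.kp 0 := by
    by_cases e0 : j = 0
    · rw [e0]
    have a := hS.symm j 0 e0
    have b := dl_symm h.e h.al h.be h.ga j 0 e0
    rw [hσ j 0 e0, hσ 0 j (Ne.symm e0)] at a
    linear_combination a - b - (h.kp 0 + σ 0) * two0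
  rw [hσ i j e, S0, if_neg e, if_neg e]
  linear_combination k - h.kp j * two0

theorem sum_off (τ : ZMod 2) (x : Fin 6 → ZMod 2) (j : Fin 6) :
    ∑ i, (if i = j then 0 else τ) * x i = τ * (∑ i, x i + x j) := by
  have e : ∀ i, (if i = j then 0 else τ) * x i = τ * x i + if i = j then τ * x i else 0 := fun i => by
    split_ifs
    · linear_combination -τ * x i * two0
    · rw [add_zero]
  simp only [e, sum_add_distrib, sum_ite_eq', mem_univ, if_true, mul_add, mul_sum]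

instance (h : Ch) (S : Fin 6 → Fin 6 → ZMod 2) (x : B2) (v : Fin 6 → B2) :
    Decidable (Eqs5 h S x v) := by
  unfold Eqs5
  infer_instance

/-- the values of the first character on the six forms -/
def k0 (d : ZMod 2) : Fin 6 → ZMod 2 := ![1, d, 0, 1 + d, 0, d]

/-- the first character -/
def h0 (d : ZMod 2) : Ch := ⟨1, d, d, d + 1, 0, k0 d⟩

/-- the solutions of the equations, first part -/
def px (c : B4) : B2 := (c.2.2.2, c.2.2.1)

/-- the solutions of the equations, second part -/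
def pv (d : ZMod 2) (c : B4) (j : Fin 6) : B2 :=
  cmb c (![![0, 0, 0, 0], ![(0, 1), (1, 0), 0, 0], ![(1, 0), (1, 1), 0, 0],
    ![(d, 1), (1 + d, d), (d, 1 + d), (1, d)], ![(d, d), (0, d), (1, d), (1 + d, 1)],
    ![(1, d), (1 + d, 1), (1 + d, 1), (d, 1 + d)]] j)

/-- six vectors with sum zero -/
def mk6 (v₁ v₂ v₃ v₄ : B2) : Fin 6 → B2 := ![0, v₁, v₂, v₃, v₄, v₁ + v₂ + v₃ + v₄]

theorem par1 : ∀ (d : ZMod 2) (x v₁ v₂ v₃ v₄ : B2), Eqs5 (h0 d) (S0 (h0 d)) x (mk6 v₁ v₂ v₃ v₄) →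
    ∀ j, mk6 v₁ v₂ v₃ v₄ j = pv d (v₁.2, v₁.1, x.2, x.1) j := by
  decide +kernel

theorem par2 : ∀ (d : ZMod 2) (c : B4), pv d c 0 = 0 ∧ ∑ j, pv d c j = 0 ∧
    Eqs5 (h0 d) (S0 (h0 d)) (px c) (pv d c) := by
  decide +kernel

theorem eq_mk6 {v : Fin 6 → B2} (v0 : v 0 = 0) (vs : ∑ j, v j = 0) :
    v = mk6 (v 1) (v 2) (v 3) (v 4) := by
  rw [Fin.sum_univ_six, v0, zero_add] at vs
  funext j
  fin_cases j
  · exact v0
  · rfl
  · rfl
  · rfl
  · rfl
  · exact (eq_neg_of_add_eq_zero_right vs).trans (neg_eq_of_add_eq_zero_left (XParAux.vec_two _))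

theorem par {d : ZMod 2} {x : B2} {v : Fin 6 → B2} (v0 : v 0 = 0) (vs : ∑ j, v j = 0)
    (he : Eqs5 (h0 d) (S0 (h0 d)) x v) : ∃ c, x = px c ∧ v = pv d c := by
  rw [eq_mk6 v0 vs] at he ⊢
  exact ⟨_, rfl, funext (par1 d x _ _ _ _ he)⟩

/-- the table of witnesses -/
def tab : ℕ :=
  2982234511958931728144199091561969069393489225880720484878732742823138060525394564236581927217805292654047951439292298014124939922976173767214860530506134106891500953210795545499546881392248959615529789872936358488573790743197222907101035945434430347088424966520948759396378171238352532159428788518982458601491283165600846000849413685486880329816534980132324818212996237620669000334712563632928289192514241851975462124940134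

/-- a bit of the table -/
def tb (d e α β γ : ZMod 2) (i : ℕ) : ZMod 2 :=
  if tab.testBit (44 * (16 * d.val + 8 * e.val + 4 * α.val + 2 * β.val + γ.val) + i) then 1 else 0

/-- the four characters -/
def hh (d e α β γ : ZMod 2) (i : Fin 4) : Ch :=
  ⟨e, α, β, γ, tb d e α β γ (7 * i), fun j => tb d e α β γ (7 * i + 1 + j)⟩

/-- the columns of the linear map -/
def nn (d e α β γ : ZMod 2) (i : ℕ) : B2 := (tb d e α β γ (28 + 2 * i), tb d e α β γ (29 + 2 * i))

/-- the linear map -/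
def NL (n : ℕ → B2) : (Fin 4 → B2) →ₗ[ZMod 2] B2 where
  toFun b := (b 0).1 • n 0 + (b 0).2 • n 1 + ((b 1).1 • n 2 + (b 1).2 • n 3) +
    ((b 2).1 • n 4 + (b 2).2 • n 5) + ((b 3).1 • n 6 + (b 3).2 • n 7)
  map_add' b b' := by
    simp only [Pi.add_apply, Prod.fst_add, Prod.snd_add, add_smul]
    abel
  map_smul' c b := by
    simp only [Pi.smul_apply, Prod.smul_fst, Prod.smul_snd, smul_eq_mul, RingHom.id_apply, smul_add,
      smul_smul]

/-- the residues -/
def FF (h₀ : Ch) (h : Fin 4 → Ch) (d : ZMod 2) (z : B4 × B4) : B2 × B2 × B2 × B2 :=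
  (el (h 0) z.1 (pv d z.2), el (h 1) z.1 (pv d z.2), el (h 2) z.1 (pv d z.2),
    px z.2 + cmb z.1 (Bv4 h₀))

theorem cmb_add {V : Type} [AddCommGroup V] [Module (ZMod 2) V] (w w' : B4) (t : Fin 4 → V) :
    cmb (w + w') t = cmb w t + cmb w' t := map_add (XParAux.cmbL t) w w'

theorem FF_add (h₀ : Ch) (h : Fin 4 → Ch) (d : ZMod 2) (z z' : B4 × B4) :
    FF h₀ h d (z + z') = FF h₀ h d z + FF h₀ h d z' := by
  have e : ∀ g : Ch, el g (z.1 + z'.1) (pv d (z.2 + z'.2)) =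
      el g z.1 (pv d z.2) + el g z'.1 (pv d z'.2) := fun g => by
    simp only [el, pv, cmb_add, smul_add, sum_add_distrib]
    abel
  have e' : px (z.2 + z'.2) = px z.2 + px z'.2 := rfl
  simp only [FF, Prod.fst_add, Prod.snd_add, e, e', cmb_add, Prod.mk_add_mk]
  rw [add_add_add_comm]

set_option synthInstance.maxSize 1024 in
theorem chk1 : ∀ (d e α β γ : ZMod 2) (w c : B4), px c = cmb w (Bv4 (h0 d)) →
    FF (h0 d) (hh d e α β γ) d (w, c) = 0 → w = 0 ∧ c = 0 := by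
  decide +kernel

/-- the difference of the two sides -/
def df (d e α β γ : ZMod 2) (w c : B4) : B2 :=
  el (hh d e α β γ 3) w (pv d c) +
    NL (nn d e α β γ) ![el (hh d e α β γ 0) w (pv d c), el (hh d e α β γ 1) w (pv d c),
      el (hh d e α β γ 2) w (pv d c), px c + cmb w (Bv4 (h0 d))]

theorem df_add (d e α β γ : ZMod 2) (w c w' c' : B4) :
    df d e α β γ (w + w') (c + c') = df d e α β γ w c + df d e α β γ w' c' := by
  have e₁ : ∀ g : Ch, el g (w + w') (pv d (c + c')) =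
      el g w (pv d c) + el g w' (pv d c') := fun g => by
    simp only [el, pv, cmb_add, smul_add, sum_add_distrib]
    abel
  have e' : px (c + c') = px c + px c' := rfl
  rw [df, df, df, add_add_add_comm, ← map_add]
  simp only [e₁, e', cmb_add, Matrix.cons_add_cons, Matrix.empty_add_empty]
  rw [add_add_add_comm (px c)]

theorem chk2a : ∀ (d e α β γ : ZMod 2) (w : B4), df d e α β γ w 0 = 0 := by
  decide +kernel

theorem chk2b : ∀ (d e α β γ : ZMod 2) (c : B4), df d e α β γ 0 c = 0 := by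
  decide +kernel

theorem chk2 (d e α β γ : ZMod 2) (w c : B4) : el (hh d e α β γ 3) w (pv d c) =
    NL (nn d e α β γ) ![el (hh d e α β γ 0) w (pv d c), el (hh d e α β γ 1) w (pv d c),
      el (hh d e α β γ 2) w (pv d c), px c + cmb w (Bv4 (h0 d))] := by
  have h := df_add d e α β γ w 0 0 c
  rw [add_zero, zero_add, chk2a, chk2b, add_zero] at h
  exact (eq_neg_of_add_eq_zero_left h).trans (neg_eq_of_add_eq_zero_left (XParAux.vec_two _))

set_option synthInstance.maxSize 1024 in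
theorem chk3 : ∀ (d e α β γ : ZMod 2) (t v₀ v₁ v₂ : B2), t ≠ 0 →
    wg t (nn d e α β γ 0) = v₀.2 → wg t (nn d e α β γ 1) = v₀.1 →
    wg t (nn d e α β γ 2) = v₁.2 → wg t (nn d e α β γ 3) = v₁.1 →
    wg t (nn d e α β γ 4) = v₂.2 → wg t (nn d e α β γ 5) = v₂.1 →
    wg t v₀ = 1 ∨ wg t v₁ = 1 ∨ wg t v₂ = 1 := by
  decide +kernel

theorem chk0 : ∀ (d : ZMod 2) (e : B2), (∀ i, wg e (Bv4 (h0 d) i) = 0) → e = 0 := by
  decide +kernel

theorem FF_inj (d e α β γ : ZMod 2) (z : B4 × B4) (h : FF (h0 d) (hh d e α β γ) d z = 0) :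
    z = 0 := by
  have a : px z.2 + cmb z.1 (Bv4 (h0 d)) = 0 := congrArg (fun u => u.2.2.2) h
  obtain ⟨b1, b2⟩ := chk1 d e α β γ z.1 z.2
    ((eq_neg_of_add_eq_zero_left a).trans (neg_eq_of_add_eq_zero_left (XParAux.vec_two _))) h
  exact Prod.ext b1 b2

theorem FF_sur (d e α β γ : ZMod 2) : Function.Surjective (FF (h0 d) (hh d e α β γ) d) := by
  have inj : Function.Injective (AddMonoidHom.mk' _ (FF_add (h0 d) (hh d e α β γ) d)) :=
    (injective_iff_map_eq_zero _).2 (FF_inj d e α β γ)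
  exact ((Fintype.bijective_iff_injective_and_card _).2 ⟨inj, by simp⟩).2

end YCertAux

open YCertAux

/-- the equations do not depend on the free bit -/
theorem eqs_iff {h : Ch} {S : Fin 6 → Fin 6 → ZMod 2} (hS : SymRel5 h S) {x : B2} {v : Fin 6 → B2}
    (hv : ∑ j, v j = 0) : Eqs5 h S x v ↔ Eqs5 h (S0 h) x v := by
  obtain ⟨τ, hτ⟩ := shape hS
  have v1 : ∑ j, (v j).1 = 0 := by
    simpa only [Prod.fst_sum, Prod.fst_zero] using congrArg Prod.fst hv
  have v2 : ∑ j, (v j).2 = 0 := by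
    simpa only [Prod.snd_sum, Prod.snd_zero] using congrArg Prod.snd hv
  refine forall_congr' fun j => ?_
  have a0 : ∑ i, S i j = ∑ i, S0 h i j + τ := by
    have := sum_off τ (fun _ => 1) j
    simp only [mul_one] at this
    simp only [hτ, sum_add_distrib, this]
    rw [Fin.sum_univ_six]
    linear_combination 3 * τ * two0
  have a1 : ∑ i, S i j * (v i).1 = ∑ i, S0 h i j * (v i).1 + τ * (v j).1 := by
    simp only [hτ, add_mul, sum_add_distrib, sum_off τ (fun i => (v i).1) j, v1, zero_add]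
  have a2 : ∑ i, S i j * (v i).2 = ∑ i, S0 h i j * (v i).2 + τ * (v j).2 := by
    simp only [hτ, add_mul, sum_add_distrib, sum_off τ (fun i => (v i).2) j, v2, zero_add]
  rw [a0, a1, a2]
  exact and_congr ⟨fun e => by linear_combination e, fun e => by linear_combination e⟩
    ⟨fun e => by linear_combination e, fun e => by linear_combination e⟩

/-- the symbols are determined by one bit -/
theorem sym_ext {h : Ch} {S S' : Fin 6 → Fin 6 → ZMod 2} (hS : SymRel5 h S) (hS' : SymRel5 h S')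
    (e : S 1 0 = S' 1 0) : S = S' := by
  obtain ⟨τ, hτ⟩ := shape hS
  obtain ⟨τ', hτ'⟩ := shape hS'
  rw [hτ, hτ', if_neg (by decide), if_neg (by decide), add_right_inj] at e
  funext i j
  rw [hτ, hτ', e]

/-- the projection to the third coordinate -/
def N2 : (Fin 4 → B2) →ₗ[ZMod 2] B2 := LinearMap.proj 2

theorem lin_N2 (h₀ : Ch) {h : Fin 4 → Ch} (e : h 3 = h 2) : Lin5 h₀ h N2 := by
  intro w v x _ _ _
  rw [e]
  rfl

/-- the design does not depend on the last character -/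
theorem Design5.congr {h₀ : Ch} {h h' : Fin 4 → Ch} (hD : Design5 h₀ h)
    (e : ∀ i : Fin 3, h' i.castSucc = h i.castSucc) : Design5 h₀ h' :=
  ⟨hD.e0, by simpa only [e] using hD.sur, by simpa only [e] using hD.inj⟩

/-- designs exist for all values on the constants -/
theorem cert5 (d e α β γ : ZMod 2) : ∃ (ν₀ : ZMod 2) (κ₀ : Fin 6 → ZMod 2) (ν : Fin 4 → ZMod 2)
    (κ : Fin 4 → Fin 6 → ZMod 2) (N : (Fin 4 → B2) →ₗ[ZMod 2] B2),
    Design5 ⟨1, d, d, d + 1, ν₀, κ₀⟩ (fun i => ⟨e, α, β, γ, ν i, κ i⟩) ∧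
    Lin5 ⟨1, d, d, d + 1, ν₀, κ₀⟩ (fun i => ⟨e, α, β, γ, ν i, κ i⟩) N ∧ Brk5 N := by
  refine ⟨0, k0 d, fun i => (hh d e α β γ i).nu, fun i => (hh d e α β γ i).kp, NL (nn d e α β γ),
    (?_ : Design5 (h0 d) (hh d e α β γ)), (?_ : Lin5 (h0 d) (hh d e α β γ) _), fun t ht v hv => ?_⟩
  · refine ⟨chk0 d, fun b => ?_, fun w v v0 vs he hb => ?_⟩
    · obtain ⟨⟨w, c⟩, hz⟩ := FF_sur d e α β γ (b 0, b 1, b 2, b 3)
      obtain ⟨a1, a2, a3⟩ := par2 d c
      simp only [FF, Prod.mk.injEq] at hz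
      refine ⟨w, pv d c, a1, a2, ?_, fun i => ?_⟩
      · rwa [← hz.2.2.2, add_assoc, XParAux.vec_two, add_zero]
      · fin_cases i
        exacts [hz.1, hz.2.1, hz.2.2.1]
    · obtain ⟨c, e1, rfl⟩ := par v0 vs he
      obtain ⟨b1, b2⟩ := chk1 d e α β γ w c e1.symm (Prod.ext (hb 0) (Prod.ext (hb 1)
        (Prod.ext (hb 2) (by rw [FF, ← e1]; exact XParAux.vec_two _))))
      refine ⟨b1, funext fun j => ?_⟩
      rw [b2]
      simp [pv, cmb]
  · intro w v x v0 vs he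
    obtain ⟨c, rfl, rfl⟩ := par v0 vs he
    exact chk2 d e α β γ w c
  · have b0 := hv ![(1, 0), 0, 0, 0] rfl
    have b1 := hv ![(0, 1), 0, 0, 0] rfl
    have b2 := hv ![0, (1, 0), 0, 0] rfl
    have b3 := hv ![0, (0, 1), 0, 0] rfl
    have b4 := hv ![0, 0, (1, 0), 0] rfl
    have b5 := hv ![0, 0, (0, 1), 0] rfl
    rcases chk3 d e α β γ t (v 0) (v 1) (v 2) ht
      (by simpa [NL, wg, Fin.sum_univ_three] using b0)
      (by simpa [NL, wg, Fin.sum_univ_three] using b1)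
      (by simpa [NL, wg, Fin.sum_univ_three] using b2)
      (by simpa [NL, wg, Fin.sum_univ_three] using b3)
      (by simpa [NL, wg, Fin.sum_univ_three] using b4)
      (by simpa [NL, wg, Fin.sum_univ_three] using b5) with a | a | a
    exacts [⟨0, a⟩, ⟨1, a⟩, ⟨2, a⟩]

/-- valuations of the four known classes at a prime of the form `j` -/
def lab5 (j : Fin 6) : Fin 4 → B2 :=
  ![(0, 1), (1, 0), ![(0, 1), (1, 1), (1, 0), (0, 1), (1, 0), (1, 1)] j,
    ![(1, 0), (0, 1), (1, 1), (1, 1), (0, 1), (1, 0)] j]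

set_option synthInstance.maxSize 4096 in
theorem YCertAux.rig : ∀ (d : ZMod 2) (x v₀ v₁ v₂ v₃ v₄ : B2),
    Eqs5 ⟨1, d, d, d + 1, 0, 0⟩ (S0 ⟨1, d, d, d + 1, 0, 0⟩) x
      ![v₀, v₁, v₂, v₃, v₄, v₀ + v₁ + v₂ + v₃ + v₄] → ∀ (t : ZMod 2) (x' : B2),
    Eqs5 ⟨0, t, 0, t + 1, 0, 0⟩ (S0 ⟨0, t, 0, t + 1, 0, 0⟩) x'
      ![v₀, v₁, v₂, v₃, v₄, v₀ + v₁ + v₂ + v₃ + v₄] →
    ∃ w : B4, ∀ j, ![v₀, v₁, v₂, v₃, v₄, v₀ + v₁ + v₂ + v₃ + v₄] j = cmb w (lab5 j) := by
  intro d x v₀ v₁ v₂ v₃ v₄ h1 t x' h2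
  simp [Eqs5, S0, dl5, Fin.forall_fin_succ, Fin.sum_univ_six] at h1 h2
  revert t x'
  revert d x v₀ v₁ v₂ v₃ v₄
  decide +kernel

/-- rigidity -/
theorem rigid5 (d t : ZMod 2) {x x' : B2} {v : Fin 6 → B2} (hv : ∑ j, v j = 0)
    (h1 : Eqs5 ⟨1, d, d, d + 1, 0, 0⟩ (S0 ⟨1, d, d, d + 1, 0, 0⟩) x v)
    (h2 : Eqs5 ⟨0, t, 0, t + 1, 0, 0⟩ (S0 ⟨0, t, 0, t + 1, 0, 0⟩) x' v) :
    ∃ w : B4, ∀ j, v j = cmb w (lab5 j) := by
  have e : v = ![v 0, v 1, v 2, v 3, v 4, v 0 + v 1 + v 2 + v 3 + v 4] := by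
    rw [Fin.sum_univ_six] at hv
    funext j
    fin_cases j
    · rfl
    · rfl
    · rfl
    · rfl
    · rfl
    · exact (eq_neg_of_add_eq_zero_right hv).trans (neg_eq_of_add_eq_zero_left (XParAux.vec_two _))
  rw [e] at h1 h2 ⊢
  exact rig d x _ _ _ _ _ h1 t x' h2

end Pool.Agent.Lib.MP_7d3fda_nt.R4
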