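import Pool.Agent.Lib.MP_7d3fda_nt.R4.YLine

open Finset Module
open scoped NumberTheorySymbols

noncomputable section

namespace Pool.Agent.Lib.MP_7d3fda_nt.R4

open Pool.Agent.Lib.MP_788af2_nt Pool.Agent.Lib.MP_7d3fda_nt.R2 Pool.Agent.Lib.MP_7d3fda_nt.R3

section

variable {A B C U V : ℤ} (hF : Fam4 A B C) (hI : ∀ j, fm4 A B C U V j ≠ 0)

include hI in
theorem dd_eq {t d : ℤ} (hd : -nm U V * ∏ j, fm4 A B C U V j = t ^ 2 * d) :
    dd (cl (nm U V)) (kk4 A B C U V) = cl d := by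
  have n0 : nm U V ≠ 0 := (nm_pos (hI 0)).ne'
  have p0 : ∏ j, fm4 A B C U V j ≠ 0 := prod_ne_zero_iff.2 fun j _ => hI j
  have g0 : t ^ 2 * d ≠ 0 := hd ▸ mul_ne_zero (neg_ne_zero.2 n0) p0
  have t0 : t ≠ 0 := fun h => left_ne_zero_of_mul g0 (by rw [h]; ring)
  rw [← XGeoAux.csq t0 (right_ne_zero_of_mul g0), ← hd, cl_mul (neg_ne_zero.2 n0) p0, cl_neg n0,
    cl_prod _ _ fun j _ => hI j]
  rfl

include hF hI in
/-- the four known classes come from rational points -/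
theorem pts4 {t d : ℤ} (hd : -nm U V * ∏ j, fm4 A B C U V j = t ^ 2 * d) {e : Fin 3 → ℤ}
    (e1 : e 1 - e 0 = d * A) (e2 : e 2 - e 0 = d * C) (i : Fin 4) :
    ∃ P : (cvE e).Point, kum P = tt4 (cl A) (cl B) (cl C) (cl (nm U V)) (kk4 A B C U V) i := by
  have n0 : nm U V ≠ 0 := (nm_pos (hI 0)).ne'
  have p0 : ∏ j, fm4 A B C U V j ≠ 0 := prod_ne_zero_iff.2 fun j _ => hI j
  have g0 : t ^ 2 * d ≠ 0 := hd ▸ mul_ne_zero (neg_ne_zero.2 n0) p0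
  have d0 : d ≠ 0 := right_ne_zero_of_mul g0
  have A0 := hF.A0
  have B0 := hF.B0
  have C0 := hF.C0.ne'
  have hs := hF.hs
  have he : dsc e ≠ 0 := by rw [XKumAux.dsc_eq hs e1 e2]; positivity
  have hδ := dd_eq hI hd
  have u0 : ∀ i j, -(d * nm U V * (fm4 A B C U V i * fm4 A B C U V j)) ≠ 0 := fun i j =>
    neg_ne_zero.2 (mul_ne_zero (mul_ne_zero d0 n0) (mul_ne_zero (hI i) (hI j)))
  have c4 : ∀ i j, cl (-(d * nm U V * (fm4 A B C U V i * fm4 A B C U V j))) =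
      ∑ j, kk4 A B C U V j + kk4 A B C U V i + kk4 A B C U V j := fun i j => by
    rw [cl_neg (neg_ne_zero.1 (u0 i j)), cl_mul (mul_ne_zero d0 n0) (mul_ne_zero (hI i) (hI j)),
      cl_mul d0 n0, cl_mul (hI i) (hI j), ← hδ, dd]
    have a1 := add_self ep
    have a2 := add_self (cl (nm U V))
    show _ = _ + cl (fm4 A B C U V i) + cl (fm4 A B C U V j)
    rw [← add_zero (_ + cl (fm4 A B C U V i) + cl (fm4 A B C U V j)), ← add_zero (0 : X)]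
    nth_rewrite 1 [← a1]
    rw [← a2]
    abel
  have hd' : -nm U V * (fm4 A B C U V 0 * fm4 A B C U V 1 * fm4 A B C U V 2 * fm4 A B C U V 3 *
      fm4 A B C U V 4 * fm4 A B C U V 5) = t ^ 2 * d := by
    rw [← hd, Fin.prod_univ_six]
  have f0 : fm4 A B C U V 0 = U := rfl
  have f1 : fm4 A B C U V 1 = V := rfl
  have f2 : fm4 A B C U V 2 = -(U + V) := rfl
  have f3 : fm4 A B C U V 3 = -(C * U + B * V) := rfl
  have f4 : fm4 A B C U V 4 = B * U - A * V := rfl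
  have f5 : fm4 A B C U V 5 = A * U + C * V := rfl
  have hn : nm U V = U ^ 2 + U * V + V ^ 2 := rfl
  rw [tt4, hδ]
  fin_cases i
  · refine ⟨.some _ _ (LocDAux.ns_root he 0), ?_⟩
    rw [XKumAux.root0 A0 C0 d0 he e1 e2]
    rfl
  · refine ⟨.some _ _ (LocDAux.ns_root he 1), ?_⟩
    rw [XKumAux.root1 A0 B0 hs d0 he e1 e2]
    rfl
  · obtain ⟨P, hP⟩ := XKumAux.pt_gen he n0 (u0 0 3) (u0 2 4)
      (u₂ := -(d * nm U V * (fm4 A B C U V 1 * fm4 A B C U V 5))) (y := d ^ 2 * nm U V * t)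
      (by rw [e1, f0, f2, f3, f4, hn, ← hs]; ring)
      (by rw [e2, f0, f1, f3, f5, hn, ← hs]; ring)
      (by linear_combination d ^ 3 * nm U V ^ 2 * hd')
    refine ⟨P, ?_⟩
    rw [hP, c4, c4]
    rfl
  · obtain ⟨P, hP⟩ := XKumAux.pt_gen he n0 (u0 1 4) (u0 0 5)
      (u₂ := -(d * nm U V * (fm4 A B C U V 2 * fm4 A B C U V 3))) (y := d ^ 2 * nm U V * t)
      (by rw [e1, f0, f1, f4, f5, hn, ← hs]; ring)
      (by rw [e2, f1, f2, f3, f4, hn, ← hs]; ring)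
      (by linear_combination d ^ 3 * nm U V ^ 2 * hd')
    refine ⟨P, ?_⟩
    rw [hP, c4, c4]
    rfl

include hF hI in
theorem facts4 (sig : ∀ r : ℕ, r.Prime → r ≠ 2 → (r : ℤ) ∣ A * B * C →
      dd (cl (nm U V)) (kk4 A B C U V) r = 1) :
    Ok3 (cl A) (cl B) (cl C) (dd (cl (nm U V)) (kk4 A B C U V)) ∧
    ∀ i, tt4 (cl A) (cl B) (cl C) (cl (nm U V)) (kk4 A B C U V) i ∈
      Rel (cl A) (cl B) (cl C) (dd (cl (nm U V)) (kk4 A B C U V)) := by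
  have n0 : nm U V ≠ 0 := (nm_pos (hI 0)).ne'
  have p0 : ∏ j, fm4 A B C U V j ≠ 0 := prod_ne_zero_iff.2 fun j _ => hI j
  obtain ⟨d, t, hd, -, e⟩ := exists_sqfree (mul_ne_zero (neg_ne_zero.2 n0) p0)
  have hδ := dd_eq hI e
  have k1 := ok3 hF.A0 hF.B0 hF.C0.ne' hF.hs hF.cop (d := d) (hδ ▸ sig)
  have k2 := kum_rel hF.A0 hF.B0 hF.C0.ne' hF.hs hF.cop hd (hδ ▸ sig)
    (e := ![0, d * A, d * C]) (by simp) (by simp)
  rw [← hδ] at k1 k2
  refine ⟨k1, fun i => ?_⟩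
  obtain ⟨P, hP⟩ := pts4 hF hI e (e := ![0, d * A, d * C]) (by simp) (by simp) i
  exact hP ▸ k2 P

end

end Pool.Agent.Lib.MP_7d3fda_nt.R4
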