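import Pool.Agent.Lib.MP_7d3fda_nt.R4.YSwitch
import Pool.Agent.Lib.MP_7d3fda_nt.R4.YLast
import Pool.Agent.Lib.MP_7d3fda_nt.R3.XMove

open Finset Module
open scoped NumberTheorySymbols

noncomputable section

namespace Pool.Agent.Lib.MP_7d3fda_nt.R4

open Pool.Agent.Lib.MP_788af2_nt Pool.Agent.Lib.MP_7d3fda_nt.R2 Pool.Agent.Lib.MP_7d3fda_nt.R3

open XMoveAux (add_self' Sup_mono single_mem two0)

theorem rm5_apply (p : Fin 6 → ℕ) (x : X) :
    rm5 p x = x + ∑ j, x (p j) • Finsupp.single (p j) (1 : ZMod 2) := by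
  simp only [rm5, LinearMap.add_apply, LinearMap.id_apply, LinearMap.sum_apply,
    LinearMap.smulRight_apply, Finsupp.lapply_apply]

theorem vl_apply (r : ℕ) (y : X × X) : vl r y = (y.1 r, y.2 r) := rfl

theorem chi_tt4 {a b c ν : X} {k : Fin 6 → X} (φ : X →ₗ[ZMod 2] ZMod 2) (i : Fin 4) :
    two φ (tt4 a b c ν k i) = Bv4 (chOf a b c ν k φ) i := by
  fin_cases i
  · refine Prod.ext (by simp [tt4, T0, Bv4, chOf]) ?_
    simp only [tt4, T0, Bv4, chOf, dd, Fin.zero_eta, Matrix.cons_val_zero, LinearMap.prodMap_apply,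
      map_add, map_sum]
    linear_combination φ ep * two0
  · exact Prod.ext (by simp [tt4, T1, Bv4, chOf, dd]) (by simp [tt4, T1, Bv4, chOf])
  · exact Prod.ext (by simp [tt4, Bv4, chOf]) (by simp [tt4, Bv4, chOf])
  · exact Prod.ext (by simp [tt4, Bv4, chOf]) (by simp [tt4, Bv4, chOf])

theorem six_sum {W : Type} [AddCommGroup W] [Module (ZMod 2) W] (w : W) :
    ∑ _j : Fin 6, w = 0 := by
  rw [Fin.sum_univ_six, add_self' w, zero_add, add_self' w, zero_add, add_self' w]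

/-- a linear map that shifts all six classes by the same vector does not see the change -/
theorem tt4_shift {W : Type} [AddCommGroup W] [Module (ZMod 2) W] (f : X →ₗ[ZMod 2] W)
    {a b c ν ν' : X} {k k' : Fin 6 → X} (hν : f ν' = f ν) (w : W)
    (hk : ∀ j, f (k' j) = f (k j) + w) (i : Fin 4) :
    two f (tt4 a b c ν' k' i) = two f (tt4 a b c ν k i) := by
  have hs : f (∑ j, k' j) = f (∑ j, k j) := by
    simp only [map_sum, hk, sum_add_distrib, six_sum, add_zero]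
  have hd : f (dd ν' k') = f (dd ν k) := by
    rw [dd, dd, map_add, map_add, map_add, map_add, hν, hs]
  have key : ∀ (u : W) (i j : Fin 6), u + f (k' i) + f (k' j) = u + f (k i) + f (k j) := by
    intro u i j
    rw [hk, hk, ← add_zero (u + f (k i) + f (k j)), ← add_self' w]
    abel
  fin_cases i
  · exact Prod.ext (by simp [tt4, T0]) (by simp [tt4, T0, hd])
  · exact Prod.ext (by simp [tt4, T1, hd]) (by simp [tt4, T1])
  · exact Prod.ext (by simp [tt4, hs, key, -map_sum]) (by simp [tt4, hs, key, -map_sum])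
  · exact Prod.ext (by simp [tt4, hs, key, -map_sum]) (by simp [tt4, hs, key, -map_sum])

theorem map_comb {W : Type} [AddCommGroup W] [Module (ZMod 2) W] (f : X →ₗ[ZMod 2] W) {p : Fin 6 → ℕ}
    {w : W} (hf : ∀ j, f (Finsupp.single (p j) 1) = w) {x : Fin 6 → ZMod 2} (hx : ∑ j, x j = 0) :
    f (∑ j, x j • Finsupp.single (p j) 1) = 0 := by
  simp only [map_sum, map_smul, hf]
  rw [← sum_smul, hx, zero_smul]

theorem comb_other {p : Fin 6 → ℕ} (x : Fin 6 → ZMod 2) {i : ℕ} (hi : ∀ j, p j ≠ i) :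
    (∑ j, x j • Finsupp.single (p j) (1 : ZMod 2) : X) i = 0 := by
  simp [Finsupp.finsetSum_apply, hi]

theorem comb_mem (p : Fin 6 → ℕ) (x : Fin 6 → ZMod 2) {T : Finset ℕ} (h : ∀ j, p j ∈ T) :
    (∑ j, x j • Finsupp.single (p j) (1 : ZMod 2) : X) ∈ Sup T :=
  Submodule.sum_mem _ fun j _ => Submodule.smul_mem _ _ (single_mem (Or.inr (h j)))

theorem mem_S2 {a b c ν : X} {k : Fin 6 → X} {p : Fin 6 → ℕ} {J : Finset ℕ} {β : ℕ → ZMod 2}
    {y : X × X} : y ∈ S2 a b c ν k p J β ↔ (y.1 ∈ Sup (Sg (dd ν k) ∪ univ.image p ∪ J) ∧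
      y.2 ∈ Sup (Sg (dd ν k) ∪ univ.image p ∪ J) ∧
      ∀ r ∈ Sg (dd ν k) ∪ univ.image p ∪ J, y ∈ LocB a b c (L2 ν k p β r) r) ∧
      two st y ∈ Lam (tt4 a b c ν k) ∧ y.1 (p 0) = 0 ∧ y.2 (p 0) = 0 := by
  rw [S2, mem_Sel, mem_RelB]

theorem L2_old {ν : X} {k : Fin 6 → X} (p : Fin 6 → ℕ) (β : ℕ → ZMod 2) {r : ℕ}
    (hr : r ∈ Sg (dd ν k)) : L2 ν k p β r = lin (qL r) (dd ν k) := if_pos hr

theorem locB_congr {a b c : X} {L : ZMod 2} {r : ℕ} {y z : X × X}
    (h : two (lr r) y = two (lr r) z) : y ∈ LocB a b c L r ↔ z ∈ LocB a b c L r := by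
  rw [mem_LocB, mem_LocB, h]

section

variable {a b c ν : X} {O : Submodule (ZMod 2) X} {k : Fin 6 → X} {T : Finset ℕ} {p : Fin 6 → ℕ}
  {χ : X →ₗ[ZMod 2] ZMod 2} (h : MvL a b c O ν k T p χ)

include h

theorem MvL.old_zero {z : X} (hz : z ∈ Sup T) (j : Fin 6) : z (p j) = 0 :=
  mem_Sup.1 hz _ (h.pr j).1.ne_zero (h.pr j).2.1 (h.pr j).2.2

theorem MvL.dd_mem : dd ν k ∈ Sup T :=
  add_mem (add_mem (ep_mem_Sup T) h.hn) (Submodule.sum_mem _ fun j _ => h.hk j)

theorem MvL.sg_sub : Sg (dd ν k) ⊆ T := fun r hr => by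
  by_contra hn
  obtain ⟨h0, h2, h1⟩ := mem_Sg.1 hr
  rw [mem_Sup.1 h.dd_mem r h0 h2 hn] at h1
  exact zero_ne_one h1

theorem MvL.sing (i j : Fin 6) :
    (Finsupp.single (p i) (1 : ZMod 2)) (p j) = if i = j then 1 else 0 := by
  rw [Finsupp.single_apply]
  exact if_congr h.inj.eq_iff rfl rfl

theorem MvL.comb_new (x : Fin 6 → ZMod 2) (j : Fin 6) :
    (∑ i, x i • Finsupp.single (p i) (1 : ZMod 2) : X) (p j) = x j := by
  simp only [Finsupp.finsetSum_apply, Finsupp.smul_apply, h.sing, smul_eq_mul, mul_ite, mul_one,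
    mul_zero, sum_ite_eq', mem_univ, if_true]

theorem MvL.nk_new (i j : Fin 6) : nk5 k p i (p j) = if i = j then 1 else 0 := by
  rw [nk5, Finsupp.add_apply, h.old_zero (h.hk i), zero_add, h.sing]

theorem MvL.ne_old {r : ℕ} (hr : r ∈ T) (j : Fin 6) : p j ≠ r := fun e => (h.pr j).2.2 (e ▸ hr)

theorem MvL.g2_le : G2 a b c O ν k ≤ Sup T :=
  sup_le (g1_ind (ep_mem_Sup T) h.ha h.hb h.hc h.ho h.hk)
    ((Submodule.span_singleton_le_iff_mem _ _).2 h.hn)

theorem MvL.g1_le : G1 a b c O (nk5 k p) ≤ Sup (T ∪ univ.image p) :=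
  g1_ind (ep_mem_Sup _) (Sup_mono subset_union_left h.ha) (Sup_mono subset_union_left h.hb)
    (Sup_mono subset_union_left h.hc) (fun _ hx => Sup_mono subset_union_left (h.ho hx)) fun j =>
      add_mem (Sup_mono subset_union_left (h.hk j))
        (single_mem (Or.inr (mem_union_right _ (mem_image_of_mem _ (mem_univ j)))))

theorem MvL.rm_old {z : X} (hz : z ∈ Sup T) : rm5 p z = z := by
  simp [rm5_apply, h.old_zero hz]

theorem MvL.rm_new (x : X) (j : Fin 6) : rm5 p x (p j) = 0 := by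
  rw [rm5_apply, Finsupp.add_apply, h.comb_new, add_self']

omit h in
theorem rm5_other (x : X) {i : ℕ} (hi : ∀ j, p j ≠ i) : rm5 p x i = x i := by
  rw [rm5_apply, Finsupp.add_apply, comb_other _ hi, add_zero]

theorem MvL.rm_nk (j : Fin 6) : rm5 p (nk5 k p j) = k j := by
  simp only [rm5_apply, h.nk_new, ite_smul, one_smul, zero_smul, sum_ite_eq, mem_univ, if_true]
  rw [nk5, add_assoc, add_self', add_zero]

theorem MvL.rm_g1 {γ : X} (hγ : γ ∈ G1 a b c O (nk5 k p)) : rm5 p γ ∈ G1 a b c O k := by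
  obtain ⟨h0, ha, hb, hc, hk, ho, -⟩ := g2_mem a b c ν O k
  refine g1_ind (S := (G1 a b c O k).comap (rm5 p)) ?_ ?_ ?_ ?_ (fun x hx => ?_) (fun j => ?_) hγ
  · rwa [Submodule.mem_comap, h.rm_old (ep_mem_Sup T)]
  · rwa [Submodule.mem_comap, h.rm_old h.ha]
  · rwa [Submodule.mem_comap, h.rm_old h.hb]
  · rwa [Submodule.mem_comap, h.rm_old h.hc]
  · rw [Submodule.mem_comap, h.rm_old (h.ho hx)]
    exact ho hx
  · rw [Submodule.mem_comap, h.rm_nk]
    exact hk j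

theorem MvL.rm_mem {T' : Finset ℕ} {x : X} (hx : x ∈ Sup (T' ∪ univ.image p)) :
    rm5 p x ∈ Sup T' := by
  refine mem_Sup.2 fun i h0 h2 hn => ?_
  by_cases hi : ∃ j, p j = i
  · obtain ⟨j, rfl⟩ := hi
    exact h.rm_new _ j
  · push Not at hi
    rw [rm5_other _ hi]
    refine mem_Sup.1 hx i h0 h2 fun e => (mem_union.1 e).elim hn fun e => ?_
    obtain ⟨j, -, e⟩ := mem_image.1 e
    exact hi j e

theorem MvL.q4_new (j : Fin 6) : q4 (p j) = χ ep := by
  rw [q4_prime (h.pr j).1 (h.pr j).2.1, ← lin_ep (qL (p j)), h.chi j _ (ep_mem_Sup T)]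

theorem MvL.qL_neg (j : Fin 6) : qL (p j) (-1) = χ ep := by
  rw [← lin_ep (qL (p j)), h.chi j _ (ep_mem_Sup T)]

/-- the six new primes have the same local class at an old prime -/
theorem MvL.lr_single {r : ℕ} (hr : r ∈ T) (j : Fin 6) :
    lr r (Finsupp.single (p j) 1) = (0, χ (Finsupp.single r 1) + q4 r * χ ep) := by
  obtain ⟨h1, h2⟩ := h.odd r hr
  refine Prod.ext (Finsupp.single_eq_of_ne (h.ne_old hr j).symm) ?_
  have a := qL_rec h1 (h.pr j).1 h2 (h.pr j).2.1 (h.ne_old hr j).symm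
  rw [h.q4_new] at a
  show lin (qL r) _ = χ _ + _
  rw [lin_single _ (h.pr j).1.ne_zero, ← h.chi j _ (single_mem (Or.inr hr)),
    lin_single _ h1.ne_zero]
  linear_combination a - qL (p j) r * two0

theorem MvL.st_single (j : Fin 6) :
    st (Finsupp.single (p j) 1) = (0, 0, χ ep, χ (Finsupp.single 2 1)) := by
  rw [XHilAux.st_odd (h.pr j).1.ne_zero (h.pr j).2.1, h.q4_new,
    ← h.chi j _ (single_mem (Or.inl rfl)), lin_single _ two_ne_zero,
    q8_prime (h.pr j).1 (h.pr j).2.1]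
  rfl

/-- the local classes at infinity and two of the four known classes do not change -/
theorem MvL.st_tt {μ : X} (hμ : st μ = 0) (i : Fin 4) :
    two st (tt4 a b c (ν + μ) (nk5 k p) i) = two st (tt4 a b c ν k i) :=
  tt4_shift st (by rw [map_add, hμ, add_zero]) _ (fun j => by rw [nk5, map_add, h.st_single]) i

theorem MvL.L2_new (β : ℕ → ZMod 2) (j : Fin 6) :
    L2 ν k p β (p j) = χ ep + ∑ i, χ (k i) + ∑ i, Sy p i j := by
  rw [L2, if_neg fun e => (h.pr j).2.2 (h.sg_sub e), if_pos (mem_image_of_mem _ (mem_univ j)), dd,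
    add_zero, map_add, map_sum, h.chi j _ (ep_mem_Sup T), add_assoc, ← sum_add_distrib]
  congr 1
  refine sum_congr rfl fun i _ => ?_
  rw [nk5, map_add, h.chi j _ (h.hk i), lin_single _ (h.pr i).1.ne_zero, Sy]

theorem MvL.L2_free (β : ℕ → ZMod 2) {l : ℕ} (h1 : l ∉ T) (h2 : ∀ j, p j ≠ l) :
    L2 ν k p β l = β l := by
  rw [L2, if_neg fun e => h1 (h.sg_sub e), if_neg fun e => ?_]
  obtain ⟨j, -, e⟩ := mem_image.1 e
  exact h2 j e

theorem MvL.lr_old (j : Fin 6) {z : X} (hz : z ∈ Sup T) : lr (p j) z = (0, χ z) :=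
  Prod.ext (h.old_zero hz j) (h.chi j z hz)

theorem MvL.lr_new (j : Fin 6) {z : X} (hz : z ∈ Sup T) (x : Fin 6 → ZMod 2) :
    lr (p j) (z + ∑ i, x i • Finsupp.single (p i) 1) = (x j, χ z + ∑ i, Sy p i j * x i) := by
  refine Prod.ext ?_ ?_
  · show (z + ∑ i, x i • Finsupp.single (p i) 1 : X) (p j) = x j
    rw [Finsupp.add_apply, h.old_zero hz, h.comb_new, zero_add]
  · show lin (qL (p j)) _ = χ z + _
    simp only [map_add, h.chi j z hz, map_sum, map_smul, lin_single _ (h.pr _).1.ne_zero,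
      smul_eq_mul, Sy, mul_comm]

/-- the local conditions at the six new primes -/
theorem MvL.loc_iff {z : X × X} (h1 : z.1 ∈ Sup T) (h2 : z.2 ∈ Sup T) (v : Fin 6 → B2)
    (β : ℕ → ZMod 2) : (∀ j, z + up5 p v ∈ LocB a b c (L2 ν k p β (p j)) (p j)) ↔
      Eqs5 (chOf a b c ν k χ) (Sy p) (two χ z) v := by
  refine forall_congr' fun j => ?_
  have e : two (lr (p j)) (z + up5 p v) = (((v j).1, χ z.1 + ∑ i, Sy p i j * (v i).1),
      ((v j).2, χ z.2 + ∑ i, Sy p i j * (v i).2)) :=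
    Prod.ext (h.lr_new j h1 _) (h.lr_new j h2 _)
  rw [mem_LocB, e, h.L2_new, h.qL_neg, h.lr_old j h.ha, h.lr_old j h.hb, h.lr_old j h.hc]
  simp only [chOf, LinearMap.prodMap_apply]
  generalize χ z.1 + ∑ i, Sy p i j * (v i).1 = r₁
  generalize χ z.2 + ∑ i, Sy p i j * (v i).2 = r₂
  generalize ∑ i, χ (k i) = s₁
  generalize ∑ i, Sy p i j = s₂
  generalize v j = u
  generalize χ ep = e
  generalize χ a = al
  generalize χ b = be
  generalize χ c = ga
  revert r₁ r₂ s₁ s₂ u e al be ga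
  decide +kernel

theorem MvL.odd' {J : Finset ℕ} (hJ : OddP J) : OddP (Sg (dd ν k) ∪ univ.image p ∪ J) := by
  intro r hr
  rcases mem_union.1 hr with hr | hr
  · rcases mem_union.1 hr with hr | hr
    · exact h.odd r (h.sg_sub hr)
    · obtain ⟨j, -, rfl⟩ := mem_image.1 hr
      exact ⟨(h.pr j).1, (h.pr j).2.1⟩
  · exact hJ r hr

omit h in
theorem free_zero {J : Finset ℕ} (hJ : OddP J) (hJT : Disjoint J T) {z : X} (hz : z ∈ Sup T)
    {l : ℕ} (hl : l ∈ J) : z l = 0 :=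
  mem_Sup.1 hz l (hJ l hl).1.ne_zero (hJ l hl).2 (disjoint_left.1 hJT hl)

/-- an element that is unramified on `J` lies in the smaller group and is trivial on `J` -/
theorem MvL.unr {J : Finset ℕ} (hJ : OddP J) (hJT : Disjoint J T) (_hJp : ∀ j, p j ∉ J)
    {β : ℕ → ZMod 2} (β' : ℕ → ZMod 2) {y : X × X} (hy : y ∈ S2 a b c ν k p J β)
    (h0 : ∀ l ∈ J, vl l y = 0) :
    y ∈ S2 a b c ν k p ∅ β' ∧ ∀ l ∈ J, two (lin (qL l)) y = 0 := by
  obtain ⟨⟨h1, h2, h3⟩, h4⟩ := mem_S2.1 hy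
  have dn : ∀ x ∈ Sup (Sg (dd ν k) ∪ univ.image p ∪ J), (∀ l ∈ J, x l = 0) →
      x ∈ Sup (Sg (dd ν k) ∪ univ.image p ∪ ∅) := fun x hx e =>
    mem_Sup.2 fun i i0 i2 hi => by
      by_cases hiJ : i ∈ J
      · exact e i hiJ
      · exact mem_Sup.1 hx i i0 i2 fun h' => (mem_union.1 h').elim
          (fun h' => hi (mem_union_left _ h')) hiJ
  refine ⟨mem_S2.2 ⟨⟨dn _ h1 fun l hl => congrArg Prod.fst (h0 l hl),
    dn _ h2 fun l hl => congrArg Prod.snd (h0 l hl), fun r hr => ?_⟩, h4⟩, fun l hl => ?_⟩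
  · rw [union_empty] at hr
    have e : L2 ν k p β' r = L2 ν k p β r := by
      rcases mem_union.1 hr with hr | hr
      · rw [L2_old _ _ hr, L2_old _ _ hr]
      · obtain ⟨j, -, rfl⟩ := mem_image.1 hr
        rw [h.L2_new, h.L2_new]
    rw [e]
    exact h3 r (mem_union_left _ hr)
  · obtain ⟨s, t, e⟩ := mem_LocB.1 (h3 l (mem_union_right _ hl))
    have := XParAux.b_unr _ (L2 ν k p β l) _ _ _ (stein_unr (qL l (-1)) (free_zero hJ hJT h.ha hl)
      (free_zero hJ hJT h.hb hl) (free_zero hJ hJT h.hc hl)) s t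
    rw [← e] at this
    have z := this (congrArg Prod.fst (h0 l hl)) (congrArg Prod.snd (h0 l hl))
    exact Prod.ext (congrArg (fun u => u.1.2) z) (congrArg (fun u => u.2.2) z)

omit h in
theorem map_up5 {W : Type} [AddCommGroup W] [Module (ZMod 2) W] (f : X →ₗ[ZMod 2] W) {w : W}
    (hf : ∀ j, f (Finsupp.single (p j) 1) = w) {v : Fin 6 → B2} (vs : ∑ j, v j = 0) :
    two f (up5 p v) = 0 :=
  Prod.ext (map_comb f hf (by simpa only [Prod.fst_sum, Prod.fst_zero] using congrArg Prod.fst vs))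
    (map_comb f hf (by simpa only [Prod.snd_sum, Prod.snd_zero] using congrArg Prod.snd vs))

/-- lifting -/
theorem MvL.lift {z : X × X} (hz : z ∈ Rel a b c (dd ν k))
    (hΛ : two st z ∈ Lam (tt4 a b c ν k)) {v : Fin 6 → B2} (v0 : v 0 = 0) (vs : ∑ j, v j = 0)
    (he : Eqs5 (chOf a b c ν k χ) (Sy p) (two χ z) v) (β : ℕ → ZMod 2) :
    z + up5 p v ∈ S2 a b c ν k p ∅ β := by
  obtain ⟨h1, h2, h3⟩ := mem_Rel.1 hz
  have t1 := Sup_mono h.sg_sub h1
  have t2 := Sup_mono h.sg_sub h2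
  have m : ∀ j, p j ∈ Sg (dd ν k) ∪ univ.image p ∪ ∅ := fun j =>
    mem_union_left _ (mem_union_right _ (mem_image_of_mem _ (mem_univ j)))
  have s : Sg (dd ν k) ⊆ Sg (dd ν k) ∪ univ.image p ∪ ∅ := subset_union_left.trans subset_union_left
  refine mem_S2.2 ⟨⟨add_mem (Sup_mono s h1) (comb_mem p _ m),
    add_mem (Sup_mono s h2) (comb_mem p _ m), fun r hr => ?_⟩, ?_, ?_, ?_⟩
  · rw [union_empty] at hr
    rcases mem_union.1 hr with hr | hr
    · rw [locB_congr (z := z) (by rw [map_add, map_up5 _ (h.lr_single (h.sg_sub hr)) vs, add_zero]),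
        L2_old _ _ hr, ← loc_eq_locB hr]
      exact h3 r hr
    · obtain ⟨j, -, rfl⟩ := mem_image.1 hr
      exact (h.loc_iff t1 t2 v β).2 he j
  · rwa [map_add, map_up5 _ h.st_single vs, add_zero]
  · exact (congrArg Prod.fst (h.lr_new 0 t1 fun j => (v j).1)).trans (congrArg Prod.fst v0)
  · exact (congrArg Prod.fst (h.lr_new 0 t2 fun j => (v j).2)).trans (congrArg Prod.snd v0)

variable (hok : Ok3 a b c (dd ν k)) (ht : ∀ i, tt4 a b c ν k i ∈ Rel a b c (dd ν k))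

include hok

theorem MvL.stein {J : Finset ℕ} (hJ : OddP J) (hJT : Disjoint J T) :
    ∀ r ∈ Sg (dd ν k) ∪ univ.image p ∪ J, Stein (qL r (-1)) (lr r a) (lr r b) (lr r c) := by
  intro r hr
  rcases mem_union.1 hr with hr | hr
  · rcases mem_union.1 hr with hr | hr
    · exact hok.stein r hr
    · obtain ⟨j, -, rfl⟩ := mem_image.1 hr
      exact stein_unr _ (h.old_zero h.ha j) (h.old_zero h.hb j) (h.old_zero h.hc j)
  · exact stein_unr _ (free_zero hJ hJT h.ha hr) (free_zero hJ hJT h.hb hr)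
      (free_zero hJ hJT h.hc hr)

include ht

/-- projection -/
theorem MvL.proj (e0 : ∀ e : B2, (∀ i, wg e (Bv4 (chOf a b c ν k χ) i) = 0) → e = 0)
    {β : ℕ → ZMod 2} {y : X × X} (hy : y ∈ S2 a b c ν k p ∅ β) :
    vl (p 0) y = 0 ∧ ∑ j, vl (p j) y = 0 ∧ two (rm5 p) y ∈ Rel a b c (dd ν k) ∧
      two st (two (rm5 p) y) = two st y ∧ y = two (rm5 p) y + up5 p (fun j => vl (p j) y) ∧
      Eqs5 (chOf a b c ν k χ) (Sy p) (two χ (two (rm5 p) y)) fun j => vl (p j) y := by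
  obtain ⟨⟨h1, h2, h3⟩, h4, h5, h6⟩ := mem_S2.1 hy
  rw [union_empty] at h1 h2 h3
  have ho := h.odd' (J := ∅) (by simp [OddP])
  rw [union_empty] at ho
  have vs : ∑ j, vl (p j) y = 0 := by
    refine e0 _ fun i => ?_
    obtain ⟨k1, k2, k3⟩ := mem_Rel.1 (ht i)
    have q := prod2 ho h1 h2 (Sup_mono subset_union_left k1) (Sup_mono subset_union_left k2)
    rw [lam_iso hok ht _ h4 _ (Submodule.subset_span (Set.mem_range_self i)), sum_union,
      sum_eq_zero fun r hr => locB_iso (hok.stein r hr)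
        (L2_old p β hr ▸ h3 r (mem_union_left _ hr)) (loc_eq_locB hr ▸ k3 r hr), zero_add,
      sum_image fun _ _ _ _ e => h.inj e] at q
    · rw [← chi_tt4, ← q]
      simp only [h.lr_old _ (Sup_mono h.sg_sub k1), h.lr_old _ (Sup_mono h.sg_sub k2), hL, wg,
        zero_mul, mul_zero, add_zero, Prod.fst_sum, Prod.snd_sum, sum_mul, sum_add_distrib]
      rfl
    · rw [disjoint_right]
      intro r hr hr'
      obtain ⟨j, -, rfl⟩ := mem_image.1 hr
      exact (h.pr j).2.2 (h.sg_sub hr')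
  have e : y = two (rm5 p) y + up5 p (fun j => vl (p j) y) :=
    Prod.ext (by
      show y.1 = rm5 p y.1 + ∑ j, y.1 (p j) • Finsupp.single (p j) 1
      rw [rm5_apply, add_assoc, add_self', add_zero]) (by
      show y.2 = rm5 p y.2 + ∑ j, y.2 (p j) • Finsupp.single (p j) 1
      rw [rm5_apply, add_assoc, add_self', add_zero])
  have m1 := h.rm_mem h1
  have m2 := h.rm_mem h2
  refine ⟨Prod.ext h5 h6, vs, mem_Rel.2 ⟨m1, m2, fun r hr => ?_⟩, ?_, e, ?_⟩
  · rw [loc_eq_locB hr, ← L2_old p β hr, locB_congr (z := y) ?_]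
    · exact h3 r (mem_union_left _ hr)
    · conv_rhs => rw [e, map_add, map_up5 _ (h.lr_single (h.sg_sub hr)) vs, add_zero]
  · conv_rhs => rw [e, map_add, map_up5 _ h.st_single vs, add_zero]
  · refine (h.loc_iff (Sup_mono h.sg_sub m1) (Sup_mono h.sg_sub m2) _ β).1 fun j => ?_
    rw [← e]
    exact h3 _ (mem_union_right _ (mem_image_of_mem _ (mem_univ j)))

/-- duality -/
theorem MvL.dual {J : Finset ℕ} (hJ : OddP J) (hJT : Disjoint J T) (hJp : ∀ j, p j ∉ J)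
    {β β' : ℕ → ZMod 2} {y z : X × X} (hy : y ∈ S2 a b c ν k p J β)
    (hz : z ∈ S2 a b c ν k p ∅ β') : ∑ l ∈ J, wg (vl l y) (two (lin (qL l)) z) = 0 := by
  obtain ⟨⟨h1, h2, h3⟩, h4, -⟩ := mem_S2.1 hy
  obtain ⟨⟨k1, k2, k3⟩, k4, -⟩ := mem_S2.1 hz
  rw [union_empty] at k1 k2 k3
  have dj : Disjoint (Sg (dd ν k) ∪ univ.image p) J := by
    rw [disjoint_right]
    intro r hr hr'
    rcases mem_union.1 hr' with e | e
    · exact disjoint_left.1 hJT hr (h.sg_sub e)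
    · obtain ⟨j, -, rfl⟩ := mem_image.1 e
      exact hJp j hr
  have q := prod2 (h.odd' hJ) h1 h2 (Sup_mono subset_union_left k1) (Sup_mono subset_union_left k2)
  rw [lam_iso hok ht _ h4 _ k4, sum_union dj, sum_eq_zero fun r hr => ?_, zero_add] at q
  · rw [← q]
    refine sum_congr rfl fun l hl => ?_
    have z0 : ∀ x ∈ Sup (Sg (dd ν k) ∪ univ.image p), lr l x = (0, lin (qL l) x) := fun x hx =>
      Prod.ext (mem_Sup.1 hx l (hJ l hl).1.ne_zero (hJ l hl).2 (disjoint_right.1 dj hl)) rfl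
    simp only [z0 _ k1, z0 _ k2, hL, wg, zero_mul, mul_zero, add_zero]
    rfl
  · have e : L2 ν k p β' r = L2 ν k p β r := by
      rcases mem_union.1 hr with hr | hr
      · rw [L2_old _ _ hr, L2_old _ _ hr]
      · obtain ⟨j, -, rfl⟩ := mem_image.1 hr
        rw [h.L2_new, h.L2_new]
    exact locB_iso (h.stein hok hJ hJT r (mem_union_left _ hr)) (h3 r (mem_union_left _ hr))
      (e ▸ k3 r hr)

/-- further primes are added with suitable bits -/
theorem MvL.switch {J₀ J : Finset ℕ} (hJ : OddP J) (hJT : Disjoint J T) (hJp : ∀ j, p j ∉ J)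
    (h0 : J₀ ⊆ J) (β₀ : ℕ → ZMod 2) : ∃ β : ℕ → ZMod 2,
      Below (S2 a b c ν k p J β) (S2 a b c ν k p J₀ β₀) (G1 a b c O (nk5 k p))
        (G1 a b c O (nk5 k p)) := by
  have hJ₀ : OddP J₀ := fun r hr => hJ r (h0 hr)
  have s : Sg (dd ν k) ⊆ Sg (dd ν k) ∪ univ.image p ∪ J₀ := subset_union_left.trans subset_union_left
  have nj : ∀ l ∈ J, l ∉ T ∪ univ.image p := fun l hl e => by
    rcases mem_union.1 e with e | e
    · exact disjoint_left.1 hJT hl e
    · obtain ⟨j, -, rfl⟩ := mem_image.1 e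
      exact hJp j hl
  obtain ⟨L', e, hB⟩ := switch_all (h.odd' hJ₀) (Sup_mono s hok.ha) (Sup_mono s hok.hb)
    (Sup_mono s hok.hc) (h.stein hok hJ₀ (hJT.mono_left h0)) (lam_iso hok ht)
    (G1 a b c O (nk5 k p)) (p 0) (L2 ν k p β₀) (J := J \ J₀) (fun r hr => hJ r (mem_sdiff.1 hr).1)
    (by
      rw [disjoint_right]
      intro r hr hr'
      rcases mem_union.1 hr' with e | e
      · exact nj r (mem_sdiff.1 hr).1 (union_subset_union_left h.sg_sub e)
      · exact (mem_sdiff.1 hr).2 e)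
    fun γ hγ l hl => mem_Sup.1 (h.g1_le hγ) l (hJ l (mem_sdiff.1 hl).1).1.ne_zero
      (hJ l (mem_sdiff.1 hl).1).2 (nj l (mem_sdiff.1 hl).1)
  refine ⟨L', ?_⟩
  rw [union_assoc, union_sdiff_of_subset h0] at hB
  rw [S2, sel_congr (L' := L') fun r hr => ?_]
  · exact hB
  · rcases mem_union.1 hr with hr | hr
    · rw [e r (mem_union_left _ hr)]
      rcases mem_union.1 hr with hr | hr
      · rw [L2_old _ _ hr, L2_old _ _ hr]
      · obtain ⟨j, -, rfl⟩ := mem_image.1 hr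
        rw [h.L2_new, h.L2_new]
    · exact h.L2_free _ (disjoint_left.1 hJT hr) fun j e => hJp j (e ▸ hr)

end

end Pool.Agent.Lib.MP_7d3fda_nt.R4
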