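import Pool.Agent.Lib.MP_7d3fda_nt.R4.YChar
import Pool.Agent.Lib.MP_7d3fda_nt.R4.YKum
import Pool.Agent.Lib.MP_7d3fda_nt.R4.YCert
import Pool.Agent.Lib.MP_7d3fda_nt.R4.YMv0

open Finset Module
open scoped NumberTheorySymbols

noncomputable section

namespace Pool.Agent.Lib.MP_7d3fda_nt.R4

open Pool.Agent.Lib.MP_788af2_nt Pool.Agent.Lib.MP_7d3fda_nt.R2 Pool.Agent.Lib.MP_7d3fda_nt.R3

namespace YRigAux

theorem dec {a b c ν : X} {O : Submodule (ZMod 2) X} {k : Fin 6 → X} {z : X}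
    (hz : z ∈ G2 a b c O ν k) : ∃ g ∈ G0 a b c O, ∃ (x : Fin 6 → ZMod 2) (s : ZMod 2),
      z = g + ∑ i, x i • k i + s • ν := by
  obtain ⟨z1, h1, z2, h2, rfl⟩ := Submodule.mem_sup.1 hz
  obtain ⟨g, hg, z3, h3, rfl⟩ := Submodule.mem_sup.1 h1
  obtain ⟨s, rfl⟩ := Submodule.mem_span_singleton.1 h2
  obtain ⟨x, rfl⟩ := (Submodule.mem_span_range_iff_exists_fun _).1 h3
  exact ⟨g, hg, x, s, rfl⟩

/-- the local condition at a prime that divides none of the constants -/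
theorem loc_eq {a b c δ : X} {r : ℕ} (hr : r ∈ Sg δ) (ha : a r = 0) (hb : b r = 0) (hc : c r = 0)
    {z : X × X} (hz : z ∈ Loc a b c δ r) :
    lin (qL r) z.1 = z.2 r * (lin (qL r) a + lin (qL r) c) +
      z.1 r * (lin (qL r) δ + lin (qL r) a) ∧
    lin (qL r) z.2 = z.2 r * (qL r (-1) + lin (qL r) δ + lin (qL r) a) +
      z.1 r * (qL r (-1) + lin (qL r) a + lin (qL r) b) := by
  obtain ⟨s, t, e⟩ := (XParAux.mem_Loc' hr).1 hz
  have l : ∀ x : X, lr r x = (x r, lin (qL r) x) := fun _ => rfl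
  have l2 : two (lr r) z = (lr r z.1, lr r z.2) := rfl
  rw [l2] at e
  simp only [l, ha, hb, hc, XParAux.t0, XParAux.t1, Prod.mk_add_mk, Prod.smul_mk, smul_eq_mul,
    Prod.mk.injEq] at e
  obtain ⟨⟨e1, e2⟩, e3, e4⟩ := e
  rw [e1, e2, e3, e4]
  constructor <;> ring

theorem qV_eq_one {r : ℕ} (hr : r.Prime) {n : ℤ} (h1 : (r : ℤ) ∣ n) (h2 : ¬(r : ℤ) ^ 2 ∣ n) :
    qV r n = 1 := by
  have : Fact r.Prime := ⟨hr⟩
  have hn : n ≠ 0 := by
    rintro rfl
    exact h2 (dvd_zero _)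
  have k1 := (padicValInt_dvd_iff (p := r) 1 n).1 (by simpa using h1)
  have k2 := mt (padicValInt_dvd_iff (p := r) 2 n).2 h2
  have : padicValInt r n = 1 := by omega
  rw [qV, this, Nat.cast_one]

theorem qV_eq_zero {r : ℕ} {n : ℤ} (h : ¬(r : ℤ) ∣ n) : qV r n = 0 := by
  simp [qV, padicValInt.eq_zero_of_not_dvd h]

theorem ep_apply {r : ℕ} (hr : r ≠ 0) : ep r = 0 := by
  rw [ep, Finsupp.single_eq_of_ne hr]

theorem nx_ne : ∀ j, nx j ≠ j := by decide

/-- the value at a prime of a combination -/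
theorem comb_apply {g ν : X} {k : Fin 6 → X} {r : ℕ} {j : Fin 6} (hg : g r = 0) (hν : ν r = 0)
    (hk : ∀ i, k i r = if i = j then 1 else 0) (x : Fin 6 → ZMod 2) (s : ZMod 2) :
    (g + ∑ i, x i • k i + s • ν : X) r = x j := by
  simp only [Finsupp.add_apply, Finsupp.finsetSum_apply, Finsupp.smul_apply, hg, hν, hk,
    smul_eq_mul, mul_ite, mul_one, mul_zero, Finset.sum_ite_eq', Finset.mem_univ, if_true,
    zero_add, add_zero]

theorem sum_k {k : Fin 6 → X} {r : ℕ} {j : Fin 6} (hk : ∀ i, k i r = if i = j then 1 else 0) :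
    (∑ i, k i : X) r = 1 := by
  simp only [Finsupp.finsetSum_apply, hk, Finset.sum_ite_eq', Finset.mem_univ, if_true]

/-- valuations of the four known classes -/
theorem vl_tt4 {a b c ν : X} {k : Fin 6 → X} {r : ℕ} {j : Fin 6} (hr : r ≠ 0) (ha : a r = 0)
    (hb : b r = 0) (hc : c r = 0) (hν : ν r = 0) (hk : ∀ i, k i r = if i = j then 1 else 0)
    (i : Fin 4) : vl r (tt4 a b c ν k i) = lab5 j i := by
  have hs := sum_k hk
  have he := ep_apply hr
  have e0 : vl r (tt4 a b c ν k 0) = (0, 1) := by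
    change ((a + c) r, (ep + dd ν k + a) r) = _
    simp only [dd, Finsupp.add_apply, ha, hc, hν, hs, he, add_zero, zero_add]
  have e1 : vl r (tt4 a b c ν k 1) = (1, 0) := by
    change ((dd ν k + a) r, (ep + a + b) r) = _
    simp only [dd, Finsupp.add_apply, ha, hb, hν, hs, he, add_zero, zero_add]
  have e2 : vl r (tt4 a b c ν k 2) = lab5 j 2 := by
    change ((∑ j, k j + k 0 + k 3 : X) r, (∑ j, k j + k 2 + k 4 : X) r) = _
    simp only [Finsupp.add_apply, hs, hk]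
    clear hk
    revert j
    decide
  have e3 : vl r (tt4 a b c ν k 3) = lab5 j 3 := by
    change ((∑ j, k j + k 1 + k 4 : X) r, (∑ j, k j + k 0 + k 5 : X) r) = _
    simp only [Finsupp.add_apply, hs, hk]
    clear hk e2
    revert j
    decide
  fin_cases i
  exacts [e0, e1, e2, e3]

/-- the symbols on the line where one form vanishes -/
def Sj (e al be ga o : ZMod 2) (j i : Fin 6) : ZMod 2 :=
  if i = j then 0 else dl5 e al be ga o i j

theorem sum_split (S x : Fin 6 → ZMod 2) (σ κ : ZMod 2) (j : Fin 6) :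
    ∑ i, x i * (S i + σ + if i = j then κ else 0) = ∑ i, S i * x i + σ * ∑ i, x i + x j * κ := by
  simp only [mul_add, Finset.sum_add_distrib, mul_ite, mul_zero, Finset.sum_ite_eq',
    Finset.mem_univ, if_true, Finset.mul_sum, mul_comm]

theorem sum_split' (S : Fin 6 → ZMod 2) (σ κ : ZMod 2) (j : Fin 6) :
    ∑ i, (S i + σ + if i = j then κ else 0) = ∑ i, S i + κ := by
  have h : (6 : ZMod 2) = 0 := by decide
  simp only [Finset.sum_add_distrib, Finset.sum_ite_eq', Finset.mem_univ, if_true,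
    Finset.sum_const, Finset.card_univ, Fintype.card_fin, nsmul_eq_mul, Nat.cast_ofNat, h,
    zero_mul, add_zero]

section

variable {A B C U V : ℤ} (hF : Fam4 A B C) (hne : ∀ j, fm4 A B C U V j ≠ 0)

include hF

theorem ne_two {r : ℕ} (hH : ¬(r : ℤ) ∣ H5 A B C) : r ≠ 2 := by
  rintro rfl
  obtain ⟨t, ht⟩ := hF.c2
  exact hH ⟨3 * (A * B * t) * nm A B * mm A B, by rw [H5, ht]; push_cast; ring⟩

theorem wit_val {j : Fin 6} {r : ℕ} (h : Wit A B C U V j r) :
    cl (nm U V) r = 0 ∧ ∀ i, kk4 A B C U V i r = if i = j then 1 else 0 := by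
  refine ⟨?_, fun i => ?_⟩
  · rw [cl_prime_apply _ h.pr]
    exact qV_eq_zero (line_f hF h.pr h.nH h.dv (h.nd _ (nx_ne j))).2.1
  · rw [kk4, cl_prime_apply _ h.pr]
    split_ifs with e
    · rw [e]
      exact qV_eq_one h.pr h.dv h.ns
    · exact qV_eq_zero (h.nd i e)

include hne

omit hF in
theorem nm_ne : nm U V ≠ 0 := (nm_pos (hne 0)).ne'

/-- the two equations at a prime that divides one value -/
theorem wit_eq {j : Fin 6} {r : ℕ} (h : Wit A B C U V j r) {g₁ g₂ : X} (h1 : g₁ ∈ GC A B C)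
    (h2 : g₂ ∈ GC A B C) {x y : Fin 6 → ZMod 2} {s t : ZMod 2}
    (hz : (g₁ + ∑ i, x i • kk4 A B C U V i + s • cl (nm U V),
      g₂ + ∑ i, y i • kk4 A B C U V i + t • cl (nm U V)) ∈
        Rel (cl A) (cl B) (cl C) (dd (cl (nm U V)) (kk4 A B C U V)))
    {φ : X →ₗ[ZMod 2] ZMod 2} (hφ : ∀ z ∈ GC A B C, lin (qL r) z = φ z) {e al be ga o : ZMod 2}
    (he : φ ep = e) (hal : φ (cl A) = al) (hbe : φ (cl B) = be) (hga : φ (cl C) = ga)
    (ho : φ (cl (nm A B)) = o) :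
    φ g₁ + ∑ i, Sj e al be ga o j i * x i + qL r (fm4 A B C U V (nx j)) * ∑ i, x i +
        s * (bb j * o) = y j * (al + ga) + x j * (al + (e + bb j * o + ∑ i, Sj e al be ga o j i)) ∧
    φ g₂ + ∑ i, Sj e al be ga o j i * y i + qL r (fm4 A B C U V (nx j)) * ∑ i, y i +
        t * (bb j * o) = y j * (al + (bb j * o + ∑ i, Sj e al be ga o j i)) + x j * (e + al + be) := by
  obtain ⟨m0, mA, mB, mC, -, -, mn, -⟩ := mem_GC A B C
  have hz0 := GC_zero hF h.pr h.nH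
  obtain ⟨hν, hk⟩ := wit_val hF h
  have hQ := isQF_qL h.pr
  have hr : r ∈ Sg (dd (cl (nm U V)) (kk4 A B C U V)) := by
    refine mem_Sg.2 ⟨h.pr.ne_zero, ne_two hF h.nH, ?_⟩
    rw [dd, Finsupp.add_apply, Finsupp.add_apply, hν, sum_k hk, ep_apply h.pr.ne_zero]
    simp
  have q0 : qL r (-1) = e := by rw [← lin_ep (qL r), hφ _ m0, he]
  have lA : lin (qL r) (cl A) = al := by rw [hφ _ mA, hal]
  have lB : lin (qL r) (cl B) = be := by rw [hφ _ mB, hbe]
  have lC : lin (qL r) (cl C) = ga := by rw [hφ _ mC, hga]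
  have qA : qL r A = al := by rw [← lin_cl hQ hF.A0, lA]
  have qB : qL r B = be := by rw [← lin_cl hQ hF.B0, lB]
  have qC : qL r C = ga := by rw [← lin_cl hQ hF.C0.ne', lC]
  have qn : qL r (nm A B) = o := by rw [← lin_cl hQ hF.n0.ne', hφ _ mn, ho]
  obtain ⟨f1, -, f2⟩ := line_f hF h.pr h.nH h.dv (h.nd _ (nx_ne j))
  rw [q0, qA, qB, qC, qn] at f1
  rw [qn] at f2
  have lν : lin (qL r) (cl (nm U V)) = bb j * o := by rw [lin_cl hQ (nm_ne hne), f2]
  generalize qL r (fm4 A B C U V (nx j)) = σ at f1 ⊢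
  obtain ⟨κ, hκ⟩ : ∃ κ, ∀ i, lin (qL r) (kk4 A B C U V i) =
      Sj e al be ga o j i + σ + if i = j then κ else 0 := by
    refine ⟨qL r (fm4 A B C U V j) + σ, fun i => ?_⟩
    rw [kk4, lin_cl hQ (hne i), Sj]
    split_ifs with e'
    · rw [e', zero_add, add_comm (qL _ _), ← add_assoc, XParAux.bit_two, zero_add]
    · rw [(f1 i e').2, add_zero, add_comm]
  have E := loc_eq hr (hz0 _ mA) (hz0 _ mB) (hz0 _ mC) ((mem_Rel.1 hz).2.2 r hr)
  dsimp only at E
  rw [comb_apply (hz0 _ h1) hν hk, comb_apply (hz0 _ h2) hν hk] at E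
  simp only [dd, map_add, map_sum, map_smul, smul_eq_mul, hκ, sum_split, sum_split', lin_ep, q0,
    lA, lB, lC, lν, hφ _ h1, hφ _ h2] at E
  obtain ⟨E1, E2⟩ := E
  have h2 : (2 : ZMod 2) = 0 := rfl
  constructor
  · linear_combination E1
  · linear_combination E2 + (y j * e) * h2

omit hne in
/-- the equations at a prime that divides the norm -/
theorem witN_eq {r : ℕ} (h : WitN A B C U V r) {s t d : ZMod 2}
    (hz : (s • cl (nm U V), t • cl (nm U V)) ∈
        Rel (cl A) (cl B) (cl C) (dd (cl (nm U V)) (kk4 A B C U V)))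
    (q0 : qL r (-1) = 1) (qA : qL r A = d) (qB : qL r B = d) (qC : qL r C = d + 1) :
    s = 0 ∧ t = 0 := by
  obtain ⟨-, mA, mB, mC, -⟩ := mem_GC A B C
  have hz0 := GC_zero hF h.pr h.nH
  have hQ := isQF_qL h.pr
  have hν : cl (nm U V) r = 1 := by
    rw [cl_prime_apply _ h.pr]
    exact qV_eq_one h.pr h.dv h.ns
  have hk : ∀ i, kk4 A B C U V i r = 0 := fun i => by
    rw [kk4, cl_prime_apply _ h.pr]
    exact qV_eq_zero (h.nd i)
  have hr : r ∈ Sg (dd (cl (nm U V)) (kk4 A B C U V)) := by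
    refine mem_Sg.2 ⟨h.pr.ne_zero, ne_two hF h.nH, ?_⟩
    simp only [dd, Finsupp.add_apply, Finsupp.finsetSum_apply, hν, hk, ep_apply h.pr.ne_zero,
      Finset.sum_const_zero, add_zero, zero_add]
  have E := loc_eq hr (hz0 _ mA) (hz0 _ mB) (hz0 _ mC) ((mem_Rel.1 hz).2.2 r hr)
  simp only [dd, map_add, map_smul, smul_eq_mul, Finsupp.smul_apply, hν, mul_one, lin_ep, q0,
    lin_cl hQ hF.A0, lin_cl hQ hF.B0, lin_cl hQ hF.C0.ne', qA, qB, qC] at E
  generalize lin (qL r) (cl (nm U V)) = N at E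
  generalize lin (qL r) (∑ j, kk4 A B C U V j) = m at E
  clear hz q0 qA qB qC
  revert s t d N m
  decide

end

theorem eqs_of {e al be ga : ZMod 2} {p : B2} {x y σ : Fin 6 → ZMod 2} {s t : ZMod 2}
    (hx : ∑ i, x i = 0) (hy : ∑ i, y i = 0)
    (h : ∀ j, p.1 + ∑ i, Sj e al be ga 0 j i * x i + σ j * ∑ i, x i + s * (bb j * 0) =
        y j * (al + ga) + x j * (al + (e + bb j * 0 + ∑ i, Sj e al be ga 0 j i)) ∧
      p.2 + ∑ i, Sj e al be ga 0 j i * y i + σ j * ∑ i, y i + t * (bb j * 0) =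
        y j * (al + (bb j * 0 + ∑ i, Sj e al be ga 0 j i)) + x j * (e + al + be)) :
    Eqs5 ⟨e, al, be, ga, 0, 0⟩ (S0 ⟨e, al, be, ga, 0, 0⟩) p fun j => (x j, y j) := by
  intro j
  have := h j
  simp only [hx, hy, mul_zero, add_zero, zero_add] at this
  simpa only [S0, Sj, Pi.zero_apply, add_zero, zero_add, Finset.sum_const_zero] using this

theorem Sj_zero : ∀ j i, Sj 0 0 0 0 0 j i = 0 := by decide

end YRigAux

open YRigAux in
/-- enough witnesses exclude elements with both coordinates among the known classes -/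
theorem inj_of_wit {A B C U V : ℤ} (hF : Fam4 A B C) (hne : ∀ j, fm4 A B C U V j ≠ 0)
    (sig : ∀ r : ℕ, r.Prime → r ≠ 2 → (r : ℤ) ∣ A * B * C →
      dd (cl (nm U V)) (kk4 A B C U V) r = 1)
    (hi : ∀ w, cmb w (fun i => two st (tt4 (cl A) (cl B) (cl C) (cl (nm U V)) (kk4 A B C U V) i))
      = 0 → w = 0)
    (w1 : ∀ j (φ : X →ₗ[ZMod 2] ZMod 2), ∃ r, Wit A B C U V j r ∧
      ∀ z ∈ GC A B C, lin (qL r) z = φ z)
    (w2 : ∃ r, Wit A B C U V 0 r ∧ (∀ z ∈ GC A B C, lin (qL r) z = 0) ∧ qL r V = 1)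
    (w3 : ∃ r, WitN A B C U V r ∧ (IsSquare (nm A B) → ∃ d, qL r (-1) = 1 ∧ qL r A = d ∧
      qL r B = d ∧ qL r C = d + 1)) :
    ∀ y ∈ SS A B C U V, y.1 ∈ GG A B C U V → y.2 ∈ GG A B C U V → y = 0 := by
  rintro ⟨y₁, y₂⟩ hy h1 h2
  obtain ⟨hR, hst⟩ := mem_Str.1 hy
  obtain ⟨g₁, m₁, x, s, rfl⟩ := dec h1
  obtain ⟨g₂, m₂, y, t, rfl⟩ := dec h2
  have hs : ∑ i, x i = 0 ∧ ∑ i, y i = 0 := by
    obtain ⟨r, hr, h0, hV⟩ := w2
    have E := wit_eq hF hne hr m₁ m₂ hR (φ := 0) h0 rfl rfl rfl rfl rfl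
    have hV' : qL r (fm4 A B C U V (nx 0)) = 1 := hV
    simpa only [hV', LinearMap.zero_apply, Sj_zero, zero_mul, mul_zero, add_zero, zero_add,
      Finset.sum_const_zero, one_mul] using E
  have key : ∀ (φ : X →ₗ[ZMod 2] ZMod 2) (e al be ga : ZMod 2), φ ep = e → φ (cl A) = al →
      φ (cl B) = be → φ (cl C) = ga → φ (cl (nm A B)) = 0 →
      Eqs5 ⟨e, al, be, ga, 0, 0⟩ (S0 ⟨e, al, be, ga, 0, 0⟩) (φ g₁, φ g₂) fun j => (x j, y j) := by
    intro φ e al be ga he hal hbe hga ho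
    choose r hr hφ using fun j => w1 j φ
    exact eqs_of (σ := fun j => qL (r j) (fm4 A B C U V (nx j))) hs.1 hs.2 fun j =>
      wit_eq hF hne (hr j) m₁ m₂ hR (hφ j) he hal hbe hga ho
  obtain ⟨φ₀, d, a0, a1, a2, a3, a4⟩ := chi0_ex hF
  obtain ⟨φ₂, d', b0, b1, b2, b3, b4⟩ := chi2_ex hF
  obtain ⟨w, hw⟩ := rigid5 d d' (v := fun j => (x j, y j))
    (Prod.ext (Prod.fst_sum.trans hs.1) (Prod.snd_sum.trans hs.2))
    (key φ₀ _ _ _ _ a0 a1 a2 a3 a4) (key φ₂ _ _ _ _ b0 b1 b2 b3 b4)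
  set T := tt4 (cl A) (cl B) (cl C) (cl (nm U V)) (kk4 A B C U V) with hT
  set Y : X × X := (g₁ + ∑ i, x i • kk4 A B C U V i + s • cl (nm U V),
    g₂ + ∑ i, y i • kk4 A B C U V i + t • cl (nm U V)) with hY
  have hu : Y + cmb w T ∈ Rel (cl A) (cl B) (cl C) (dd (cl (nm U V)) (kk4 A B C U V)) :=
    Submodule.add_mem _ hR (XParAux.cmb_mem (facts4 hF hne sig).2 w)
  have hu1 : (Y + cmb w T).1 ∈ GG A B C U V := by
    refine Submodule.add_mem _ h1 ?_
    have := XParAux.map_cmb (LinearMap.fst (ZMod 2) X X) w T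
    rw [LinearMap.fst_apply] at this
    rw [this]
    exact XParAux.cmb_mem (fun i => (tt4_mem i).1) w
  have hu2 : (Y + cmb w T).2 ∈ GG A B C U V := by
    refine Submodule.add_mem _ h2 ?_
    have := XParAux.map_cmb (LinearMap.snd (ZMod 2) X X) w T
    rw [LinearMap.snd_apply] at this
    rw [this]
    exact XParAux.cmb_mem (fun i => (tt4_mem i).2) w
  have hv : ∀ j r, Wit A B C U V j r → vl r (Y + cmb w T) = 0 := by
    intro j r hr
    obtain ⟨-, mA, mB, mC, -⟩ := mem_GC A B C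
    have hz0 := GC_zero hF hr.pr hr.nH
    obtain ⟨hν, hk⟩ := wit_val hF hr
    have e1 : vl r Y = (x j, y j) :=
      Prod.ext (comb_apply (hz0 _ m₁) hν hk x s) (comb_apply (hz0 _ m₂) hν hk y t)
    have e2 : (fun i => vl r (T i)) = lab5 j :=
      funext (vl_tt4 hr.pr.ne_zero (hz0 _ mA) (hz0 _ mB) (hz0 _ mC) hν hk)
    rw [map_add, XParAux.map_cmb, e1, e2, ← hw j, XParAux.vec_two]
  have hu0 : Y + cmb w T = 0 := by
    generalize Y + cmb w T = u at hu hu1 hu2 hv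
    obtain ⟨u₁, u₂⟩ := u
    obtain ⟨γ₁, n₁, x', s', rfl⟩ := dec hu1
    obtain ⟨γ₂, n₂, y', t', rfl⟩ := dec hu2
    have hxy : ∀ j, x' j = 0 ∧ y' j = 0 := by
      intro j
      obtain ⟨r, hr, -⟩ := w1 j 0
      have hz0 := GC_zero hF hr.pr hr.nH
      obtain ⟨hν, hk⟩ := wit_val hF hr
      have := hv j r hr
      rw [vl_apply] at this
      dsimp only at this
      rw [comb_apply (hz0 _ n₁) hν hk, comb_apply (hz0 _ n₂) hν hk] at this
      exact Prod.mk_eq_zero.1 this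
    have hx : ∀ j, x' j = 0 := fun j => (hxy j).1
    have hy : ∀ j, y' j = 0 := fun j => (hxy j).2
    have k2 : ∀ j (φ : X →ₗ[ZMod 2] ZMod 2), φ γ₁ + s' * (bb j * φ (cl (nm A B))) = 0 ∧
        φ γ₂ + t' * (bb j * φ (cl (nm A B))) = 0 := by
      intro j φ
      obtain ⟨r, hr, hφ⟩ := w1 j φ
      have E := wit_eq hF hne hr n₁ n₂ hu hφ rfl rfl rfl rfl rfl
      simpa only [hx, hy, mul_zero, zero_mul, add_zero, Finset.sum_const_zero] using E
    have b0 : bb 0 = 0 := rfl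
    have b3 : bb 3 = 1 := rfl
    have c1 : γ₁ = 0 := (Module.forall_dual_apply_eq_zero_iff (ZMod 2) γ₁).1 fun φ => by
      simpa only [b0, zero_mul, mul_zero, add_zero] using (k2 0 φ).1
    have c2 : γ₂ = 0 := (Module.forall_dual_apply_eq_zero_iff (ZMod 2) γ₂).1 fun φ => by
      simpa only [b0, zero_mul, mul_zero, add_zero] using (k2 0 φ).2
    have c3 : s' = 0 ∧ t' = 0 := by
      by_cases hsq : IsSquare (nm A B)
      · obtain ⟨r, hr, hd⟩ := w3
        obtain ⟨d, q0, qA, qB, qC⟩ := hd hsq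
        refine witN_eq hF hr ?_ q0 qA qB qC
        simpa only [c1, c2, hx, hy, zero_smul, Finset.sum_const_zero, add_zero, zero_add] using hu
      · obtain ⟨φ, -, -, hφ⟩ := psi0_ex hF
        simpa only [c1, c2, map_zero, b3, hφ hsq, mul_one, zero_add] using k2 3 φ
    simp only [c1, c2, c3.1, c3.2, hx, hy, zero_smul, Finset.sum_const_zero, add_zero,
      Prod.mk_eq_zero, and_self]
  have hw0 : w = 0 := by
    apply hi
    have := congrArg (two st) hu0
    rw [map_add, hst, zero_add, map_zero, XParAux.map_cmb] at this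
    exact this
  rw [hw0] at hu0
  simpa [cmb] using hu0

end Pool.Agent.Lib.MP_7d3fda_nt.R4
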