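import Pool.Agent.Lib.MP_7d3fda_nt.R4.YPt
import Pool.Agent.Lib.MP_7d3fda_nt.R4.YRig

open Finset Module
open scoped NumberTheorySymbols

noncomputable section

namespace Pool.Agent.Lib.MP_7d3fda_nt.R4

open Pool.Agent.Lib.MP_788af2_nt Pool.Agent.Lib.MP_7d3fda_nt.R2 Pool.Agent.Lib.MP_7d3fda_nt.R3

theorem YBaseAux.sig {A B C U V : ℤ} (hF : Fam4 A B C) {r : ℕ} (hr : r.Prime)
    (h1 : ¬(r : ℤ) ∣ V) (h2 : qV r U = qV r (A * B * C) + 1)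
    (h3 : (r : ℤ) ^ (padicValInt r (A * B * C) + 1) ∣ U) :
    dd (cl (nm U V)) (kk4 A B C U V) r = 1 := by
  have : Fact r.Prime := ⟨hr⟩
  have P0 : A * B * C ≠ 0 := mul_ne_zero (mul_ne_zero hF.A0 hF.B0) hF.C0.ne'
  have a : ∀ j, j ≠ 0 → kk4 A B C U V j r = qV r (YPtAux.be A B C j) := fun j hj => by
    have d := YPtAux.be_dvd A B C hj
    rw [kk4, cl_prime_apply _ hr, YPtAux.fm_eq]
    refine XBaseAux.odd_near hr _ _ _ _ (ne_zero_of_dvd_ne_zero P0 d) h1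
      ((pow_dvd_pow _ (Nat.succ_le_succ ?_)).trans h3)
    exact ((padicValInt_dvd_iff _ _).1 ((padicValInt_dvd _).trans d)).resolve_left P0
  have b : cl (nm U V) r = 0 := by
    have d : (r : ℤ) ∣ U := (dvd_pow_self _ (Nat.succ_ne_zero _)).trans h3
    rw [cl_prime_apply _ hr]
    refine YRigAux.qV_eq_zero fun h => h1 ((Nat.prime_iff_prime_int.1 hr).dvd_of_dvd_pow (n := 2) ?_)
    have := dvd_sub h (d.mul_right (U + V))
    rwa [show nm U V - U * (U + V) = V ^ 2 by rw [nm]; ring] at this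
  have c : kk4 A B C U V 0 r = qV r A + qV r B + qV r C + 1 := by
    rw [kk4, cl_prime_apply _ hr, ← isQF_qV hr _ _ hF.A0 hF.B0,
      ← isQF_qV hr _ _ (mul_ne_zero hF.A0 hF.B0) hF.C0.ne']
    exact h2
  rw [dd, Finsupp.add_apply, Finsupp.add_apply, Finsupp.finsetSum_apply, Fin.sum_univ_six,
    YRigAux.ep_apply hr.ne_zero, b, c, a 1 (by decide), a 2 (by decide), a 3 (by decide),
    a 4 (by decide), a 5 (by decide)]
  show 0 + 0 + (_ + qV r 1 + qV r (-1) + qV r (-B) + qV r (-A) + qV r C) = 1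
  simp only [XBaseAux.qV_neg, XBaseAux.qV_one]
  linear_combination (qV r A + qV r B + qV r C) * YCertAux.two0

theorem base5 {A B C : ℤ} (hF : Fam4 A B C) : ∃ U V, Inv5 A B C U V := by
  obtain ⟨φ, φ3, hφ⟩ : ∃ φ : X →ₗ[ZMod 2] ZMod 2, φ (cl (-3)) = 0 ∧ (IsSquare (nm A B) →
      ∃ d, φ ep = 1 ∧ φ (cl A) = d ∧ φ (cl B) = d ∧ φ (cl C) = d + 1) := by
    by_cases h : IsSquare (nm A B)
    · obtain ⟨φ, d, a1, a2, a3, a4, a5⟩ := chi3_ex hF h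
      exact ⟨φ, a5, fun _ => ⟨d, a1, a2, a3, a4⟩⟩
    · exact ⟨0, rfl, fun h' => absurd h' h⟩
  obtain ⟨U, V, h1, h2, h3, h4, h5, w1, w2, r, w3, w4⟩ := base_pt hF φ φ3
  obtain ⟨ne, star⟩ := star_base hF h1 h2 h3 h4
  have sig : ∀ r : ℕ, r.Prime → r ≠ 2 → (r : ℤ) ∣ A * B * C →
      dd (cl (nm U V)) (kk4 A B C U V) r = 1 := fun r hr r2 hd =>
    YBaseAux.sig hF hr (h5 r hr r2 hd).1 (h5 r hr r2 hd).2.1 (h5 r hr r2 hd).2.2
  refine ⟨U, V, ne, sig, star, ?_, inj_of_wit hF ne sig star.1 w1 w2 ⟨r, w3, fun h => ?_⟩⟩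
  · choose w hw _ using fun j => w1 j 0
    refine ⟨w, r, fun j => ⟨(hw j).pr, (hw j).nH, (YRigAux.wit_val hF (hw j)).1, ?_,
      (YRigAux.wit_val hF (hw j)).2⟩, w3.pr, w3.nH, ?_⟩
    · rw [kk4, cl_prime_apply _ w3.pr]
      exact YRigAux.qV_eq_zero (w3.nd j)
    · rw [cl_prime_apply _ w3.pr]
      exact YRigAux.qV_eq_one w3.pr w3.dv w3.ns
  · obtain ⟨d, a1, a2, a3, a4⟩ := hφ h
    obtain ⟨m0, m1, m2, m3, -⟩ := mem_GC A B C
    have hq := isQF_qL w3.pr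
    exact ⟨d, by rw [← lin_ep (qL r), w4 _ m0, a1], by rw [← lin_cl hq hF.A0, w4 _ m1, a2],
      by rw [← lin_cl hq hF.B0, w4 _ m2, a3], by rw [← lin_cl hq hF.C0.ne', w4 _ m3, a4]⟩

end Pool.Agent.Lib.MP_7d3fda_nt.R4
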