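import Pool.Agent.Lib.MP_7d3fda_nt.R3.XQuart

namespace Pool.Agent.Lib.MP_7d3fda_nt.R4

open Pool.Agent.Lib.MP_7d3fda_nt.R3

namespace YQuartAux

open XQuartAux

theorem two {a b c : ℤ} (h : IsCoprime a b) (ha : 0 < a) (hb : 0 < b) (e : a * b = c ^ 2) :
    ∃ s t, a = s ^ 2 ∧ b = t ^ 2 ∧ IsCoprime s t := by
  obtain ⟨s, hs⟩ := Int.sq_of_isCoprime h e
  obtain ⟨t, ht⟩ := Int.sq_of_isCoprime (c := c) h.symm (by rw [← e, mul_comm])
  obtain rfl : a = s ^ 2 := hs.resolve_right fun k => by nlinarith [sq_nonneg s]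
  obtain rfl : b = t ^ 2 := ht.resolve_right fun k => by nlinarith [sq_nonneg t]
  exact ⟨s, t, rfl, rfl, (IsCoprime.pow_iff (by norm_num) (by norm_num)).1 h⟩

theorem three {p X : ℤ} (hp : Prime p) (h : p ∣ 3) (hX : p ∣ X) : (3 : ℤ) ∣ X :=
  (hp.associated_of_dvd Int.prime_three h).symm.dvd.trans hX

theorem split3 {R S c : ℤ} (h : IsCoprime R S) (hR : 0 < R) (hS : 0 < S)
    (e : R * S = 3 * c ^ 2) :
    ∃ i j, IsCoprime i j ∧ c ^ 2 = (i * j) ^ 2 ∧ R + S = i ^ 2 + 3 * j ^ 2 := by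
  rcases Int.prime_three.dvd_or_dvd (e ▸ dvd_mul_right 3 (c ^ 2) : (3 : ℤ) ∣ R * S) with
    ⟨R', rfl⟩ | ⟨S', rfl⟩
  · obtain ⟨j, i, rfl, rfl, k⟩ := two (c := c) h.of_mul_left_right (by omega) hS (by linarith)
    exact ⟨i, j, k.symm, by linarith, by ring⟩
  · obtain ⟨i, j, rfl, rfl, k⟩ := two (c := c) h.of_mul_right_right hR (by omega) (by linarith)
    exact ⟨i, j, k, by linarith, rfl⟩

theorem mid {X c P : ℤ} (hc : IsCoprime X c) (h3 : ¬(3 : ℤ) ∣ X) (P0 : 0 < P)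
    (e : P * (P + X ^ 2 + 6 * c ^ 2) = 27 * c ^ 4) :
    ∃ a b, IsCoprime a b ∧ b ≠ 0 ∧ c ^ 2 = (a * b) ^ 2 ∧
      X ^ 2 = (a ^ 2 + 3 * b ^ 2) * (a ^ 2 - 9 * b ^ 2) := by
  obtain ⟨S, hS⟩ : ∃ S, S = P + X ^ 2 + 6 * c ^ 2 := ⟨_, rfl⟩
  have S0 : 0 < S := by rw [hS]; positivity
  rw [← hS] at e
  have cP : IsCoprime P S := by
    refine isCoprime_of_prime_dvd (by omega) fun p hp h1 h2 => ?_
    have h4 : p ∣ X ^ 2 + 6 * c ^ 2 := by
      have := dvd_sub h2 h1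
      rwa [show S - P = X ^ 2 + 6 * c ^ 2 by linarith] at this
    rcases hp.dvd_or_dvd (e ▸ h1.mul_right S : p ∣ 27 * c ^ 4) with h5 | h5
    · have h6 : p ∣ 3 := hp.dvd_of_dvd_pow (n := 3) (by simpa using h5)
      refine h3 (three hp h6 (hp.dvd_of_dvd_pow (n := 2) ?_))
      have := dvd_sub h4 (h6.mul_right (2 * c ^ 2))
      rwa [show X ^ 2 + 6 * c ^ 2 - 3 * (2 * c ^ 2) = X ^ 2 by ring] at this
    · have h6 := hp.dvd_of_dvd_pow h5
      refine both hc hp (hp.dvd_of_dvd_pow (n := 2) ?_) h6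
      simpa using dvd_sub h4 ((dvd_pow h6 two_ne_zero).mul_left 6)
  have d27 : (3 : ℤ) ^ 3 ∣ P * S := ⟨c ^ 4, by linarith⟩
  by_cases h : (3 : ℤ) ∣ P
  · obtain ⟨P', rfl⟩ := ((cP.of_isCoprime_of_dvd_left h).pow_left (m := 3)).dvd_of_dvd_mul_right d27
    obtain ⟨b, a, rfl, rfl, hab, cab⟩ := four (c := c) cP.of_mul_left_right (by omega) S0
      (by linarith)
    refine ⟨a, b, cab.symm, ?_, by linarith, by linear_combination -hS - 6 * hab⟩
    rintro rfl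
    simp at P0
  · obtain ⟨S', rfl⟩ := ((Int.prime_three.irreducible.coprime_iff_not_dvd.2 h).pow_left
      (m := 3)).dvd_of_dvd_mul_left d27
    obtain ⟨a, b, rfl, rfl, hab, -⟩ := four (c := c) cP.of_mul_right_right P0 (by omega)
      (by linarith)
    have e3 : X ^ 2 + a ^ 4 = 3 * (9 * b ^ 4 - 2 * c ^ 2) := by linear_combination -hS
    have e4 := congrArg (Int.cast : ℤ → ZMod 3) e3
    push_cast at e4
    exact absurd ((ZMod.intCast_zmod_eq_zero_iff_dvd _ 3).1 ((by decide : ∀ x a t : ZMod 3,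
      x ^ 2 + a ^ 4 = 3 * t → x = 0) _ _ _ e4)) h3

theorem odd_case {X k l : ℤ} (hc : IsCoprime (2 * k + 1) (2 * l + 1)) (h3 : ¬(3 : ℤ) ∣ X)
    (e : X ^ 2 = ((2 * k + 1) ^ 2 + 3 * (2 * l + 1) ^ 2) * ((2 * k + 1) ^ 2 - 9 * (2 * l + 1) ^ 2)) :
    False := by
  obtain ⟨U, hU⟩ : ∃ U, U = k ^ 2 + k + 3 * l ^ 2 + 3 * l + 1 := ⟨_, rfl⟩
  obtain ⟨V, hV⟩ : ∃ V, V = U - 3 * (2 * l + 1) ^ 2 := ⟨_, rfl⟩
  have e1 : X ^ 2 = 4 ^ 2 * (U * V) := by rw [e, hV, hU]; ring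
  obtain ⟨x, rfl⟩ : (4 : ℤ) ∣ X := (Int.pow_dvd_pow_iff two_ne_zero).1 ⟨_, e1⟩
  have e2 : U * V = x ^ 2 := by linarith
  have U0 : 0 < U := by
    have k1 : 4 * U = (2 * k + 1) ^ 2 + 3 * (2 * l + 1) ^ 2 := by rw [hU]; ring
    have k2 : 0 < (2 * k + 1) ^ 2 := by
      have : 2 * k + 1 ≠ 0 := by omega
      positivity
    have k3 := sq_nonneg (2 * l + 1)
    omega
  have x0 : x ≠ 0 := by
    rintro rfl
    simp at h3
  have V0 : 0 < V := pos_of_mul_pos_right (by rw [e2]; positivity) U0.le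
  have cUV : IsCoprime U V := by
    refine isCoprime_of_prime_dvd (by omega) fun p hp h1 h2 => ?_
    have h4 : p ∣ 3 * (2 * l + 1) ^ 2 := by
      have := dvd_sub h1 h2
      rwa [show U - V = 3 * (2 * l + 1) ^ 2 by linarith] at this
    rcases hp.dvd_or_dvd h4 with h5 | h5
    · exact h3 ((three hp h5 (hp.dvd_of_dvd_pow (e2 ▸ h1.mul_right V))).mul_left 4)
    · refine both hc hp (hp.dvd_of_dvd_pow (n := 2) ?_) (hp.dvd_of_dvd_pow h5)
      have := dvd_sub (h1.mul_left 4) h4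
      rwa [show 4 * U - 3 * (2 * l + 1) ^ 2 = (2 * k + 1) ^ 2 by rw [hU]; ring] at this
  obtain ⟨u, v, rfl, rfl, -⟩ := two cUV U0 V0 e2
  have e3 := congrArg (Int.cast : ℤ → ZMod 4) hU
  have e4 := congrArg (Int.cast : ℤ → ZMod 4) hV
  push_cast at e3 e4
  exact (by decide : ∀ k l u v : ZMod 4, u ^ 2 = k ^ 2 + k + 3 * l ^ 2 + 3 * l + 1 →
    v ^ 2 ≠ u ^ 2 - 3 * (2 * l + 1) ^ 2) _ _ _ _ e3 e4

theorem even_case {X a b : ℤ} (hc : IsCoprime a b) (h3 : ¬(3 : ℤ) ∣ X) (hX : X % 2 = 1)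
    (b0 : b ≠ 0) (e : X ^ 2 = (a ^ 2 + 3 * b ^ 2) * (a ^ 2 - 9 * b ^ 2)) :
    ∃ i j, IsCoprime i j ∧ b ^ 2 = (i * j) ^ 2 ∧
      i ^ 4 + 3 * i ^ 2 * j ^ 2 + 9 * j ^ 4 = a ^ 2 := by
  have X0 : X ≠ 0 := by omega
  have b2 : 0 < b ^ 2 := by positivity
  have U0 : 0 < a ^ 2 + 3 * b ^ 2 := by positivity
  have V0 : 0 < a ^ 2 - 9 * b ^ 2 := pos_of_mul_pos_right (by rw [← e]; positivity) U0.le
  have cUV : IsCoprime (a ^ 2 + 3 * b ^ 2) (a ^ 2 - 9 * b ^ 2) := by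
    refine isCoprime_of_prime_dvd (by omega) fun p hp h1 h2 => ?_
    have hpX : p ∣ X := hp.dvd_of_dvd_pow (e ▸ h1.mul_right _)
    have h4 : p ∣ 2 ^ 2 * (3 * b ^ 2) := by
      have := dvd_sub h1 h2
      rwa [show a ^ 2 + 3 * b ^ 2 - (a ^ 2 - 9 * b ^ 2) = 2 ^ 2 * (3 * b ^ 2) by ring] at this
    rcases hp.dvd_or_dvd h4 with h5 | h5
    · exact both (Int.isCoprime_two_right.2 (Int.odd_iff.2 hX)) hp hpX (hp.dvd_of_dvd_pow h5)
    rcases hp.dvd_or_dvd h5 with h6 | h6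
    · exact h3 (three hp h6 hpX)
    · refine both hc hp (hp.dvd_of_dvd_pow (n := 2) ?_) (hp.dvd_of_dvd_pow h6)
      simpa using dvd_sub h1 h5
  obtain ⟨u, v, hu, hv, cuv⟩ := two cUV U0 V0 e.symm
  have e1 : |u| ^ 2 = |v| ^ 2 + 12 * b ^ 2 := by rw [sq_abs, sq_abs]; linarith
  have lt : |v| < |u| := by
    by_contra k
    nlinarith [abs_nonneg u]
  obtain ⟨R, hR⟩ : ∃ R, |u| = |v| + 2 * R := by
    refine ⟨(|u| - |v|) / 2, ?_⟩
    have := sqmod |u|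
    have := sqmod |v|
    omega
  have v0 := abs_nonneg v
  have e2 : R * (|v| + R) = 3 * b ^ 2 := by
    rw [hR] at e1
    linarith
  have cR : IsCoprime R (|v| + R) := by
    refine isCoprime_of_prime_dvd (by omega) fun p hp h1 h2 => ?_
    refine both cuv hp ((dvd_abs _ _).1 ?_) ((dvd_abs _ _).1 (by simpa using dvd_sub h2 h1))
    rw [show |u| = R + (|v| + R) by linarith]
    exact dvd_add h1 h2
  obtain ⟨i, j, k1, k2, k3⟩ := split3 cR (by omega) (by omega) e2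
  refine ⟨i, j, k1, k2, ?_⟩
  have k4 : u ^ 2 = (i ^ 2 + 3 * j ^ 2) ^ 2 := by
    rw [← sq_abs u, ← k3, hR]; ring
  linear_combination -k4 - hu + 3 * k2

theorem aux (N : ℕ) : ∀ x y z : ℤ, (x * y) ^ 2 < N → IsCoprime x y →
    x ^ 4 + 3 * x ^ 2 * y ^ 2 + 9 * y ^ 4 = z ^ 2 → x * y = 0 := by
  induction N with
  | zero => exact fun x y z h => absurd h (not_lt.2 (by positivity))
  | succ N ih =>
    intro x y z h hc e
    push_cast at h
    by_contra n0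
    have x0 := left_ne_zero_of_mul n0
    have y0 := right_ne_zero_of_mul n0
    have y4 : 0 < y ^ 4 := by positivity
    by_cases h3 : (3 : ℤ) ∣ x
    · obtain ⟨x, rfl⟩ := h3
      obtain ⟨z, rfl⟩ : (3 : ℤ) ∣ z := Int.prime_three.dvd_of_dvd_pow (n := 2)
        ⟨27 * x ^ 4 + 9 * x ^ 2 * y ^ 2 + 3 * y ^ 4, by linear_combination -e⟩
      have k : 0 < (y * x) ^ 2 := by
        have := right_ne_zero_of_mul x0
        positivity
      have := ih y x z (by nlinarith) hc.of_mul_left_right.symm (by linarith)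
      rw [this] at k
      simp at k
    rcases Int.even_or_odd' y with ⟨w, rfl | rfl⟩
    · have hx : x % 2 = 1 := by
        have := par hc
        omega
      obtain ⟨T, hT⟩ : ∃ T, T = x ^ 2 + 6 * w ^ 2 := ⟨_, rfl⟩
      have T0 : 0 ≤ T := by rw [hT]; positivity
      have e1 : |z| ^ 2 = T ^ 2 + 108 * w ^ 4 := by rw [sq_abs, ← e, hT]; ring
      have z0 : T < |z| := by
        by_contra k
        nlinarith [abs_nonneg z]
      obtain ⟨P, hP⟩ : ∃ P, |z| = T + 2 * P := by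
        refine ⟨(|z| - T) / 2, ?_⟩
        have := sqmod |z|
        have := sqmod T
        omega
      obtain ⟨a, b, cab, b0, hab, e2⟩ := mid (P := P) hc.of_mul_right_right h3 (by omega) (by
        rw [hP, hT] at e1
        linarith)
      obtain ⟨i, j, k1, k2, k3⟩ := even_case cab h3 hx b0 e2
      have w0 : 0 < w ^ 2 := by
        have := right_ne_zero_of_mul y0
        positivity
      have a0 : a ≠ 0 := by
        rintro rfl
        simp [hab] at w0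
      have a2 : 0 < a ^ 2 := by positivity
      have b2 : 0 < b ^ 2 := by positivity
      have x2 : 0 < x ^ 2 := by positivity
      have l1 : b ^ 2 ≤ w ^ 2 := by rw [hab]; nlinarith
      have := ih i j a (by nlinarith) k1 k3
      rw [k2, this] at b2
      simp at b2
    · obtain ⟨T, hT⟩ : ∃ T, T = 2 * x ^ 2 + 3 * (2 * w + 1) ^ 2 := ⟨_, rfl⟩
      have T0 : 0 ≤ T := by rw [hT]; positivity
      have e1 : (2 * |z|) ^ 2 = T ^ 2 + 27 * (2 * w + 1) ^ 4 := by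
        rw [mul_pow, sq_abs, ← e, hT]; ring
      have z0 : T < 2 * |z| := by
        by_contra k
        nlinarith [abs_nonneg z]
      have h4 : ¬(3 : ℤ) ∣ 2 * x := by omega
      obtain ⟨a, b, cab, -, hab, e2⟩ := mid (X := 2 * x) (P := 2 * |z| - T)
        ((Int.isCoprime_two_left.2 ⟨w, rfl⟩).mul_left hc) h4 (by omega) (by
          rw [hT] at e1 ⊢
          linear_combination e1)
      have o : Odd (a * b) := by
        have : Odd ((2 * w + 1) ^ 2) := Odd.pow ⟨w, rfl⟩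
        rw [hab] at this
        exact (Int.odd_pow' two_ne_zero).1 this
      obtain ⟨⟨k, rfl⟩, l, rfl⟩ := Int.odd_mul.1 o
      exact odd_case cab h4 e2

theorem pos {A B Q r : ℤ} (h : IsCoprime A B) (hQ : A ^ 2 + A * B + B ^ 2 = Q ^ 2) (hA : 0 < A)
    (hB : 0 < B) (e : A * B = 3 * r ^ 2) : False := by
  obtain ⟨i, j, k1, k2, k3⟩ := split3 h hA hB e
  have := aux _ i j Q (big _) k1 (by
    linear_combination hQ - (A + B + i ^ 2 + 3 * j ^ 2) * k3 + e + 3 * k2)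
  have k := mul_pos hA hB
  rw [e, k2, this] at k
  simp at k

end YQuartAux

theorem nsq3 {A B Q : ℤ} (h : IsCoprime A B) (hQ : A ^ 2 + A * B + B ^ 2 = Q ^ 2) (hA : A ≠ 0)
    (hB : B ≠ 0) : ¬IsSquare (3 * (A * B)) := by
  rintro ⟨r, hr⟩
  obtain ⟨r, rfl⟩ : (3 : ℤ) ∣ r :=
    Int.prime_three.dvd_of_dvd_pow (n := 2) ⟨A * B, by linear_combination -hr⟩
  have e : A * B = 3 * r ^ 2 := by linarith
  have k : 0 < A * B := lt_of_le_of_ne (by rw [e]; positivity) (mul_ne_zero hA hB).symm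
  rcases pos_and_pos_or_neg_and_neg_of_mul_pos k with k | k
  · exact YQuartAux.pos h hQ k.1 k.2 e
  · exact YQuartAux.pos (Q := Q) (r := r) h.neg_neg (by linear_combination hQ) (neg_pos.2 k.1)
      (neg_pos.2 k.2) (by linear_combination e)

end Pool.Agent.Lib.MP_7d3fda_nt.R4
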