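import Pool.Agent.Lib.MP_7d3fda_nt.R4.YLine
import Pool.Agent.Lib.MP_7d3fda_nt.R4.YQuart

open Finset Module
open scoped NumberTheorySymbols

noncomputable section

namespace Pool.Agent.Lib.MP_7d3fda_nt.R4

open Pool.Agent.Lib.MP_788af2_nt Pool.Agent.Lib.MP_7d3fda_nt.R2 Pool.Agent.Lib.MP_7d3fda_nt.R3

theorem cl_eq_zero {n : ℤ} (hn : n ≠ 0) : cl n = 0 ↔ IsSquare n := by
  constructor
  · intro h
    have h0 : qS n = 0 := by rw [← cl_zero_apply, h, Finsupp.zero_apply]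
    have hp : 0 < n := by
      by_contra hc
      rw [qS, if_pos (lt_of_le_of_ne (not_lt.1 hc) hn)] at h0
      exact one_ne_zero h0
    refine isSquare_of_even_val hp fun p hp => ?_
    rw [← qV_eq_zero, ← cl_prime_apply _ hp, h, Finsupp.zero_apply]
  · rintro ⟨k, rfl⟩
    have hk : k ≠ 0 := fun h => hn (by rw [h, mul_zero])
    rw [cl_mul hk hk, add_self]

namespace YCharAux

theorem cases2 (a : ZMod 2) : a = 0 ∨ a = 1 := by
  revert a
  decide

theorem eq_one {a : ZMod 2} (h : a ≠ 0) : a = 1 := (cases2 a).resolve_left h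

theorem ep_ne : ep ≠ 0 := by
  rw [ep]
  exact Finsupp.single_ne_zero.2 one_ne_zero

theorem two_smul0 (x : X) : (2 : ℕ) • x = 0 := by
  rw [two_nsmul, add_self]

theorem sq_of_mul {x n : ℤ} (hc : IsCoprime x n) (hn : 0 < n) (h : IsSquare (x * n)) :
    IsSquare x := by
  obtain ⟨c, hc'⟩ := h
  obtain ⟨a, ha | ha⟩ := Int.sq_of_isCoprime hc (c := c) (by rw [hc', sq])
  · exact ⟨a, by rw [ha, sq]⟩
  · have h1 : 0 ≤ x * n := by
      rw [hc']
      exact mul_self_nonneg c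
    have h2 : 0 ≤ x := nonneg_of_mul_nonneg_left h1 hn
    have h3 : x = 0 := by nlinarith [sq_nonneg a]
    exact ⟨0, by rw [h3, mul_zero]⟩

theorem nsq_neg {n : ℤ} (hn : n < 0) : ¬IsSquare n := by
  rintro ⟨k, rfl⟩
  exact not_lt.2 (mul_self_nonneg k) hn

theorem wit_all {A : ℤ} (hA : A ≠ 0) (h : ¬IsSquare |A|) :
    ∃ p : ℕ, p ≠ 0 ∧ cl A p = 1 ∧ ∀ x : ℤ, IsCoprime A x → cl x p = 0 := by
  obtain ⟨p, hp, h1⟩ : ∃ p : ℕ, p.Prime ∧ qV p A = 1 := by
    by_contra hc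
    refine h (isSquare_of_even_val (abs_pos.2 hA) fun p hp => ?_)
    have e : padicValInt p |A| = padicValInt p A := by
      unfold padicValInt
      rw [Int.natAbs_abs]
    rw [e, ← qV_eq_zero]
    exact (cases2 _).resolve_right fun h1 => hc ⟨p, hp, h1⟩
  have hd := XKumAux.dvd_of_qV h1
  have hu := (Nat.prime_iff_prime_int.1 hp).not_isUnit
  refine ⟨p, hp.ne_zero, ?_, fun x hx => ?_⟩
  · rw [cl_prime_apply _ hp, h1]
  · rw [cl_prime_apply _ hp, TwistAux.qV_zero fun h' => hu (hx.isUnit_of_dvd' hd h')]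

theorem d3 (A B C : ℤ) : (3 : ℤ) ∣ H5 A B C :=
  ⟨(A * B * C) * nm A B * mm A B, by unfold H5; ring⟩

theorem dA (A B C : ℤ) : A ∣ H5 A B C :=
  ⟨3 * (B * C) * nm A B * mm A B, by unfold H5; ring⟩

theorem dB (A B C : ℤ) : B ∣ H5 A B C :=
  ⟨3 * (A * C) * nm A B * mm A B, by unfold H5; ring⟩

theorem dC (A B C : ℤ) : C ∣ H5 A B C :=
  ⟨3 * (A * B) * nm A B * mm A B, by unfold H5; ring⟩

theorem dn (A B C : ℤ) : nm A B ∣ H5 A B C :=
  ⟨3 * (A * B * C) * mm A B, by unfold H5; ring⟩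

theorem dm (A B C : ℤ) : mm A B ∣ H5 A B C :=
  ⟨3 * (A * B * C) * nm A B, by unfold H5; ring⟩

/-- a submodule containing the generators contains the constants -/
theorem GC_le_of {A B C : ℤ} {W : Submodule (ZMod 2) X} (h0 : ep ∈ W)
    (h : ∀ x : ℤ, x ∣ H5 A B C → cl x ∈ W) : GC A B C ≤ W := by
  refine sup_le (Submodule.span_le.2 ?_) (Submodule.span_le.2 ?_)
  · rintro x (rfl | rfl | rfl | rfl)
    exacts [h0, h _ (dA A B C), h _ (dB A B C), h _ (dC A B C)]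
  · rintro x (rfl | rfl | rfl)
    exacts [h _ (d3 A B C), h _ (dn A B C), h _ (dm A B C)]

section

variable {A B C : ℤ} (hF : Fam4 A B C)

include hF

theorem cAC : IsCoprime A C := by
  rw [← hF.hs, show A + B = B + A * 1 by ring]
  exact hF.cop.add_mul_left_right 1

theorem cBC : IsCoprime B C := by
  rw [← hF.hs, show A + B = A + B * 1 by ring]
  exact hF.cop.symm.add_mul_left_right 1

theorem cAn : IsCoprime A (nm A B) := by
  rw [show nm A B = B * B + A * (A + B) by unfold nm; ring]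
  exact (hF.cop.mul_right hF.cop).add_mul_left_right _

theorem cBn : IsCoprime B (nm A B) := by
  rw [show nm A B = A * A + B * (A + B) by unfold nm; ring]
  exact (hF.cop.symm.mul_right hF.cop.symm).add_mul_left_right _

theorem cCn : IsCoprime C (nm A B) := by
  rw [show nm A B = A * A + C * B by unfold nm; rw [← hF.hs]; ring]
  exact ((cAC hF).symm.mul_right (cAC hF).symm).add_mul_left_right _

theorem sum3 : cl (A * C) + cl (-(A * B)) + cl (B * C) = ep := by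
  rw [cl_neg (mul_ne_zero hF.A0 hF.B0), cl_mul hF.A0 hF.C0.ne', cl_mul hF.A0 hF.B0,
    cl_mul hF.B0 hF.C0.ne']
  have e : cl A + cl C + (ep + (cl A + cl B)) + (cl B + cl C) =
      ep + (cl A + cl A) + (cl B + cl B) + (cl C + cl C) := by abel
  rw [e, add_self, add_self, add_self, add_zero, add_zero, add_zero]

end

end YCharAux

theorem tri_ex {x₁ x₂ x₃ m : X} (h1 : x₁ ≠ 0) (h2 : x₂ ≠ 0) (h3 : x₃ ≠ 0) (h4 : x₁ + x₂ + x₃ ≠ 0)
    (k1 : x₁ + m ≠ 0) (k2 : x₂ + m ≠ 0) (k3 : x₃ + m ≠ 0) (k4 : x₁ + x₂ + x₃ + m ≠ 0) :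
    ∃ φ : X →ₗ[ZMod 2] ZMod 2, φ x₁ = 1 ∧ φ x₂ = 1 ∧ φ x₃ = 1 ∧ φ m = 0 := by
  have hn : x₁ ∉ Submodule.span (ZMod 2) ({x₁ + x₂, x₁ + x₃, m} : Set X) := by
    intro h
    obtain ⟨a, y, hy, e1⟩ := Submodule.mem_span_insert.1 h
    obtain ⟨b, c, rfl⟩ := Submodule.mem_span_pair.1 hy
    have key : ∀ i, x₁ i = a * (x₁ i + x₂ i) + (b * (x₁ i + x₃ i) + c * m i) := fun i => by
      have := DFunLike.congr_fun e1 i
      simpa only [Finsupp.add_apply, Finsupp.smul_apply, smul_eq_mul] using this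
    rcases YCharAux.cases2 a with rfl | rfl <;> rcases YCharAux.cases2 b with rfl | rfl <;>
      rcases YCharAux.cases2 c with rfl | rfl
    · exact h1 (Finsupp.ext fun i => by
        rw [Finsupp.zero_apply]; linear_combination key i)
    · exact k1 (Finsupp.ext fun i => by
        rw [Finsupp.zero_apply, Finsupp.add_apply]
        linear_combination key i + m i * XGeoAux.two0)
    · exact h3 (Finsupp.ext fun i => by
        rw [Finsupp.zero_apply]; linear_combination -key i)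
    · exact k3 (Finsupp.ext fun i => by
        rw [Finsupp.zero_apply, Finsupp.add_apply]; linear_combination -key i)
    · exact h2 (Finsupp.ext fun i => by
        rw [Finsupp.zero_apply]; linear_combination -key i)
    · exact k2 (Finsupp.ext fun i => by
        rw [Finsupp.zero_apply, Finsupp.add_apply]; linear_combination -key i)
    · exact h4 (Finsupp.ext fun i => by
        rw [Finsupp.zero_apply, Finsupp.add_apply, Finsupp.add_apply]; linear_combination -key i)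
    · exact k4 (Finsupp.ext fun i => by
        rw [Finsupp.zero_apply, Finsupp.add_apply, Finsupp.add_apply, Finsupp.add_apply]
        linear_combination -key i)
  obtain ⟨φ, p1, p2⟩ := Submodule.exists_le_ker_of_notMem hn
  have q1 : φ x₁ = 1 := YCharAux.eq_one p1
  have q2 : φ (x₁ + x₂) = 0 := p2 (Submodule.subset_span (by simp))
  have q3 : φ (x₁ + x₃) = 0 := p2 (Submodule.subset_span (by simp))
  have q4 : φ m = 0 := p2 (Submodule.subset_span (by simp))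
  rw [map_add, q1] at q2 q3
  exact ⟨φ, q1, by linear_combination q2 - XGeoAux.two0, by linear_combination q3 - XGeoAux.two0, q4⟩

theorem mem_GC (A B C : ℤ) : ep ∈ GC A B C ∧ cl A ∈ GC A B C ∧ cl B ∈ GC A B C ∧ cl C ∈ GC A B C ∧
    cl 3 ∈ GC A B C ∧ cl (-3) ∈ GC A B C ∧ cl (nm A B) ∈ GC A B C ∧ cl (mm A B) ∈ GC A B C := by
  have l1 : ∀ x ∈ ({ep, cl A, cl B, cl C} : Set X), x ∈ GC A B C := fun x hx =>
    Submodule.mem_sup_left (Submodule.subset_span hx)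
  have l2 : ∀ x ∈ ({cl 3, cl (nm A B), cl (mm A B)} : Set X), x ∈ GC A B C := fun x hx =>
    Submodule.mem_sup_right (Submodule.subset_span hx)
  have e0 := l1 ep (by simp)
  have e3 := l2 (cl 3) (by simp)
  refine ⟨e0, l1 _ (by simp), l1 _ (by simp), l1 _ (by simp), e3, ?_, l2 _ (by simp),
    l2 _ (by simp)⟩
  rw [cl_neg (by norm_num)]
  exact add_mem e0 e3

theorem GC_le_GG (A B C U V : ℤ) : GC A B C ≤ GG A B C U V :=
  le_sup_left.trans le_sup_left

section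

variable {A B C : ℤ} (hF : Fam4 A B C)

include hF

theorem GC_zero {r : ℕ} (hr : r.Prime) (hH : ¬(r : ℤ) ∣ H5 A B C) : ∀ γ ∈ GC A B C, γ r = 0 := by
  have _ := hF.hs
  have h : GC A B C ≤ LinearMap.ker (Finsupp.lapply r : X →ₗ[ZMod 2] ZMod 2) := by
    refine YCharAux.GC_le_of ?_ fun x hx => ?_
    · rw [LinearMap.mem_ker, Finsupp.lapply_apply, ep]
      exact Finsupp.single_eq_of_ne hr.ne_zero
    · rw [LinearMap.mem_ker, Finsupp.lapply_apply, cl_prime_apply _ hr,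
        TwistAux.qV_zero fun h => hH (h.trans hx)]
  exact fun γ hγ => h hγ

theorem GC_le {T : Finset ℕ} (hT : ∀ r : ℕ, r.Prime → r ≠ 2 → (r : ℤ) ∣ H5 A B C → r ∈ T) :
    GC A B C ≤ Sup T := by
  refine YCharAux.GC_le_of (ep_mem_Sup T) fun x hx => ?_
  exact cl_mem_Sup (ne_zero_of_dvd_ne_zero hF.H0 hx) fun r hr h2 hd => hT r hr h2 (hd.trans hx)

namespace YCharAux

/-- the common part of the two characters that are odd -/
theorem chi_gen {m : ℤ} (hm : m ≠ 0) (k1 : ¬IsSquare (A * C * m)) (k2 : ¬IsSquare (-(A * B) * m))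
    (k3 : ¬IsSquare (B * C * m)) (k4 : ¬IsSquare (-m)) :
    ∃ (φ : X →ₗ[ZMod 2] ZMod 2) (d : ZMod 2), φ ep = 1 ∧ φ (cl A) = d ∧
      φ (cl B) = d ∧ φ (cl C) = d + 1 ∧ φ (cl m) = 0 := by
  have z1 : A * C ≠ 0 := mul_ne_zero hF.A0 hF.C0.ne'
  have z2 : -(A * B) ≠ 0 := neg_ne_zero.2 (mul_ne_zero hF.A0 hF.B0)
  have z3 : B * C ≠ 0 := mul_ne_zero hF.B0 hF.C0.ne'
  obtain ⟨φ, p1, p2, p3, p4⟩ := tri_ex (x₁ := cl (A * C)) (x₂ := cl (-(A * B)))
    (x₃ := cl (B * C)) (m := cl m) (fun h => hF.nAC ((cl_eq_zero z1).1 h))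
    (fun h => hF.nAB ((cl_eq_zero z2).1 h)) (fun h => hF.nBC ((cl_eq_zero z3).1 h))
    (by rw [sum3 hF]; exact ep_ne)
    (fun h => k1 ((cl_eq_zero (mul_ne_zero z1 hm)).1 (by rw [cl_mul z1 hm, h])))
    (fun h => k2 ((cl_eq_zero (mul_ne_zero z2 hm)).1 (by rw [cl_mul z2 hm, h])))
    (fun h => k3 ((cl_eq_zero (mul_ne_zero z3 hm)).1 (by rw [cl_mul z3 hm, h])))
    (fun h => k4 ((cl_eq_zero (neg_ne_zero.2 hm)).1 (by rw [cl_neg hm, ← sum3 hF, h])))
  rw [cl_mul hF.A0 hF.C0.ne', map_add] at p1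
  rw [cl_neg (mul_ne_zero hF.A0 hF.B0), cl_mul hF.A0 hF.B0, map_add, map_add] at p2
  rw [cl_mul hF.B0 hF.C0.ne', map_add] at p3
  refine ⟨φ, φ (cl A), ?_, rfl, ?_, ?_, p4⟩
  · linear_combination p1 + p2 + p3 +
      (1 - φ (cl A) - φ (cl B) - φ (cl C)) * XGeoAux.two0
  · linear_combination p1 + p3 + (1 - φ (cl A) - φ (cl C)) * XGeoAux.two0
  · linear_combination p1 - φ (cl A) * XGeoAux.two0

end YCharAux

theorem chi0_ex : ∃ (φ : X →ₗ[ZMod 2] ZMod 2) (d : ZMod 2), φ ep = 1 ∧ φ (cl A) = d ∧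
    φ (cl B) = d ∧ φ (cl C) = d + 1 ∧ φ (cl (nm A B)) = 0 := by
  have n0 := hF.n0
  have cA := YCharAux.cAn hF
  have cB := YCharAux.cBn hF
  have cC := YCharAux.cCn hF
  exact YCharAux.chi_gen hF n0.ne'
    (fun h => hF.nAC (YCharAux.sq_of_mul (cA.mul_left cC) n0 h))
    (fun h => hF.nAB (YCharAux.sq_of_mul (cA.mul_left cB).neg_left n0 h))
    (fun h => hF.nBC (YCharAux.sq_of_mul (cB.mul_left cC) n0 h))
    (YCharAux.nsq_neg (neg_neg_of_pos n0))

theorem chi3_ex (hsq : IsSquare (nm A B)) : ∃ (φ : X →ₗ[ZMod 2] ZMod 2) (d : ZMod 2), φ ep = 1 ∧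
    φ (cl A) = d ∧ φ (cl B) = d ∧ φ (cl C) = d + 1 ∧ φ (cl (-3)) = 0 := by
  obtain ⟨Q, hQ⟩ := hsq
  have hC : -C ≠ 0 := neg_ne_zero.2 hF.C0.ne'
  unfold nm at hQ
  refine YCharAux.chi_gen hF (by norm_num) ?_ ?_ ?_ ?_
  · rw [show A * C * -3 = 3 * (A * -C) by ring]
    exact nsq3 (Q := Q) (YCharAux.cAC hF).neg_right (by rw [← hF.hs]; linear_combination hQ)
      hF.A0 hC
  · rw [show -(A * B) * -3 = 3 * (A * B) by ring]
    exact nsq3 (Q := Q) hF.cop (by linear_combination hQ) hF.A0 hF.B0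
  · rw [show B * C * -3 = 3 * (B * -C) by ring]
    exact nsq3 (Q := Q) (YCharAux.cBC hF).neg_right (by rw [← hF.hs]; linear_combination hQ)
      hF.B0 hC
  · rw [neg_neg]
    exact Int.prime_three.not_isSquare

theorem chi2_ex : ∃ (φ : X →ₗ[ZMod 2] ZMod 2) (t : ZMod 2), φ ep = 0 ∧ φ (cl A) = t ∧
    φ (cl B) = 0 ∧ φ (cl C) = t + 1 ∧ φ (cl (nm A B)) = 0 := by
  by_cases hC : IsSquare C
  · have hA : ¬IsSquare |A| := by
      intro h
      rcases abs_choice A with e | e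
      · rw [e] at h
        exact hF.nAC (h.mul hC)
      · rw [e] at h
        exact hF.nA h
    obtain ⟨p, p0, p1, p2⟩ := YCharAux.wit_all hF.A0 hA
    refine ⟨Finsupp.lapply p, 1, Finsupp.single_eq_of_ne p0, p1, p2 _ hF.cop, ?_,
      p2 _ (YCharAux.cAn hF)⟩
    rw [Finsupp.lapply_apply, p2 _ (YCharAux.cAC hF)]
    rfl
  · obtain ⟨p, p0, p1, p2⟩ := YCharAux.wit_all hF.C0.ne' (by rwa [abs_of_pos hF.C0])
    refine ⟨Finsupp.lapply p, 0, Finsupp.single_eq_of_ne p0, p2 _ (YCharAux.cAC hF).symm,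
      p2 _ (YCharAux.cBC hF).symm, ?_, p2 _ (YCharAux.cCn hF)⟩
    rw [Finsupp.lapply_apply, p1, zero_add]

theorem psi0_ex : ∃ φ : X →ₗ[ZMod 2] ZMod 2, φ (cl (-3)) = 0 ∧ φ (cl (mm A B)) = 0 ∧
    (¬IsSquare (nm A B) → φ (cl (nm A B)) = 1) := by
  by_cases hs : IsSquare (nm A B)
  · exact ⟨0, rfl, rfl, fun h => (h hs).elim⟩
  · have n0 := hF.n0
    have z1 : cl (nm A B) ≠ 0 := fun h => hs ((cl_eq_zero n0.ne').1 h)
    have z2 : cl (nm A B) + cl (-3) ≠ 0 := fun h =>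
      YCharAux.nsq_neg (n := nm A B * -3) (by linarith)
        ((cl_eq_zero (mul_ne_zero n0.ne' (by norm_num))).1
          (by rw [cl_mul n0.ne' (by norm_num), h]))
    have e : cl (nm A B) + cl (nm A B) + cl (nm A B) = cl (nm A B) := by
      rw [add_self, zero_add]
    obtain ⟨φ, p1, -, -, p4⟩ := tri_ex z1 z1 z1 (by rwa [e]) z2 z2 z2 (by rwa [e])
    refine ⟨φ, p4, ?_, fun _ => p1⟩
    rw [mm, if_neg hs, cl_one, map_zero]

/-- the values on the norm and on the six forms are free -/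
theorem adjust {U V : ℤ} (hI : Inv5 A B C U V) (φ₀ : X →ₗ[ZMod 2] ZMod 2) (ν₀ : ZMod 2)
    (κ : Fin 6 → ZMod 2) : ∃ φ : X →ₗ[ZMod 2] ZMod 2, (∀ γ ∈ GC A B C, φ γ = φ₀ γ) ∧
      φ (cl (nm U V)) = ν₀ ∧ ∀ j, φ (kk4 A B C U V j) = κ j := by
  obtain ⟨w, w', hw, q1, q2, q3⟩ := hI.wit
  refine ⟨φ₀ + ∑ j, (κ j + φ₀ (kk4 A B C U V j)) • Finsupp.lapply (w j) +
    (ν₀ + φ₀ (cl (nm U V))) • Finsupp.lapply w', fun γ hγ => ?_, ?_, fun j => ?_⟩
  · have z1 : ∀ j, γ (w j) = 0 := fun j => GC_zero hF (hw j).1 (hw j).2.1 γ hγ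
    have z2 : γ w' = 0 := GC_zero hF q1 q2 γ hγ
    simp only [LinearMap.add_apply, LinearMap.smul_apply, LinearMap.sum_apply,
      Finsupp.lapply_apply, z1, z2, smul_eq_mul, mul_zero, sum_const_zero, add_zero]
  · have z1 : ∀ j, cl (nm U V) (w j) = 0 := fun j => (hw j).2.2.1
    simp only [LinearMap.add_apply, LinearMap.smul_apply, LinearMap.sum_apply,
      Finsupp.lapply_apply, z1, q3, smul_eq_mul, mul_zero, sum_const_zero, add_zero, mul_one]
    linear_combination φ₀ (cl (nm U V)) * XGeoAux.two0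
  · have z1 : ∀ i, kk4 A B C U V j (w i) = if j = i then 1 else 0 := fun i => (hw i).2.2.2.2 j
    have z2 : kk4 A B C U V j w' = 0 := (hw j).2.2.2.1
    simp only [LinearMap.add_apply, LinearMap.smul_apply, LinearMap.sum_apply,
      Finsupp.lapply_apply, z1, z2, smul_eq_mul, mul_ite, mul_one, mul_zero, sum_ite_eq, mem_univ,
      if_true, add_zero]
    linear_combination φ₀ (kk4 A B C U V j) * XGeoAux.two0

end

end Pool.Agent.Lib.MP_7d3fda_nt.R4
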