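import Pool.Agent.Lib.MP_7d3fda_nt.R4.YDefs
import Pool.Agent.Lib.MP_7d3fda_nt.R2.Count

open Finset Module
open scoped NumberTheorySymbols

noncomputable section

namespace Pool.Agent.Lib.MP_7d3fda_nt.R4

open Pool.Agent.Lib.MP_788af2_nt Pool.Agent.Lib.MP_7d3fda_nt.R2 Pool.Agent.Lib.MP_7d3fda_nt.R3

namespace YCountAux

variable {c : Fin 6 → ℤ} {G : ℤ} {W₀ u : ℕ} {v : Fin 4 → ℕ} {P : Fin 4 → ℤ → ℤ → Prop} {ξ : Rule}

theorem vals {a s : ℤ} (h : Good5 c G W₀ u v P ξ a s) (j : Fin 6) :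
    ∃ r : ℕ, r.Prime ∧ (r : ℤ) = a + c j * s := by
  obtain ⟨p, g, n, q, h, -⟩ := h
  exact ⟨p j, (h.pr j).1, (h.pr j).2.2⟩

theorem gg_pos {a s : ℤ} (h : Good5 c G W₀ u v P ξ a s) : 0 < gg c G a s := by
  have h1 : ∀ j, 0 < a + c j * s := fun j => by
    obtain ⟨r, hr, e⟩ := vals h j
    rw [← e]
    exact_mod_cast hr.pos
  obtain ⟨p, g, n, q, h, -⟩ := h
  refine mul_pos ?_ (Finset.prod_pos fun j _ => h1 j)
  rw [← h.nq]
  exact mul_pos (by exact_mod_cast Nat.pos_of_ne_zero h.sq.ne_zero) (by exact_mod_cast h.qp.pos)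

theorem fiber (hc : Function.Injective c) (d₀ : ℤ) (hd₀ : d₀ ≠ 0) (Z : Finset (ℤ × ℤ))
    (hZ : ∀ z ∈ Z, Good5 c G W₀ u v P ξ z.1 z.2) (L : ℕ)
    (hL : ∀ z ∈ Z, (gg c G z.1 z.2).natAbs.primeFactors.card ≤ L) :
    Z.card ≤ L ^ 2 * (Z.image fun z : ℤ × ℤ => d₀ * gg c G z.1 z.2).card := by
  refine card_le_mul_card_image Z _ fun d hd => ?_
  obtain ⟨z0, hz0, rfl⟩ := mem_image.mp hd
  have h0 : (gg c G z0.1 z0.2).natAbs ≠ 0 := Int.natAbs_ne_zero.2 (gg_pos (hZ z0 hz0)).ne'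
  have key : ∀ z ∈ Z, d₀ * gg c G z.1 z.2 = d₀ * gg c G z0.1 z0.2 → ∀ j,
      (z.1 + c j * z.2).toNat ∈ (gg c G z0.1 z0.2).natAbs.primeFactors := by
    intro z hz e j
    obtain ⟨r, hr, er⟩ := vals (hZ z hz) j
    rw [← er, Int.toNat_natCast]
    refine Nat.mem_primeFactors.2 ⟨hr, Int.natCast_dvd.1 ?_, h0⟩
    rw [← mul_left_cancel₀ hd₀ e, er]
    exact (dvd_prod_of_mem (fun j => z.1 + c j * z.2) (mem_univ j)).mul_left _
  have cast : ∀ z ∈ Z, ∀ j, ((z.1 + c j * z.2).toNat : ℤ) = z.1 + c j * z.2 := by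
    intro z hz j
    obtain ⟨r, -, er⟩ := vals (hZ z hz) j
    rw [← er, Int.toNat_natCast]
  refine (card_le_card_of_injOn (t := (gg c G z0.1 z0.2).natAbs.primeFactors ×ˢ
    (gg c G z0.1 z0.2).natAbs.primeFactors)
    (fun z => ((z.1 + c 0 * z.2).toNat, (z.1 + c 1 * z.2).toNat)) ?_ ?_).trans ?_
  · intro z hz
    obtain ⟨h1, h2⟩ := mem_filter.mp (mem_coe.1 hz)
    exact mem_coe.2 (mem_product.2 ⟨key z h1 h2 0, key z h1 h2 1⟩)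
  · intro z hz z' hz' e
    have h1 := (mem_filter.mp (mem_coe.1 hz)).1
    have h1' := (mem_filter.mp (mem_coe.1 hz')).1
    have e0 : z.1 + c 0 * z.2 = z'.1 + c 0 * z'.2 := by
      rw [← cast z h1, ← cast z' h1']
      exact congrArg Nat.cast (congrArg Prod.fst e)
    have e1 : z.1 + c 1 * z.2 = z'.1 + c 1 * z'.2 := by
      rw [← cast z h1, ← cast z' h1']
      exact congrArg Nat.cast (congrArg Prod.snd e)
    have hne : c 0 - c 1 ≠ 0 := sub_ne_zero.2 fun h => absurd (hc h) (by decide)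
    have e2 : z.2 = z'.2 := mul_left_cancel₀ hne (by linear_combination e0 - e1)
    refine Prod.ext ?_ e2
    rw [e2] at e0
    exact add_right_cancel e0
  · rw [card_product, sq]
    exact Nat.mul_le_mul (hL z0 hz0) (hL z0 hz0)

/-- the number of prime factors is at most twice the logarithm -/
theorem card_le {m : ℕ} (hm : m ≠ 0) {D : ℝ} (hD : (m : ℝ) ≤ D) :
    (m.primeFactors.card : ℝ) ≤ 2 * Real.log D := by
  have h1 : 2 ^ m.primeFactors.card ≤ m :=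
    (Finset.pow_card_le_prod _ (fun r => r) 2
      fun r hr => (Nat.prime_of_mem_primeFactors hr).two_le).trans
      (Nat.le_of_dvd (Nat.pos_of_ne_zero hm) (Nat.prod_primeFactors_dvd m))
  have h2 : (2 : ℝ) ^ m.primeFactors.card ≤ D := le_trans (by exact_mod_cast h1) hD
  have h3 := Real.log_le_log (by positivity) h2
  rw [Real.log_pow] at h3
  have h4 := Real.log_two_gt_d9
  have h5 : (0 : ℝ) ≤ m.primeFactors.card := Nat.cast_nonneg _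
  nlinarith

theorem gg_le (c : Fin 6 → ℤ) (G a s : ℤ) {T : ℝ} (ha : |(a : ℝ)| ≤ T) (hs : |(s : ℝ)| ≤ T) :
    |(gg c G a s : ℝ)| ≤ ((1 + 2 * |(G : ℝ)| + ∑ j, |(c j : ℝ)|) * T) ^ 8 := by
  have hT : 0 ≤ T := (abs_nonneg _).trans ha
  have hS : 0 ≤ ∑ j, |(c j : ℝ)| := sum_nonneg fun j _ => abs_nonneg _
  have hG : 0 ≤ |(G : ℝ)| := abs_nonneg _
  obtain ⟨V, hV⟩ : ∃ V : ℝ, V = 1 + 2 * |(G : ℝ)| + ∑ j, |(c j : ℝ)| := ⟨_, rfl⟩
  rw [← hV]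
  have h1 : ∀ j, |(a : ℝ) + c j * s| ≤ V * T := by
    intro j
    have h2 : |(c j : ℝ)| ≤ ∑ j, |(c j : ℝ)| :=
      single_le_sum (f := fun j => |(c j : ℝ)|) (fun j _ => abs_nonneg _) (mem_univ j)
    have h3 : |(c j : ℝ)| * |(s : ℝ)| ≤ (∑ j, |(c j : ℝ)|) * T :=
      mul_le_mul h2 hs (abs_nonneg _) hS
    have h4 := abs_add_le (a : ℝ) (c j * s)
    rw [abs_mul] at h4
    rw [hV]
    nlinarith [mul_nonneg hG hT]
  have h5 : |(a : ℝ) ^ 2 + 3 * (G * s) ^ 2| ≤ (V * T) ^ 2 := by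
    rw [abs_of_nonneg (by positivity), mul_pow, ← sq_abs (a : ℝ), ← sq_abs (G : ℝ),
      ← sq_abs (s : ℝ)]
    have h6 : |(a : ℝ)| ^ 2 ≤ T ^ 2 := pow_le_pow_left₀ (abs_nonneg _) ha 2
    have h7 : |(s : ℝ)| ^ 2 ≤ T ^ 2 := pow_le_pow_left₀ (abs_nonneg _) hs 2
    have h8 : |(G : ℝ)| ^ 2 * |(s : ℝ)| ^ 2 ≤ |(G : ℝ)| ^ 2 * T ^ 2 := by gcongr
    have h9 : (1 + 2 * |(G : ℝ)|) ^ 2 ≤ V ^ 2 :=
      pow_le_pow_left₀ (by positivity) (by rw [hV]; linarith) 2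
    have h10 : (1 + 3 * |(G : ℝ)| ^ 2) * T ^ 2 ≤ V ^ 2 * T ^ 2 :=
      mul_le_mul_of_nonneg_right (by nlinarith) (by positivity)
    rw [mul_pow]
    linarith
  have h11 : ∏ j, |(a : ℝ) + c j * s| ≤ (V * T) ^ 6 := by
    have := Finset.prod_le_prod (s := (univ : Finset (Fin 6)))
      (f := fun j => |(a : ℝ) + c j * s|) (g := fun _ => V * T) (fun j _ => abs_nonneg _)
      (fun j _ => h1 j)
    simpa using this
  unfold gg
  push_cast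
  rw [abs_mul, Finset.abs_prod, show (V * T) ^ 8 = (V * T) ^ 2 * (V * T) ^ 6 by ring]
  exact mul_le_mul h5 h11 (prod_nonneg fun j _ => abs_nonneg _) (by positivity)

end YCountAux

section

variable (hM : Many5) {c : Fin 6 → ℤ} {G : ℤ} {W₀ u : ℕ} {v : Fin 4 → ℕ}
  {P : Fin 4 → ℤ → ℤ → Prop} (hA : Adm5 c G W₀ u v P) (ξ : Rule)

include hM hA

theorem exists5 : ∃ a s, Good5 c G W₀ u v P ξ a s := by
  obtain ⟨K, κ, hκ, T₀, hmany⟩ := hM c G W₀ u v P hA ξ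
  obtain ⟨Z, hZ, hcard⟩ := hmany (max T₀ 2) (le_max_left _ _)
  have h2 : (2 : ℝ) ≤ max T₀ 2 := le_max_right _ _
  have hlog : 0 < Real.log (max T₀ 2) := Real.log_pos (by linarith)
  have hpos : (0 : ℝ) < Z.card := lt_of_lt_of_le (by positivity) hcard
  obtain ⟨z, hz⟩ := Finset.card_pos.1 (by exact_mod_cast hpos : 0 < Z.card)
  exact ⟨z.1, z.2, (hZ z hz).1⟩

theorem count5 (d₀ : ℤ) (hd₀ : d₀ ≠ 0) (p : ℤ → Prop)
    (hp : ∀ a s, Good5 c G W₀ u v P ξ a s → p (d₀ * gg c G a s)) :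
    ∃ (K : ℕ) (κ : ℝ), 0 < κ ∧ ∃ D₀ : ℝ, ∀ D : ℝ, D₀ ≤ D →
      κ * D ^ (1 / 4 : ℝ) / Real.log D ^ K ≤ (Set.ncard {d : ℤ | |(d : ℝ)| ≤ D ∧ p d} : ℝ) := by
  obtain ⟨K, κ, hκ, T₀, hmany⟩ := hM c G W₀ u v P hA ξ
  have hd1 : (1 : ℝ) ≤ |(d₀ : ℝ)| := by
    have := Int.one_le_abs hd₀
    exact_mod_cast this
  obtain ⟨V, hV⟩ : ∃ V : ℝ, V = 1 + 2 * |(G : ℝ)| + ∑ j, |(c j : ℝ)| := ⟨_, rfl⟩
  have hV1 : 1 ≤ V := by
    have hS : 0 ≤ ∑ j, |(c j : ℝ)| := sum_nonneg fun j _ => abs_nonneg _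
    have hG : 0 ≤ |(G : ℝ)| := abs_nonneg _
    linarith
  obtain ⟨E, hE⟩ : ∃ E : ℝ, E = |(d₀ : ℝ)| * V := ⟨_, rfl⟩
  have hE1 : 1 ≤ E := by rw [hE]; nlinarith
  have hE0 : 0 < E := by linarith
  refine ⟨K + 2, κ / (4 * E ^ 2), by positivity, (E * max T₀ 2) ^ 8, ?_⟩
  intro D hD
  have h2 : (2 : ℝ) ≤ max T₀ 2 := le_max_right _ _
  have hM1 : (1 : ℝ) ≤ E * max T₀ 2 := by nlinarith
  have hD1 : (1 : ℝ) ≤ D := (one_le_pow₀ hM1).trans hD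
  have hD0 : (0 : ℝ) ≤ D := by linarith
  obtain ⟨x, hx0, hx8, hx2⟩ : ∃ x : ℝ, 0 ≤ x ∧ x ^ 8 = D ∧ x ^ 2 = D ^ (1 / 4 : ℝ) := by
    refine ⟨D ^ (1 / 8 : ℝ), Real.rpow_nonneg hD0 _, ?_, ?_⟩
    · rw [← Real.rpow_natCast, ← Real.rpow_mul hD0]
      norm_num
    · rw [← Real.rpow_natCast, ← Real.rpow_mul hD0]
      norm_num
  have hxM : E * max T₀ 2 ≤ x := by
    refine le_of_pow_le_pow_left₀ (n := 8) (by norm_num) hx0 ?_
    rw [hx8]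
    exact hD
  have hx1 : 1 ≤ x := hM1.trans hxM
  obtain ⟨T, hT⟩ : ∃ T : ℝ, E * T = x := ⟨x / E, by field_simp⟩
  have hTM : max T₀ 2 ≤ T := le_of_mul_le_mul_left (by rwa [hT]) hE0
  have hT2 : 2 ≤ T := h2.trans hTM
  obtain ⟨Z, hZ, hcard⟩ := hmany T ((le_max_left _ _).trans hTM)
  have hxD : x ≤ D := by
    rw [← hx8]
    exact le_self_pow₀ hx1 (by norm_num)
  have hTD : T ≤ D := by nlinarith
  have hlogT : 0 < Real.log T := Real.log_pos (by linarith)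
  have hlog : Real.log T ≤ Real.log D := Real.log_le_log (by linarith) hTD
  have hlogD : 0 < Real.log D := hlogT.trans_le hlog
  have hbd : ∀ z ∈ Z, |(d₀ : ℝ)| * |(gg c G z.1 z.2 : ℝ)| ≤ D := by
    intro z hz
    have h1 := YCountAux.gg_le c G z.1 z.2 (hZ z hz).2.1 (hZ z hz).2.2
    rw [← hV] at h1
    have h5 : |(d₀ : ℝ)| ≤ |(d₀ : ℝ)| ^ 8 := le_self_pow₀ hd1 (by norm_num)
    refine (mul_le_mul h5 h1 (abs_nonneg _) (by positivity)).trans (le_of_eq ?_)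
    rw [← hx8, ← hT, hE]
    ring
  have hsub : ((Z.image fun z : ℤ × ℤ => d₀ * gg c G z.1 z.2 : Finset ℤ) : Set ℤ) ⊆
      {d : ℤ | |(d : ℝ)| ≤ D ∧ p d} := by
    intro d hd
    obtain ⟨z, hz, rfl⟩ := Finset.mem_image.1 (Finset.mem_coe.1 hd)
    refine ⟨?_, hp _ _ (hZ z hz).1⟩
    rw [Int.cast_mul, abs_mul]
    exact hbd z hz
  have hle : (Z.image fun z : ℤ × ℤ => d₀ * gg c G z.1 z.2).card ≤
      Set.ncard {d : ℤ | |(d : ℝ)| ≤ D ∧ p d} := by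
    rw [← Set.ncard_coe_finset]
    exact Set.ncard_le_ncard hsub (CountAux.fin_set p D)
  have hfib := YCountAux.fiber hA.hc d₀ hd₀ Z (fun z hz => (hZ z hz).1) ⌊2 * Real.log D⌋₊
    fun z hz => Nat.le_floor (YCountAux.card_le
      (Int.natAbs_ne_zero.2 (YCountAux.gg_pos (hZ z hz).1).ne') (by
        rw [Nat.cast_natAbs, Int.cast_abs]
        exact (le_mul_of_one_le_left (abs_nonneg _) hd1).trans (hbd z hz)))
  have hfl : (⌊2 * Real.log D⌋₊ : ℝ) ≤ 2 * Real.log D := Nat.floor_le (by positivity)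
  obtain ⟨Y, hY⟩ : ∃ Y : ℕ, Y = Set.ncard {d : ℤ | |(d : ℝ)| ≤ D ∧ p d} := ⟨_, rfl⟩
  rw [← hY] at hle ⊢
  have hZ' : (Z.card : ℝ) ≤ (2 * Real.log D) ^ 2 * Y := by
    have h3 : (Z.card : ℝ) ≤ (⌊2 * Real.log D⌋₊ : ℝ) ^ 2 * Y := by
      exact_mod_cast hfib.trans (Nat.mul_le_mul_left _ hle)
    exact h3.trans (by gcongr)
  have h6 : κ * T ^ 2 / Real.log D ^ K ≤ κ * T ^ 2 / Real.log T ^ K := by gcongr
  calc κ / (4 * E ^ 2) * D ^ (1 / 4 : ℝ) / Real.log D ^ (K + 2)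
      = κ * T ^ 2 / Real.log D ^ K / (2 * Real.log D) ^ 2 := by
        rw [← hx2, ← hT]
        field_simp
        ring
    _ ≤ (Z.card : ℝ) / (2 * Real.log D) ^ 2 :=
        div_le_div_of_nonneg_right (h6.trans hcard) (by positivity)
    _ ≤ _ := by
        rw [div_le_iff₀ (by positivity)]
        linarith

end

end Pool.Agent.Lib.MP_7d3fda_nt.R4
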