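import Pool.Agent.Lib.MP_7d3fda_nt.R4.YGeo
import Pool.Agent.Lib.MP_7d3fda_nt.R4.YBase
import Pool.Agent.Lib.MP_7d3fda_nt.R4.YCount

open Finset Module
open scoped NumberTheorySymbols

noncomputable section

namespace Pool.Agent.Lib.MP_7d3fda_nt.R4

open Pool.Agent.Lib.MP_788af2_nt Pool.Agent.Lib.MP_7d3fda_nt.R2 Pool.Agent.Lib.MP_7d3fda_nt.R3

theorem core4 (hM : Many5) {A B C N : ℤ} (hF : Fam4 A B C) (N0 : N ≠ 0) :
    ∃ d₀ : ℤ, d₀ ≠ 0 ∧ ∀ d₁ : ℤ, d₁ ≠ 0 → ∀ p : ℤ → Prop,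
      (∀ g, g % 4 = 1 → (∀ d, Squarefree d → d ∣ N * d₀ → Squarefree (d * g)) →
        Module.rank ℤ (cvE ![0, d₀ * g * A, d₀ * g * C]).Point = 2 → p (d₁ * g)) →
      ∃ (K : ℕ) (κ : ℝ), 0 < κ ∧ ∃ D₀ : ℝ, ∀ D : ℝ, D₀ ≤ D →
        κ * D ^ (1 / 4 : ℝ) / Real.log D ^ K ≤ (Set.ncard {d : ℤ | |(d : ℝ)| ≤ D ∧ p d} : ℝ) := by
  obtain ⟨U₀, V₀, h₀⟩ := base5 hF
  obtain ⟨⟨⟨U, V⟩, hI⟩, hS⟩ := descend5 (Pos := {z : ℤ × ℤ // Inv5 A B C z.1 z.2})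
    (fun z => SS A B C z.1.1 z.1.2) (fun z => GG A B C z.1.1 z.1.2)
    (fun _ => by unfold SS; infer_instance)
    (fun z => parity (facts4 hF z.2.ne z.2.sig).1 (facts4 hF z.2.ne z.2.sig).2 z.2.star)
    (fun z => z.2.inj)
    (fun z η hη => by
      obtain ⟨Cm, h⟩ := move5 hF z.2 N0
      obtain ⟨c, G, W₀, u, v, P, ξ, h1, h2⟩ := h False η hη
      obtain ⟨a, s, h3⟩ := exists5 hM h1 ξ
      obtain ⟨U', V', h4, -, h5, -⟩ := h2 a s h3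
      exact ⟨⟨(U', V'), h4⟩, h5 id⟩)
    (fun z => by
      obtain ⟨Cm, h⟩ := move5 hF z.2 N0
      refine ⟨Cm, fun η hη => ?_⟩
      obtain ⟨c, G, W₀, u, v, P, ξ, h1, h2⟩ := h True η hη
      obtain ⟨a, s, h3⟩ := exists5 hM h1 ξ
      obtain ⟨U', V', h4, h5, -⟩ := h2 a s h3
      exact ⟨⟨(U', V'), h4⟩, h5 trivial⟩) ⟨(U₀, V₀), h₀⟩
  dsimp only at hI hS
  obtain ⟨Cm, h⟩ := move5 hF hI N0
  obtain ⟨c, G, W₀, u, v, P, ξ, h1, h2⟩ := h False 0 fun _ _ => rfl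
  obtain ⟨d, t, hd, t0, e⟩ := exists_sqfree (mul_ne_zero (neg_ne_zero.2 (nm_pos (U := U) (V := V)
    (hI.ne 0)).ne') (prod_ne_zero_iff.2 fun j (_ : j ∈ univ) => hI.ne j))
  refine ⟨d, hd.ne_zero, fun d₁ d1 p hp => count5 hM h1 ξ d₁ d1 p fun a s h6 => ?_⟩
  obtain ⟨U', V', h7, -, -, h8, h9, h11, h10⟩ := h2 a s h6
  have hS' : SS A B C U' V' = ⊥ := by
    have : FiniteDimensional (ZMod 2) (SS A B C U' V') := by unfold SS; infer_instance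
    rw [hS, finrank_bot] at h8
    exact Submodule.finrank_eq_zero.1 (Nat.le_zero.1 h8)
  have dv : d ∣ -nm U V * ∏ j, fm4 A B C U V j := e ▸ Dvd.intro_left _ rfl
  have sq := h10 _ hd (dv.mul_left _)
  have e' : -nm U' V' * ∏ j, fm4 A B C U' V' j = t ^ 2 * (d * gg c G a s) := by
    rw [h9, e, mul_assoc]
  refine hp _ h11 (fun d' k1 k2 => h10 d' k1 (k2.trans (mul_dvd_mul_left _ dv))) ?_
  generalize gg c G a s = g at sq e'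
  have e1 : ![0, d * g * A, d * g * C] 1 - ![0, d * g * A, d * g * C] 0 = d * g * A := by simp
  have e2 : ![0, d * g * A, d * g * C] 2 - ![0, d * g * A, d * g * C] 0 = d * g * C := by simp
  choose Q hQ using pts4 hF h7.ne e' e1 e2
  have e3 := dd_eq h7.ne e'
  refine rank2 hF.A0 hF.B0 hF.C0.ne' hF.hs hF.cop sq (e3 ▸ h7.sig) e1 e2 (e3 ▸ hS') Q ?_
  simpa only [hQ] using h7.star.1

end Pool.Agent.Lib.MP_7d3fda_nt.R4
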