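import Pool.Agent.Lib.MP_7d3fda_nt.R4.YApi
import Pool.Agent.Lib.MP_7d3fda_nt.R3.XDesc

open Finset Module
open scoped NumberTheorySymbols

noncomputable section

namespace Pool.Agent.Lib.MP_7d3fda_nt.R4

open Pool.Agent.Lib.MP_788af2_nt Pool.Agent.Lib.MP_7d3fda_nt.R2 Pool.Agent.Lib.MP_7d3fda_nt.R3

theorem Step5.mono {S S' : Submodule (ZMod 2) (X × X)} {Γ Γ' : Submodule (ZMod 2) X}
    {ζ : X × X →ₗ[ZMod 2] B2} {br br' : Prop} (h : Step5 S S' Γ Γ' ζ br) (hb : br' → br) :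
    Step5 S S' Γ Γ' ζ br' := by
  obtain ⟨S₁, Γ₁, h0, ⟨π, cf, h1, h2, h3⟩, h4⟩ := h
  exact ⟨S₁, Γ₁, h0, ⟨π, cf, h1, h2, fun e => h3 (hb e)⟩, h4⟩

namespace YDescAux

open XDescAux

theorem lt_ker {S S₀ : Submodule (ZMod 2) (X × X)} [FiniteDimensional (ZMod 2) S]
    (π : X × X →ₗ[ZMod 2] X × X) (ζ : X × X →ₗ[ZMod 2] B2)
    (h : ∀ y ∈ S₀, π y ∈ S ∧ ζ (π y) = 0 ∧ (π y = 0 → y = 0)) {z : X × X}
    (hz : z ∈ S) (hz0 : ζ z ≠ 0) : finrank (ZMod 2) S₀ < finrank (ZMod 2) S := by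
  have h1 : S ⊓ LinearMap.ker ζ < S := lt_of_le_of_ne inf_le_left fun e => hz0 (e.ge hz).2
  have : FiniteDimensional (ZMod 2) (S ⊓ LinearMap.ker ζ : Submodule (ZMod 2) (X × X)) :=
    Submodule.finiteDimensional_of_le inf_le_left
  exact lt_of_le_of_lt (fin_le_of_map (S' := S ⊓ LinearMap.ker ζ) π fun y hy =>
    ⟨Submodule.mem_inf.2 ⟨(h y hy).1, (h y hy).2.1⟩, (h y hy).2.2⟩)
    (Submodule.finrank_lt_finrank_of_lt h1)

/-- two independent values give a drop -/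
theorem drop {S S' : Submodule (ZMod 2) (X × X)} {Γ Γ' : Submodule (ZMod 2) X}
    [FiniteDimensional (ZMod 2) S] {ζ : X × X →ₗ[ZMod 2] B2} {br : Prop}
    (h : Step5 S S' Γ Γ' ζ br) {y y' : X × X} (hy : y ∈ S) (hy' : y' ∈ S)
    (e : wg (ζ y) (ζ y') = 1) : finrank (ZMod 2) S' < finrank (ZMod 2) S := by
  obtain ⟨S₁, Γ₁, -, ⟨π, cf, h1, h2, -⟩, h4⟩ := h
  refine h4.1.trans_lt (lt_ker π ζ (fun w hw => ?_) hy fun e0 => ?_)
  · have a : cf w = 0 := by
      have a1 := h1 w hw y hy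
      have a2 := h1 w hw y' hy'
      revert e a1 a2
      generalize cf w = c, ζ y = p, ζ y' = q
      revert c p q
      decide
    exact ⟨(h2 w hw a).1, (h2 w hw a).2.1, (h2 w hw a).2.2.1⟩
  · rw [e0] at e
    simp [wg] at e

theorem one_more {S : Submodule (ZMod 2) (X × X)} [FiniteDimensional (ZMod 2) S]
    {cf : X × X →ₗ[ZMod 2] B2} {t : B2} (h : ∀ y ∈ S, cf y = 0 ∨ cf y = t) :
    finrank (ZMod 2) S ≤
      finrank (ZMod 2) (S ⊓ LinearMap.ker cf : Submodule (ZMod 2) (X × X)) + 1 := by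
  have : FiniteDimensional (ZMod 2) (S ⊓ LinearMap.ker cf : Submodule (ZMod 2) (X × X)) :=
    Submodule.finiteDimensional_of_le inf_le_left
  by_cases hc : ∀ y ∈ S, cf y = 0
  · rw [inf_eq_left.2 fun y hy => hc y hy]
    omega
  push Not at hc
  obtain ⟨y, hy, hy0⟩ := hc
  have a1 : S ≤ (S ⊓ LinearMap.ker cf) ⊔ Submodule.span (ZMod 2) {y} := by
    intro w hw
    rcases h w hw with e | e
    · exact Submodule.mem_sup_left ⟨hw, e⟩
    · rw [← sub_add_cancel w y]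
      refine Submodule.add_mem_sup ⟨S.sub_mem hw hy, ?_⟩ (Submodule.mem_span_singleton_self _)
      show cf (w - y) = 0
      rw [map_sub, e, (h y hy).resolve_left hy0, sub_self]
  refine (Submodule.finrank_mono a1).trans
    ((Submodule.finrank_add_le_finrank_add_finrank _ _).trans ?_)
  rw [finrank_span_singleton fun e => hy0 (by rw [e, map_zero])]

theorem mem_Pt_of {Γ : Submodule (ZMod 2) X} {t : B2} {y : X × X}
    (h : ∀ ψ, Ann Γ ψ → wg (two ψ y) t = 0) : y ∈ Pt t Γ := by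
  by_contra hn
  obtain ⟨f, hf, hk⟩ := Submodule.exists_le_ker_of_notMem (mem_Pt.not.1 hn)
  refine hf ?_
  rw [map_add, map_smul, map_smul, smul_eq_mul, smul_eq_mul, mul_comm t.2, mul_comm t.1]
  exact h f fun γ hγ => hk hγ

set_option synthInstance.maxSize 1024 in
theorem two_dir : ∀ t t' : B2, t ≠ 0 → t' ≠ 0 → t' ≠ t →
    ∃ a b c d : ZMod 2, a • t + b • t' = (0, 1) ∧ c • t + d • t' = (1, 0) := by
  decide +kernel

theorem two_Pt {Γ : Submodule (ZMod 2) X} {t t' : B2} (ht : t ≠ 0) (ht' : t' ≠ 0) (e : t' ≠ t)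
    {y : X × X} (h : y ∈ Pt t Γ) (h' : y ∈ Pt t' Γ) : y.1 ∈ Γ ∧ y.2 ∈ Γ := by
  obtain ⟨a, b, c, d, k⟩ := two_dir t t' ht ht' e
  have m : ∀ a b : ZMod 2, y ∈ Pt (a • t + b • t') Γ := fun a b => by
    have := add_mem (Γ.smul_mem a (mem_Pt.1 h)) (Γ.smul_mem b (mem_Pt.1 h'))
    rw [mem_Pt]
    convert this using 1
    simp only [Prod.fst_add, Prod.snd_add, Prod.smul_fst, Prod.smul_snd, smul_eq_mul, add_smul,
      smul_add, mul_smul]
    abel
  exact ⟨mem_Pt_fst.1 (k.1 ▸ m a b), mem_Pt_snd.1 (k.2 ▸ m c d)⟩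

end YDescAux

set_option synthInstance.maxSize 1024 in
open XDescAux YDescAux in
theorem descend5 {Pos : Type} (S : Pos → Submodule (ZMod 2) (X × X))
    (Γ : Pos → Submodule (ZMod 2) X) (fin : ∀ p, FiniteDimensional (ZMod 2) (S p))
    (par : ∀ p, Even (finrank (ZMod 2) (S p)))
    (inj : ∀ p, ∀ y ∈ S p, y.1 ∈ Γ p → y.2 ∈ Γ p → y = 0)
    (mv1 : ∀ p (η : X →ₗ[ZMod 2] ZMod 2), (∀ γ ∈ Γ p, η γ = 0) →
      ∃ p', Step5 (S p) (S p') (Γ p) (Γ p') (two η) False)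
    (mv2 : ∀ p, ∃ C : X × X →ₗ[ZMod 2] B2, ∀ η : X →ₗ[ZMod 2] ZMod 2, (∀ γ ∈ Γ p, η γ = 0) →
      ∃ p', Step5 (S p) (S p') (Γ p) (Γ p') (two η + C) True) (p₀ : Pos) : ∃ p, S p = ⊥ := by
  have full : ∀ p, Full (S p) (Γ p) → ∃ p', finrank (ZMod 2) (S p') < finrank (ZMod 2) (S p) := by
    rintro p ⟨η, hη, y, hy, y', hy', e⟩
    obtain ⟨p', h⟩ := mv1 p η hη
    exact ⟨p', drop h hy hy' e⟩
  have two_le : ∀ p, S p ≠ ⊥ → 2 ≤ finrank (ZMod 2) (S p) := fun p hne => by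
    have a1 : finrank (ZMod 2) (S p) ≠ 0 := fun e => hne (Submodule.finrank_eq_zero.1 e)
    obtain ⟨k, hk⟩ := par p
    omega
  have step : ∀ p, S p ≠ ⊥ → ∃ p', finrank (ZMod 2) (S p') < finrank (ZMod 2) (S p) := by
    intro p hne
    have h2 := two_le p hne
    by_cases hF : Full (S p) (Γ p)
    · exact full p hF
    obtain ⟨t, ht, ⟨η₁, hη₁, y₁, hy₁, e₁⟩, hone⟩ := dich (inj p) h2 hF
    obtain ⟨C, hC⟩ := mv2 p
    by_cases hc : ∃ s ∈ S p, wg (C s) t = 1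
    · obtain ⟨s₁, hs₁, c₁⟩ := hc
      have s0 : s₁ ≠ 0 := fun e => by
        rw [e, map_zero] at c₁
        simp [wg] at c₁
      obtain ⟨y₂, hy₂, hn⟩ : ∃ y₂ ∈ S p, y₂ ∉ Submodule.span (ZMod 2) {s₁} := by
        by_contra hc
        push Not at hc
        have h3 := Submodule.finrank_mono (show S p ≤ Submodule.span (ZMod 2) {s₁} from hc)
        rw [finrank_span_singleton s0] at h3
        omega
      obtain ⟨s₂, hs₂, n₂, c₂⟩ : ∃ s₂ ∈ S p, s₂ ≠ 0 ∧ wg (C s₂) t = 0 := by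
        by_cases e : wg (C y₂) t = 1
        · refine ⟨y₂ - s₁, sub_mem hy₂ hs₁, fun e => hn ?_, ?_⟩
          · rw [sub_eq_zero.1 e]
            exact Submodule.mem_span_singleton_self _
          · rw [map_sub]
            revert e c₁
            generalize C y₂ = u, C s₁ = v, t = w
            revert u v w
            decide
        · exact ⟨y₂, hy₂, fun e => hn (e ▸ zero_mem _), wg01 _ _ e⟩
      obtain ⟨η, hη, n₃⟩ : ∃ η, Ann (Γ p) η ∧ two η s₂ + C s₂ ≠ 0 := by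
        by_cases e : C s₂ = 0
        · obtain ⟨η, hη, a⟩ := exf (inj p) hs₂ n₂
          exact ⟨η, hη, by rwa [e, add_zero]⟩
        · exact ⟨0, fun _ _ => rfl, by
            rwa [show two (0 : X →ₗ[ZMod 2] ZMod 2) s₂ = 0 from rfl, zero_add]⟩
      obtain ⟨p', h⟩ := hC η hη
      refine ⟨p', drop h hs₁ hs₂ ?_⟩
      have a1 := hone η hη s₁ hs₁
      have a2 := hone η hη s₂ hs₂
      rw [LinearMap.add_apply, LinearMap.add_apply]
      revert ht c₁ c₂ n₃ a1 a2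
      generalize two η s₁ = u, two η s₂ = v, C s₁ = u', C s₂ = v', t = w
      revert u v u' v' w
      decide +kernel
    push Not at hc
    obtain ⟨η, hη, z, hz, n₃⟩ : ∃ η, Ann (Γ p) η ∧ ∃ z ∈ S p, two η z + C z ≠ 0 := by
      by_cases e : C y₁ = 0
      · exact ⟨η₁, hη₁, y₁, hy₁, by rwa [e, add_zero, e₁]⟩
      · exact ⟨0, fun _ _ => rfl, y₁, hy₁, by
          rwa [show two (0 : X →ₗ[ZMod 2] ZMod 2) y₁ = 0 from rfl, zero_add]⟩
    obtain ⟨p', S₁, Γ₁, f₁, ⟨π, cf, k1, k2, k3⟩, k4⟩ := hC η hη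
    have hcf : ∀ w ∈ S₁, cf w = 0 ∨ cf w = t := fun w hw => by
      have a1 := k1 w hw z hz
      have a2 := hone η hη z hz
      have a3 := hc z hz
      rw [LinearMap.add_apply] at a1
      revert ht n₃ a1 a2 a3
      generalize cf w = c, two η z = u, C z = v, t = s
      revert c u v s
      decide +kernel
    have hlt : finrank (ZMod 2) (S₁ ⊓ LinearMap.ker cf : Submodule (ZMod 2) (X × X)) <
        finrank (ZMod 2) (S p) := lt_ker π (two η + C)
      (fun w hw => ⟨(k2 w hw.1 hw.2).1, (k2 w hw.1 hw.2).2.1, (k2 w hw.1 hw.2).2.2.1⟩) hz n₃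
    have hle := one_more hcf
    by_cases hd : finrank (ZMod 2) (S p') < finrank (ZMod 2) (S p)
    · exact ⟨p', hd⟩
    have b1 := k4.1
    have hF' : Full (S p') (Γ p') := by
      by_contra hn
      have := fin p'
      obtain ⟨t', ht', -, hone'⟩ := dich (inj p') (by omega) hn
      have b2 := k4.2 t' ht'
      rw [inf_eq_left.2 fun y hy => mem_Pt_of fun ψ hψ => hone' ψ hψ y hy] at b2
      have f2 : FiniteDimensional (ZMod 2) (S₁ ⊓ LinearMap.ker cf : Submodule (ZMod 2) (X × X)) :=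
        Submodule.finiteDimensional_of_le inf_le_left
      have f3 : FiniteDimensional (ZMod 2) (S₁ ⊓ Pt t' Γ₁ : Submodule (ZMod 2) (X × X)) :=
        Submodule.finiteDimensional_of_le inf_le_left
      by_cases e : t' = t
      · have b3 : finrank (ZMod 2) (S₁ ⊓ Pt t' Γ₁ : Submodule (ZMod 2) (X × X)) ≤
            finrank (ZMod 2) (S₁ ⊓ LinearMap.ker cf : Submodule (ZMod 2) (X × X)) := by
          refine Submodule.finrank_mono fun y hy => ⟨hy.1, ?_⟩
          by_contra h0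
          refine k3 trivial y hy.1 h0 ?_
          rw [(hcf y hy.1).resolve_left h0, ← e]
          exact hy.2
        omega
      · have b3 := one_more (S := S₁ ⊓ Pt t' Γ₁) fun y hy => hcf y hy.1
        have b4 : (S₁ ⊓ Pt t' Γ₁ ⊓ LinearMap.ker cf : Submodule (ZMod 2) (X × X)) = ⊥ := by
          rw [Submodule.eq_bot_iff]
          intro y hy
          obtain ⟨c1, -, c3, c4⟩ := k2 y hy.1.1 hy.2
          obtain ⟨d1, d2⟩ := two_Pt ht ht' e (mem_Pt_of fun ψ hψ => hone ψ hψ _ c1) (c4 t' hy.1.2)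
          exact c3 (inj p _ c1 d1 d2)
        rw [b4, finrank_bot] at b3
        omega
    obtain ⟨p'', d⟩ := full p' hF'
    exact ⟨p'', by omega⟩
  have main : ∀ n p, finrank (ZMod 2) (S p) ≤ n → ∃ p, S p = ⊥ := by
    intro n
    induction n with
    | zero =>
      intro p h
      have := fin p
      exact ⟨p, Submodule.finrank_eq_zero.1 (Nat.le_zero.1 h)⟩
    | succ n ih =>
      intro p h
      by_cases hb : S p = ⊥
      · exact ⟨p, hb⟩
      · obtain ⟨p', a⟩ := step p hb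
        exact ih p' (by omega)
  exact main _ p₀ le_rfl

end Pool.Agent.Lib.MP_7d3fda_nt.R4
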