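import Pool.Agent.Lib.MP_7d3fda_nt.R4.YCore
import Pool.Agent.Lib.MP_7d3fda_nt.R3.XFinal

open Finset Module
open scoped NumberTheorySymbols

noncomputable section

namespace Pool.Agent.Lib.MP_7d3fda_nt.R4

open Pool.Agent.Lib.MP_788af2_nt Pool.Agent.Lib.MP_7d3fda_nt.R2 Pool.Agent.Lib.MP_7d3fda_nt.R3

/-- the conclusion for the curve `y^2 = x^3 + a x^2 + b x + c` -/
def Goal4 (a b c : ℚ) : Prop :=
  ∃ (K : ℕ) (κ : ℝ), 0 < κ ∧ ∃ D₀ : ℝ, ∀ D : ℝ, D₀ ≤ D →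
    κ * D ^ (1 / 4 : ℝ) / Real.log D ^ K ≤ (Set.ncard {d : ℤ | |(d : ℝ)| ≤ D ∧
      ((d % 4 = 1 ∧ Squarefree d ∨ ∃ k, d = 4 * k ∧ (k % 4 = 2 ∨ k % 4 = 3) ∧ Squarefree k) ∧
        Module.rank ℤ (cv (d * a) (d ^ 2 * b) (d ^ 3 * c)).Point = 2)} : ℝ)

namespace YFinalAux

/-- the conclusion for the curve with three given roots -/
def G3 (e₁ e₂ e₃ : ℚ) : Prop :=
  Goal4 (-(e₁ + e₂ + e₃)) (e₁ * e₂ + e₁ * e₃ + e₂ * e₃) (-(e₁ * e₂ * e₃))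

theorem sw12 {e₁ e₂ e₃ : ℚ} (h : G3 e₂ e₁ e₃) : G3 e₁ e₂ e₃ := by
  unfold G3 at h ⊢
  convert h using 1 <;> ring

theorem sw13 {e₁ e₂ e₃ : ℚ} (h : G3 e₃ e₂ e₁) : G3 e₁ e₂ e₃ := by
  unfold G3 at h ⊢
  convert h using 1 <;> ring

theorem sw23 {e₁ e₂ e₃ : ℚ} (h : G3 e₁ e₃ e₂) : G3 e₁ e₂ e₃ := by
  unfold G3 at h ⊢
  convert h using 1 <;> ring

theorem main0 (hM : Many5) {A B C : ℤ} (hF : Fam4 A B C) {e₁ e₂ e₃ δ : ℚ} (δ0 : δ ≠ 0)
    (h1 : e₂ - e₁ = δ * A) (h2 : e₃ - e₁ = δ * C) : G3 e₁ e₂ e₃ := by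
  have q0 : (δ.den : ℤ) ≠ 0 := by exact_mod_cast δ.den_ne_zero
  have N0 : δ.num * δ.den ≠ 0 := mul_ne_zero (Rat.num_ne_zero.2 δ0) q0
  obtain ⟨d₀, d0, h⟩ := core4 hM hF N0
  obtain ⟨d₂, t, hd, t0, e⟩ := exists_sqfree (mul_ne_zero N0 d0)
  have key : ∀ k g : ℤ, k ≠ 0 → Module.rank ℤ (cv ((k ^ 2 * d₂ * g : ℤ) * -(e₁ + e₂ + e₃))
      ((k ^ 2 * d₂ * g : ℤ) ^ 2 * (e₁ * e₂ + e₁ * e₃ + e₂ * e₃))
      ((k ^ 2 * d₂ * g : ℤ) ^ 3 * -(e₁ * e₂ * e₃))).Point =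
      Module.rank ℤ (cvE ![0, d₀ * g * A, d₀ * g * C]).Point := fun k g k0 => by
    have a1 : (k : ℚ) ≠ 0 := by exact_mod_cast k0
    have a2 : (t : ℚ) ≠ 0 := by exact_mod_cast t0
    have a3 : (d₂ : ℚ) ≠ 0 := by exact_mod_cast hd.ne_zero
    have a4 : (d₀ : ℚ) ≠ 0 := by exact_mod_cast d0
    have a5 : (δ.den : ℚ) ≠ 0 := by exact_mod_cast δ.den_ne_zero
    have a6 : δ * δ.den * δ.den * d₀ = t ^ 2 * d₂ := by
      rw [Rat.mul_den_eq_num]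
      exact_mod_cast e
    have a7 : d₂ * δ = (t * d₂ / (δ.den * d₀)) ^ 2 * d₀ := by
      field_simp
      linear_combination a6
    refine XFinalAux.iso (u := k * (t * d₂ / (δ.den * d₀))) (by positivity) ?_ ?_
    · push_cast
      linear_combination k ^ 2 * d₂ * g * h1 + k ^ 2 * g * A * a7
    · push_cast
      linear_combination k ^ 2 * d₂ * g * h2 + k ^ 2 * g * C * a7
  have dv : d₂ ∣ δ.num * δ.den * d₀ := e ▸ Dvd.intro_left _ rfl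
  have m4 : ∀ g : ℤ, g % 4 = 1 → d₂ * g % 4 = d₂ % 4 := fun g hg => by
    rw [Int.mul_emod, hg, mul_one, Int.emod_emod_of_dvd _ dvd_rfl]
  by_cases h4 : d₂ % 4 = 1
  · refine h (1 ^ 2 * d₂) (by simpa using hd.ne_zero) _ fun g g4 sq rk =>
      ⟨Or.inl ?_, (key 1 g one_ne_zero).trans rk⟩
    rw [one_pow, one_mul]
    exact ⟨(m4 g g4).trans h4, sq _ hd dv⟩
  · refine h (2 ^ 2 * d₂) (by simpa using hd.ne_zero) _ fun g g4 sq rk =>
      ⟨Or.inr ⟨d₂ * g, by ring, ?_, sq _ hd dv⟩, (key 2 g two_ne_zero).trans rk⟩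
    have a : ¬(2 * 2 : ℤ) ∣ d₂ := fun k => Int.prime_two.not_isUnit (hd 2 k)
    rw [m4 g g4]
    omega

theorem nsq4 {x : ℤ} (h : x % 4 = 1) : ¬IsSquare (-x) := by
  rintro ⟨r, hr⟩
  rcases Int.emod_two_eq_zero_or_one r with h1 | h1
  · obtain ⟨s, rfl⟩ : ∃ s, r = 2 * s := ⟨r / 2, by omega⟩
    have e : -x = 4 * (s * s) := by linear_combination hr
    omega
  · obtain ⟨s, rfl⟩ : ∃ s, r = 2 * s + 1 := ⟨r / 2, by omega⟩
    have e : -x = 4 * (s * s + s) + 1 := by linear_combination hr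
    omega

theorem odd1 {A B C : ℤ} (hs : A + B = C) (hc : IsCoprime A B) (c2 : 2 ∣ C) : A % 2 = 1 := by
  by_contra h
  have h1 : (2 : ℤ) ∣ A := by omega
  have h2 : (2 : ℤ) ∣ B := by omega
  exact Int.prime_two.not_isUnit (hc.isUnit_of_dvd' h1 h2)

variable (hM : Many5) {A B C : ℤ} {e₁ e₂ e₃ δ : ℚ} (hs : A + B = C) (hc : IsCoprime A B)
  (n1 : ¬IsSquare (A * C)) (n2 : ¬IsSquare (-(A * B))) (n3 : ¬IsSquare (B * C)) (δ0 : δ ≠ 0)
  (h1 : e₂ - e₁ = δ * A) (h2 : e₃ - e₁ = δ * C)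

include hM hs hc n1 n2 n3 δ0 h1 h2

theorem main1 (c2 : 2 ∣ C) (C0 : 0 < C) : G3 e₁ e₂ e₃ := by
  have A0 : A ≠ 0 := fun h => n1 ⟨0, by simp [h]⟩
  have B0 : B ≠ 0 := fun h => n3 ⟨0, by simp [h]⟩
  have oA := odd1 hs hc c2
  have hs' : (A : ℚ) + B = C := by exact_mod_cast hs
  have sw : (4 ∣ C → B % 4 = 1) → ¬IsSquare (-B) → G3 e₁ e₂ e₃ := fun k1 k2 =>
    sw13 (main0 hM (A := B) (B := A) (C := C)
      ⟨by omega, hc.symm, A0, C0, c2, k1, k2, n3, by rwa [mul_comm B A], n1⟩ (neg_ne_zero.2 δ0)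
      (by linear_combination h1 - h2 + δ * hs') (by linear_combination -h2))
  by_cases c4 : 4 ∣ C
  · by_cases a4 : A % 4 = 1
    · exact main0 hM ⟨hs, hc, B0, C0, c2, fun _ => a4, nsq4 a4, n1, n2, n3⟩ δ0 h1 h2
    · have b4 : B % 4 = 1 := by omega
      exact sw (fun _ => b4) (nsq4 b4)
  · by_cases nA : IsSquare (-A)
    · refine sw (fun h => absurd h c4) fun nB => ?_
      have k1 := nA.nonneg
      have k2 := nB.nonneg
      omega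
    · exact main0 hM ⟨hs, hc, B0, C0, c2, fun h => absurd h c4, nA, n1, n2, n3⟩ δ0 h1 h2

theorem main2 (c2 : 2 ∣ C) : G3 e₁ e₂ e₃ := by
  have C0 : C ≠ 0 := fun h => n1 ⟨0, by simp [h]⟩
  rcases lt_or_gt_of_ne C0 with h | h
  · exact main1 hM (A := -A) (B := -B) (C := -C) (δ := -δ) (by omega) hc.neg_left.neg_right
      (by rwa [neg_mul_neg]) (by rwa [neg_mul_neg]) (by rwa [neg_mul_neg]) (neg_ne_zero.2 δ0)
      (by push_cast; linear_combination h1) (by push_cast; linear_combination h2) (by omega)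
      (by omega)
  · exact main1 hM hs hc n1 n2 n3 δ0 h1 h2 c2 h

theorem main3 : G3 e₁ e₂ e₃ := by
  have hs' : (A : ℚ) + B = C := by exact_mod_cast hs
  obtain ⟨u, v, huv⟩ := id hc
  by_cases c2 : 2 ∣ C
  · exact main2 hM hs hc n1 n2 n3 δ0 h1 h2 c2
  by_cases a2 : 2 ∣ A
  · refine sw23 (main2 hM (A := C) (B := -B) (C := A) (by omega)
      ⟨u, u - v, by linear_combination huv - u * hs⟩ (by rwa [mul_comm]) ?_ ?_ δ0 h2 h1 a2)
    · rwa [show -(C * -B) = B * C by ring]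
    · rwa [show -B * A = -(A * B) by ring]
  · refine sw12 (main2 hM (A := -A) (B := C) (C := B) (by omega)
      ⟨v - u, v, by linear_combination huv - v * hs⟩ ?_ ?_ (by rwa [mul_comm]) δ0
      (by push_cast; linear_combination -h1) (by linear_combination h2 - h1 - δ * hs') (by omega))
    · rwa [show -A * B = -(A * B) by ring]
    · rwa [show -(-A * C) = A * C by ring]

omit hs hc n1 n2 n3 δ0 h1 h2 in
theorem main4 (d13 : e₁ ≠ e₃) (k1 : ¬IsSquare (4 * ((e₁ - e₂) * (e₁ - e₃))))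
    (k2 : ¬IsSquare (4 * ((e₂ - e₁) * (e₂ - e₃)))) (k3 : ¬IsSquare (4 * ((e₃ - e₁) * (e₃ - e₂)))) :
    G3 e₁ e₂ e₃ := by
  obtain ⟨t, ht⟩ : ∃ t : ℚ, t = (e₂ - e₁) / (e₃ - e₁) := ⟨_, rfl⟩
  have n0 : e₃ - e₁ ≠ 0 := sub_ne_zero.2 d13.symm
  have q0 : (t.den : ℚ) ≠ 0 := by exact_mod_cast t.den_ne_zero
  have q1 : (t.num : ℚ) = t * t.den := (Rat.mul_den_eq_num t).symm
  obtain ⟨δ, hδ⟩ : ∃ δ : ℚ, δ = (e₃ - e₁) / t.den := ⟨_, rfl⟩
  have h2 : e₃ - e₁ = δ * ((t.den : ℤ) : ℚ) := by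
    rw [hδ]
    push_cast
    field_simp
  have h1 : e₂ - e₁ = δ * (t.num : ℚ) := by
    have t1 : t * (e₃ - e₁) = e₂ - e₁ := by
      rw [ht]
      field_simp
    push_cast at h2
    rw [q1]
    linear_combination t * h2 - t1
  have c : IsCoprime t.num (t.den : ℤ) := Int.isCoprime_iff_gcd_eq_one.2 t.reduced
  generalize t.num = A at h1 c
  generalize (t.den : ℤ) = C at h2 c
  obtain ⟨u, v, huv⟩ := c
  have e2 : e₂ = e₁ + δ * A := by linear_combination h1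
  have e3 : e₃ = e₁ + δ * C := by linear_combination h2
  refine main3 hM (A := A) (B := C - A) (C := C) (δ := δ) (by ring)
    ⟨u + v, v, by linear_combination huv⟩ ?_ ?_ ?_ (fun h => n0 (by rw [h2, h, zero_mul])) h1 h2
  · rintro ⟨r, hr⟩
    have hr' : (A : ℚ) * C = r * r := by exact_mod_cast hr
    exact k1 ⟨2 * δ * r, by rw [e2, e3]; linear_combination 4 * δ ^ 2 * hr'⟩
  · rintro ⟨r, hr⟩
    have hr' : -((A : ℚ) * (C - A)) = r * r := by exact_mod_cast hr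
    exact k2 ⟨2 * δ * r, by rw [e2, e3]; linear_combination 4 * δ ^ 2 * hr'⟩
  · rintro ⟨r, hr⟩
    have hr' : ((C : ℚ) - A) * C = r * r := by exact_mod_cast hr
    exact k3 ⟨2 * δ * r, by rw [e2, e3]; linear_combination 4 * δ ^ 2 * hr'⟩

end YFinalAux

theorem final4 (hM : Many5) (W : WeierstrassCurve ℚ) [W.IsElliptic] (h2 : W.Ψ₂Sq.Splits)
    (h4 : ∀ x, W.Ψ₂Sq.IsRoot x → ¬IsSquare (W.Ψ₂Sq.derivative.eval x)) :
    Goal4 (W.b₂ / 4) (W.b₄ / 2) (W.b₆ / 4) := by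
  have a0 : W.twoTorsionPolynomial.a ≠ 0 := by simp [WeierstrassCurve.twoTorsionPolynomial]
  obtain ⟨e₁, e₂, e₃, he⟩ := (Cubic.splits_iff_roots_eq_three (φ := RingHom.id ℚ) a0).1
    (by rwa [Polynomial.map_id])
  have k1 := Cubic.b_eq_three_roots a0 he
  have k2 := Cubic.c_eq_three_roots a0 he
  have k3 := Cubic.d_eq_three_roots a0 he
  obtain ⟨-, d13, -⟩ := (Cubic.discr_ne_zero_iff_roots_ne a0 he).1
    (by rw [W.twoTorsionPolynomial_discr]; exact mul_ne_zero (by norm_num) W.isUnit_Δ.ne_zero)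
  simp only [WeierstrassCurve.twoTorsionPolynomial, RingHom.id_apply] at k1 k2 k3
  have k2' : W.b₄ = 2 * (e₁ * e₂ + e₁ * e₃ + e₂ * e₃) := by linear_combination k2 / 2
  have ev : ∀ x : ℚ, W.Ψ₂Sq.eval x = 4 * x ^ 3 + W.b₂ * x ^ 2 + 2 * W.b₄ * x + W.b₆ := fun x => by
    simp [WeierstrassCurve.Ψ₂Sq]
  have dv : ∀ x : ℚ, W.Ψ₂Sq.derivative.eval x = 12 * x ^ 2 + 2 * W.b₂ * x + 2 * W.b₄ := fun x => by
    simp [WeierstrassCurve.Ψ₂Sq]
    ring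
  have key : ∀ x y : ℚ, (x - e₁) * (x - e₂) * (x - e₃) = 0 →
      y = 4 * ((x - e₁) * (x - e₂) + (x - e₁) * (x - e₃) + (x - e₂) * (x - e₃)) → ¬IsSquare y := by
    intro x y hx hy
    have h := h4 x (by rw [Polynomial.IsRoot, ev, k1, k2', k3]; linear_combination 4 * hx)
    rw [dv, k1, k2'] at h
    convert h using 2
    rw [hy]
    ring
  have h := YFinalAux.main4 (e₂ := e₂) hM d13 (key e₁ _ (by ring) (by ring))
    (key e₂ _ (by ring) (by ring)) (key e₃ _ (by ring) (by ring))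
  unfold YFinalAux.G3 at h
  convert h using 1
  · rw [k1]
    ring
  · rw [k2']
    ring
  · rw [k3]
    ring

end Pool.Agent.Lib.MP_7d3fda_nt.R4
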