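import Pool.Agent.Lib.MP_7d3fda_nt.R4.YGeo2
import Pool.Agent.Lib.MP_7d3fda_nt.R4.YAlg
import Pool.Agent.Lib.MP_7d3fda_nt.R4.YKum
import Pool.Agent.Lib.MP_7d3fda_nt.R4.YDesc

open Finset Module
open scoped NumberTheorySymbols

noncomputable section

namespace Pool.Agent.Lib.MP_7d3fda_nt.R4

open Pool.Agent.Lib.MP_788af2_nt Pool.Agent.Lib.MP_7d3fda_nt.R2 Pool.Agent.Lib.MP_7d3fda_nt.R3

/-- the bit of a symbol -/
def YGeoAux.bit (z : ℤ) : ZMod 2 := if z = -1 then 1 else 0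

open YGeoAux in
theorem YGeoAux.gen {A B C U V N : ℤ} (hF : Fam4 A B C) (hI : Inv5 A B C U V) (N0 : N ≠ 0)
    {χ : X →ₗ[ZMod 2] ZMod 2} {ψ : Fin 4 → X →ₗ[ZMod 2] ZMod 2} (hχ : χ (cl (nm A B)) = 0)
    (h3 : ∀ i, ψ i (cl (-3)) = 0) (hm : ∀ i, ψ i (cl (mm A B)) = 0)
    (hn : ¬IsSquare (nm A B) → ∀ i, ψ i (cl (nm A B)) = 1)
    (hD : Design5 (chOf (cl A) (cl B) (cl C) (cl (nm U V)) (kk4 A B C U V) χ)
      fun i => chOf (cl A) (cl B) (cl C) (cl (nm U V)) (kk4 A B C U V) (ψ i))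
    {L : (Fin 4 → B2) →ₗ[ZMod 2] B2}
    (hL : Lin5 (chOf (cl A) (cl B) (cl C) (cl (nm U V)) (kk4 A B C U V) χ)
      (fun i => chOf (cl A) (cl B) (cl C) (cl (nm U V)) (kk4 A B C U V) (ψ i)) L) :
    ∃ c G W₀ u v P ξ, Adm5 c G W₀ u v P ∧ ∀ x s, Good5 c G W₀ u v P ξ x s →
      ∃ U' V', Inv5 A B C U' V' ∧
        Step5 (SS A B C U V) (SS A B C U' V') (GG A B C U V) (GG A B C U' V')
          (zeta χ ψ L) (Brk5 L) ∧
        finrank (ZMod 2) (SS A B C U' V') ≤ finrank (ZMod 2) (SS A B C U V) ∧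
        -nm U' V' * ∏ j, fm4 A B C U' V' j = (-nm U V * ∏ j, fm4 A B C U V j) * gg c G x s ∧
        gg c G x s % 4 = 1 ∧ ∀ d : ℤ, Squarefree d →
          d ∣ N * (-nm U V * ∏ j, fm4 A B C U V j) → Squarefree (d * gg c G x s) := by
  obtain ⟨M, c, G, hP, NM⟩ := par_ex hF hI N0
  obtain ⟨u, hu⟩ : ∃ u, Cls M u χ := class_ex M hP.M0 χ
  choose v hv using fun i => (class_ex M hP.M0 (ψ i) : ∃ v, Cls M v (ψ i))
  obtain ⟨k1, k2⟩ := facts4 hF hI.ne hI.sig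
  obtain ⟨ξ, hξ⟩ := alg_all (O := Oc A B) (M.primeFactors.erase 2) k1 k2 hI.star.1 hI.inj hD hL
  refine ⟨c, G, 8 * M, u, v, _, fun g n ε sy l =>
    ξ g n.primeFactors (bit ε) (fun j l => bit (sy j l)) l +
      lin (qL l) (dd (cl (nm U V)) (kk4 A B C U V)) + ∑ j, bit (sy j l) + qL l n,
    adm_of hF hP hu hv h3 hm hn, ?_⟩
  rintro a s ⟨p, g, n, q, hC, hJ⟩
  have hc := geo_cf hF hI.ne hP hu hv hχ hC
  have e1 : bit J((p 1 : ℤ) | p 0) = Sy p 1 0 :=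
    (TableAux.qL_eq (hC.pr 0).1 (TableAux.not_dvd_prime (hC.pr 0).1 (hC.pr 1).1
      (hc.mvl.inj.ne (by decide)))).symm
  have e2 : ∀ j, ∀ l ∈ n.primeFactors, bit (sym p n j l) = qL l (p j) := fun j l hl => by
    rw [sym, if_pos hl]
    exact (TableAux.qL_eq (hc.odd l hl).1 (TableAux.not_dvd_prime (hc.odd l hl).1 (hC.pr j).1
      fun e => hc.dp j (e ▸ hl))).symm
  have e3 : (fun j l => bit (sym p n j l)) = sy5 p n.primeFactors := by
    funext j l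
    by_cases hl : l ∈ n.primeFactors
    · rw [e2 j l hl, sy5, if_pos hl]
    · rw [sym, sy5, if_neg hl, if_neg hl]
      rfl
  have hl := geo_lst hF hI.ne hP hu hχ hC
    (β := ξ g n.primeFactors (Sy p 1 0) (sy5 p n.primeFactors)) fun l hl => by
      rw [XGeoAux.qL_of_J (hc.odd l hl).1 (hJ l hl)]
      dsimp only
      rw [e1, e3, sum_congr rfl fun j _ => e2 j l hl]
  obtain ⟨n1, n2, n3⟩ := geo_inv hF hP hu hC hI
  have f1 := geo_kk hF hI.ne hP hu.1 hC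
  have f2 := (geo_mu hF hI.ne hP hu.1 hC).2
  obtain ⟨g1, g2, g3⟩ := geo_gg hF hI.ne hP hu.1 hC
  have k3 := (facts4 hF n1 n2).2
  rw [f1, f2] at k3
  obtain ⟨s1, s2, s3⟩ := hξ p g _ q hc hl k3
  rw [← f1, ← f2] at s1 s2 s3
  refine ⟨_, _, n3 s3, s1, s2.1, g1, g2, fun d hd dv => g3 d hd fun r hr rd => ?_⟩
  have hp := Nat.prime_iff_prime_int.1 hr
  rw [← Int.natCast_dvd_natCast]
  rcases hp.dvd_or_dvd (rd.trans dv) with h | h
  · exact h.trans NM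
  rcases hp.dvd_or_dvd h with h | h
  · exact (dvd_neg.1 h).trans hP.dN
  · obtain ⟨j, -, h⟩ := (Prime.dvd_finsetProd_iff hp _).1 h
    exact h.trans (hP.df j)

theorem move5 {A B C U V N : ℤ} (hF : Fam4 A B C) (hI : Inv5 A B C U V) (N0 : N ≠ 0) :
    ∃ Cm : X × X →ₗ[ZMod 2] B2, ∀ (br : Prop) (η : X →ₗ[ZMod 2] ZMod 2),
      (∀ γ ∈ GG A B C U V, η γ = 0) →
      ∃ c G W₀ u v P ξ, Adm5 c G W₀ u v P ∧ ∀ x s, Good5 c G W₀ u v P ξ x s →
        ∃ U' V', Inv5 A B C U' V' ∧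
          (br → Step5 (SS A B C U V) (SS A B C U' V') (GG A B C U V) (GG A B C U' V')
            (two η + Cm) True) ∧
          (¬br → Step5 (SS A B C U V) (SS A B C U' V') (GG A B C U V) (GG A B C U' V')
            (two η) False) ∧
          finrank (ZMod 2) (SS A B C U' V') ≤ finrank (ZMod 2) (SS A B C U V) ∧
          -nm U' V' * ∏ j, fm4 A B C U' V' j = (-nm U V * ∏ j, fm4 A B C U V j) * gg c G x s ∧
          gg c G x s % 4 = 1 ∧ ∀ d : ℤ, Squarefree d →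
            d ∣ N * (-nm U V * ∏ j, fm4 A B C U V j) → Squarefree (d * gg c G x s) := by
  obtain ⟨φ₁, d, a0, a1, a2, a3, a4⟩ := chi0_ex hF
  obtain ⟨φ₀, b1, b2, b3⟩ := psi0_ex hF
  obtain ⟨ν₀, κ₀, ν, κ, L, hD, hL, hB⟩ := cert5 d (φ₀ ep) (φ₀ (cl A)) (φ₀ (cl B)) (φ₀ (cl C))
  obtain ⟨χ, χ1, χ2, χ3⟩ := adjust hF hI φ₁ ν₀ κ₀
  choose ψ ψ1 ψ2 ψ3 using fun i => adjust hF hI φ₀ (ν i) (κ i)
  obtain ⟨m0, m1, m2, m3, -, m5, m6, m7⟩ := mem_GC A B C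
  have eχ : chOf (cl A) (cl B) (cl C) (cl (nm U V)) (kk4 A B C U V) χ =
      ⟨1, d, d, d + 1, ν₀, κ₀⟩ := by
    simp only [chOf, χ1 _ m0, χ1 _ m1, χ1 _ m2, χ1 _ m3, a0, a1, a2, a3, χ2, χ3]
  have eψ : ∀ i, chOf (cl A) (cl B) (cl C) (cl (nm U V)) (kk4 A B C U V) (ψ i) =
      ⟨φ₀ ep, φ₀ (cl A), φ₀ (cl B), φ₀ (cl C), ν i, κ i⟩ := fun i => by
    simp only [chOf, ψ1 i _ m0, ψ1 i _ m1, ψ1 i _ m2, ψ1 i _ m3, ψ2, ψ3]
  refine ⟨zeta χ ψ L, fun br η hη => ?_⟩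
  have hG := fun γ h => hη γ (GC_le_GG A B C U V h)
  have eη : ∀ i, chOf (cl A) (cl B) (cl C) (cl (nm U V)) (kk4 A B C U V) (ψ i + η) =
      ⟨φ₀ ep, φ₀ (cl A), φ₀ (cl B), φ₀ (cl C), ν i, κ i⟩ := fun i => by
    have c1 : η (cl (nm U V)) = 0 :=
      hη _ (Submodule.mem_sup_right (Submodule.mem_span_singleton_self _))
    have c2 : ∀ j, η (kk4 A B C U V j) = 0 := fun j => hη _ (Submodule.mem_sup_left
      (Submodule.mem_sup_right (Submodule.subset_span (Set.mem_range_self j))))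
    rw [← eψ]
    simp only [chOf, LinearMap.add_apply, hG _ m0, hG _ m1, hG _ m2, hG _ m3, c1, c2, add_zero]
  have cg : ∀ i₀ i, ∀ γ ∈ GC A B C, Function.update ψ 3 (ψ i₀ + η) i γ = φ₀ γ := fun i₀ i γ h => by
    by_cases e : i = 3
    · rw [e, Function.update_self, LinearMap.add_apply, hG _ h, add_zero, ψ1 _ _ h]
    · rw [Function.update_of_ne e, ψ1 _ _ h]
  have dg : ∀ i₀, Design5 (chOf (cl A) (cl B) (cl C) (cl (nm U V)) (kk4 A B C U V) χ) fun i =>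
      chOf (cl A) (cl B) (cl C) (cl (nm U V)) (kk4 A B C U V)
        (Function.update ψ 3 (ψ i₀ + η) i) := fun i₀ => by
    rw [eχ]
    refine hD.congr fun i => ?_
    rw [Function.update_of_ne (show i.castSucc ≠ 3 from Fin.castSucc_ne_last i), eψ]
  have gen := fun i₀ L => YGeoAux.gen (L := L) hF hI N0 ((χ1 _ m6).trans a4)
    (fun i => (cg i₀ i _ m5).trans b1) (fun i => (cg i₀ i _ m7).trans b2)
    (fun h i => (cg i₀ i _ m6).trans (b3 h)) (dg i₀)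
  by_cases hbr : br
  · obtain ⟨c, G, W₀, u, v, P, ξ, h1, h2⟩ := gen 3 L (by
      rw [eχ]
      convert hL using 2 with i
      by_cases e : i = 3
      · rw [e, Function.update_self, eη]
      · rw [Function.update_of_ne e, eψ])
    refine ⟨c, G, W₀, u, v, P, ξ, h1, fun x s h => ?_⟩
    obtain ⟨U', V', h3, h4, h5⟩ := h2 x s h
    refine ⟨U', V', h3, fun _ => ?_, fun h => absurd hbr h, h5⟩
    convert h4.mono fun _ : True => hB using 1
    ext z <;> simp [zeta, add_comm, add_assoc]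
  · obtain ⟨c, G, W₀, u, v, P, ξ, h1, h2⟩ := gen 2 N2 (lin_N2 _ (by
      rw [Function.update_self, Function.update_of_ne (by decide), eη, eψ]))
    refine ⟨c, G, W₀, u, v, P, ξ, h1, fun x s h => ?_⟩
    obtain ⟨U', V', h3, h4, h5⟩ := h2 x s h
    refine ⟨U', V', h3, fun h => absurd h hbr, fun _ => ?_, h5⟩
    convert h4.mono False.elim using 1
    ext z <;> simp [zeta, N2, add_comm, add_left_comm, CharTwo.add_self_eq_zero]

end Pool.Agent.Lib.MP_7d3fda_nt.R4
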