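import Pool.Agent.Lib.MP_7d3fda_nt.R4.YChar

open Finset Module
open scoped NumberTheorySymbols

noncomputable section

namespace Pool.Agent.Lib.MP_7d3fda_nt.R4

open Pool.Agent.Lib.MP_788af2_nt Pool.Agent.Lib.MP_7d3fda_nt.R2 Pool.Agent.Lib.MP_7d3fda_nt.R3

namespace YGeo1Aux

theorem nx_key : ∀ i j : Fin 6, i ≠ j → ¬∀ t : Fin 6,
    ((if j = t then 1 else 0) + (if nx i = t then 1 else 0) : ZMod 2) =
      (if i = t then 1 else 0) + (if nx j = t then 1 else 0) := by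
  decide

theorem nx_ne : ∀ j : Fin 6, nx j ≠ j := by
  decide

theorem d3 (A B C : ℤ) : (3 : ℤ) ∣ H5 A B C :=
  ⟨A * B * C * nm A B * mm A B, by rw [H5]; ring⟩

theorem dm (A B C : ℤ) : mm A B ∣ H5 A B C := Dvd.intro_left _ rfl

theorem dn (A B C : ℤ) : nm A B ∣ H5 A B C :=
  ⟨3 * (A * B * C) * mm A B, by rw [H5]; ring⟩

theorem sup_of {M : ℕ} (M0 : 0 < M) {x : ℤ} (h0 : x ≠ 0) (h : x ∣ M) :
    cl x ∈ Sup (M.primeFactors.erase 2) :=
  cl_mem_Sup h0 fun p hp h2 hd => by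
    rw [mem_erase, Nat.mem_primeFactors]
    exact ⟨h2, hp, Int.natCast_dvd_natCast.1 (hd.trans h), M0.ne'⟩

theorem not_dvd {W u r : ℕ} (hu : u.Coprime W) (hr : r.Prime) (e : r ≡ u [MOD W]) : ¬r ∣ W :=
  fun h => by
    have a : r.Coprime W := by
      rw [Nat.Coprime, e.gcd_eq]
      exact hu
    exact hr.ne_one (Nat.Coprime.eq_one_of_dvd a h)

theorem not_dvd' {M r : ℕ} (h : ¬r ∣ 8 * M) {x : ℤ} (hx : x ∣ M) : ¬(r : ℤ) ∣ x :=
  fun h' => h (Dvd.dvd.mul_left (Int.natCast_dvd_natCast.1 (h'.trans hx)) _)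

theorem mod3 {g : ℕ} (hg : g.Prime) (h2 : g ≠ 2) (h3 : g ≠ 3) (h : qL g (-3) = 0) : g % 3 = 1 := by
  have a := qL_rec hg Nat.prime_three h2 (by norm_num) h3
  have b : qL g (-3) = qL g (-1) + qL g 3 := by
    rw [← isQF_qL hg (-1) 3 (by norm_num) (by norm_num)]
    norm_num
  have c : q4 ((3 : ℕ) : ℤ) = 1 := by
    rw [XHilAux.q4_odd (by norm_num)]
    rfl
  rw [c, mul_one, q4_prime hg h2] at a
  have d : qL 3 g = 0 := by
    rw [h] at b
    push_cast at a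
    linear_combination a + b + (qL g (-1)) * XGeoAux.two0
  have n3 : ¬((3 : ℕ) : ℤ) ∣ g := TableAux.not_dvd_prime Nat.prime_three hg h3.symm
  by_contra hc
  have e : g % 3 = 2 := by
    have : ¬3 ∣ g := fun h' => n3 (Int.natCast_dvd_natCast.2 h')
    omega
  have f : qL 3 g = qL 3 2 := TableAux.qL_congr Nat.prime_three n3 (by push_cast; omega)
  rw [f, TableAux.qL_eq Nat.prime_three (by norm_num)] at d
  have k : J(2 | 3) = -1 := by norm_num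
  rw [if_pos k] at d
  exact one_ne_zero d

end YGeo1Aux

open YGeo1Aux

/-- parameters exist -/
theorem par_ex {A B C U V N : ℤ} (hF : Fam4 A B C) (hI : Inv5 A B C U V) (N0 : N ≠ 0) :
    ∃ (M : ℕ) (c : Fin 6 → ℤ) (G : ℤ), Par A B C U V M c G ∧ N ∣ M := by
  obtain ⟨f, hf⟩ : ∃ f, f = fm4 A B C U V := ⟨_, rfl⟩
  have f0 : ∀ j, f j ≠ 0 := hf ▸ hI.ne
  have U0 : U ≠ 0 := hI.ne 0
  have P0 : ∏ j, f j ≠ 0 := prod_ne_zero_iff.2 fun j _ => f0 j
  obtain ⟨M, hM⟩ : ∃ M : ℕ, M = (N * H5 A B C * nm U V * ∏ j, f j).natAbs := ⟨_, rfl⟩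
  have M0 : 0 < M := hM ▸ Int.natAbs_pos.2
    (mul_ne_zero (mul_ne_zero (mul_ne_zero N0 hF.H0) (nm_pos U0).ne') P0)
  have dM : ∀ {x : ℤ}, x ∣ N * H5 A B C * nm U V * ∏ j, f j → x ∣ M :=
    fun h => hM ▸ Int.dvd_natAbs.2 h
  have G0 : 8 * (M : ℤ) * ∏ j, f j ≠ 0 :=
    mul_ne_zero (mul_ne_zero (by norm_num) (by exact_mod_cast M0.ne')) P0
  have hc : ∀ j, f j * (8 * (M : ℤ) * ((∏ i ∈ univ.erase j, f i) * (f j + 2 * f (nx j)))) =
      (8 * (M : ℤ) * ∏ j, f j) * (f j + 2 * f (nx j)) := fun j => by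
    rw [← mul_prod_erase univ f (mem_univ j)]
    ring
  refine ⟨M, fun j => 8 * (M : ℤ) * ((∏ i ∈ univ.erase j, f i) * (f j + 2 * f (nx j))),
    8 * (M : ℤ) * ∏ j, f j, ⟨M0, dM ⟨N * nm U V * ∏ j, f j, by ring⟩,
      dM ⟨N * H5 A B C * ∏ j, f j, by ring⟩,
      fun j => hf ▸ dM (Dvd.dvd.mul_left (dvd_prod_of_mem f (mem_univ j)) _), G0, Dvd.intro _ rfl,
      fun j => Dvd.intro _ rfl, hf ▸ hc, fun i j e => ?_⟩,
    dM ⟨H5 A B C * nm U V * ∏ j, f j, by ring⟩⟩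
  by_contra hij
  have e1 : f j * f (nx i) = f i * f (nx j) := by
    apply mul_left_cancel₀ (mul_ne_zero G0 (two_ne_zero (α := ℤ)))
    have e' : 8 * (M : ℤ) * ((∏ t ∈ univ.erase i, f t) * (f i + 2 * f (nx i))) =
        8 * (M : ℤ) * ((∏ t ∈ univ.erase j, f t) * (f j + 2 * f (nx j))) := e
    linear_combination f i * f j * e' - f j * hc i + f i * hc j
  have e2 := congrArg cl e1
  rw [cl_mul (f0 _) (f0 _), cl_mul (f0 _) (f0 _), hf] at e2
  obtain ⟨w, w', hw, -⟩ := hI.wit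
  refine nx_key i j hij fun t => ?_
  have e3 := DFunLike.congr_fun e2 (w t)
  rw [Finsupp.add_apply, Finsupp.add_apply] at e3
  have k := (hw t).2.2.2.2
  rw [← k, ← k, ← k, ← k]
  exact e3

/-- the parameters are admissible -/
theorem adm_of {A B C U V : ℤ} (hF : Fam4 A B C) {M : ℕ} {c : Fin 6 → ℤ} {G : ℤ}
    (hP : Par A B C U V M c G) {u : ℕ} {v : Fin 4 → ℕ} {χ : X →ₗ[ZMod 2] ZMod 2}
    {ψ : Fin 4 → X →ₗ[ZMod 2] ZMod 2} (hu : Cls M u χ) (hv : ∀ i, Cls M (v i) (ψ i))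
    (h3 : ∀ i, ψ i (cl (-3)) = 0) (hm : ∀ i, ψ i (cl (mm A B)) = 0)
    (hn : ¬IsSquare (nm A B) → ∀ i, ψ i (cl (nm A B)) = 1) :
    Adm5 c G (8 * M) u v fun _ => PP A B C U V := by
  have M0 := hP.M0
  have W0 : 0 < 8 * M := by omega
  have m3 : (3 : ℤ) ∣ M := (d3 A B C).trans hP.dH
  have w3 : 3 ∣ 8 * M := Dvd.dvd.mul_left (by exact_mod_cast m3) _
  refine ⟨hP.inj, hP.G0, W0, w3, hu.1, fun i => ⟨(hv i).1, ?_⟩, fun i g x y hg e1 e2 => ?_⟩
  · obtain ⟨g, -, hg, e⟩ := Nat.forall_exists_prime_gt_and_modEq 0 W0.ne' (hv i).1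
    have n := not_dvd (hv i).1 hg e
    have a := (hv i).2 g hg e _ (sup_of M0 (x := -3) (by norm_num) ((neg_dvd).2 m3))
    rw [lin_cl (isQF_qL hg) (by norm_num), h3] at a
    have b := mod3 hg (fun h => n (h ▸ ⟨4 * M, by ring⟩)) (fun h => n (h ▸ w3)) a
    have c : g % 3 = v i % 3 := e.of_dvd w3
    omega
  · have n := not_dvd (hv i).1 hg e1
    refine pool_or hF hg e2 (not_dvd' n hP.dH) (not_dvd' n hP.dN) ?_ fun h => ?_
    · rw [← lin_cl (isQF_qL hg) hF.mm0,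
        (hv i).2 g hg e1 _ (sup_of M0 hF.mm0 ((dm A B C).trans hP.dH)), hm]
    · rw [← lin_cl (isQF_qL hg) hF.n0.ne',
        (hv i).2 g hg e1 _ (sup_of M0 hF.n0.ne' ((dn A B C).trans hP.dH)), hn h]

section

variable {A B C U V : ℤ} (hF : Fam4 A B C) (hne : ∀ j, fm4 A B C U V j ≠ 0) {M : ℕ}
  {c : Fin 6 → ℤ} {G : ℤ} (hP : Par A B C U V M c G) {u : ℕ} {v : Fin 4 → ℕ}
  (hu : u.Coprime (8 * M)) {a s : ℤ} {p : Fin 6 → ℕ} {g : Fin 4 → ℕ} {n q : ℕ}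
  (hC : Conf c G (8 * M) u v (fun _ => PP A B C U V) a s p g n q)

include hF hne hP hu hC

theorem geo_fm (j : Fin 6) :
    fm4 A B C (mU a (G * s) U V) (mV a (G * s) U V) j = fm4 A B C U V j * p j := by
  rw [fm_mul hF, (hC.pr j).2.2]
  linear_combination (-s) * hP.hc j

theorem geo_nm : nm (mU a (G * s) U V) (mV a (G * s) U V) = nm U V * (n * q) := by
  rw [nm_mul, hC.nq]

theorem geo_pinj : Function.Injective p := by
  intro i j e
  refine hP.inj (mul_right_cancel₀ hC.s0 ?_)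
  have a := (hC.pr i).2.2
  have b := (hC.pr j).2.2
  rw [e] at a
  linarith

/-- the new primes are new -/
theorem geo_new : (∀ j, ¬p j ∣ 8 * M) ∧ (n * q).Coprime (8 * M) ∧ (∀ j, ¬p j ∣ n * q) ∧
    ((8 * M : ℕ) : ℤ) ∣ (n : ℤ) * q - (u : ℤ) ^ 2 ∧
    ∀ i j, i ≠ j → ¬(p j : ℤ) ∣ fm4 A B C (mU a (G * s) U V) (mV a (G * s) U V) i := by
  have h1 : ∀ j, ¬p j ∣ 8 * M := fun j => not_dvd hu (hC.pr j).1 (hC.pr j).2.1
  have h4 : ((8 * M : ℕ) : ℤ) ∣ (n : ℤ) * q - (u : ℤ) ^ 2 := by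
    obtain ⟨x, hx⟩ := (hC.pr 0).2.1.dvd
    obtain ⟨y, hy⟩ := hP.dc 0
    obtain ⟨z, hz⟩ := hP.dG
    have ha : a = u - 8 * M * (x + y * s) := by
      have := (hC.pr 0).2.2
      push_cast at hx
      rw [hy] at this
      linear_combination -this - hx
    refine ⟨-2 * u * (x + y * s) + 8 * M * (x + y * s) ^ 2 + 3 * (8 * M) * (z * s) ^ 2, ?_⟩
    rw [hC.nq, ha, hz]
    push_cast
    ring
  have h5 : ∀ i j, i ≠ j → ¬(p j : ℤ) ∣ fm4 A B C (mU a (G * s) U V) (mV a (G * s) U V) i :=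
    fun i j hij h => by
      rw [geo_fm hF hne hP hu hC] at h
      rcases (Nat.prime_iff_prime_int.1 (hC.pr j).1).dvd_or_dvd h with h | h
      · exact not_dvd' (h1 j) (hP.df i) h
      · exact TableAux.not_dvd_prime (hC.pr j).1 (hC.pr i).1
          (fun e => hij (geo_pinj hF hne hP hu hC e).symm) h
  refine ⟨h1, ?_, fun j h => ?_, h4, h5⟩
  · have e : u ^ 2 ≡ n * q [MOD 8 * M] := Nat.modEq_iff_dvd.2 (by exact_mod_cast h4)
    rw [Nat.Coprime, ← e.gcd_eq]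
    exact hu.pow_left 2
  · refine (line_f hF (hC.pr j).1 (not_dvd' (h1 j) hP.dH) (j := j) ?_ (h5 _ _ (nx_ne j))).2.1 ?_
    · rw [geo_fm hF hne hP hu hC]
      exact Dvd.intro_left _ rfl
    · rw [geo_nm hF hne hP hu hC]
      exact Dvd.dvd.mul_left (by exact_mod_cast h) _

theorem geo_kk : kk4 A B C (mU a (G * s) U V) (mV a (G * s) U V) = nk5 (kk4 A B C U V) p := by
  funext j
  rw [kk4, geo_fm hF hne hP hu hC, cl_mul (hne j) (by exact_mod_cast (hC.pr j).1.ne_zero),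
    cl_prime (hC.pr j).1]
  rfl

theorem geo_mu : cl ((n : ℤ) * q) = mu5 n.primeFactors q ∧
    cl (nm (mU a (G * s) U V) (mV a (G * s) U V)) = cl (nm U V) + mu5 n.primeFactors q := by
  have n0 : (n : ℤ) ≠ 0 := by exact_mod_cast hC.sq.ne_zero
  have q0 : (q : ℤ) ≠ 0 := by exact_mod_cast hC.qp.ne_zero
  have e : cl ((n : ℤ) * q) = mu5 n.primeFactors q := by
    rw [cl_mul n0 q0, cl_prime hC.qp, mu5]
    congr 1
    conv_lhs => rw [← Nat.prod_primeFactors_of_squarefree hC.sq]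
    rw [Nat.cast_prod, cl_prod _ _ fun l hl => by
      exact_mod_cast (Nat.prime_of_mem_primeFactors hl).ne_zero]
    exact sum_congr rfl fun l hl => cl_prime (Nat.prime_of_mem_primeFactors hl)
  refine ⟨e, ?_⟩
  rw [geo_nm hF hne hP hu hC, cl_mul (nm_pos (U := U) (V := V) (hne 0)).ne'
    (mul_ne_zero n0 q0), e]

theorem geo_gg : -nm (mU a (G * s) U V) (mV a (G * s) U V) *
      ∏ j, fm4 A B C (mU a (G * s) U V) (mV a (G * s) U V) j =
        (-nm U V * ∏ j, fm4 A B C U V j) * gg c G a s ∧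
    gg c G a s % 4 = 1 ∧ ∀ d : ℤ, Squarefree d → (∀ r : ℕ, r.Prime → (r : ℤ) ∣ d → r ∣ M) →
      Squarefree (d * gg c G a s) := by
  obtain ⟨h1, h2, h3, h4, -⟩ := geo_new hF hne hP hu hC
  have e : gg c G a s = (n : ℤ) * q * ∏ j, (p j : ℤ) := by
    rw [gg, hC.nq, prod_congr rfl fun j _ => (hC.pr j).2.2]
  have e' : gg c G a s = ((n * q * ∏ j, p j : ℕ) : ℤ) := by
    rw [e]
    push_cast
    rfl
  refine ⟨?_, ?_, fun d hd hdv => ?_⟩
  · rw [geo_nm hF hne hP hu hC, prod_congr rfl fun j _ => geo_fm hF hne hP hu hC j,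
      prod_mul_distrib, e]
    ring
  · have w4 : 4 ∣ 8 * M := ⟨2 * M, by ring⟩
    have a1 : u ^ 2 ≡ n * q [MOD 4] :=
      (Nat.modEq_iff_dvd.2 (by exact_mod_cast h4) : u ^ 2 ≡ n * q [MOD 8 * M]).of_dvd w4
    have a2 : ((n * q : ℕ) : ZMod 4) = (u : ZMod 4) ^ 2 := by
      rw [← (ZMod.natCast_eq_natCast_iff _ _ 4).2 a1, Nat.cast_pow]
    have a3 : ∀ j, ((p j : ℕ) : ZMod 4) = (u : ZMod 4) := fun j =>
      (ZMod.natCast_eq_natCast_iff _ _ 4).2 ((hC.pr j).2.1.of_dvd w4)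
    obtain ⟨k, hk⟩ : Odd u := Nat.coprime_two_right.1 (hu.of_dvd_right ⟨4 * M, by ring⟩)
    refine (ZMod.intCast_eq_intCast_iff' _ 1 4).1 ?_
    rw [e', Int.cast_natCast, Nat.cast_mul, a2, Nat.cast_prod, prod_congr rfl fun j _ => a3 j,
      prod_const, hk]
    push_cast
    exact (by decide : ∀ k : ZMod 4, (2 * k + 1) ^ 2 * (2 * k + 1) ^ 6 = 1) _
  · have c1 : (n * q * ∏ j, p j).Coprime (8 * M) :=
      h2.mul_left (Nat.Coprime.prod_left fun j _ => (hC.pr j).1.coprime_iff_not_dvd.2 (h1 j))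
    rw [e', squarefree_mul_iff]
    refine ⟨IsCoprime.isRelPrime ?_, hd, Int.squarefree_natCast.2 ?_⟩
    · rw [Int.isCoprime_iff_gcd_eq_one, Int.gcd, Int.natAbs_natCast]
      refine Nat.coprime_of_dvd fun r hr r1 r2 => hr.ne_one ?_
      exact Nat.eq_one_of_dvd_coprimes c1 r2
        (Dvd.dvd.mul_left (hdv r hr (Int.natCast_dvd.2 r1)) _)
    · rw [Nat.squarefree_mul_iff, Nat.squarefree_mul_iff]
      refine ⟨Nat.Coprime.prod_right fun j _ => ((hC.pr j).1.coprime_iff_not_dvd.2 (h3 j)).symm,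
        ⟨(hC.qp.coprime_iff_not_dvd.2 hC.qn).symm, hC.sq, hC.qp.prime.squarefree⟩, ?_⟩
      refine squarefree_prod_of_pairwise_isCoprime (fun i _ j _ h => ?_) fun j _ =>
        (hC.pr j).1.prime.squarefree
      exact Nat.coprime_iff_isRelPrime.1 ((Nat.coprime_primes (hC.pr i).1 (hC.pr j).1).2 fun e =>
        h (geo_pinj hF hne hP hu hC e))

end

end Pool.Agent.Lib.MP_7d3fda_nt.R4
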