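import Pool.Agent.Lib.MP_7d3fda_nt.R4.YGeo1
import Pool.Agent.Lib.MP_7d3fda_nt.R4.YMv0

open Finset Module
open scoped NumberTheorySymbols

noncomputable section

namespace Pool.Agent.Lib.MP_7d3fda_nt.R4

open Pool.Agent.Lib.MP_788af2_nt Pool.Agent.Lib.MP_7d3fda_nt.R2 Pool.Agent.Lib.MP_7d3fda_nt.R3

namespace YGeo2Aux

theorem mT {M : ℕ} (M0 : 0 < M) {r : ℕ} (hr : r.Prime) (h2 : r ≠ 2) (h : (r : ℤ) ∣ M) :
    r ∈ M.primeFactors.erase 2 := by
  rw [mem_erase, Nat.mem_primeFactors]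
  exact ⟨h2, hr, Int.natCast_dvd_natCast.1 h, M0.ne'⟩

theorem ofT {M r : ℕ} (h : r ∈ M.primeFactors.erase 2) : r.Prime ∧ r ≠ 2 ∧ r ∣ M := by
  rw [mem_erase] at h
  exact ⟨Nat.prime_of_mem_primeFactors h.2, h.1, Nat.dvd_of_mem_primeFactors h.2⟩

theorem sT {M : ℕ} (M0 : 0 < M) {x : ℤ} (h0 : x ≠ 0) (h : x ∣ M) :
    cl x ∈ Sup (M.primeFactors.erase 2) :=
  cl_mem_Sup h0 fun _ hr h2 hd => mT M0 hr h2 (hd.trans h)

theorem nx_ne : ∀ j : Fin 6, nx j ≠ j := by decide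

theorem dd_new (ν μ : X) (k : Fin 6 → X) (p : Fin 6 → ℕ) :
    dd (ν + μ) (nk5 k p) = dd ν k + μ + ∑ j, Finsupp.single (p j) (1 : ZMod 2) := by
  simp only [dd, nk5, sum_add_distrib]
  abel

theorem d3 (A B C : ℤ) : (3 : ℤ) ∣ H5 A B C := ⟨A * B * C * nm A B * mm A B, by rw [H5]; ring⟩

theorem dABC (A B C : ℤ) : A * B * C ∣ H5 A B C := ⟨3 * nm A B * mm A B, by rw [H5]; ring⟩

section

variable {A B C U V : ℤ} (hF : Fam4 A B C) (hne : ∀ j, fm4 A B C U V j ≠ 0) {M : ℕ}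
  {c : Fin 6 → ℤ} {G : ℤ} (hP : Par A B C U V M c G) {u : ℕ} {v : Fin 4 → ℕ}
  (hu : u.Coprime (8 * M)) {a s : ℤ} {p : Fin 6 → ℕ} {g : Fin 4 → ℕ} {n q : ℕ}
  (hC : Conf c G (8 * M) u v (fun _ => PP A B C U V) a s p g n q)

include hF hne hP hu hC

omit hne hu hC in
theorem gc : GC A B C ≤ Sup (M.primeFactors.erase 2) :=
  GC_le hF fun _ hr h2 h => mT hP.M0 hr h2 (h.trans hP.dH)

omit hF hP hu hC in
theorem N0 : nm U V ≠ 0 := (nm_pos (V := V) (hne 0)).ne'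

omit hF hne hP hu in
theorem n0 : (n : ℤ) ≠ 0 := Int.natCast_ne_zero.2 hC.sq.ne_zero

omit hF hne hP hu in
theorem q0 : (q : ℤ) ≠ 0 := Int.natCast_ne_zero.2 hC.qp.ne_zero

omit hF hne hP hu in
theorem p0 (j : Fin 6) : (p j : ℤ) ≠ 0 := Int.natCast_ne_zero.2 (hC.pr j).1.ne_zero

omit hF hne hC in
theorem u0 : (u : ℤ) ≠ 0 := by
  have := hP.M0
  rw [Int.natCast_ne_zero]
  rintro rfl
  rw [Nat.coprime_zero_left] at hu
  omega

theorem pM (j : Fin 6) : ¬(p j : ℤ) ∣ M := fun h =>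
  (geo_new hF hne hP hu hC).1 j (Dvd.dvd.mul_left (Int.natCast_dvd_natCast.1 h) _)

theorem p2 (j : Fin 6) : p j ≠ 2 := fun e =>
  (geo_new hF hne hP hu hC).1 j (e ▸ ⟨4 * M, by ring⟩)

/-- a prime factor of the new norm does not divide the modulus -/
theorem nqW {r : ℕ} (hr : r.Prime) (h : r ∣ n * q) : ¬r ∣ 8 * M := fun h' =>
  hr.ne_one (Nat.eq_one_of_dvd_coprimes (geo_new hF hne hP hu hC).2.1 h h')

theorem nqM {r : ℕ} (hr : r.Prime) (h : r ∣ n * q) : ¬(r : ℤ) ∣ M := fun h' =>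
  nqW hF hne hP hu hC hr h (Dvd.dvd.mul_left (Int.natCast_dvd_natCast.1 h') _)

theorem nq2 {r : ℕ} (hr : r.Prime) (h : r ∣ n * q) : r ≠ 2 := fun e =>
  nqW hF hne hP hu hC hr h (e ▸ ⟨4 * M, by ring⟩)

theorem nqT {r : ℕ} (h : r ∣ n * q) : r ∉ M.primeFactors.erase 2 := fun h' =>
  nqM hF hne hP hu hC (ofT h').1 h (Int.natCast_dvd_natCast.2 (ofT h').2.2)

theorem old_nd {r : ℕ} (hr : r.Prime) (h : (r : ℤ) ∣ M) : ¬(r : ℤ) ∣ (n : ℤ) * q := fun h' =>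
  nqM hF hne hP hu hC hr (by exact_mod_cast h') h

theorem mu_old {r : ℕ} (hr : r.Prime) (h : (r : ℤ) ∣ M) : mu5 n.primeFactors q r = 0 := by
  rw [← (geo_mu hF hne hP hu hC).1, cl_prime_apply _ hr,
    TwistAux.qV_zero (old_nd hF hne hP hu hC hr h)]

theorem sing_old {r : ℕ} (h : (r : ℤ) ∣ M) (j : Fin 6) :
    (Finsupp.single (p j) (1 : ZMod 2) : X) r = 0 :=
  Finsupp.single_eq_of_ne fun e => pM hF hne hP hu hC j (e ▸ h)

theorem mu_st : st (mu5 n.primeFactors q) = 0 := by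
  have nq0 := mul_ne_zero (n0 hC) (q0 hC)
  have U0 := u0 hP hu
  have h2 : ¬((2 : ℕ) : ℤ) ∣ (u : ℤ) ^ 2 := fun h => by
    have a : 2 ∣ u := Nat.prime_two.dvd_of_dvd_pow (n := 2) (by exact_mod_cast h)
    exact absurd (Nat.eq_one_of_dvd_coprimes hu a ⟨4 * M, by ring⟩) (by norm_num)
  have h8 : (2 : ℤ) ^ (padicValInt 2 ((u : ℤ) ^ 2) + 3) ∣ (n : ℤ) * q - (u : ℤ) ^ 2 := by
    rw [padicValInt.eq_zero_of_not_dvd h2]
    exact Dvd.dvd.trans ⟨M, by push_cast; ring⟩ (geo_new hF hne hP hu hC).2.2.2.1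
  obtain ⟨-, e1, e2, e3⟩ := near_two (pow_ne_zero 2 U0) h8
  have e0 : qS ((n : ℤ) * q) = 0 := if_neg (not_lt.2 (by positivity))
  rw [← (geo_mu hF hne hP hu hC).1, st_cl nq0, e0, e1, e2, e3, sq,
    (isQF_qV Nat.prime_two).sq U0, isQF_q4.sq U0, isQF_q8.sq U0]
  rfl

theorem mu_lin {r : ℕ} (hr : r.Prime) (h : (r : ℤ) ∣ M) :
    lin (qL r) (mu5 n.primeFactors q) = 0 := by
  have a : (r : ℤ) ∣ (n : ℤ) * q - (u : ℤ) ^ 2 :=
    (h.trans ⟨8, by push_cast; ring⟩).trans (geo_new hF hne hP hu hC).2.2.2.1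
  rw [← (geo_mu hF hne hP hu hC).1, lin_cl (isQF_qL hr) (mul_ne_zero (n0 hC) (q0 hC)),
    TableAux.qL_congr hr (old_nd hF hne hP hu hC hr h) a, sq, (isQF_qL hr).sq (u0 hP hu)]

/-- the symbols at a new linear prime -/
theorem line (j : Fin 6) :
    (∀ i, i ≠ j → qL (p j) (fm4 A B C U V i * p i) =
      qL (p j) (fm4 A B C U V (nx j) * p (nx j)) +
        dl5 (qL (p j) (-1)) (qL (p j) A) (qL (p j) B) (qL (p j) C) (qL (p j) (nm A B)) i j) ∧
    qL (p j) (nm (mU a (G * s) U V) (mV a (G * s) U V)) = bb j * qL (p j) (nm A B) := by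
  obtain ⟨h1, -, h2⟩ := line_f hF (U := mU a (G * s) U V) (V := mV a (G * s) U V) (j := j)
    (hC.pr j).1 (fun h => pM hF hne hP hu hC j (h.trans hP.dH))
    (by rw [geo_fm hF hne hP hu hC]; exact Dvd.intro_left _ rfl)
    ((geo_new hF hne hP hu hC).2.2.2.2 _ _ (nx_ne j))
  refine ⟨fun i hi => ?_, h2⟩
  have := (h1 i hi).2
  rwa [geo_fm hF hne hP hu hC, geo_fm hF hne hP hu hC] at this

/-- a known prime of the norm does not divide the first coordinate -/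
theorem ga (i : Fin 4) : ¬(g i : ℤ) ∣ a := fun h => by
  obtain ⟨gp, -, gn, -⟩ := hC.gp i
  have gI := Nat.prime_iff_prime_int.1 gp
  have gq : g i ∣ n * q := gn.mul_right q
  have h1 : (g i : ℤ) ∣ 3 * (G * s) ^ 2 := by
    have b : (g i : ℤ) ∣ (n : ℤ) * q := by exact_mod_cast gq
    rw [hC.nq] at b
    exact (dvd_add_right (dvd_pow h two_ne_zero)).1 b
  have h2 : (g i : ℤ) ∣ G * s := by
    rcases gI.dvd_or_dvd h1 with b | b
    · exact absurd (b.trans ((d3 A B C).trans hP.dH)) (nqM hF hne hP hu hC gp gq)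
    · exact gI.dvd_of_dvd_pow b
  have h3 : (g i : ℤ) ^ 2 ∣ (n : ℤ) * q := by
    rw [hC.nq]
    exact dvd_add (pow_dvd_pow_of_dvd h 2) (Dvd.dvd.mul_left (pow_dvd_pow_of_dvd h2 2) _)
  have h4 : g i ^ 2 ∣ n * q := by exact_mod_cast h3
  have h5 : (g i ^ 2).Coprime q :=
    Nat.Coprime.pow_left 2 ((Nat.coprime_primes gp hC.qp).2 fun e => hC.qn (e ▸ gn))
  have h6 := h5.dvd_of_dvd_mul_right h4
  rw [sq] at h6
  exact gp.ne_one (Nat.isUnit_iff.1 (hC.sq _ h6))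

end

end YGeo2Aux

open YGeo2Aux

section

variable {A B C U V : ℤ} (hF : Fam4 A B C) (hne : ∀ j, fm4 A B C U V j ≠ 0) {M : ℕ}
  {c : Fin 6 → ℤ} {G : ℤ} (hP : Par A B C U V M c G) {u : ℕ} {v : Fin 4 → ℕ}
  {χ : X →ₗ[ZMod 2] ZMod 2} {ψ : Fin 4 → X →ₗ[ZMod 2] ZMod 2} (hu : Cls M u χ)
  (hv : ∀ i, Cls M (v i) (ψ i)) (hχ : χ (cl (nm A B)) = 0) {a s : ℤ} {p : Fin 6 → ℕ}
  {g : Fin 4 → ℕ} {n q : ℕ} (hC : Conf c G (8 * M) u v (fun _ => PP A B C U V) a s p g n q)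

include hF hne hP hu hC in
theorem geo_mvl : MvL (cl A) (cl B) (cl C) (Oc A B) (cl (nm U V)) (kk4 A B C U V)
    (M.primeFactors.erase 2) p χ := by
  have hg := gc hF hP
  obtain ⟨-, m1, m2, m3, -⟩ := mem_GC A B C
  exact
    { odd := fun r hr => ⟨(ofT hr).1, (ofT hr).2.1⟩
      ha := hg m1
      hb := hg m2
      hc := hg m3
      ho := le_sup_right.trans hg
      hn := sT hP.M0 (N0 hne) hP.dN
      hk := fun j => sT hP.M0 (hne j) (hP.df j)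
      pr := fun j => ⟨(hC.pr j).1, p2 hF hne hP hu.1 hC j, fun h =>
        pM hF hne hP hu.1 hC j (Int.natCast_dvd_natCast.2 (ofT h).2.2)⟩
      inj := geo_pinj hF hne hP hu.1 hC
      chi := fun j => hu.2 _ (hC.pr j).1 (hC.pr j).2.1 }

include hF hne hP hu hv hχ hC in
theorem geo_cf : Cf (cl A) (cl B) (cl C) (Oc A B) (cl (nm U V)) (kk4 A B C U V)
    (M.primeFactors.erase 2) χ ψ p g n.primeFactors := by
  have hM := geo_mvl hF hne hP hu hC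
  have hg := gc hF hP
  obtain ⟨-, m1, m2, m3, -, -, m4, -⟩ := mem_GC A B C
  have gq : ∀ i, g i ∣ n * q := fun i => (hC.gp i).2.2.1.mul_right q
  have pn := (geo_new hF hne hP hu.1 hC).2.2.1
  refine ⟨hM, ⟨fun i => ⟨(hC.gp i).1, nq2 hF hne hP hu.1 hC (hC.gp i).1 (gq i),
      nqT hF hne hP hu.1 hC (gq i), fun j e => pn j (e ▸ gq i)⟩, hC.gi,
      fun i => (hv i).2 _ (hC.gp i).1 (hC.gp i).2.1, fun i => ?_⟩,
    ⟨fun j => TableAux.qL_self (hC.pr j).1, fun i j hij => ?_, ?_⟩,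
    fun r hr => ⟨Nat.prime_of_mem_primeFactors hr, nq2 hF hne hP hu.1 hC
      (Nat.prime_of_mem_primeFactors hr) ((Nat.dvd_of_mem_primeFactors hr).mul_right q)⟩,
    disjoint_left.2 fun r hr =>
      nqT hF hne hP hu.1 hC ((Nat.dvd_of_mem_primeFactors hr).mul_right q),
    fun j h => pn j ((Nat.dvd_of_mem_primeFactors h).mul_right q),
    fun i => Nat.mem_primeFactors.2 ⟨(hC.gp i).1, (hC.gp i).2.2.1, hC.sq.ne_zero⟩⟩
  · obtain ⟨gp, gv, -, x, y, e, hxy, hd⟩ := hC.gp i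
    have gM := nqM hF hne hP hu.1 hC gp (gq i)
    obtain ⟨σ, hσ⟩ := pool_sym hF gp e (fun h => gM (h.trans hP.dH)) (fun h => gM (h.trans hP.dN))
      hxy hd (ga hF hne hP hu.1 hC i)
    refine ⟨σ, fun j => ?_⟩
    have b := hσ j
    rw [geo_fm hF hne hP hu.1 hC, isQF_qL gp _ _ (hne j) (p0 hC j),
      ← lin_cl (isQF_qL gp) (hne j), ← kk4, (hv i).2 _ gp gv _ (hM.hk j)] at b
    linear_combination b - ψ i (kk4 A B C U V j) * XGeoAux.two0
  · have b := qL_rec (hC.pr j).1 (hC.pr i).1 (hM.pr j).2.1 (hM.pr i).2.1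
      fun e => hij (hM.inj e).symm
    rw [hM.q4_new, hM.q4_new, (by decide : ∀ e : ZMod 2, e * e = e)] at b
    exact b
  · refine ⟨fun j => qL (p j) (fm4 A B C U V (nx j) * p (nx j)), fun i j hij => ?_⟩
    have hq := isQF_qL (hC.pr j).1
    have ch : ∀ {z : ℤ}, z ≠ 0 → cl z ∈ Sup (M.primeFactors.erase 2) → qL (p j) z = χ (cl z) :=
      fun h0 h => by rw [← hM.chi j _ h, lin_cl hq h0]
    have b := (line hF hne hP hu.1 hC j).1 i hij
    rw [hq _ _ (hne i) (p0 hC i), ch (hne i) (hM.hk i), ch hF.A0 (hg m1), ch hF.B0 (hg m2),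
      ch hF.C0.ne' (hg m3), ch hF.n0.ne' (hg m4), hχ, ← lin_ep (qL (p j)),
      hM.chi j _ (ep_mem_Sup _)] at b
    change qL (p j) (p i) = dl5 (χ ep) (χ (cl A)) (χ (cl B)) (χ (cl C)) 0 i j +
      χ (cl (fm4 A B C U V i)) + qL (p j) (fm4 A B C U V (nx j) * p (nx j))
    linear_combination b - χ (cl (fm4 A B C U V i)) * XGeoAux.two0

include hF hne hP hu hχ hC in
theorem geo_lst {β : ℕ → ZMod 2} (hβ : ∀ l ∈ n.primeFactors, qL l q =
      β l + lin (qL l) (dd (cl (nm U V)) (kk4 A B C U V)) + ∑ j, qL l (p j) + qL l n) :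
    Lst (cl (nm U V)) (kk4 A B C U V) (M.primeFactors.erase 2) p n.primeFactors q β := by
  have hM := geo_mvl hF hne hP hu hC
  have qd : q ∣ n * q := Dvd.intro_left _ rfl
  have pn := (geo_new hF hne hP hu.1 hC).2.2.1
  obtain ⟨e1, e2⟩ := geo_mu hF hne hP hu.1 hC
  refine ⟨⟨hC.qp, nq2 hF hne hP hu.1 hC hC.qp qd, nqT hF hne hP hu.1 hC qd,
      fun h => hC.qn (Nat.dvd_of_mem_primeFactors h), fun j e => pn j (e ▸ qd)⟩,
    fun r hr => mu_lin hF hne hP hu.1 hC (ofT hr).1 (Int.natCast_dvd_natCast.2 (ofT hr).2.2),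
    mu_st hF hne hP hu.1 hC, fun j => ?_, fun l hl => ?_⟩
  · have hq := isQF_qL (hC.pr j).1
    have N1 : nm (mU a (G * s) U V) (mV a (G * s) U V) ≠ 0 := by
      rw [geo_nm hF hne hP hu.1 hC]
      exact mul_ne_zero (N0 hne) (mul_ne_zero (n0 hC) (q0 hC))
    rw [← e2, lin_cl hq N1, (line hF hne hP hu.1 hC j).2, ← lin_cl hq hF.n0.ne',
      hM.chi j _ (gc hF hP (mem_GC A B C).2.2.2.2.2.2.1), hχ, mul_zero]
  · have hq := isQF_qL (Nat.prime_of_mem_primeFactors hl)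
    rw [dd_new, map_add, map_add, ← e1, lin_cl hq (mul_ne_zero (n0 hC) (q0 hC)),
      hq _ _ (n0 hC) (q0 hC), hβ l hl, map_sum,
      sum_congr rfl fun j _ => lin_single (qL l) (hC.pr j).1.ne_zero]
    linear_combination (lin (qL l) (dd (cl (nm U V)) (kk4 A B C U V)) + ∑ j, qL l (p j) + qL l n) *
      XGeoAux.two0

include hF hP hu hC in
/-- the invariant, except its last field, passes to the new position -/
theorem geo_inv (hI : Inv5 A B C U V) :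
    (∀ j, fm4 A B C (mU a (G * s) U V) (mV a (G * s) U V) j ≠ 0) ∧
    (∀ r : ℕ, r.Prime → r ≠ 2 → (r : ℤ) ∣ A * B * C →
      dd (cl (nm (mU a (G * s) U V) (mV a (G * s) U V)))
        (kk4 A B C (mU a (G * s) U V) (mV a (G * s) U V)) r = 1) ∧
    ((∀ y ∈ SS A B C (mU a (G * s) U V) (mV a (G * s) U V),
      y.1 ∈ GG A B C (mU a (G * s) U V) (mV a (G * s) U V) →
      y.2 ∈ GG A B C (mU a (G * s) U V) (mV a (G * s) U V) → y = 0) →
      Inv5 A B C (mU a (G * s) U V) (mV a (G * s) U V)) := by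
  have hne := hI.ne
  have hM := geo_mvl hF hne hP hu hC
  have hk := geo_kk hF hne hP hu.1 hC
  have hn := (geo_mu hF hne hP hu.1 hC).2
  have h1 : ∀ j, fm4 A B C (mU a (G * s) U V) (mV a (G * s) U V) j ≠ 0 := fun j => by
    rw [geo_fm hF hne hP hu.1 hC]
    exact mul_ne_zero (hne j) (p0 hC j)
  have h2 : ∀ r : ℕ, r.Prime → r ≠ 2 → (r : ℤ) ∣ A * B * C →
      dd (cl (nm (mU a (G * s) U V) (mV a (G * s) U V)))
        (kk4 A B C (mU a (G * s) U V) (mV a (G * s) U V)) r = 1 := fun r hr r2 h => by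
    have rM := h.trans ((dABC A B C).trans hP.dH)
    rw [hk, hn, dd_new, Finsupp.add_apply, Finsupp.add_apply, hI.sig r hr r2 h,
      mu_old hF hne hP hu.1 hC hr rM, Finsupp.finsetSum_apply,
      sum_eq_zero fun j _ => sing_old hF hne hP hu.1 hC rM j, add_zero, add_zero]
  refine ⟨h1, h2, fun h3 => ⟨h1, h2, ?_, ?_, h3⟩⟩
  · simpa only [hk, hn, hM.st_tt (mu_st hF hne hP hu.1 hC)] using hI.star
  · obtain ⟨w, w', hw, wp, wH, w1⟩ := hI.wit
    have wM : ∀ j, (w j : ℤ) ∣ M := fun j => by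
      have b := (hw j).2.2.2.2 j
      rw [if_pos rfl, kk4, cl_prime_apply _ (hw j).1] at b
      exact (XKumAux.dvd_of_qV b).trans (hP.df j)
    have wM' : (w' : ℤ) ∣ M := by
      have b := w1
      rw [cl_prime_apply _ wp] at b
      exact (XKumAux.dvd_of_qV b).trans hP.dN
    refine ⟨w, w', fun j => ⟨(hw j).1, (hw j).2.1, ?_, ?_, fun i => ?_⟩, wp, wH, ?_⟩
    · rw [hn, Finsupp.add_apply, (hw j).2.2.1, mu_old hF hne hP hu.1 hC (hw j).1 (wM j), add_zero]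
    · rw [hk, nk5, Finsupp.add_apply, (hw j).2.2.2.1, sing_old hF hne hP hu.1 hC wM', add_zero]
    · rw [hk, nk5, Finsupp.add_apply, (hw j).2.2.2.2, sing_old hF hne hP hu.1 hC (wM j), add_zero]
    · rw [hn, Finsupp.add_apply, w1, mu_old hF hne hP hu.1 hC wp wM', add_zero]

end

end Pool.Agent.Lib.MP_7d3fda_nt.R4
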