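import Pool.Agent.Lib.MP_7d3fda_nt.R4.YDefs
import Pool.Agent.Lib.MP_7d3fda_nt.R3.XGeo

open Finset Module
open scoped NumberTheorySymbols

noncomputable section

namespace Pool.Agent.Lib.MP_7d3fda_nt.R4

open Pool.Agent.Lib.MP_788af2_nt Pool.Agent.Lib.MP_7d3fda_nt.R2 Pool.Agent.Lib.MP_7d3fda_nt.R3

namespace YLineAux

/-- the coefficient of the vanishing form -/
def Xt (A B C : ℤ) : Fin 6 → Fin 6 → ℤ :=
  ![![1, -1, 0, -A, C, -B], ![0, 1, -1, -B, -A, C], ![-1, 0, 1, C, -B, -A],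
    ![-C, A, B, 1, -1, 0], ![B, -C, A, 0, 1, -1], ![A, B, -C, -1, 0, 1]]

/-- the coefficient of the next form -/
def Dt (A B C : ℤ) : Fin 6 → Fin 6 → ℤ :=
  ![![0, -1, 1, B, A, -C], ![1, 0, -1, -C, B, A], ![-1, 1, 0, A, -C, B],
    ![-B, C, -A, 0, -1, 1], ![-A, -B, C, 1, 0, -1], ![C, -A, -B, -1, 1, 0]]

/-- the denominator -/
def kt (n : ℤ) : Fin 6 → Fin 6 → ℤ :=
  ![![1, 1, 1, n, n, n], ![1, 1, 1, n, n, n], ![1, 1, 1, n, n, n],
    ![1, 1, 1, 1, 1, 1], ![1, 1, 1, 1, 1, 1], ![1, 1, 1, 1, 1, 1]]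

theorem tab_id {A B C : ℤ} (h : A + B = C) (U V : ℤ) (i j : Fin 6) :
    kt (nm A B) i j * fm4 A B C U V i =
      Xt A B C i j * fm4 A B C U V j + Dt A B C i j * fm4 A B C U V (nx j) := by
  subst h
  fin_cases i <;> fin_cases j <;>
    simp only [Xt, Dt, kt, fm4, nx, nm, Fin.reduceFinMk, Matrix.cons_val] <;> ring

theorem ne_of {r x : ℤ} (h : ¬r ∣ x) : x ≠ 0 := by
  rintro rfl
  exact h (dvd_zero r)

theorem units {A B C : ℤ} {r : ℕ} (hH : ¬(r : ℤ) ∣ H5 A B C) :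
    ¬(r : ℤ) ∣ 3 ∧ ¬(r : ℤ) ∣ A ∧ ¬(r : ℤ) ∣ B ∧ ¬(r : ℤ) ∣ C ∧ ¬(r : ℤ) ∣ nm A B ∧
      ¬(r : ℤ) ∣ mm A B := by
  unfold H5 at hH
  refine ⟨fun h => hH (h.trans ⟨A * B * C * nm A B * mm A B, by ring⟩),
    fun h => hH (h.trans ⟨3 * B * C * nm A B * mm A B, by ring⟩),
    fun h => hH (h.trans ⟨3 * A * C * nm A B * mm A B, by ring⟩),
    fun h => hH (h.trans ⟨3 * A * B * nm A B * mm A B, by ring⟩),
    fun h => hH (h.trans ⟨3 * A * B * C * mm A B, by ring⟩),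
    fun h => hH (h.trans ⟨3 * A * B * C * nm A B, by ring⟩)⟩

theorem nd_mul {r : ℕ} (hr : r.Prime) {x y : ℤ} (hx : ¬(r : ℤ) ∣ x) (hy : ¬(r : ℤ) ∣ y) :
    ¬(r : ℤ) ∣ x * y := fun h =>
  ((Nat.prime_iff_prime_int.1 hr).dvd_or_dvd h).elim hx hy

theorem nd_sq {r : ℕ} (hr : r.Prime) {x : ℤ} (hx : ¬(r : ℤ) ∣ x) : ¬(r : ℤ) ∣ x ^ 2 := fun h =>
  hx ((Nat.prime_iff_prime_int.1 hr).dvd_of_dvd_pow h)

theorem nd_one {r : ℕ} (hr : r.Prime) : ¬(r : ℤ) ∣ 1 := (Nat.prime_iff_prime_int.1 hr).not_dvd_one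

theorem qneg {r : ℕ} (hr : r.Prime) {x : ℤ} (hx : x ≠ 0) : qL r (-x) = qL r (-1) + qL r x := by
  rw [← isQF_qL hr (-1) x (by norm_num) hx, neg_one_mul]

theorem qsq {r : ℕ} (hr : r.Prime) {x : ℤ} (hx : x ≠ 0) : qL r (x ^ 2) = 0 := by
  rw [sq]
  exact (isQF_qL hr).sq hx

/-- a congruence between two products of units -/
theorem key {r : ℕ} (hr : r.Prime) {k f D h : ℤ} (hD : ¬(r : ℤ) ∣ D) (hh : ¬(r : ℤ) ∣ h)
    (e : (r : ℤ) ∣ D * h - k * f) :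
    ¬(r : ℤ) ∣ k ∧ ¬(r : ℤ) ∣ f ∧ qL r k + qL r f = qL r D + qL r h := by
  have h1 := nd_mul hr hD hh
  have h2 : ¬(r : ℤ) ∣ k * f := fun h' => h1 (by simpa using dvd_add e h')
  have hk : ¬(r : ℤ) ∣ k := fun h' => h2 (h'.mul_right _)
  have hf : ¬(r : ℤ) ∣ f := fun h' => h2 (h'.mul_left _)
  refine ⟨hk, hf, ?_⟩
  rw [← isQF_qL hr _ _ (ne_of hk) (ne_of hf), ← isQF_qL hr _ _ (ne_of hD) (ne_of hh)]
  exact (TableAux.qL_congr hr h1 e).symm

theorem tab_q {A B C n : ℤ} {r : ℕ} (hr : r.Prime) (hA : ¬(r : ℤ) ∣ A) (hB : ¬(r : ℤ) ∣ B)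
    (hC : ¬(r : ℤ) ∣ C) (i j : Fin 6) (hij : i ≠ j) :
    ¬(r : ℤ) ∣ Dt A B C i j ∧ qL r (Dt A B C i j) + qL r (kt n i j) =
      dl5 (qL r (-1)) (qL r A) (qL r B) (qL r C) (qL r n) i j := by
  have h1 := nd_one hr
  have q1 : qL r 1 = 0 := (isQF_qL hr).one
  have qA := qneg hr (ne_of hA)
  have qB := qneg hr (ne_of hB)
  have qC := qneg hr (ne_of hC)
  revert hij
  fin_cases i <;> fin_cases j <;>
    simp only [Dt, kt, dl5, Fin.reduceFinMk, Matrix.cons_val, dvd_neg, h1, hA, hB, hC, q1, qA, qB,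
      qC, add_zero, not_false_eq_true, and_self, implies_true, ne_eq, not_true_eq_false,
      false_implies]

theorem kt_unit {n : ℤ} {r : ℕ} (hr : r.Prime) (hn : ¬(r : ℤ) ∣ n) (j : Fin 6) :
    ¬(r : ℤ) ∣ kt n 0 j := by
  have h1 := nd_one hr
  fin_cases j <;> simp only [kt, Fin.reduceFinMk, Matrix.cons_val, h1, hn, not_false_eq_true]

theorem mm_sq {A B : ℤ} (h : IsSquare (nm A B)) :
    ∃ Q : ℤ, Q ^ 2 = nm A B ∧ mm A B = 2 * Q + A - B := by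
  refine ⟨Int.sqrt (nm A B), ?_, if_pos h⟩
  obtain ⟨Q, hQ⟩ := h
  rw [hQ, Int.sqrt_eq, sq, Int.natAbs_mul_self']

theorem xy_unit {x y : ℤ} {r : ℕ} (hr : r.Prime) (e : (r : ℤ) = x ^ 2 + 3 * y ^ 2)
    (h3 : ¬(r : ℤ) ∣ 3) : ¬(r : ℤ) ∣ x ∧ ¬(r : ℤ) ∣ y := by
  have hp := Nat.prime_iff_prime_int.1 hr
  have both : (r : ℤ) ∣ x → (r : ℤ) ∣ y → False := by
    rintro ⟨a, ha⟩ ⟨b, hb⟩
    have h : (r : ℤ) * 1 = r * (r * (a ^ 2 + 3 * b ^ 2)) := by
      rw [mul_one]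
      calc (r : ℤ) = x ^ 2 + 3 * y ^ 2 := e
        _ = _ := by rw [ha, hb]; ring
    exact nd_one hr ⟨_, mul_left_cancel₀ hp.ne_zero h⟩
  constructor
  · intro hx
    have h : (r : ℤ) ∣ 3 * y ^ 2 := by
      have : 3 * y ^ 2 = r - x * x := by rw [e]; ring
      rw [this]
      exact dvd_sub dvd_rfl (hx.mul_right _)
    exact both hx (hp.dvd_of_dvd_pow ((hp.dvd_or_dvd h).resolve_left h3))
  · intro hy
    have h : (r : ℤ) ∣ x ^ 2 := by
      have : x ^ 2 = r - y * (3 * y) := by rw [e]; ring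
      rw [this]
      exact dvd_sub dvd_rfl (hy.mul_right _)
    exact both (hp.dvd_of_dvd_pow h) hy

theorem two_unit {C : ℤ} {r : ℕ} (hr : r.Prime) (h2 : 2 ∣ C) (hC : ¬(r : ℤ) ∣ C) :
    ¬(r : ℤ) ∣ 2 := by
  intro h
  have h' : r = 2 :=
    (Nat.prime_dvd_prime_iff_eq hr Nat.prime_two).1 (Int.natCast_dvd_natCast.1 h)
  subst h'
  exact hC h2

end YLineAux

open YLineAux

section

variable {A B C : ℤ} (hF : Fam4 A B C)

include hF

theorem Fam4.A0 : A ≠ 0 := by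
  rintro rfl
  exact hF.nA ⟨0, by simp⟩

theorem Fam4.n0 : 0 < nm A B := by
  have := hF.B0
  have : 0 < B ^ 2 := by positivity
  unfold nm
  nlinarith [sq_nonneg (2 * A + B)]

theorem Fam4.mm0 : mm A B ≠ 0 := by
  by_cases h : IsSquare (nm A B)
  · obtain ⟨Q, hQ, e⟩ := mm_sq h
    rw [e]
    intro h0
    have hs := hF.hs
    have hC := hF.C0
    have h1 : (2 * Q) ^ 2 = (B - A) ^ 2 := by rw [show 2 * Q = B - A by linarith]
    have h2 : 3 * C ^ 2 = 0 := by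
      rw [← hs]
      unfold nm at hQ
      linear_combination h1 - 4 * hQ
    have h3 : 0 < C ^ 2 := by positivity
    linarith
  · rw [mm, if_neg h]
    exact one_ne_zero

theorem Fam4.H0 : H5 A B C ≠ 0 := by
  unfold H5
  exact mul_ne_zero (mul_ne_zero (mul_ne_zero (by norm_num)
    (mul_ne_zero (mul_ne_zero hF.A0 hF.B0) hF.C0.ne')) hF.n0.ne') hF.mm0

omit hF in
theorem nm_pos {U V : ℤ} (h : U ≠ 0) : 0 < nm U V := by
  have : 0 < U ^ 2 := by positivity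
  unfold nm
  nlinarith [sq_nonneg (U + 2 * V)]

theorem fm_norm (U V : ℤ) (j : Fin 6) :
    fm4 A B C U V j ^ 2 + fm4 A B C U V j * fm4 A B C U V (nx j) + fm4 A B C U V (nx j) ^ 2 =
      (if bb j = 0 then 1 else nm A B) * nm U V := by
  have h := hF.hs
  subst h
  fin_cases j <;>
    simp only [fm4, nx, bb, nm, Fin.reduceFinMk, Matrix.cons_val, one_ne_zero, if_true,
      if_false] <;> ring

theorem fm_mul (x y U V : ℤ) (j : Fin 6) : fm4 A B C (mU x y U V) (mV x y U V) j =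
    x * fm4 A B C U V j + y * (fm4 A B C U V j + 2 * fm4 A B C U V (nx j)) := by
  have h := hF.hs
  subst h
  fin_cases j <;> simp only [fm4, nx, mU, mV, Fin.reduceFinMk, Matrix.cons_val] <;> ring

omit hF in
theorem nm_mul (x y U V : ℤ) : nm (mU x y U V) (mV x y U V) = nm U V * (x ^ 2 + 3 * y ^ 2) := by
  unfold nm mU mV
  ring

/-- the symbols at a prime that divides one form -/
theorem line_f {U V : ℤ} {r : ℕ} (hr : r.Prime) (hH : ¬(r : ℤ) ∣ H5 A B C) {j : Fin 6}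
    (hd : (r : ℤ) ∣ fm4 A B C U V j) (hn : ¬(r : ℤ) ∣ fm4 A B C U V (nx j)) :
    (∀ i, i ≠ j → ¬(r : ℤ) ∣ fm4 A B C U V i ∧ qL r (fm4 A B C U V i) =
      qL r (fm4 A B C U V (nx j)) +
        dl5 (qL r (-1)) (qL r A) (qL r B) (qL r C) (qL r (nm A B)) i j) ∧
    ¬(r : ℤ) ∣ nm U V ∧ qL r (nm U V) = bb j * qL r (nm A B) := by
  obtain ⟨-, hA, hB, hC, hn0, -⟩ := units hH
  refine ⟨fun i hij => ?_, ?_⟩
  · obtain ⟨hD, t⟩ := tab_q (n := nm A B) hr hA hB hC i j hij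
    have hdv : (r : ℤ) ∣ Dt A B C i j * fm4 A B C U V (nx j) -
        kt (nm A B) i j * fm4 A B C U V i := by
      rw [tab_id hF.hs]
      exact (hd.mul_left (-Xt A B C i j)).trans (dvd_of_eq (by ring))
    obtain ⟨-, hf, e⟩ := key hr hD hn hdv
    exact ⟨hf, by linear_combination e + t - CharTwo.add_self_eq_zero (qL r (kt (nm A B) i j))⟩
  · have hdv : (r : ℤ) ∣ fm4 A B C U V (nx j) * fm4 A B C U V (nx j) -
        (if bb j = 0 then 1 else nm A B) * nm U V := by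
      rw [← fm_norm hF]
      exact (hd.mul_left (-(fm4 A B C U V j + fm4 A B C U V (nx j)))).trans (dvd_of_eq (by ring))
    obtain ⟨-, hN, e⟩ := key hr hn hn hdv
    refine ⟨hN, ?_⟩
    rw [CharTwo.add_self_eq_zero] at e
    by_cases hb : bb j = 0
    · rw [if_pos hb, (isQF_qL hr).one, zero_add] at e
      rw [e, hb, zero_mul]
    · have hb1 : bb j = 1 := by
        revert hb
        generalize bb j = t
        revert t
        decide
      rw [if_neg hb] at e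
      rw [hb1, one_mul]
      linear_combination e - CharTwo.add_self_eq_zero (qL r (nm A B))

/-- the symbols at a prime that divides the norm -/
theorem line_n {U V : ℤ} {r : ℕ} (hr : r.Prime) (hH : ¬(r : ℤ) ∣ H5 A B C)
    (hd : (r : ℤ) ∣ nm U V) (hU : ¬(r : ℤ) ∣ U) (j : Fin 6) : ¬(r : ℤ) ∣ fm4 A B C U V j ∧
      qL r (fm4 A B C U V j) = qL r (fm4 A B C U V (if bb j = 0 then 0 else 5)) := by
  obtain ⟨-, -, -, -, hn0, -⟩ := units hH
  have hp := Nat.prime_iff_prime_int.1 hr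
  have hq : ∀ i, (r : ℤ) ∣ fm4 A B C U V i ^ 2 + fm4 A B C U V i * fm4 A B C U V (nx i) +
      fm4 A B C U V (nx i) ^ 2 := fun i => by
    rw [fm_norm hF]
    exact hd.mul_left _
  have hu : ∀ i, ¬(r : ℤ) ∣ fm4 A B C U V i := fun i h => by
    have h1 : (r : ℤ) ∣ fm4 A B C U V (nx i) ^ 2 :=
      (dvd_sub (hq i) (h.mul_right (fm4 A B C U V i + fm4 A B C U V (nx i)))).trans
        (dvd_of_eq (by ring))
    have h2 : (r : ℤ) ∣ kt (nm A B) 0 i * fm4 A B C U V 0 := by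
      rw [tab_id hF.hs]
      exact dvd_add (h.mul_left _) ((hp.dvd_of_dvd_pow h1).mul_left _)
    exact nd_mul hr (kt_unit hr hn0 i) hU h2
  have hs : ∀ i, qL r (fm4 A B C U V i) = qL r (fm4 A B C U V (nx i)) := fun i => by
    have hdv : (r : ℤ) ∣ fm4 A B C U V i * fm4 A B C U V (nx i) -
        (fm4 A B C U V i + fm4 A B C U V (nx i)) * (fm4 A B C U V i + fm4 A B C U V (nx i)) :=
      (dvd_neg.2 (hq i)).trans (dvd_of_eq (by ring))
    obtain ⟨-, -, e⟩ := key hr (hu i) (hu (nx i)) hdv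
    rw [CharTwo.add_self_eq_zero] at e
    linear_combination -e - CharTwo.add_self_eq_zero (qL r (fm4 A B C U V (nx i)))
  refine ⟨hu j, ?_⟩
  fin_cases j
  exacts [rfl, (hs 0).symm, hs 2, (hs 5).symm, hs 4, rfl]

/-- the values at two conjugate points -/
theorem YLineAux.pair {U V x y : ℤ} {r : ℕ} (hr : r.Prime) (e : (r : ℤ) = x ^ 2 + 3 * y ^ 2)
    (hH : ¬(r : ℤ) ∣ H5 A B C) (hN : ¬(r : ℤ) ∣ nm U V) (j : Fin 6) :
    ¬(r : ℤ) ∣ fm4 A B C (mU x y U V) (mV x y U V) j ∧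
      ¬(r : ℤ) ∣ fm4 A B C (mU x (-y) U V) (mV x (-y) U V) j ∧
      qL r (fm4 A B C (mU x y U V) (mV x y U V) j) +
        qL r (fm4 A B C (mU x (-y) U V) (mV x (-y) U V) j) =
        qL r (if bb j = 0 then 1 else nm A B) + qL r (-nm U V) := by
  obtain ⟨h3, -, -, hC, hn0, -⟩ := units hH
  obtain ⟨-, hy⟩ := xy_unit hr e h3
  have hk : ¬(r : ℤ) ∣ if bb j = 0 then 1 else nm A B := by
    split_ifs
    exacts [nd_one hr, hn0]
  have hN' : ¬(r : ℤ) ∣ -nm U V := by rwa [dvd_neg]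
  have h2 := nd_mul hr (two_unit hr hF.c2 hC) hy
  have hdv : (r : ℤ) ∣ (if bb j = 0 then 1 else nm A B) * -nm U V * (2 * y) ^ 2 -
      fm4 A B C (mU x y U V) (mV x y U V) j * fm4 A B C (mU x (-y) U V) (mV x (-y) U V) j := by
    rw [mul_neg, ← fm_norm hF, fm_mul hF, fm_mul hF]
    exact ⟨-fm4 A B C U V j ^ 2, by rw [e]; ring⟩
  obtain ⟨p1, p2, e1⟩ := key hr (nd_mul hr hk hN') (nd_sq hr h2) hdv
  refine ⟨p1, p2, ?_⟩
  rw [e1, qsq hr (ne_of h2), add_zero, isQF_qL hr _ _ (ne_of hk) (ne_of hN')]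

/-- one of two conjugate prime elements is good -/
theorem pool_or {U V x y : ℤ} {r : ℕ} (hr : r.Prime) (e : (r : ℤ) = x ^ 2 + 3 * y ^ 2)
    (hH : ¬(r : ℤ) ∣ H5 A B C) (hN : ¬(r : ℤ) ∣ nm U V) (h1 : qL r (mm A B) = 0)
    (h2 : ¬IsSquare (nm A B) → qL r (nm A B) = 1) : PP A B C U V x y ∨ PP A B C U V x (-y) := by
  obtain ⟨-, -, -, -, -, hm⟩ := units hH
  obtain ⟨p0, -, e0⟩ := YLineAux.pair hF hr e hH hN 0
  obtain ⟨p5, -, e5⟩ := YLineAux.pair hF hr e hH hN 5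
  unfold PP
  rw [neg_sq, ← e, Int.toNat_natCast]
  by_cases h : IsSquare (nm A B)
  · left
    obtain ⟨Q, hQ, em⟩ := mm_sq h
    have hz : (r : ℤ) ∣ nm (mU x y U V) (mV x y U V) := by
      rw [nm_mul, ← e]
      exact dvd_mul_left _ _
    generalize mU x y U V = u at p0 p5 hz ⊢
    generalize mV x y U V = v at p0 p5 hz ⊢
    have hid : fm4 A B C u v 5 * fm4 A B C u v 0 * mm A B -
        (fm4 A B C u v 5 + Q * fm4 A B C u v 0) * (fm4 A B C u v 5 + Q * fm4 A B C u v 0) =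
        -C ^ 2 * nm u v := by
      have hs := hF.hs
      subst hs
      rw [em]
      simp only [fm4, nm, Matrix.cons_val] at hQ ⊢
      linear_combination (-u ^ 2) * hQ
    obtain ⟨-, -, e1⟩ := key hr (nd_mul hr p5 p0) hm (hid ▸ hz.mul_left _)
    rw [CharTwo.add_self_eq_zero, h1, add_zero, isQF_qL hr _ _ (ne_of p5) (ne_of p0)] at e1
    linear_combination -e1 - CharTwo.add_self_eq_zero (qL r (fm4 A B C u v 5))
  · rw [if_pos (show bb 0 = 0 from rfl), (isQF_qL hr).one] at e0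
    rw [if_neg (show ¬bb 5 = 0 by decide), h2 h] at e5
    revert e0 e5
    generalize qL r (fm4 A B C (mU x y U V) (mV x y U V) 0) = a
    generalize qL r (fm4 A B C (mU x y U V) (mV x y U V) 5) = b
    generalize qL r (fm4 A B C (mU x (-y) U V) (mV x (-y) U V) 0) = c
    generalize qL r (fm4 A B C (mU x (-y) U V) (mV x (-y) U V) 5) = d
    generalize qL r (-nm U V) = t
    revert a b c d t
    decide

/-- at a good prime element the six values have the same symbol -/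
theorem pool_sym {U V x y a b : ℤ} {r : ℕ} (hr : r.Prime) (e : (r : ℤ) = x ^ 2 + 3 * y ^ 2)
    (hH : ¬(r : ℤ) ∣ H5 A B C) (hN : ¬(r : ℤ) ∣ nm U V) (hP : PP A B C U V x y)
    (hd : (r : ℤ) ∣ b * x - a * y) (ha : ¬(r : ℤ) ∣ a) :
    ∃ σ, ∀ j, qL r (fm4 A B C (mU a b U V) (mV a b U V) j) = σ := by
  obtain ⟨h3, -⟩ := units hH
  obtain ⟨hx, -⟩ := xy_unit hr e h3
  have hz : (r : ℤ) ∣ nm (mU x y U V) (mV x y U V) := by
    rw [nm_mul, ← e]
    exact dvd_mul_left _ _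
  have hU : ¬(r : ℤ) ∣ mU x y U V := (YLineAux.pair hF hr e hH hN 0).1
  unfold PP at hP
  rw [← e, Int.toNat_natCast] at hP
  refine ⟨qL r x + qL r a + qL r (fm4 A B C (mU x y U V) (mV x y U V) 0), fun j => ?_⟩
  obtain ⟨hj, ej⟩ := line_n hF hr hH hz hU j
  have ej' : qL r (fm4 A B C (mU x y U V) (mV x y U V) j) =
      qL r (fm4 A B C (mU x y U V) (mV x y U V) 0) := by
    rw [ej]
    split_ifs
    exacts [rfl, hP.symm]
  have hdv : (r : ℤ) ∣ a * fm4 A B C (mU x y U V) (mV x y U V) j -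
      x * fm4 A B C (mU a b U V) (mV a b U V) j := by
    rw [fm_mul hF, fm_mul hF]
    exact (hd.mul_left (-(fm4 A B C U V j + 2 * fm4 A B C U V (nx j)))).trans
      (dvd_of_eq (by ring))
  obtain ⟨-, -, e1⟩ := key hr ha hj hdv
  linear_combination e1 + ej' - CharTwo.add_self_eq_zero (qL r x)

end

end Pool.Agent.Lib.MP_7d3fda_nt.R4
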