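import Pool.Agent.Lib.MP_7d3fda_nt.R4.YMv0
import Pool.Agent.Lib.MP_7d3fda_nt.R4.YCert

open Finset Module
open scoped NumberTheorySymbols

noncomputable section

namespace Pool.Agent.Lib.MP_7d3fda_nt.R4

open Pool.Agent.Lib.MP_788af2_nt Pool.Agent.Lib.MP_7d3fda_nt.R2 Pool.Agent.Lib.MP_7d3fda_nt.R3

section

variable {a b c ν : X} {O : Submodule (ZMod 2) X} {k : Fin 6 → X} {T : Finset ℕ} {p : Fin 6 → ℕ}
  {χ : X →ₗ[ZMod 2] ZMod 2} {g : Fin 4 → ℕ} {ψ : Fin 4 → X →ₗ[ZMod 2] ZMod 2}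
  (h : MvL a b c O ν k T p χ) (hQ : MvQ k T p g ψ) (hS : SymRel5 (chOf a b c ν k χ) (Sy p))
  (hok : Ok3 a b c (dd ν k)) (ht : ∀ i, tt4 a b c ν k i ∈ Rel a b c (dd ν k))
  (hi : ∀ w, cmb w (fun i => two st (tt4 a b c ν k i)) = 0 → w = 0)
  (hD : Design5 (chOf a b c ν k χ) fun i => chOf a b c ν k (ψ i))

open XMoveAux (add_self' Sup_mono)

theorem zeta_apply (N : (Fin 4 → B2) →ₗ[ZMod 2] B2) (s : X × X) : zeta χ ψ N s =
    two (ψ 3) s + N ![two (ψ 0) s, two (ψ 1) s, two (ψ 2) s, two χ s] := by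
  rw [zeta, LinearMap.add_apply, LinearMap.comp_apply]
  congr 2
  funext i
  fin_cases i <;> rfl

include h hQ in
theorem res_pool (i : Fin 4) {s : X × X} (h1 : s.1 ∈ Sup T) (h2 : s.2 ∈ Sup T) (w : B4)
    {v : Fin 6 → B2} (vs : ∑ j, v j = 0) :
    two (lin (qL (g i))) (s + cmb w (tt4 a b c ν k) + up5 p v) =
      two (ψ i) s + el (chOf a b c ν k (ψ i)) w v := by
  obtain ⟨σ, hσ⟩ := hQ.geo i
  have e1 : ∀ z : X × X, z.1 ∈ Sup T → z.2 ∈ Sup T → two (lin (qL (g i))) z = two (ψ i) z :=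
    fun z a1 a2 => Prod.ext (hQ.psi i _ a1) (hQ.psi i _ a2)
  have e2 : ∀ x : Fin 6 → ZMod 2, ∑ j, x j = 0 →
      lin (qL (g i)) (∑ j, x j • Finsupp.single (p j) 1) = ∑ j, ψ i (k j) * x j := fun x hx => by
    simp only [map_sum, map_smul, lin_single _ (h.pr _).1.ne_zero, hσ, smul_eq_mul, mul_add,
      sum_add_distrib]
    rw [← sum_mul, hx, zero_mul, add_zero]
    simp only [mul_comm]
  rw [map_add, map_add, e1 s h1 h2, XParAux.map_cmb, add_assoc, el]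
  congr 2
  · congr 1
    funext n
    rw [e1 _ (h.g2_le (tt4_mem n).1) (h.g2_le (tt4_mem n).2), chi_tt4]
  · refine Prod.ext ((e2 _ ?_).trans ?_) ((e2 _ ?_).trans ?_)
    · simpa only [Prod.fst_sum, Prod.fst_zero] using congrArg Prod.fst vs
    · simp only [Prod.fst_sum, Prod.smul_fst, smul_eq_mul, chOf]
    · simpa only [Prod.snd_sum, Prod.snd_zero] using congrArg Prod.snd vs
    · simp only [Prod.snd_sum, Prod.smul_snd, smul_eq_mul, chOf]

theorem chi_add (s : X × X) (w : B4) : two χ (s + cmb w (tt4 a b c ν k)) =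
    two χ s + cmb w (Bv4 (chOf a b c ν k χ)) := by
  rw [map_add, XParAux.map_cmb, funext (chi_tt4 χ)]

include hQ in
theorem pool_set {ι : Type} [Fintype ι] (f : ι → Fin 4) : OddP (univ.image fun i => g (f i)) ∧
    Disjoint (univ.image fun i => g (f i)) T ∧ ∀ j, p j ∉ univ.image fun i => g (f i) := by
  refine ⟨fun r hr => ?_, disjoint_left.2 fun r hr => ?_, fun j hr => ?_⟩
  · obtain ⟨i, -, rfl⟩ := mem_image.1 hr
    exact ⟨(hQ.pr _).1, (hQ.pr _).2.1⟩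
  · obtain ⟨i, -, rfl⟩ := mem_image.1 hr
    exact (hQ.pr _).2.2.1
  · obtain ⟨i, -, e⟩ := mem_image.1 hr
    exact (hQ.pr _).2.2.2 j e.symm

theorem wg_three : ∀ v₀ v₁ v₂ : B2, (∀ r₀ r₁ r₂ : B2, wg v₀ r₀ + wg v₁ r₁ + wg v₂ r₂ = 0) →
    v₀ = 0 ∧ v₁ = 0 ∧ v₂ = 0 := by
  decide +kernel

include h hQ hS hok ht hi hD

omit hok hi in
/-- every element of the old group lifts, with prescribed residues at the first three primes -/
theorem move_lift {N : (Fin 4 → B2) →ₗ[ZMod 2] B2}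
    (hN : Lin5 (chOf a b c ν k χ) (fun i => chOf a b c ν k (ψ i)) N) {s : X × X}
    (hs : s ∈ Str a b c (dd ν k)) (r : Fin 4 → B2) (r3 : r 3 = 0) :
    ∃ z ∈ S2 a b c ν k p ∅ 0, (∀ i : Fin 3, two (lin (qL (g i.castSucc))) z = r i.castSucc) ∧
      two (lin (qL (g 3))) z = zeta χ ψ N s + N r := by
  obtain ⟨s1, s0⟩ := mem_Str.1 hs
  have t1 := Sup_mono h.sg_sub (mem_Rel.1 s1).1
  have t2 := Sup_mono h.sg_sub (mem_Rel.1 s1).2.1
  obtain ⟨w, v, v0, vs, he, hb⟩ :=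
    hD.sur (![two (ψ 0) s, two (ψ 1) s, two (ψ 2) s, two χ s] + r)
  have b3 : (![two (ψ 0) s, two (ψ 1) s, two (ψ 2) s, two χ s] + r) 3 = two χ s := by
    rw [Pi.add_apply, r3, add_zero]
    rfl
  rw [b3] at he
  refine ⟨s + cmb w (tt4 a b c ν k) + up5 p v, h.lift (add_mem s1 (XParAux.cmb_mem ht w))
    (mem_Lam.2 ⟨w, by rw [map_add, s0, zero_add, XParAux.map_cmb]⟩) v0 vs
    (by rwa [chi_add, eqs_iff hS vs]) 0, fun i => ?_, ?_⟩
  · rw [res_pool h hQ _ t1 t2 w vs, hb i, Pi.add_apply, ← add_assoc]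
    fin_cases i <;> exact (congrArg (· + _) (add_self' _)).trans (zero_add _)
  · rw [res_pool h hQ _ t1 t2 w vs, hN w v _ v0 vs he, zeta_apply, add_assoc (two (ψ 3) s),
      ← map_add]
    congr 2
    funext i
    fin_cases i
    · exact hb 0
    · exact hb 1
    · exact hb 2
    · exact ((add_assoc _ _ _).trans (by rw [add_self', add_zero])).trans b3.symm

/-- the projection to the old group -/
theorem move_pi {N : (Fin 4 → B2) →ₗ[ZMod 2] B2}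
    (hN : Lin5 (chOf a b c ν k χ) (fun i => chOf a b c ν k (ψ i)) N) :
    ∃ π : X × X →ₗ[ZMod 2] X × X, ∀ y ∈ S2 a b c ν k p ∅ 0,
      (∀ i : Fin 3, two (lin (qL (g i.castSucc))) y = 0) →
      π y ∈ Str a b c (dd ν k) ∧ zeta χ ψ N (π y) = two (lin (qL (g 3))) y ∧
        (π y = 0 → y = 0) ∧
        ∀ t, y ∈ Pt t (G1 a b c O (nk5 k p)) → π y ∈ Pt t (G2 a b c O ν k) := by
  obtain ⟨gl, hgl⟩ := exists_coord hi
  refine ⟨two (rm5 p) + XParAux.cmbL (tt4 a b c ν k) ∘ₗ gl ∘ₗ two st, fun y hy h0 => ?_⟩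
  obtain ⟨v0, vs, m, e1, e2, he⟩ := h.proj hok ht hD.e0 hy
  obtain ⟨w, hw⟩ := mem_Lam.1 (mem_S2.1 hy).2.1
  obtain ⟨s, hs⟩ : ∃ s, s = two (rm5 p) y + cmb w (tt4 a b c ν k) := ⟨_, rfl⟩
  have e3 : (two (rm5 p) + XParAux.cmbL (tt4 a b c ν k) ∘ₗ gl ∘ₗ two st) y = s := by
    rw [LinearMap.add_apply, LinearMap.comp_apply, LinearMap.comp_apply, hw, hgl, hs]
    rfl
  have e4 : two (rm5 p) y = s + cmb w (tt4 a b c ν k) := by
    rw [hs, add_assoc, add_self', add_zero]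
  have s1 : s ∈ Rel a b c (dd ν k) := hs ▸ add_mem m (XParAux.cmb_mem ht w)
  have t1 := Sup_mono h.sg_sub (mem_Rel.1 s1).1
  have t2 := Sup_mono h.sg_sub (mem_Rel.1 s1).2.1
  obtain ⟨v, hv⟩ : ∃ v : Fin 6 → B2, v = fun j => vl (p j) y := ⟨_, rfl⟩
  have v0' : v 0 = 0 := hv ▸ v0
  have vs' : ∑ j, v j = 0 := hv ▸ vs
  rw [← hv, e4] at e2 he
  rw [chi_add, eqs_iff hS vs'] at he
  have r : ∀ i, two (lin (qL (g i))) y = two (ψ i) s + el (chOf a b c ν k (ψ i)) w v := fun i => by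
    rw [e2, res_pool h hQ i t1 t2 w vs']
  have r' : ∀ i : Fin 3, el (chOf a b c ν k (ψ i.castSucc)) w v = two (ψ i.castSucc) s := fun i => by
    have := r i.castSucc
    rw [h0 i] at this
    rw [← zero_add (el _ w v), ← add_self' (two (ψ i.castSucc) s), add_assoc, ← this, add_zero]
  rw [e3]
  refine ⟨mem_Str.2 ⟨s1, ?_⟩, ?_, fun e => ?_, fun t hy' => ?_⟩
  · rw [hs, map_add, e1, hw, XParAux.map_cmb, add_self']
  · rw [r 3, hN w v _ v0' vs' he, zeta_apply]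
    congr 2
    funext i
    fin_cases i
    · exact (r' 0).symm
    · exact (r' 1).symm
    · exact (r' 2).symm
    · exact ((add_assoc _ _ _).trans (by rw [add_self', add_zero]; rfl)).symm
  · rw [e, map_zero, zero_add] at he
    obtain ⟨w0, v1⟩ := hD.inj w v v0' vs' he fun i => by rw [r' i, e, map_zero]
    rw [e2, e, w0, v1]
    simp [cmb, up5]
  · rw [hs]
    refine add_mem (mem_Pt.2 ?_) (cmb_Pt w t)
    have := h.rm_g1 (mem_Pt.1 hy')
    rw [map_add, map_smul, map_smul] at this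
    exact (g2_mem a b c ν O k).2.2.2.2.2.2.1 this

theorem move0 {N : (Fin 4 → B2) →ₗ[ZMod 2] B2}
    (hN : Lin5 (chOf a b c ν k χ) (fun i => chOf a b c ν k (ψ i)) N) (β : ℕ → ZMod 2) :
    Below (S2 a b c ν k p (univ.image fun i : Fin 3 => g i.castSucc) β) (Str a b c (dd ν k))
      (G1 a b c O (nk5 k p)) (G2 a b c O ν k) := by
  obtain ⟨π, hπ⟩ := move_pi h hQ hS hok ht hi hD hN
  obtain ⟨o1, o2, o3⟩ := pool_set hQ fun i : Fin 3 => i.castSucc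
  refine below_of_map π fun y hy => ?_
  obtain ⟨a0, a1, a2⟩ := wg_three (vl (g 0) y) (vl (g 1) y) (vl (g 2) y) fun r₀ r₁ r₂ => by
    obtain ⟨z, hz, z1, -⟩ := move_lift h hQ hS ht hD hN (zero_mem _) ![r₀, r₁, r₂, 0] rfl
    have := h.dual hok ht o1 o2 o3 hy hz
    rw [sum_image fun _ _ _ _ e => Fin.castSucc_injective _ (hQ.inj e), Fin.sum_univ_three,
      z1, z1, z1] at this
    exact this
  obtain ⟨b1, b2⟩ := h.unr o1 o2 o3 0 hy fun l hl => by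
    obtain ⟨i, -, rfl⟩ := mem_image.1 hl
    fin_cases i
    exacts [a0, a1, a2]
  obtain ⟨c1, -, c3, c4⟩ := hπ y b1 fun i => b2 _ (mem_image_of_mem _ (mem_univ i))
  exact ⟨c1, c3, c4⟩

theorem moveA {N : (Fin 4 → B2) →ₗ[ZMod 2] B2}
    (hN : Lin5 (chOf a b c ν k χ) (fun i => chOf a b c ν k (ψ i)) N) (β : ℕ → ZMod 2) :
    StepA (Str a b c (dd ν k)) (S2 a b c ν k p (univ.image g) β) (G2 a b c O ν k)
      (G1 a b c O (nk5 k p)) (zeta χ ψ N) (Brk5 N) := by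
  obtain ⟨π, hπ⟩ := move_pi h hQ hS hok ht hi hD hN
  obtain ⟨o1, o2, o3⟩ := pool_set hQ fun i : Fin 4 => i
  have du : ∀ y ∈ S2 a b c ν k p (univ.image g) β, ∀ s ∈ Str a b c (dd ν k), ∀ r : Fin 4 → B2,
      r 3 = 0 → ∑ i : Fin 3, wg (vl (g i.castSucc) y) (r i.castSucc) +
        wg (vl (g 3) y) (zeta χ ψ N s + N r) = 0 := fun y hy s hs r r3 => by
    obtain ⟨z, hz, z1, z2⟩ := move_lift h hQ hS ht hD hN hs r r3
    have := h.dual hok ht o1 o2 o3 hy hz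
    rw [sum_image fun _ _ _ _ e => hQ.inj e, Fin.sum_univ_castSucc] at this
    simp only [z1] at this
    rw [← z2]
    exact this
  refine ⟨π, vl (g 3), fun y hy z hz => ?_, fun y hy h0 => ?_, fun hB y hy h0 hP => ?_⟩
  · simpa [wg] using du y hy z hz 0 rfl
  · obtain ⟨a0, a1, a2⟩ := wg_three (vl (g 0) y) (vl (g 1) y) (vl (g 2) y) fun r₀ r₁ r₂ => by
      have := du y hy 0 (zero_mem _) ![r₀, r₁, r₂, 0] rfl
      rw [h0, Fin.sum_univ_three, show ∀ u, wg 0 u = 0 by simp [wg], add_zero] at this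
      exact this
    obtain ⟨b1, b2⟩ := h.unr o1 o2 o3 0 hy fun l hl => by
      obtain ⟨i, -, rfl⟩ := mem_image.1 hl
      fin_cases i
      exacts [a0, a1, a2, h0]
    obtain ⟨c1, c2, c3, c4⟩ := hπ y b1 fun i => b2 _ (mem_image_of_mem _ (mem_univ _))
    exact ⟨c1, c2.trans (b2 _ (mem_image_of_mem _ (mem_univ _))), c3, c4⟩
  · obtain ⟨i, e⟩ := hB _ h0 (fun i => vl (g i.castSucc) y) fun r r3 => by
      have := du y hy 0 (zero_mem _) r r3
      rw [map_zero, zero_add] at this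
      exact (XParAux.bit_eq _ _ this).symm
    have z := mem_Sup.1 (h.g1_le (mem_Pt.1 hP)) (g i.castSucc) (hQ.pr _).1.ne_zero (hQ.pr _).2.1
      fun e => (mem_union.1 e).elim (hQ.pr _).2.2.1 fun e => by
        obtain ⟨j, -, e⟩ := mem_image.1 e
        exact (hQ.pr _).2.2.2 j e
    simp only [Finsupp.add_apply, Finsupp.smul_apply, smul_eq_mul] at z
    rw [wg, add_comm] at e
    exact zero_ne_one (z.symm.trans e)

theorem move_inj {N : (Fin 4 → B2) →ₗ[ZMod 2] B2}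
    (hN : Lin5 (chOf a b c ν k χ) (fun i => chOf a b c ν k (ψ i)) N)
    (hinj : ∀ y ∈ Str a b c (dd ν k), y.1 ∈ G2 a b c O ν k → y.2 ∈ G2 a b c O ν k → y = 0)
    {J : Finset ℕ} (hJ : OddP J) (hJT : Disjoint J T) (hJp : ∀ j, p j ∉ J) (hg : ∀ i, g i ∈ J)
    (β : ℕ → ZMod 2) : ∀ y ∈ S2 a b c ν k p J β,
      y.1 ∈ G1 a b c O (nk5 k p) → y.2 ∈ G1 a b c O (nk5 k p) → y = 0 := by
  obtain ⟨π, hπ⟩ := move_pi h hQ hS hok ht hi hD hN
  intro y hy h1 h2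
  have z : ∀ γ ∈ G1 a b c O (nk5 k p), ∀ l ∈ J, γ l = 0 := fun γ hγ l hl =>
    mem_Sup.1 (h.g1_le hγ) l (hJ l hl).1.ne_zero (hJ l hl).2
      fun e => (mem_union.1 e).elim (disjoint_left.1 hJT hl) fun e => by
        obtain ⟨j, -, e⟩ := mem_image.1 e
        exact hJp j (e ▸ hl)
  obtain ⟨b1, b2⟩ := h.unr hJ hJT hJp 0 hy fun l hl => Prod.ext (z _ h1 l hl) (z _ h2 l hl)
  obtain ⟨c1, -, c3, c4⟩ := hπ y b1 fun i => b2 _ (hg _)
  exact c3 (hinj _ c1 (mem_Pt_fst.1 (c4 _ (mem_Pt_fst.2 h1))) (mem_Pt_snd.1 (c4 _ (mem_Pt_snd.2 h2))))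

end

end Pool.Agent.Lib.MP_7d3fda_nt.R4
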