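import Pool.Agent.Lib.MP_7d3fda_nt.R4.YDefs
import Pool.Agent.Lib.MP_7d3fda_nt.R3.XBase

open Finset Module
open scoped NumberTheorySymbols

noncomputable section

namespace Pool.Agent.Lib.MP_7d3fda_nt.R4

open Pool.Agent.Lib.MP_788af2_nt Pool.Agent.Lib.MP_7d3fda_nt.R2 Pool.Agent.Lib.MP_7d3fda_nt.R3

/-- the local classes of the six values at the starting point, up to a common unit -/
def kH4 (sA sB eA oA eB oB vC eC oC i : ZMod 2) : Fin 6 → B4 :=
  ![(sA + sB, 0, 0, 0), (0, vC + 1, eA, oA), (1, 0, 1, i), (1 + sB, vC, eC, eC + oC + i),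
    (1 + sA, 0, eB, oB + i), (0, 0, eA, oA)]

/-- the local classes of the four known points -/
def tH4 (al be ga nu : B4) (k : Fin 6 → B4) : Fin 4 → B4 × B4 :=
  ![(al + ga, epH + (epH + nu + ∑ j, k j) + al), ((epH + nu + ∑ j, k j) + al, epH + al + be),
    (∑ j, k j + k 0 + k 3, ∑ j, k j + k 2 + k 4), (∑ j, k j + k 1 + k 4, ∑ j, k j + k 0 + k 5)]

theorem st_tt4 (a b c ν : X) (k : Fin 6 → X) (i : Fin 4) :
    two st (tt4 a b c ν k i) = tH4 (st a) (st b) (st c) (st ν) (fun j => st (k j)) i := by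
  fin_cases i <;> simp [tt4, tH4, T0, T1, dd, map_add, map_sum, st_ep]

namespace YStarAux

open XBaseAux

/-- the table of witnesses -/
def tab : ℕ :=
  1602089750846514316700644706696137211734078359941112327402693523372623498338747703322238747163444754483484034014325855820320325191801918345080133866958512575520634673455906525307851933668008485688825483921957131424325807729988473026026422616332480452669831606453662125461192296473061176719267594321224345462023708229543563025027333502213199956279131286300808133425475289809073798641394538645471249678774967283678158840684057032017180490477276035399752826253857254162204735314873669146828906005177900939973338336502056031941034487917132708705711827304268212722693150474170568175500717892589700599222402514367303238367230248761914291358815058812453812680030628410670264167074899563190675723673586228108272744362868912889669892029856541960806031872585336320246706591263304049884861316344370533092437890068289015229842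983296251119158232837946020668146391771939728102085951319393821043603372607646272866476884363699131341749963099232110212617447387752882252743937339651560807963199416418054634162209199839815132767916902791173520687308233818463482912872464307360635172536892020288016462250639067580433639062900261640740573582964461510027334192916421896356693358810569139319212658908152350768282981436791371600081155844387522650189461251600903175265071776161993889813381268889453373051619513436049623610349952514638091945991349452374978718091332010925971528492398186876379318485746898683492667176060864723635071730168721774615090848112460264709279042160135476986051209337535367486990563498195660426684524028398233342173651176972728900199651383639085524060406734036249938581723904873089510575050044420874439415784553107474787202453574620386752331264274782163996710721357089249055214298491210309541154683207570680040181995376167302048969521254885989989581338341173643265487145880180683746893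94385551473117376350143787524673183454890672078239141442008273307504275387692844452875180326741149694565046118159082306512081690413483255170407118172600065333844732570762825067425469745985522128872816390295932395855263244411971139527530350005134491602919466879387761154842766971444167646422204111419342425115619018285571410199818409023020115430659751266284850397600995585014198177767799403271067019243602026917113209807053322642681524667642869049299839825226024986815860931808067417199097054660001379213294786347704840055947521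

/-- a bit of the table -/
def tb (i : ℕ) : ZMod 2 := if tab.testBit i then 1 else 0

/-- four bits of the table -/
def t4 (i : ℕ) : B4 := (tb i, tb (i + 1), tb (i + 2), tb (i + 3))

/-- position in the table -/
def ix (sA sB eA oA oB vC eC oC i : ZMod 2) : ℕ :=
  20 * (256 * sA.val + 128 * sB.val + 64 * eA.val + 32 * oA.val + 16 * oB.val + 8 * vC.val +
    4 * eC.val + 2 * oC.val + i.val)

/-- the four classes, computed -/
def t0 (sA sB eA oA eB oB vC eC oC i : ZMod 2) : Fin 4 → B4 × B4 :=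
  ![((sA, vC, eA + eC, oA + oC), (1 + sA, 1, 1 + eC + eB + eA, eC + oC + oB + oA)),
    ((sA, 1, eC + eB + eA, eC + oC + oB + oA), (1 + sA + sB, 0, 1 + eA + eB, oA + oB)),
    ((sA, 1 + vC, 1 + eB, oB), (1 + sA, 1, eC, eC + oC + i)),
    ((sA, vC, 1 + eC + eA, eC + oC + oA),
      (1 + sA + sB, 1, 1 + eC + eB + eA, eC + oC + oB + i + oA))]

/-- the statement with the witnesses of the table -/
def CK (sA sB eA oA eB oB vC eC oC i : ZMod 2) : Prop :=
  XStarAux.Chk (sA, 0, eA, oA) (sB, 0, eB, oB) (0, vC, eC, oC) (t0 sA sB eA oA eB oB vC eC oC i)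
    (t4 (ix sA sB eA oA oB vC eC oC i), t4 (ix sA sB eA oA oB vC eC oC i + 4),
      t4 (ix sA sB eA oA oB vC eC oC i + 8), t4 (ix sA sB eA oA oB vC eC oC i + 12))
    (t4 (ix sA sB eA oA oB vC eC oC i + 16))

instance (sA sB eA oA eB oB vC eC oC i : ZMod 2) : Decidable (CK sA sB eA oA eB oB vC eC oC i) := by
  unfold CK
  infer_instance

theorem chk0 : ∀ sA sB oA oB vC eC oC : ZMod 2, (sA = 0 ∨ sB = 0) → (oB = oA ∨ vC = 0) →
    CK sA sB 0 oA 1 oB vC eC oC 0 := by
  decide +kernel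

theorem chk1 : ∀ sA sB eA oA eC oC : ZMod 2, (sA = 0 ∨ sB = 0) →
    CK sA sB eA oA eA (eC + eA + oA) 1 eC oC 1 := by
  decide +kernel

theorem tH_eq : ∀ sA sB eA oA eB oB vC eC oC i : ZMod 2, ∀ l,
    tH4 (sA, 0, eA, oA) (sB, 0, eB, oB) (0, vC, eC, oC) (0, 0, 0, i)
      (kH4 sA sB eA oA eB oB vC eC oC i) l = t0 sA sB eA oA eB oB vC eC oC i l := by
  decide +kernel

theorem tH_shift (al be ga nu w : B4) (k : Fin 6 → B4) :
    tH4 al be ga nu (fun j => k j + w) = tH4 al be ga nu k := by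
  have hw : ∀ w : B4, w + w = 0 := by decide
  have h2 : ∀ s a b : B4, s + (a + w) + (b + w) = s + a + b := fun s a b => by
    rw [← add_zero (s + a + b), ← hw w]
    abel
  have h6 : ∑ j, (k j + w) = ∑ j, k j := by
    have : ∀ w : B4, ∑ _j : Fin 6, w = 0 := by decide
    rw [Finset.sum_add_distrib, this, add_zero]
  simp only [tH4, h6, h2]

theorem cls {x y : ℤ} (s : ℕ) (z : ℤ) (hy : ¬(2 : ℤ) ∣ y) (h : x = 2 ^ s * (y + 8 * z)) :
    qV 2 x = s ∧ q4 x = q4 y ∧ q8 x = q8 y := by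
  have h1 : ¬((2 : ℕ) : ℤ) ∣ y + 8 * z := by push_cast; omega
  have h2 : upart 2 x = y + 8 * z := by rw [h]; exact_mod_cast upart_pow_mul (s := s) h1
  have h3 : padicValInt 2 x = s := by rw [h]; exact_mod_cast val_pow_mul (s := s) h1
  rw [qV, h3, q4, q4, q8, q8, h2, upart_odd hy]
  exact ⟨rfl, if_congr (by omega) rfl rfl, if_congr (by omega) rfl rfl⟩

/-- the classes at infinity and at two -/
theorem st_kk {A B C U V : ℤ} (hF : Fam4 A B C) (hU : ¬(2 : ℤ) ∣ U) (hs : qS U = qS A + qS B)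
    (hV : (|A| + |B| + |C| + 1) * |U| < V)
    (h2 : (2 : ℤ) ^ (padicValInt 2 C + 4) ∣ V - 2 ^ (padicValInt 2 C + 1) * A * U) :
    ∃ i : ZMod 2, (i = 1 → qV 2 C = 1 ∧ q4 B = q4 A ∧ q8 B = q4 C + q4 A + q8 A) ∧
      (i = 0 → q4 A = 0 ∧ q4 B = 1 ∧ (q8 B = q8 A ∨ qV 2 C = 0)) ∧
      qV 2 A = 0 ∧ qV 2 B = 0 ∧ st (cl (nm U V)) = (0, 0, 0, i) ∧
      ∀ j, fm4 A B C U V j ≠ 0 ∧ st (kk4 A B C U V j) =
        kH4 (qS A) (qS B) (q4 A) (q8 A) (q4 B) (q8 B) (qV 2 C) (q4 C) (q8 C) i j +
          (0, 0, q4 U, q8 U) := by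
  have hABC := hF.hs
  have hC0 := hF.C0
  have hc2 := hF.c2
  have hA2 : ¬(2 : ℤ) ∣ A := fun h => by
    have := hF.cop.isUnit_of_dvd' h (by omega)
    rw [Int.isUnit_iff] at this
    omega
  have hB2 : ¬(2 : ℤ) ∣ B := by omega
  have hA0 : A ≠ 0 := by omega
  have hB0 : B ≠ 0 := by omega
  have hU0 : U ≠ 0 := by omega
  have od : ∀ {a b : ℤ}, ¬(2 : ℤ) ∣ a → ¬(2 : ℤ) ∣ b → ¬(2 : ℤ) ∣ a * b := fun ha hb h =>
    (Int.prime_two.dvd_or_dvd h).elim ha hb
  obtain ⟨z, hz⟩ := h2
  have ho : ¬(2 : ℤ) ∣ upart 2 C := by exact_mod_cast not_dvd_upart (p := 2) hC0.ne'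
  have hC : C = 2 ^ padicValInt 2 C * upart 2 C := by
    exact_mod_cast (pow_mul_upart (p := 2) C).symm
  have vC : qV 2 C = (padicValInt 2 C : ℕ) := rfl
  generalize upart 2 C = o at ho hC
  generalize padicValInt 2 C = v at hz hC vC
  obtain ⟨-, c4, c8⟩ := cls v 0 ho (x := C) (by rw [mul_zero, add_zero]; exact hC)
  obtain ⟨u, rfl⟩ : ∃ u, v = u + 1 := by
    rcases v with _ | u
    · rw [pow_zero, one_mul] at hC
      omega
    · exact ⟨u, rfl⟩
  have hV' : V = 2 ^ (u + 2) * (A * U + 8 * z) := by linear_combination hz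
  have key : ∃ i : ZMod 2, (i = 1 → qV 2 C = 1 ∧ q4 B = q4 A ∧ q8 B = q4 o + q4 A + q8 A) ∧
      (i = 0 → q4 A = 0 ∧ q4 B = 1 ∧ (q8 B = q8 A ∨ qV 2 C = 0)) ∧
      (∀ y t : ℤ, ¬(2 : ℤ) ∣ y → ¬(2 : ℤ) ∣ t →
        q4 (y + 2 ^ (u + 2) * t) = q4 y ∧ q8 (y + 2 ^ (u + 2) * t) = q8 y + i) ∧
      q4 (o + 2 * (A * B)) = q4 o + 1 ∧ q8 (o + 2 * (A * B)) = q4 o + q8 o + i := by
    have hAB := od hA2 hB2
    have h4 := Int.mul_emod A B 4
    have hD : ¬(2 : ℤ) ∣ o + 2 * (A * B) := by omega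
    rcases u with _ | u
    · have hC' : C = 2 * o := by simpa using hC
      have h5 : A * B % 4 = 1 := by
        rcases (by omega : A % 4 = 1 ∧ B % 4 = 1 ∨ A % 4 = 3 ∧ B % 4 = 3) with h | h <;>
          rw [h4, h.1, h.2] <;> rfl
      refine ⟨1, fun _ => ⟨by rw [vC]; rfl, ?_, ?_⟩, fun h => absurd h (by decide),
        fun y t hy ht => ?_, ?_, ?_⟩
      · rw [q4, q4, upart_odd hA2, upart_odd hB2]
        exact if_congr (by omega) rfl rfl
      · rw [q4, q4, q8, q8, upart_odd hA2, upart_odd hB2, upart_odd ho]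
        split_ifs <;> first | decide | omega
      · have : ¬(2 : ℤ) ∣ y + 2 ^ (0 + 2) * t := by omega
        rw [q4, q4, q8, q8, upart_odd this, upart_odd hy]
        refine ⟨if_congr (by omega) rfl rfl, ?_⟩
        split_ifs <;> first | decide | omega
      · rw [q4, q4, upart_odd hD, upart_odd ho]
        split_ifs <;> first | decide | omega
      · rw [q4, q8, q8, upart_odd hD, upart_odd ho]
        split_ifs <;> first | decide | omega
    · have h3 : C = 4 * (2 ^ u * o) := by rw [hC]; ring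
      have hA := hF.a4 ⟨_, h3⟩
      have h5 : A * B % 4 = 3 := by
        rw [h4, hA, show B % 4 = 3 by omega]
        rfl
      refine ⟨0, fun h => absurd h (by decide), fun _ => ⟨?_, ?_, ?_⟩, fun y t hy ht => ?_, ?_, ?_⟩
      · rw [q4, upart_odd hA2, if_neg (by omega)]
      · rw [q4, upart_odd hB2, if_pos (by omega)]
      · rcases u with _ | u
        · exact Or.inr (by rw [vC]; rfl)
        · have h6 : C = 8 * (2 ^ u * o) := by rw [hC]; ring
          rw [q8, q8, upart_odd hA2, upart_odd hB2]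
          exact Or.inl (if_congr (by omega) rfl rfl)
      · rw [add_zero]
        exact (cls 0 (2 ^ u * t) hy (by ring)).2
      · rw [q4, q4, upart_odd hD, upart_odd ho]
        split_ifs <;> first | decide | omega
      · rw [q4, q8, q8, upart_odd hD, upart_odd ho]
        split_ifs <;> first | decide | omega
  obtain ⟨i, k1, k2, k3, k4, k5⟩ := key
  have od2 : ∀ {y : ℤ} (t : ℤ), ¬(2 : ℤ) ∣ y → ¬(2 : ℤ) ∣ y + 2 ^ (u + 2) * t := fun t hy h =>
    hy ((Int.dvd_add_left (dvd_mul_of_dvd_left (dvd_pow_self 2 (by omega)) t)).1 h)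
  have ne : ∀ {y : ℤ}, ¬(2 : ℤ) ∣ y → y ≠ 0 := fun hy => by omega
  have m4 : ∀ {a b : ℤ}, ¬(2 : ℤ) ∣ a → ¬(2 : ℤ) ∣ b → q4 (a * b) = q4 a + q4 b := fun ha hb =>
    isQF_q4 _ _ (ne ha) (ne hb)
  have m8 : ∀ {a b : ℤ}, ¬(2 : ℤ) ∣ a → ¬(2 : ℤ) ∣ b → q8 (a * b) = q8 a + q8 b := fun ha hb =>
    isQF_q8 _ _ (ne ha) (ne hb)
  have o1 : ¬(2 : ℤ) ∣ 1 := by omega
  have o2 : ¬(2 : ℤ) ∣ -1 := by omega
  have a1 : q4 1 = 0 := by rw [q4, upart_odd o1]; rfl
  have a2 : q8 1 = 0 := by rw [q8, upart_odd o1]; rfl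
  have a3 : q4 (-1) = 1 := by rw [q4, upart_odd o2]; rfl
  have a4 : q8 (-1) = 0 := by rw [q8, upart_odd o2]; rfl
  have s1 : qS 1 = 0 := by simp [qS]
  have s2 : qS (-1) = 1 := by simp [qS]
  have s3 : qS C = 0 := by rw [qS, if_neg hC0.le.not_gt]
  obtain ⟨d4, d8⟩ := k3 1 A o1 hA2
  have hD := od2 A o1
  have sg : ∀ a b : ℤ, b ≠ 0 → |a| ≤ |A| + |B| + |C| + 1 →
      a * U + b * V ≠ 0 ∧ qS (a * U + b * V) = qS b := fun a b hb ha =>
    XBaseAux.sgn a b U V hb ((mul_le_mul_of_nonneg_right ha (abs_nonneg U)).trans_lt hV)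
  have p1 := abs_nonneg A
  have p2 := abs_nonneg B
  have p3 := abs_nonneg C
  have z2 : ∀ x : ZMod 2, x + x = 0 := by decide
  refine ⟨i, by rwa [c4], k2, qV_odd hA2, qV_odd hB2, ?_, fun j => ?_⟩
  · have n0 : 0 < nm U V := by
      have : 0 < U ^ 2 := by positivity
      unfold nm
      nlinarith [sq_nonneg (U + 2 * V)]
    obtain ⟨e1, e2, e3⟩ := cls (x := nm U V) 0
      (2 ^ (u + 2) * U * z + 2 ^ (2 * u + 1) * (A * U + 8 * z) ^ 2) (od (od hU hU) hD)
      (by rw [nm, hV']; ring)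
    rw [st_cl n0.ne', e1, e2, e3, qS, if_neg n0.le.not_gt, m4 (od hU hU) hD, m8 (od hU hU) hD,
      m4 hU hU, m8 hU hU, z2, z2, d4, d8, a1, a2]
    simp
  fin_cases j
  · refine ⟨hU0, ?_⟩
    show st (cl U) = (qS A + qS B, 0, 0, 0) + (0, 0, q4 U, q8 U)
    rw [st_cl hU0, hs, qV_odd hU]
    simp
  · obtain ⟨n0, s0⟩ := sg 0 1 one_ne_zero (by rw [abs_zero]; linarith)
    rw [zero_mul, one_mul, zero_add] at n0 s0
    refine ⟨n0, ?_⟩
    show st (cl V) = (0, qV 2 C + 1, q4 A, q8 A) + (0, 0, q4 U, q8 U)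
    obtain ⟨e1, e2, e3⟩ := cls _ _ (od hA2 hU) hV'
    rw [st_cl n0, s0, s1, e1, e2, e3, m4 hA2 hU, m8 hA2 hU, vC]
    simp [add_assoc, one_add_one_eq_two]
  · obtain ⟨n0, s0⟩ := sg (-1) (-1) (by omega) (by rw [abs_neg, abs_one]; linarith)
    rw [show -1 * U + -1 * V = -(U + V) by ring] at n0 s0
    refine ⟨n0, ?_⟩
    show st (cl (-(U + V))) = (1, 0, 1, i) + (0, 0, q4 U, q8 U)
    obtain ⟨e1, e2, e3⟩ := cls (x := -(U + V)) 0 (-(2 ^ (u + 2) * z)) (od (od o2 hU) hD)
      (by rw [hV']; ring)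
    rw [st_cl n0, s0, s2, e1, e2, e3, m4 (od o2 hU) hD, m8 (od o2 hU) hD, m4 o2 hU, m8 o2 hU,
      d4, d8, a1, a2, a3, a4]
    simp [add_comm]
  · obtain ⟨n0, s0⟩ := sg (-C) (-B) (by omega) (by rw [abs_neg]; linarith)
    rw [show -C * U + -B * V = -(C * U + B * V) by ring] at n0 s0
    refine ⟨n0, ?_⟩
    show st (cl (-(C * U + B * V))) =
      (1 + qS B, qV 2 C, q4 C, q4 C + q8 C + i) + (0, 0, q4 U, q8 U)
    have hE : ¬(2 : ℤ) ∣ o + 2 * (A * B) := by omega
    obtain ⟨e1, e2, e3⟩ := cls (x := -(C * U + B * V)) (u + 1) (-(2 * B * z)) (od (od o2 hU) hE)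
      (by rw [hV', hC]; ring)
    rw [st_cl n0, s0, qS_neg hB0, e1, e2, e3, m4 (od o2 hU) hE, m8 (od o2 hU) hE, m4 o2 hU,
      m8 o2 hU, k4, k5, a3, a4, vC, c4, c8]
    have : ∀ x y : ZMod 2, 1 + x + (y + 1) = y + x := by decide
    rw [this]
    simp [add_comm]
  · obtain ⟨n0, s0⟩ := sg B (-A) (by omega) (by linarith)
    rw [show B * U + -A * V = B * U - A * V by ring] at n0 s0
    refine ⟨n0, ?_⟩
    show st (cl (B * U - A * V)) = (1 + qS A, 0, q4 B, q8 B + i) + (0, 0, q4 U, q8 U)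
    have hE := od2 (-1 * A * A) hB2
    obtain ⟨f4, f8⟩ := k3 B _ hB2 (od (od o2 hA2) hA2)
    obtain ⟨e1, e2, e3⟩ := cls (x := B * U - A * V) 0 (-(2 ^ (u + 2) * A * z)) (od hU hE)
      (by rw [hV']; ring)
    rw [st_cl n0, s0, qS_neg hA0, e1, e2, e3, m4 hU hE, m8 hU hE, f4, f8]
    simp [add_comm]
  · obtain ⟨n0, s0⟩ := sg A C hC0.ne' (by linarith)
    refine ⟨n0, ?_⟩
    show st (cl (A * U + C * V)) = (0, 0, q4 A, q8 A) + (0, 0, q4 U, q8 U)
    obtain ⟨e1, e2, e3⟩ := cls (x := A * U + C * V) 0 (2 ^ (2 * u) * o * (A * U + 8 * z))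
      (od hA2 hU) (by rw [hV', hC]; ring)
    rw [st_cl n0, s0, s3, e1, e2, e3, m4 hA2 hU, m8 hA2 hU]
    simp

end YStarAux

/-- the condition at infinity and two holds at the starting point -/
theorem star_tab4 (sA sB eA oA eB oB vC eC oC i x y : ZMod 2) (h1 : sA = 0 ∨ sB = 0)
    (h2 : i = 1 → vC = 1 ∧ eB = eA ∧ oB = eC + eA + oA)
    (h3 : i = 0 → eA = 0 ∧ eB = 1 ∧ (oB = oA ∨ vC = 0)) :
    Star (sA, 0, eA, oA) (sB, 0, eB, oB) (0, vC, eC, oC)
      (tH4 (sA, 0, eA, oA) (sB, 0, eB, oB) (0, vC, eC, oC) (0, 0, 0, i)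
        fun j => kH4 sA sB eA oA eB oB vC eC oC i j + (0, 0, x, y)) := by
  rw [YStarAux.tH_shift, funext (YStarAux.tH_eq sA sB eA oA eB oB vC eC oC i)]
  have h : YStarAux.CK sA sB eA oA eB oB vC eC oC i := by
    rcases (by decide : ∀ i : ZMod 2, i = 0 ∨ i = 1) i with rfl | rfl
    · obtain ⟨rfl, rfl, h4⟩ := h3 rfl
      exact YStarAux.chk0 _ _ _ _ _ _ _ h1 h4
    · obtain ⟨rfl, rfl, rfl⟩ := h2 rfl
      exact YStarAux.chk1 _ _ _ _ _ _ h1
  obtain ⟨a1, a2, a3, a4⟩ := h
  exact ⟨a1, _, a2, _, a3, a4⟩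

/-- the condition at infinity and two for a point with the right signs and residues -/
theorem star_base {A B C U V : ℤ} (hF : Fam4 A B C) (hU : ¬(2 : ℤ) ∣ U) (hs : qS U = qS A + qS B)
    (hV : (|A| + |B| + |C| + 1) * |U| < V)
    (h2 : (2 : ℤ) ^ (padicValInt 2 C + 4) ∣ V - 2 ^ (padicValInt 2 C + 1) * A * U) :
    (∀ j, fm4 A B C U V j ≠ 0) ∧ Star (st (cl A)) (st (cl B)) (st (cl C))
      fun i => two st (tt4 (cl A) (cl B) (cl C) (cl (nm U V)) (kk4 A B C U V) i) := by
  obtain ⟨i, h3, h4, h5, h6, h7, h8⟩ := YStarAux.st_kk hF hU hs hV h2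
  have hABC := hF.hs
  have hC0 := hF.C0
  have hA0 : A ≠ 0 := by
    rintro rfl
    exact hF.nA ⟨0, by simp⟩
  refine ⟨fun j => (h8 j).1, ?_⟩
  rw [funext (st_tt4 _ _ _ _ _), funext fun j => (h8 j).2, h7, st_cl hA0, st_cl hF.B0,
    st_cl hC0.ne', h5, h6, show qS C = 0 by rw [qS, if_neg hC0.le.not_gt]]
  refine star_tab4 _ _ _ _ _ _ _ _ _ _ _ _ ?_ h3 h4
  rcases lt_or_ge A 0 with h | h
  · exact Or.inr (by rw [qS, if_neg (by omega)])
  · exact Or.inl (by rw [qS, if_neg h.not_gt])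

end Pool.Agent.Lib.MP_7d3fda_nt.R4
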