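import Pool.Agent.Lib.MP_7d3fda_nt.R4.YChar
import Pool.Agent.Lib.MP_7d3fda_nt.R4.YStar

open Finset Module
open scoped NumberTheorySymbols

noncomputable section

namespace Pool.Agent.Lib.MP_7d3fda_nt.R4

open Pool.Agent.Lib.MP_788af2_nt Pool.Agent.Lib.MP_7d3fda_nt.R2 Pool.Agent.Lib.MP_7d3fda_nt.R3

namespace YPtAux

theorem inj_choice {ι : Type} [Fintype ι] (P : ι → ℕ → Prop) (h : ∀ i K, ∃ q, K < q ∧ P i q)
    (K : ℕ) : ∃ w : ι → ℕ, Function.Injective w ∧ ∀ i, K < w i ∧ P i (w i) := by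
  classical
  have key : ∀ s : Finset ι, ∃ w : ι → ℕ, (∀ i ∈ s, ∀ j ∈ s, w i = w j → i = j) ∧
      ∀ i ∈ s, K < w i ∧ P i (w i) := by
    intro s
    induction s using Finset.induction_on with
    | empty => exact ⟨fun _ => 0, by simp, by simp⟩
    | insert a s ha ih =>
      obtain ⟨w, h1, h2⟩ := ih
      obtain ⟨q, h3, h4⟩ := h a (K + ∑ i ∈ s, w i)
      have h5 : ∀ i ∈ s, w i < q := fun i hi =>
        lt_of_le_of_lt ((single_le_sum (f := w) (fun _ _ => Nat.zero_le _) hi).trans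
          (Nat.le_add_left _ _)) h3
      have h6 : ∀ i ∈ s, i ≠ a := fun i hi e => ha (e ▸ hi)
      refine ⟨fun i => if i = a then q else w i, fun i hi j hj e => ?_, fun i hi => ?_⟩
      · rcases mem_insert.1 hi with hi1 | hi1 <;> rcases mem_insert.1 hj with hj1 | hj1
        · rw [hi1, hj1]
        · simp only [if_pos hi1, if_neg (h6 j hj1)] at e
          exact absurd e (h5 j hj1).ne'
        · simp only [if_pos hj1, if_neg (h6 i hi1)] at e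
          exact absurd e (h5 i hi1).ne
        · simp only [if_neg (h6 i hi1), if_neg (h6 j hj1)] at e
          exact h1 i hi1 j hj1 e
      · rcases mem_insert.1 hi with rfl | hi
        · simp only [if_true]
          exact ⟨lt_of_le_of_lt (Nat.le_add_right _ _) h3, h4⟩
        · simp only [if_neg (h6 i hi)]
          exact h2 i hi
  obtain ⟨w, h1, h2⟩ := key univ
  exact ⟨w, fun i j e => h1 i (mem_univ _) j (mem_univ _) e, fun i => h2 i (mem_univ _)⟩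

theorem crtW {ι : Type} [Fintype ι] (w : ι → ℕ) (hp : ∀ j, (w j).Prime)
    (hi : Function.Injective w) (R : ℤ) (k : ℕ) (hR2 : ¬(2 : ℤ) ∣ R) (hwR : ∀ j, ¬(w j : ℤ) ∣ R)
    (hw2 : ∀ j, ¬(w j : ℤ) ∣ 2) (x : ι → ℤ) (y K : ℤ) :
    ∃ V, K < V ∧ R ∣ V - 1 ∧ (2 : ℤ) ^ k ∣ V - y ∧ ∀ j, (w j : ℤ) ^ 2 ∣ V - x j := by
  have hpr : ∀ j, Prime (w j : ℤ) := fun j => Nat.prime_iff_prime_int.1 (hp j)
  have c1 : IsCoprime R ((2 : ℤ) ^ k) :=
    ((Int.prime_two.coprime_iff_not_dvd.2 hR2).symm).pow_right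
  have c2 : ∀ j, IsCoprime R ((w j : ℤ) ^ 2) := fun j =>
    (((hpr j).coprime_iff_not_dvd.2 (hwR j)).symm).pow_right
  have c3 : ∀ j, IsCoprime ((2 : ℤ) ^ k) ((w j : ℤ) ^ 2) := fun j =>
    (((hpr j).coprime_iff_not_dvd.2 (hw2 j)).symm).pow
  have c4 : ∀ i j, i ≠ j → IsCoprime ((w i : ℤ) ^ 2) ((w j : ℤ) ^ 2) := fun i j hij =>
    (Nat.isCoprime_iff_coprime.2 ((Nat.coprime_primes (hp i) (hp j)).2 (hi.ne hij))).pow
  obtain ⟨V, h1, h2⟩ := XBaseAux.crtZ (ι := Option (Option ι))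
    (fun o => o.elim R fun o' => o'.elim ((2 : ℤ) ^ k) fun j => (w j : ℤ) ^ 2)
    (by
      rintro (_ | _ | j)
      · rintro (h : R = 0); exact hR2 (h ▸ dvd_zero _)
      · exact pow_ne_zero _ two_ne_zero
      · exact pow_ne_zero _ (hpr j).ne_zero)
    (by
      rintro (_ | _ | i) (_ | _ | j) hij
      · exact absurd rfl hij
      · exact c1
      · exact c2 j
      · exact c1.symm
      · exact absurd rfl hij
      · exact c3 j
      · exact (c2 i).symm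
      · exact (c3 i).symm
      · exact c4 i j fun h => hij (by rw [h]))
    (fun o => o.elim 1 fun o' => o'.elim y x) K
  exact ⟨V, h1, h2 none, h2 (some none), fun j => h2 (some (some j))⟩

/-- the coefficients of `U` -/
def al (A B C : ℤ) : Fin 6 → ℤ := ![1, 0, -1, -C, B, A]

/-- the coefficients of `V` -/
def be (A B C : ℤ) : Fin 6 → ℤ := ![0, 1, -1, -B, -A, C]

theorem fm_eq (A B C U V : ℤ) (j : Fin 6) :
    fm4 A B C U V j = al A B C j * U + be A B C j * V := by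
  fin_cases j <;> simp [fm4, al, be] <;> ring

theorem be_dvd (A B C : ℤ) {j : Fin 6} (hj : j ≠ 0) : be A B C j ∣ A * B * C := by
  fin_cases j
  · exact absurd rfl hj
  · simp [be]
  · simp [be]
  · exact ⟨-(A * C), by simp [be]; ring⟩
  · exact ⟨-(B * C), by simp [be]; ring⟩
  · exact ⟨A * B, by simp [be]; ring⟩

theorem P_dvd (A B C : ℤ) : A * B * C ∣ H5 A B C := ⟨3 * nm A B * mm A B, by unfold H5; ring⟩

theorem n_dvd (A B C : ℤ) : nm A B ∣ H5 A B C := ⟨3 * (A * B * C) * mm A B, by unfold H5; ring⟩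

theorem three_dvd (A B C : ℤ) : 3 ∣ H5 A B C :=
  ⟨A * B * C * nm A B * mm A B, by unfold H5; ring⟩

variable {A B C : ℤ} (hF : Fam4 A B C)

include hF

theorem two_dvd : 2 ∣ H5 A B C := hF.c2.trans ((Dvd.intro_left _ rfl).trans (P_dvd A B C))

theorem witA {U V : ℤ} {r : ℕ} (hr : r.Prime) (hH : ¬(r : ℤ) ∣ H5 A B C) (h1 : (r : ℤ) ∣ U)
    (h2 : ¬(r : ℤ) ^ 2 ∣ U) (h3 : ¬(r : ℤ) ∣ V) : Wit A B C U V 0 r :=
  ⟨hr, hH, h1, h2, fun i hi => ((line_f hF (U := U) (V := V) hr hH (j := 0) h1 h3).1 i hi).1⟩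

theorem witB {U : ℤ} {r : ℕ} (hr : r.Prime) (hH : ¬(r : ℤ) ∣ H5 A B C) (hU : ¬(r : ℤ) ∣ U)
    {j : Fin 6} (hj : j ≠ 0) : ∃ x, ∀ V, (r : ℤ) ^ 2 ∣ V - x → Wit A B C U V j r := by
  have hpr : Prime (r : ℤ) := Nat.prime_iff_prime_int.1 hr
  obtain ⟨x, hx⟩ := XBaseAux.solve_lin hpr (b := be A B C j)
    (fun hd => hH ((hd.trans (be_dvd A B C hj)).trans (P_dvd A B C))) (r - al A B C j * U)
  refine ⟨x, fun V hV => ?_⟩
  have h1 : (r : ℤ) ^ 2 ∣ fm4 A B C U V j - r := by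
    have e : fm4 A B C U V j - r = be A B C j * (V - x) +
        (be A B C j * x - (r - al A B C j * U)) := by
      rw [fm_eq]; ring
    rw [e]
    exact dvd_add (hV.mul_left _) hx
  have h2 : (r : ℤ) ∣ fm4 A B C U V j := by
    simpa using dvd_add ((dvd_pow_self _ two_ne_zero).trans h1) (dvd_refl (r : ℤ))
  have h3 : ¬(r : ℤ) ∣ fm4 A B C U V (nx j) := by
    intro hd
    have h4 : (r : ℤ) ∣ (if bb j = 0 then 1 else nm A B) * nm U V := by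
      rw [← fm_norm hF U V j]
      exact dvd_add (dvd_add (h2.pow two_ne_zero) (h2.mul_right _)) (hd.pow two_ne_zero)
    rcases hpr.dvd_or_dvd h4 with h5 | h5
    · split_ifs at h5
      · exact hpr.not_dvd_one h5
      · exact hH (h5.trans (n_dvd A B C))
    · exact (line_n hF hr hH h5 hU j).1 h2
  refine ⟨hr, hH, h2, fun hd => ?_, fun i hi => ((line_f hF hr hH h2 h3).1 i hi).1⟩
  have h4 : (r : ℤ) * r ∣ r * 1 := by simpa [sq] using dvd_sub hd h1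
  exact hpr.not_dvd_one ((mul_dvd_mul_iff_left hpr.ne_zero).1 h4)

theorem witC {U : ℤ} {r : ℕ} (hr : r.Prime) (hH : ¬(r : ℤ) ∣ H5 A B C) (hU : ¬(r : ℤ) ∣ U)
    (h3 : qL r (-3) = 0) : ∃ x, ∀ V, (r : ℤ) ^ 2 ∣ V - x → WitN A B C U V r := by
  have hpr : Prime (r : ℤ) := Nat.prime_iff_prime_int.1 hr
  have : Fact r.Prime := ⟨hr⟩
  have n3 : ¬(r : ℤ) ∣ 3 := fun hd => hH (hd.trans (three_dvd A B C))
  have n2 : ¬(r : ℤ) ∣ 2 := fun hd => hH (hd.trans (two_dvd hF))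
  obtain ⟨t0, ht0⟩ : ∃ t : ℤ, (r : ℤ) ∣ t ^ 2 + 3 := by
    rw [TableAux.qL_eq hr fun hd => n3 (dvd_neg.1 hd)] at h3
    have h4 : ¬J(-3 | r) = -1 := fun h => by
      rw [if_pos h] at h3
      exact one_ne_zero h3
    rw [ZMod.nonsquare_iff_jacobiSym_eq_neg_one, not_not] at h4
    obtain ⟨y, hy⟩ := h4
    obtain ⟨t, rfl⟩ := ZMod.intCast_surjective y
    refine ⟨t, (ZMod.intCast_zmod_eq_zero_iff_dvd _ _).1 ?_⟩
    push_cast at hy ⊢
    linear_combination -hy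
  obtain ⟨t, ht1, ht2⟩ : ∃ t : ℤ, (r : ℤ) ∣ t ^ 2 + 3 ∧ ¬(r : ℤ) ^ 2 ∣ t ^ 2 + 3 := by
    by_cases h : (r : ℤ) ^ 2 ∣ t0 ^ 2 + 3
    · refine ⟨t0 + r, ?_, fun hd => ?_⟩
      · have e : (t0 + r) ^ 2 + 3 = t0 ^ 2 + 3 + r * (2 * t0 + r) := by ring
        rw [e]
        exact dvd_add ht0 (dvd_mul_right _ _)
      · have h4 : (r : ℤ) * r ∣ r * (2 * t0) := by
          have e : (r : ℤ) * (2 * t0) = (t0 + r) ^ 2 + 3 - (t0 ^ 2 + 3) - r ^ 2 := by ring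
          rw [e, ← sq]
          exact dvd_sub (dvd_sub hd h) dvd_rfl
        rcases hpr.dvd_or_dvd ((mul_dvd_mul_iff_left hpr.ne_zero).1 h4) with h5 | h5
        · exact n2 h5
        · exact n3 ((dvd_add_right (h5.pow two_ne_zero)).1 ht0)
    · exact ⟨t0, ht0, h⟩
  obtain ⟨x, hx⟩ := XBaseAux.solve_lin hpr n2 (U * (t - 1))
  refine ⟨x, fun V hV => ?_⟩
  have h4 : (r : ℤ) ^ 2 ∣ 2 * 2 * nm U V - U ^ 2 * (t ^ 2 + 3) := by
    have e : 2 * 2 * nm U V - U ^ 2 * (t ^ 2 + 3) =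
        (2 * (V - x) + (2 * x - U * (t - 1))) * (U + 2 * V + U * t) := by
      unfold nm
      ring
    rw [e]
    exact (dvd_add (hV.mul_left _) hx).mul_right _
  have h5 : (r : ℤ) ∣ nm U V := by
    have h6 : (r : ℤ) ∣ 2 * 2 * nm U V := by
      have h7 := dvd_add ((dvd_pow_self _ two_ne_zero).trans h4) (ht1.mul_left (U ^ 2))
      rwa [sub_add_cancel] at h7
    rcases hpr.dvd_or_dvd h6 with h7 | h7
    · exact ((hpr.dvd_or_dvd h7).elim n2 n2).elim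
    · exact h7
  refine ⟨hr, hH, h5, fun hd => ht2 ?_, fun i => (line_n hF hr hH h5 hU i).1⟩
  have h6 : (r : ℤ) ^ 2 ∣ U ^ 2 * (t ^ 2 + 3) := by
    have h7 := dvd_sub (hd.mul_left (2 * 2)) h4
    rwa [sub_sub_cancel] at h7
  exact (hpr.coprime_iff_not_dvd.2 hU).pow.dvd_of_dvd_mul_left h6

end YPtAux

/-- a point with all the witnesses -/
theorem base_pt {A B C : ℤ} (hF : Fam4 A B C) (φ' : X →ₗ[ZMod 2] ZMod 2) (h3 : φ' (cl (-3)) = 0) :
    ∃ U V : ℤ, ¬(2 : ℤ) ∣ U ∧ qS U = qS A + qS B ∧ (|A| + |B| + |C| + 1) * |U| < V ∧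
      (2 : ℤ) ^ (padicValInt 2 C + 4) ∣ V - 2 ^ (padicValInt 2 C + 1) * A * U ∧
      (∀ r : ℕ, r.Prime → r ≠ 2 → (r : ℤ) ∣ A * B * C → ¬(r : ℤ) ∣ V ∧
        qV r U = qV r (A * B * C) + 1 ∧ (r : ℤ) ^ (padicValInt r (A * B * C) + 1) ∣ U) ∧
      (∀ j (φ : X →ₗ[ZMod 2] ZMod 2), ∃ r, Wit A B C U V j r ∧
        ∀ z ∈ GC A B C, lin (qL r) z = φ z) ∧
      (∃ r, Wit A B C U V 0 r ∧ (∀ z ∈ GC A B C, lin (qL r) z = 0) ∧ qL r V = 1) ∧
      ∃ r, WitN A B C U V r ∧ ∀ z ∈ GC A B C, lin (qL r) z = φ' z := by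
  classical
  have hA0 := hF.A0
  have hB0 := hF.B0
  have hC0 := hF.C0.ne'
  have hH0 := hF.H0
  have hP0 : A * B * C ≠ 0 := by positivity
  have hPH := YPtAux.P_dvd A B C
  have h2H := YPtAux.two_dvd hF
  set T := (H5 A B C).natAbs.primeFactors.erase 2 with hT
  have hTm : ∀ r : ℕ, r ∈ T ↔ r.Prime ∧ r ≠ 2 ∧ (r : ℤ) ∣ H5 A B C := by
    intro r
    rw [hT, Finset.mem_erase, Nat.mem_primeFactors, Int.natCast_dvd]
    exact ⟨fun h => ⟨h.2.1, h.1, h.2.2.1⟩,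
      fun h => ⟨h.2.1, h.1, h.2.2, Int.natAbs_ne_zero.2 hH0⟩⟩
  have hle : GC A B C ≤ Sup T := GC_le hF fun r h1 h2 h3 => (hTm r).2 ⟨h1, h2, h3⟩
  have f1 : Finite (Sup T) := Module.finite_of_finite (ZMod 2)
  have f2 : Finite (Sup T →ₗ[ZMod 2] ZMod 2) := DFunLike.finite _
  have f3 := Fintype.ofFinite (Sup T →ₗ[ZMod 2] ZMod 2)
  choose ex hex using fun d : Sup T →ₗ[ZMod 2] ZMod 2 => LinearMap.exists_extend d
  obtain ⟨w, hwi, hw⟩ := YPtAux.inj_choice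
    (ι := Option (Option (Fin 6 × (Sup T →ₗ[ZMod 2] ZMod 2))))
    (fun i q => q.Prime ∧ ∀ z ∈ Sup T, lin (qL q) z =
      (i.elim φ' fun o => o.elim 0 fun jd => ex jd.2) z)
    (fun i K => by
      obtain ⟨q, h1, h2, h3⟩ := prime_ex (H5 A B C).natAbs (Int.natAbs_pos.2 hH0)
        (i.elim φ' fun o => o.elim 0 fun jd => ex jd.2) K
      exact ⟨q, h2, h1, h3⟩) (H5 A B C).natAbs
  have hwp : ∀ j, (w j).Prime := fun j => (hw j).2.1
  have hpr : ∀ j, Prime (w j : ℤ) := fun j => Nat.prime_iff_prime_int.1 (hwp j)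
  have hwH : ∀ j, ¬(w j : ℤ) ∣ H5 A B C := fun j hd =>
    (Nat.le_of_dvd (Int.natAbs_pos.2 hH0) (Int.natCast_dvd.1 hd)).not_gt (hw j).1
  have hwP : ∀ j, ¬(w j : ℤ) ∣ A * B * C := fun j hd => hwH j (hd.trans hPH)
  have hw2 : ∀ j, ¬(w j : ℤ) ∣ 2 := fun j hd => hwH j (hd.trans h2H)
  have hww : ∀ i j, i ≠ j → ¬(w i : ℤ) ∣ w j := fun i j hij =>
    TableAux.not_dvd_prime (hwp i) (hwp j) (hwi.ne hij)
  set R : ℤ := ∏ p ∈ T, (p : ℤ) with hR
  have hRd : ∀ q : ℕ, q.Prime → (q : ℤ) ∣ R → q ∈ T := by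
    intro q hq hd
    obtain ⟨p, hp, hd⟩ := (Prime.dvd_finsetProd_iff (Nat.prime_iff_prime_int.1 hq) _).1 hd
    rwa [(Nat.prime_dvd_prime_iff_eq hq ((hTm p).1 hp).1).1 (Int.natCast_dvd_natCast.1 hd)]
  have hR2 : ¬(2 : ℤ) ∣ R := fun hd => ((hTm 2).1 (hRd 2 Nat.prime_two hd)).2.1 rfl
  have hR0 : R ≠ 0 := fun h0 => hR2 (h0 ▸ dvd_zero _)
  have hwR : ∀ j, ¬(w j : ℤ) ∣ R := fun j hd => hwH j ((hTm _).1 (hRd _ (hwp j) hd)).2.2
  have hRpos : 0 < R := Finset.prod_pos fun p hp => by exact_mod_cast ((hTm p).1 hp).1.pos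
  have hRv : ∀ r ∈ T, qV r R = 1 := by
    intro r hr
    have hrp := ((hTm r).1 hr).1
    rw [hR, (isQF_qV hrp).prod _ _ fun p hp => by exact_mod_cast ((hTm p).1 hp).1.ne_zero,
      Finset.sum_eq_single r, XBaseAux.qV_self hrp]
    · intro p hp hpr
      exact XBaseAux.qV_zero hrp (TableAux.not_dvd_prime hrp ((hTm p).1 hp).1 hpr.symm)
    · intro h; exact absurd hr h
  set O := upart 2 (A * B * C) with hO
  have hO2 : ¬(2 : ℤ) ∣ O := by exact_mod_cast not_dvd_upart (p := 2) hP0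
  have hO0 : O ≠ 0 := fun h0 => hO2 (h0 ▸ dvd_zero _)
  have hOe : (2 : ℤ) ^ padicValInt 2 (A * B * C) * O = A * B * C := by
    exact_mod_cast pow_mul_upart (p := 2) (A * B * C)
  have h2s : (2 : ℤ) ^ padicValInt 2 (A * B * C) ≠ 0 := pow_ne_zero _ two_ne_zero
  have hwO : ∀ j, ¬(w j : ℤ) ∣ O := fun j hd => hwP j (hd.trans (Dvd.intro_left _ hOe))
  have hOR : O * R ≠ 0 := mul_ne_zero hO0 hR0
  obtain ⟨I, hI⟩ : ∃ I : Finset (Option (Option (Fin 6 × (Sup T →ₗ[ZMod 2] ZMod 2)))),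
      ∀ i, i ∈ I ↔ i = some none ∨ ∃ d, i = some (some (0, d)) :=
    ⟨univ.filter fun i => i = some none ∨ ∃ d, i = some (some (0, d)), fun i => by simp⟩
  set W : ℤ := ∏ i ∈ I, (w i : ℤ) with hW
  have hWpos : 0 < W := Finset.prod_pos fun i _ => by exact_mod_cast (hwp i).pos
  have hWd : ∀ q : ℕ, q.Prime → (q : ℤ) ∣ W → ∃ i ∈ I, q = w i := by
    intro q hq hd
    obtain ⟨i, hi, hd⟩ := (Prime.dvd_finsetProd_iff (Nat.prime_iff_prime_int.1 hq) _).1 hd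
    exact ⟨i, hi, (Nat.prime_dvd_prime_iff_eq hq (hwp i)).1 (Int.natCast_dvd_natCast.1 hd)⟩
  have hWH : ∀ q : ℕ, q.Prime → (q : ℤ) ∣ H5 A B C → ¬(q : ℤ) ∣ W := fun q hq h1 h2 => by
    obtain ⟨i, -, rfl⟩ := hWd q hq h2
    exact hwH i h1
  set U : ℤ := O * R * W with hU
  have hU2 : ¬(2 : ℤ) ∣ U := by
    intro hd
    rcases Int.prime_two.dvd_or_dvd hd with hd | hd
    · exact (Int.prime_two.dvd_or_dvd hd).elim hO2 hR2
    · exact hWH 2 Nat.prime_two h2H hd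
  have hUs : qS U = qS A + qS B := by
    have e1 : qS (A * B * C) = qS O := by
      rw [← hOe, isQF_qS _ _ h2s hO0, qS, if_neg (by positivity : (0 : ℤ) ≤ _).not_gt, zero_add]
    have e2 : qS R = 0 := by rw [qS, if_neg hRpos.le.not_gt]
    have e3 : qS W = 0 := by rw [qS, if_neg hWpos.le.not_gt]
    have e4 : qS C = 0 := by rw [qS, if_neg hF.C0.le.not_gt]
    rw [hU, isQF_qS _ _ hOR hWpos.ne', isQF_qS _ _ hO0 hR0, e2, e3, ← e1,
      isQF_qS _ _ (mul_ne_zero hA0 hB0) hC0, isQF_qS _ _ hA0 hB0, e4, add_zero, add_zero, add_zero]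
  have hUw : ∀ i, i ∉ I → ¬(w i : ℤ) ∣ U := by
    intro i hi hd
    rcases (hpr i).dvd_or_dvd hd with hd | hd
    · exact ((hpr i).dvd_or_dvd hd).elim (hwO i) (hwR i)
    · obtain ⟨j, hj, e⟩ := hWd _ (hwp i) hd
      exact hi (hwi e ▸ hj)
  have hUi : ∀ i ∈ I, (w i : ℤ) ∣ U ∧ ¬(w i : ℤ) ^ 2 ∣ U := by
    intro i hi
    refine ⟨(Finset.dvd_prod_of_mem _ hi).mul_left _, fun hd => ?_⟩
    have e : U = w i * (O * R * ∏ j ∈ I.erase i, (w j : ℤ)) := by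
      rw [hU, hW, ← Finset.mul_prod_erase I _ hi]
      ring
    rw [e, sq] at hd
    rcases (hpr i).dvd_or_dvd ((mul_dvd_mul_iff_left (hpr i).ne_zero).1 hd) with hd | hd
    · exact ((hpr i).dvd_or_dvd hd).elim (hwO i) (hwR i)
    · obtain ⟨j, hj, hd⟩ := (Prime.dvd_finsetProd_iff (hpr i) _).1 hd
      exact hww i j (Finset.ne_of_mem_erase hj).symm hd
  have hunit : ∀ (p x V : ℤ), ¬p ∣ x → p ^ 2 ∣ V - x → ¬p ∣ V := fun p x V h0 h1 h2 =>
    h0 (by simpa using dvd_sub h2 ((dvd_pow_self _ two_ne_zero).trans h1))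
  have hx : ∀ i, ∃ x : ℤ, ∀ V, (w i : ℤ) ^ 2 ∣ V - x →
      i.elim (WitN A B C U V (w i)) fun o => o.elim
        (Wit A B C U V 0 (w i) ∧ qL (w i) V = 1) fun jd => Wit A B C U V jd.1 (w i) := by
    rintro (_ | _ | ⟨j, d⟩)
    · refine YPtAux.witC hF (hwp _) (hwH _) (hUw _ (by simp [hI])) ?_
      rw [← lin_cl (isQF_qL (hwp none)) (by norm_num),
        (hw none).2.2 _ (hle (mem_GC A B C).2.2.2.2.2.1)]
      exact h3
    · obtain ⟨u, h1, h2⟩ := XHilAux.ex_odd (hwp (some none))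
        (fun e => hw2 (some none) (by rw [e]; norm_num)) 1
      obtain ⟨h4, h5⟩ := hUi (some none) ((hI _).2 (Or.inl rfl))
      refine ⟨u, fun V hV => ?_⟩
      have h6 := hunit _ _ _ h1 hV
      exact ⟨YPtAux.witA hF (hwp _) (hwH _) h4 h5 h6,
        (TableAux.qL_congr (hwp _) h6 ((dvd_pow_self _ two_ne_zero).trans hV)).trans h2⟩
    · by_cases hj : j = 0
      · subst hj
        obtain ⟨h4, h5⟩ := hUi (some (some (0, d))) ((hI _).2 (Or.inr ⟨d, rfl⟩))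
        exact ⟨1, fun V hV => YPtAux.witA hF (hwp _) (hwH _) h4 h5
          (hunit _ _ _ (hpr _).not_dvd_one hV)⟩
      · exact YPtAux.witB hF (hwp _) (hwH _) (hUw _ (by simp [hI, hj])) hj
  choose x hx using hx
  obtain ⟨V, hV, hVR, hV2, hVw⟩ := YPtAux.crtW w hwp hwi R (padicValInt 2 C + 4) hR2 hwR hw2 x
    (2 ^ (padicValInt 2 C + 1) * A * U) ((|A| + |B| + |C| + 1) * |U|)
  refine ⟨U, V, hU2, hUs, hV, hV2, fun r hrp hr2 hrP => ?_, fun j φ => ?_,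
    ⟨_, (hx (some none) V (hVw _)).1, fun z hz => (hw (some none)).2.2 z (hle hz),
      (hx (some none) V (hVw _)).2⟩,
    _, hx none V (hVw _), fun z hz => (hw none).2.2 z (hle hz)⟩
  · have hrH := hrP.trans hPH
    have hr : r ∈ T := (hTm r).2 ⟨hrp, hr2, hrH⟩
    have : Fact r.Prime := ⟨hrp⟩
    have hri : Prime (r : ℤ) := Nat.prime_iff_prime_int.1 hrp
    have n2 : ¬(r : ℤ) ∣ 2 := TableAux.not_dvd_prime hrp Nat.prime_two hr2
    refine ⟨fun hd => hri.not_dvd_one (by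
      simpa using dvd_sub hd ((Finset.dvd_prod_of_mem _ hr).trans hVR)), ?_, ?_⟩
    · have e1 : qV r (A * B * C) = qV r O := by
        rw [← hOe, isQF_qV hrp _ _ h2s hO0,
          XBaseAux.qV_zero hrp fun hd => n2 (hri.dvd_of_dvd_pow hd), zero_add]
      rw [hU, isQF_qV hrp _ _ hOR hWpos.ne', isQF_qV hrp _ _ hO0 hR0, hRv r hr,
        XBaseAux.qV_zero hrp (hWH r hrp hrH), e1, add_zero]
    · have d1 : (r : ℤ) ^ padicValInt r (A * B * C) ∣ (2 : ℤ) ^ padicValInt 2 (A * B * C) * O := by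
        rw [hOe]; exact padicValInt_dvd _
      have d2 : (r : ℤ) ^ padicValInt r (A * B * C) ∣ O :=
        (hri.coprime_iff_not_dvd.2 n2).pow.dvd_of_dvd_mul_left d1
      rw [hU, pow_succ]
      exact (mul_dvd_mul d2 (Finset.dvd_prod_of_mem _ hr)).mul_right _
  · refine ⟨_, hx (some (some (j, φ.comp (Sup T).subtype))) V (hVw _), fun z hz => ?_⟩
    rw [(hw _).2.2 z (hle hz)]
    exact LinearMap.congr_fun (hex (φ.comp (Sup T).subtype)) ⟨z, hle hz⟩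

end Pool.Agent.Lib.MP_7d3fda_nt.R4
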