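import Pool.Agent.Lib.MP_7d3fda_nt.R4.YApi

open Finset Module

noncomputable section

namespace Pool.Agent.Lib.MP_7d3fda_nt.R4

open Pool.Agent.Lib.MP_788af2_nt Pool.Agent.Lib.MP_7d3fda_nt.R2 Pool.Agent.Lib.MP_7d3fda_nt.R3

namespace YSwitchAux

open XParAux

/-- the local group with bit `x` -/
def TT (e x al be ga : ZMod 2) : Submodule (ZMod 2) (B2 × B2) :=
  Submodule.span (ZMod 2) {t0 e x (0, al) (0, ga), t1 e x (0, al) (0, be)}

/-- valuations -/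
def va : B2 × B2 →ₗ[ZMod 2] B2 := two (LinearMap.fst _ _ _)

theorem mem_TT {e x al be ga : ZMod 2} {u : B2 × B2} : u ∈ TT e x al be ga ↔
    ∃ s t : ZMod 2, s • t0 e x (0, al) (0, ga) + t • t1 e x (0, al) (0, be) = u :=
  Submodule.mem_span_pair

theorem k1 : ∀ e al be ga s t s' t' : ZMod 2,
    s • t0 e 0 (0, al) (0, ga) + t • t1 e 0 (0, al) (0, be) ≠ 0 →
    s' • t0 e 1 (0, al) (0, ga) + t' • t1 e 1 (0, al) (0, be) ≠ 0 →
    pL e (s • t0 e 0 (0, al) (0, ga) + t • t1 e 0 (0, al) (0, be))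
      (s' • t0 e 1 (0, al) (0, ga) + t' • t1 e 1 (0, al) (0, be)) = 0 →
    (s • t0 e 0 (0, al) (0, ga) + t • t1 e 0 (0, al) (0, be)) +
      (s' • t0 e 1 (0, al) (0, ga) + t' • t1 e 1 (0, al) (0, be)) ≠ 0 ∧
    va ((s • t0 e 0 (0, al) (0, ga) + t • t1 e 0 (0, al) (0, be)) +
      (s' • t0 e 1 (0, al) (0, ga) + t' • t1 e 1 (0, al) (0, be))) = 0 := by
  decide +kernel

theorem k2 : ∀ e x al be ga s t s' t' : ZMod 2,
    va (s • t0 e x (0, al) (0, ga) + t • t1 e x (0, al) (0, be)) =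
      va (s' • t0 e x (0, al) (0, ga) + t' • t1 e x (0, al) (0, be)) →
    s • t0 e x (0, al) (0, ga) + t • t1 e x (0, al) (0, be) =
      s' • t0 e x (0, al) (0, ga) + t' • t1 e x (0, al) (0, be) := by
  decide +kernel

set_option synthInstance.maxSize 1024 in
theorem k3 : ∀ (e : ZMod 2) (u w : B2 × B2), u ≠ 0 → va u = 0 → pL e w u = 0 →
    va w = 0 ∨ va w = (u.1.2, u.2.2) := by
  decide +kernel

theorem k4 : ∀ t t₀ v : B2, t ≠ 0 → ¬t = t₀ → v = 0 ∨ v = t₀ → wg t v = 0 → v = 0 := by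
  decide

theorem inj {e x al be ga : ZMod 2} {u v : B2 × B2} (hu : u ∈ TT e x al be ga)
    (hv : v ∈ TT e x al be ga) (h : va u = va v) : u = v := by
  obtain ⟨s, t, rfl⟩ := mem_TT.1 hu
  obtain ⟨s', t', rfl⟩ := mem_TT.1 hv
  exact k2 _ _ _ _ _ _ _ _ _ h

section

variable {e al be ga : ZMod 2} {loc : X × X →ₗ[ZMod 2] B2 × B2} {R : Submodule (ZMod 2) (X × X)}

theorem LA (iso : ∀ y ∈ R, ∀ z ∈ R, pL e (loc y) (loc z) = 0)
    (h : ∀ y ∈ R, va (loc y) = 0 → loc y = 0) :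
    ∃ x, ∀ y ∈ R, loc y ∈ TT e x al be ga → loc y = 0 := by
  by_contra hc
  push Not at hc
  obtain ⟨y, hy, m, n⟩ := hc 0
  obtain ⟨z, hz, m', n'⟩ := hc 1
  obtain ⟨s, t, e1⟩ := mem_TT.1 m
  obtain ⟨s', t', e2⟩ := mem_TT.1 m'
  have := k1 e al be ga s t s' t'
  rw [e1, e2, ← map_add] at this
  obtain ⟨a1, a2⟩ := this n n' (iso y hy z hz)
  exact a1 (h _ (add_mem hy hz) a2)

theorem le_of [FiniteDimensional (ZMod 2) R] {x : ZMod 2}
    (h : ∀ y ∈ R, loc y ∈ TT e x al be ga → va (loc y) = 0) :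
    finrank (ZMod 2) (R ⊓ (TT e x al be ga).comap loc : Submodule (ZMod 2) (X × X)) ≤
      finrank (ZMod 2) (R ⊓ LinearMap.ker (va ∘ₗ loc) : Submodule (ZMod 2) (X × X)) := by
  have : FiniteDimensional (ZMod 2) (R ⊓ LinearMap.ker (va ∘ₗ loc) : Submodule (ZMod 2) (X × X)) :=
    Submodule.finiteDimensional_of_le inf_le_left
  exact Submodule.finrank_mono fun y hy => ⟨hy.1, h y hy.1 hy.2⟩

theorem LB [FiniteDimensional (ZMod 2) R] (iso : ∀ y ∈ R, ∀ z ∈ R, pL e (loc y) (loc z) = 0)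
    {u : X × X} (hu : u ∈ R) (h0 : loc u ≠ 0) (h1 : va (loc u) = 0) (x : ZMod 2) :
    finrank (ZMod 2) (R ⊓ (TT e x al be ga).comap loc : Submodule (ZMod 2) (X × X)) ≤
      finrank (ZMod 2) (R ⊓ LinearMap.ker (va ∘ₗ loc) : Submodule (ZMod 2) (X × X)) := by
  by_cases hc : ∀ y ∈ R, loc y ∈ TT e x al be ga → va (loc y) = 0
  · exact le_of hc
  push Not at hc
  obtain ⟨z, hz, z1, z2⟩ := hc
  have f1 : FiniteDimensional (ZMod 2)
      (R ⊓ LinearMap.ker (va ∘ₗ loc) : Submodule (ZMod 2) (X × X)) :=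
    Submodule.finiteDimensional_of_le inf_le_left
  have f2 : FiniteDimensional (ZMod 2) (R ⊓ LinearMap.ker loc : Submodule (ZMod 2) (X × X)) :=
    Submodule.finiteDimensional_of_le inf_le_left
  have lt : (R ⊓ LinearMap.ker loc : Submodule (ZMod 2) (X × X)) <
      R ⊓ LinearMap.ker (va ∘ₗ loc) := by
    refine lt_of_le_of_ne (fun y hy => ⟨hy.1, ?_⟩) fun e => h0 (e.ge ⟨hu, h1⟩).2
    show va (loc y) = 0
    rw [show loc y = 0 from hy.2, map_zero]
  have le : (R ⊓ (TT e x al be ga).comap loc : Submodule (ZMod 2) (X × X)) ≤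
      (R ⊓ LinearMap.ker loc) ⊔ Submodule.span (ZMod 2) {z} := by
    intro y hy
    rcases k3 e _ _ h0 h1 (iso y hy.1 u hu) with a | a
    · exact Submodule.mem_sup_left ⟨hy.1, inj hy.2 (zero_mem _) (by rw [a, map_zero])⟩
    · have b := (k3 e _ _ h0 h1 (iso z hz u hu)).resolve_left z2
      rw [← sub_add_cancel y z]
      refine Submodule.add_mem_sup ⟨sub_mem hy.1 hz, ?_⟩ (Submodule.mem_span_singleton_self _)
      show loc (y - z) = 0
      rw [map_sub, inj hy.2 z1 (a.trans b.symm), sub_self]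
  have a1 := Submodule.finrank_lt_finrank_of_lt lt
  have a2 := (Submodule.finrank_mono le).trans (Submodule.finrank_add_le_finrank_add_finrank _ _)
  rw [finrank_span_singleton fun e => z2 (by rw [e, map_zero, map_zero])] at a2
  omega

/-- comparison of two conditions -/
def Below' (R : Submodule (ZMod 2) (X × X)) (P : B2 → Submodule (ZMod 2) (X × X))
    (A B : Submodule (ZMod 2) (X × X)) : Prop :=
  finrank (ZMod 2) (R ⊓ A : Submodule (ZMod 2) (X × X)) ≤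
    finrank (ZMod 2) (R ⊓ B : Submodule (ZMod 2) (X × X)) ∧ ∀ t : B2, t ≠ 0 →
      finrank (ZMod 2) (R ⊓ P t ⊓ A : Submodule (ZMod 2) (X × X)) ≤
        finrank (ZMod 2) (R ⊓ P t ⊓ B : Submodule (ZMod 2) (X × X))

theorem pick [FiniteDimensional (ZMod 2) R] (iso : ∀ y ∈ R, ∀ z ∈ R, pL e (loc y) (loc z) = 0)
    (P : B2 → Submodule (ZMod 2) (X × X)) (hP : ∀ t, ∀ y ∈ P t, wg t (va (loc y)) = 0) :
    ∃ x, Below' R P ((TT e x al be ga).comap loc) (LinearMap.ker (va ∘ₗ loc)) := by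
  have fin : ∀ t, FiniteDimensional (ZMod 2) (R ⊓ P t : Submodule (ZMod 2) (X × X)) :=
    fun t => Submodule.finiteDimensional_of_le inf_le_left
  by_cases hc : ∀ y ∈ R, va (loc y) = 0 → loc y = 0
  · obtain ⟨x, hx⟩ := LA (al := al) (be := be) (ga := ga) iso hc
    exact ⟨x, le_of fun y hy h => by rw [hx y hy h, map_zero],
      fun t _ => le_of fun y hy h => by rw [hx y hy.1 h, map_zero]⟩
  push Not at hc
  obtain ⟨u, hu, u1, u0⟩ := hc
  obtain ⟨t₀, ht₀⟩ : ∃ t₀ : B2, t₀ = ((loc u).1.2, (loc u).2.2) := ⟨_, rfl⟩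
  have iso' : ∀ y ∈ R ⊓ P t₀, ∀ z ∈ R ⊓ P t₀, pL e (loc y) (loc z) = 0 :=
    fun y hy z hz => iso y hy.1 z hz.1
  obtain ⟨x, hx⟩ : ∃ x, finrank (ZMod 2) (R ⊓ P t₀ ⊓ (TT e x al be ga).comap loc :
      Submodule (ZMod 2) (X × X)) ≤ finrank (ZMod 2) (R ⊓ P t₀ ⊓ LinearMap.ker (va ∘ₗ loc) :
      Submodule (ZMod 2) (X × X)) := by
    by_cases hd : ∀ y ∈ R ⊓ P t₀, va (loc y) = 0 → loc y = 0
    · obtain ⟨x, hx⟩ := LA (al := al) (be := be) (ga := ga) iso' hd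
      exact ⟨x, le_of fun y hy h => by rw [hx y hy h, map_zero]⟩
    · push Not at hd
      obtain ⟨v, hv, v1, v0⟩ := hd
      exact ⟨0, LB iso' hv v0 v1 0⟩
  refine ⟨x, LB iso hu u0 u1 x, fun t ht => ?_⟩
  by_cases e' : t = t₀
  · rwa [e']
  refine le_of fun y hy _ => ?_
  have a := k3 e _ _ u0 u1 (iso y hy.1 u hu)
  have b := hP t y hy.2
  rw [← ht₀] at a
  exact k4 _ _ _ ht e' a b

end

/-- one prime -/
theorem one {a b c : X} {T : Finset ℕ} (hT : OddP T) (ha : a ∈ Sup T) (hb : b ∈ Sup T)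
    (hc : c ∈ Sup T) (hs : ∀ r ∈ T, Stein (qL r (-1)) (lr r a) (lr r b) (lr r c))
    {Λ : Submodule (ZMod 2) (B4 × B4)} (hΛ : ∀ u ∈ Λ, ∀ v ∈ Λ, XParAux.prH u v = 0)
    (Γ : Submodule (ZMod 2) X) (r₀ : ℕ) (L : ℕ → ZMod 2) {l : ℕ} (hl : l.Prime) (h2 : l ≠ 2)
    (hn : l ∉ T) (hΓ : ∀ γ ∈ Γ, γ l = 0) :
    ∃ x, Below (Sel a b c (insert l T) (Function.update L l x) Λ r₀) (Sel a b c T L Λ r₀) Γ Γ := by
  let R : Submodule (ZMod 2) (X × X) := (Sup (insert l T)).prod (Sup (insert l T)) ⊓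
    ((⨅ r ∈ T, LocB a b c (L r) r) ⊓ Λ.comap (two st) ⊓ LinearMap.ker (vl r₀))
  have mR : ∀ z, z ∈ R ↔ z.1 ∈ Sup (insert l T) ∧ z.2 ∈ Sup (insert l T) ∧
      (∀ r ∈ T, z ∈ LocB a b c (L r) r) ∧ two st z ∈ Λ ∧ z.1 r₀ = 0 ∧ z.2 r₀ = 0 := fun z => by
    simp only [R, Submodule.mem_inf, Submodule.mem_prod, Submodule.mem_iInf, Submodule.mem_comap,
      LinearMap.mem_ker, and_assoc, vl, LinearMap.prodMap_apply, Finsupp.lapply_apply,
      Prod.mk_eq_zero]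
  have : FiniteDimensional (ZMod 2) ((Sup (insert l T)).prod (Sup (insert l T))) :=
    Module.Finite.of_fg (Submodule.FG.prod (Module.Finite.iff_fg.1 inferInstance)
      (Module.Finite.iff_fg.1 inferInstance))
  have : FiniteDimensional (ZMod 2) R := Submodule.finiteDimensional_inf_left _ _
  have hT' : OddP (insert l T) := fun r hr => by
    rcases mem_insert.1 hr with rfl | hr
    exacts [⟨hl, h2⟩, hT r hr]
  have iso : ∀ y ∈ R, ∀ z ∈ R, pL (qL l (-1)) (two (lr l) y) (two (lr l) z) = 0 := by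
    intro y hy z hz
    obtain ⟨a1, a2, a3, a4, -⟩ := (mR y).1 hy
    obtain ⟨b1, b2, b3, b4, -⟩ := (mR z).1 hz
    have p := prod2 hT' a1 a2 b1 b2
    rw [hΛ _ a4 _ b4, sum_insert hn,
      sum_eq_zero fun r hr => locB_iso (hs r hr) (a3 r hr) (b3 r hr), add_zero] at p
    exact p
  have z0 : ∀ x ∈ Sup T, lr l x = (0, lin (qL l) x) := fun x hx =>
    Prod.ext (mem_Sup.1 hx l hl.ne_zero h2 hn) rfl
  obtain ⟨x, hx⟩ := pick (al := lin (qL l) a) (be := lin (qL l) b) (ga := lin (qL l) c) iso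
    (fun t => Pt t Γ) fun t y hy => by
      have := hΓ _ (mem_Pt.1 hy)
      simp only [Finsupp.add_apply, Finsupp.smul_apply, smul_eq_mul] at this
      show t.1 * y.2 l + t.2 * y.1 l = 0
      rw [add_comm, this]
  have e1 : Sel a b c (insert l T) (Function.update L l x) Λ r₀ =
      R ⊓ (TT (qL l (-1)) x (lin (qL l) a) (lin (qL l) b) (lin (qL l) c)).comap (two (lr l)) := by
    ext z
    rw [mem_Sel, mem_RelB, Submodule.mem_inf, mR, forall_mem_insert, Function.update_self, LocB,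
      z0 a ha, z0 b hb, z0 c hc, forall₂_congr (q := fun r _ => z ∈ LocB a b c (L r) r)
        fun r hr => by rw [Function.update_of_ne fun (e : r = l) => hn (e ▸ hr)]]
    rw [TT]
    tauto
  have e2 : Sel a b c T L Λ r₀ = R ⊓ LinearMap.ker (va ∘ₗ two (lr l)) := by
    ext z
    have k : ∀ x : X, x ∈ Sup T ↔ x ∈ Sup (insert l T) ∧ x l = 0 := fun x =>
      ⟨fun h => ⟨mem_Sup.2 fun i i0 i2 hi => mem_Sup.1 h i i0 i2 fun h' => hi (mem_insert_of_mem h'),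
        mem_Sup.1 h l hl.ne_zero h2 hn⟩, fun h => mem_Sup.2 fun i i0 i2 hi => by
          by_cases e : i = l
          · rw [e, h.2]
          · exact mem_Sup.1 h.1 i i0 i2 fun h' => (mem_insert.1 h').elim e hi⟩
    have k' : z ∈ LinearMap.ker (va ∘ₗ two (lr l)) ↔ z.1 l = 0 ∧ z.2 l = 0 := Prod.mk_eq_zero
    rw [mem_Sel, mem_RelB, Submodule.mem_inf, mR, k, k, k']
    tauto
  refine ⟨x, ?_⟩
  rw [e1, e2]
  refine ⟨hx.1, fun t ht => ?_⟩
  rw [inf_right_comm, inf_right_comm R (LinearMap.ker _)]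
  exact hx.2 t ht

end YSwitchAux

/-- new primes can be added, with suitable residue bits, without enlarging the groups -/
theorem switch_all {a b c : X} {T : Finset ℕ} (hT : OddP T) (ha : a ∈ Sup T) (hb : b ∈ Sup T)
    (hc : c ∈ Sup T) (hs : ∀ r ∈ T, Stein (qL r (-1)) (lr r a) (lr r b) (lr r c))
    {Λ : Submodule (ZMod 2) (B4 × B4)} (hΛ : ∀ u ∈ Λ, ∀ v ∈ Λ, XParAux.prH u v = 0)
    (Γ : Submodule (ZMod 2) X) (r₀ : ℕ) (L : ℕ → ZMod 2) {J : Finset ℕ} (hJ : OddP J)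
    (hd : Disjoint T J) (hΓ : ∀ γ ∈ Γ, ∀ l ∈ J, γ l = 0) :
    ∃ L' : ℕ → ZMod 2, (∀ r ∈ T, L' r = L r) ∧
      Below (Sel a b c (T ∪ J) L' Λ r₀) (Sel a b c T L Λ r₀) Γ Γ := by
  induction J using Finset.induction_on with
  | empty => exact ⟨L, fun _ _ => rfl, by rw [union_empty]; exact ⟨le_rfl, fun _ _ => le_rfl⟩⟩
  | insert l J hl ih =>
    obtain ⟨hd1, hd2⟩ := disjoint_insert_right.1 hd
    obtain ⟨L', e, h⟩ := ih (fun r hr => hJ r (mem_insert_of_mem hr)) hd2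
      fun γ hγ r hr => hΓ γ hγ r (mem_insert_of_mem hr)
    have up : ∀ x ∈ Sup T, x ∈ Sup (T ∪ J) := fun x hx =>
      mem_Sup.2 fun i i0 i2 hi => mem_Sup.1 hx i i0 i2 fun h' => hi (mem_union_left _ h')
    have zr : ∀ x ∈ Sup T, ∀ r ∈ J, x r = 0 := fun x hx r hr =>
      mem_Sup.1 hx r (hJ r (mem_insert_of_mem hr)).1.ne_zero (hJ r (mem_insert_of_mem hr)).2
        (disjoint_right.1 hd2 hr)
    obtain ⟨x, hx⟩ := YSwitchAux.one (T := T ∪ J)
      (fun r hr => (mem_union.1 hr).elim (hT r) fun h => hJ r (mem_insert_of_mem h))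
      (up a ha) (up b hb) (up c hc)
      (fun r hr => (mem_union.1 hr).elim (hs r) fun h =>
        stein_unr _ (zr a ha r h) (zr b hb r h) (zr c hc r h))
      hΛ Γ r₀ L' (hJ l (mem_insert_self _ _)).1 (hJ l (mem_insert_self _ _)).2
      (fun h => (mem_union.1 h).elim hd1 hl) fun γ hγ => hΓ γ hγ l (mem_insert_self _ _)
    refine ⟨Function.update L' l x, fun r hr => ?_, ?_⟩
    · rw [Function.update_of_ne fun (e : r = l) => hd1 (e ▸ hr), e r hr]
    · rw [union_insert]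
      exact hx.trans h

end Pool.Agent.Lib.MP_7d3fda_nt.R4
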